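import Pool.Agent.Lib.MP_f80667_ag.Dp.Datum

/-! Lines on nondegenerate members are atoms. -/

open Polynomial IntermediateField
open scoped LinearAlgebra.Projectivization

namespace Dp

open ZC Tq

universe u

section equiv

variable {k Ω : Type u} [Field k] [Field Ω] [Algebra k Ω] {M K : Type u} [Field M] [Field K]
  [Algebra k M] [Algebra k K]

private theorem AtomO_comp {M M' Ω : Type*} [Field M] [Field M'] [Field Ω] {m : ℕ} (φ : M →+* M')
    (ψ : M' →+* Ω) (x : ℙ M (Fin m → M)) : mapPt ψ (mapPt φ x) = mapPt (ψ.comp φ) x := by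
  have h : mapPt φ x = Projectivization.mk M' (fun i => φ (x.rep i)) (comp_ne φ x.rep_nonzero) :=
    rfl
  rw [h, mapPt_mk]
  rfl

/-- The trace of a point does not change under an isomorphism. -/
private theorem AtomO_trPt [FiniteDimensional k M] [FiniteDimensional k K] {m : ℕ}
    (e : M ≃ₐ[k] K) (t : ℙ M (Fin m → M)) :
    trPt k Ω (mapPt ((e : M →ₐ[k] K) : M →+* K) t) = trPt k Ω t := by
  have hcomp : ∀ ι : K →ₐ[k] Ω, mapPt (ι : K →+* Ω) (mapPt ((e : M →ₐ[k] K) : M →+* K) t) =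
      mapPt ((ι.comp (e : M →ₐ[k] K) : M →ₐ[k] Ω) : M →+* Ω) t := by
    intro ι
    exact AtomO_comp _ _ t
  unfold trPt
  refine Fintype.sum_bijective (fun ι : K →ₐ[k] Ω => ι.comp (e : M →ₐ[k] K)) ⟨?_, ?_⟩ _ _
    (fun ι => by rw [hcomp])
  · intro a b hab
    ext x
    have h1 := DFunLike.congr_fun hab (e.symm x)
    simpa using h1
  · intro ι
    refine ⟨ι.comp (e.symm : K →ₐ[k] M), ?_⟩
    ext x
    simp

end equiv

section loc

variable {k : Type u} [Field k] [CharZero k] {Ω : Type u} [NormedField Ω] [Algebra k Ω]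
  [IsAlgClosure k Ω] {n : ℕ} {A B : Matrix (Fin n) (Fin n) k}

/-- The case of an intermediate field. -/
private theorem AtomO_aux [IsAlgClosed Ω] (h : Lc k Ω) (hs : Sm Ω A B) (hn : 6 ≤ n)
    (K : IntermediateField k Ω)
    [FiniteDimensional k K] {a b : K} (hnd : ND A B a b) {t : ℙ K (Fin (n * n) → K)}
    (ht : IsM A B a b t) (Φ : Finset Ω) : ∃ (y : K) (t' : ℙ K (Fin (n * n) → K)), (y : Ω) ∉ Φ ∧
      IntermediateField.adjoin k {(y : Ω)} = K ∧ ND A B 1 (-y) ∧ IsM A B 1 (-y) t' ∧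
      PhL (trPt k Ω t) - PhL (trPt k Ω t') ∈ ratEq Ω (Pl A B) := by
  let l : Filter (K × K) := Filter.comap (fun q : K × K => ((q.1 : Ω), (q.2 : Ω)))
    (nhds ((a : Ω), (b : Ω)))
  have hl : Filter.Tendsto (fun q : K × K => ((q.1 : Ω), (q.2 : Ω))) l
      (nhds ((a : Ω), (b : Ω))) := Filter.tendsto_comap
  have hl1 : Filter.Tendsto (fun q : K × K => (q.1 : Ω)) l (nhds (a : Ω)) :=
    (continuous_fst.tendsto _).comp hl
  have hl2 : Filter.Tendsto (fun q : K × K => (q.2 : Ω)) l (nhds (b : Ω)) :=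
    (continuous_snd.tendsto _).comp hl
  have hev := line_near h hs hn K hnd ht (a' := fun q : K × K => q.1)
    (b' := fun q : K × K => q.2) hl1 hl2
  rw [Filter.eventually_comap] at hev
  obtain ⟨ε, hε, hball⟩ := Metric.eventually_nhds_iff.1 hev
  have key : ∀ a' b' : K, ‖(a' : Ω) - a‖ < ε → ‖(b' : Ω) - b‖ < ε →
      ND A B a' b' ∧ ∃ t', IsM A B a' b' t' ∧
      PhL (trPt k Ω t') - PhL (trPt k Ω t) ∈ ratEq Ω (Pl A B) := by
    intro a' b' h1 h2
    refine hball (y := ((a' : Ω), (b' : Ω))) ?_ (a', b') rfl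
    rw [Prod.dist_eq, dist_eq_norm, dist_eq_norm]
    exact max_lt h1 h2
  -- a nonzero first coordinate
  obtain ⟨a', ha0, ha'⟩ : ∃ a' : K, a' ≠ 0 ∧ ‖(a' : Ω) - a‖ < ε := by
    by_cases ha : a = 0
    · obtain ⟨x, hx0, hx⟩ := h.small ε hε
      refine ⟨algebraMap k K x, (map_ne_zero (algebraMap k K)).2 hx0, ?_⟩
      rw [ha]
      have e1 : ((algebraMap k K x : K) : Ω) - ((0 : K) : Ω) = algebraMap k Ω x := by
        rw [ZeroMemClass.coe_zero, sub_zero]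
        rfl
      rw [e1]
      exact hx
    · exact ⟨a, ha, by simpa using hε⟩
  have haΩ : (a' : Ω) ≠ 0 := fun h1 => ha0 (Subtype.ext h1)
  have han : 0 < ‖(a' : Ω)‖ := norm_pos_iff.2 haΩ
  obtain ⟨y, hy1, hy2, hy3⟩ := exists_gen_near h K (-(a'⁻¹ * b)) (div_pos hε han) Φ
  have hb' : ‖((-(a' * y) : K) : Ω) - b‖ < ε := by
    have e1 : ((-(a' * y) : K) : Ω) - b = -((a' : Ω) * ((y : Ω) - ((-(a'⁻¹ * b) : K) : Ω))) := by
      push_cast
      field_simp
      ring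
    rw [e1, norm_neg, norm_mul]
    rwa [lt_div_iff₀ han, mul_comm] at hy1
  obtain ⟨h3, t', ⟨p, x, h4⟩, h5⟩ := key a' (-(a' * y)) ha' hb'
  have e2 : a'⁻¹ * a' = 1 := inv_mul_cancel₀ ha0
  have e3 : a'⁻¹ * (-(a' * y)) = -y := by
    field_simp
  have h6 := h4.scale (inv_ne_zero ha0)
  have h7 := (ND.scale (A := A) (B := B) (a := a') (b := -(a' * y)) (inv_ne_zero ha0)).2 h3
  rw [e2, e3] at h6 h7
  refine ⟨y, t', hy2, hy3, h7, ⟨p, x, h6⟩, ?_⟩
  rw [← neg_sub]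
  exact neg_mem h5

/-- **Lines on nondegenerate members are atoms.** Proof. Embed `M` in `Ω` over `k`, with image `K`
(`AlgHom.fieldRange`), so one may take `M = K` (`IsM.hom`, `ND.hom`; the trace does not change). Let
`c ∈ K` be near `1` (to have a nonzero first coordinate): by `line_near` for the members
`(a + e₁, b + e₂)` with small `e₁`, `e₂` (the filter of the neighbourhoods of `(0, 0)` in `K × K`,
`Filter.comap`) choose `e₁` small with `a + e₁ ≠ 0` (`Lc.small`), and then `y` near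
`-b / (a + e₁)` with `k⟮y⟯ = K`, `y ∉ Φ` (`exists_gen_near`); the member `(a + e₁, -(a + e₁) y)` is
near `(a, b)`, and proportional to `(1, -y)` (`Lm.scale`, `ND.scale`). -/
theorem atom_of (h : Lc k Ω) (hs : Sm Ω A B) (hn : 6 ≤ n) {M : Type u} [Field M] [Algebra k M]
    [FiniteDimensional k M] {a b : M} (hnd : ND A B a b) {t : ℙ M (Fin (n * n) → M)}
    (ht : IsM A B a b t) : Atom A B (Module.finrank k M) (PhL (trPt k Ω t)) := by
  have hcl : IsAlgClosed Ω := IsAlgClosure.isAlgClosed k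
  let f : M →ₐ[k] Ω := IsAlgClosed.lift
  let K : IntermediateField k Ω := f.fieldRange
  let e : M ≃ₐ[k] K := AlgEquiv.ofInjectiveField f
  have hK : FiniteDimensional k K := e.toLinearEquiv.finiteDimensional
  have hnd1 : ND A B (e a) (e b) := (ND.hom (e : M →ₐ[k] K)).2 hnd
  have ht1 := ht.hom (e : M →ₐ[k] K)
  intro Φ
  obtain ⟨y, t', hy1, hy2, h1, h2, h3⟩ := AtomO_aux h hs hn K hnd1 ht1 Φ
  let φ : K ≃ₐ[k] k⟮(y : Ω)⟯ := (IntermediateField.equivOfEq hy2).symm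
  have hφ : φ y = AdjoinSimple.gen k (y : Ω) := rfl
  have hφ1 : (φ : K →ₐ[k] k⟮(y : Ω)⟯) 1 = 1 := map_one _
  have hφ2 : (φ : K →ₐ[k] k⟮(y : Ω)⟯) (-y) = -AdjoinSimple.gen k (y : Ω) := by
    rw [map_neg]
    rfl
  refine ⟨(y : Ω), mapPt ((φ : K →ₐ[k] k⟮(y : Ω)⟯) : K →+* k⟮(y : Ω)⟯) t', hy1, ?_, ⟨?_, ?_⟩, ?_⟩
  · rw [← φ.toLinearEquiv.finrank_eq, ← e.toLinearEquiv.finrank_eq]
  · have h4 := h2.hom (φ : K →ₐ[k] k⟮(y : Ω)⟯)
    rw [hφ1, hφ2] at h4
    exact h4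
  · have h4 := (ND.hom (A := A) (B := B) (φ : K →ₐ[k] k⟮(y : Ω)⟯)).2 h1
    rw [hφ1, hφ2] at h4
    exact h4
  · rw [AtomO_trPt φ t', ← AtomO_trPt (Ω := Ω) e t]
    exact h3

end loc

end Dp
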