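import Pool.Agent.Lib.MP_f80667_ag.Dp.LmA

/-! Lines through conjugate points. -/

open scoped LinearAlgebra.Projectivization

namespace Dp

open ZC Tq

universe u

variable {k : Type u} [Field k] [CharZero k] {Ω : Type u} [Field Ω] [Algebra k Ω] [IsAlgClosed Ω]
  {n : ℕ} {A B : Matrix (Fin n) (Fin n) k} {M : Type u} [Field M] [Algebra k M]
  [FiniteDimensional k M]

/-- A nontrivial automorphism of a quadratic extension. -/
theorem Conj_tau {M : Type*} [Field M] [CharZero M] {M' : Type*} [Field M'] [Algebra M M']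
    (h2 : Module.finrank M M' = 2) (τ : M' ≃ₐ[M] M') (hτ : ∃ d, τ d ≠ d) :
    (∀ x, τ (τ x) = x) ∧ (∀ x, τ x = x → ∃ y, algebraMap M M' y = x) ∧
      ∃ δ : M', δ ≠ 0 ∧ τ δ = -δ := by
  classical
  have : FiniteDimensional M M' := Module.finite_of_finrank_pos (by omega)
  have : CharZero M' := charZero_of_injective_algebraMap (algebraMap M M').injective
  have : Algebra.IsQuadraticExtension M M' := ⟨h2⟩
  have hgal : IsGalois M M' := inferInstance
  have hcard : Nat.card (M' ≃ₐ[M] M') = 2 := by rw [IsGalois.card_aut_eq_finrank, h2]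
  have hτ1 : τ ≠ 1 := by
    rintro rfl
    obtain ⟨d, hd⟩ := hτ
    exact hd rfl
  have hττ : ∀ x, τ (τ x) = x := by
    have h3 : τ ^ 2 = 1 := by
      rw [← hcard]
      exact pow_card_eq_one'
    intro x
    have h4 := DFunLike.congr_fun h3 x
    rwa [pow_two] at h4
  have hall : ∀ ρ : M' ≃ₐ[M] M', ρ = 1 ∨ ρ = τ := by
    intro ρ
    by_contra hcon
    push Not at hcon
    have h3 : ({1, τ, ρ} : Finset (M' ≃ₐ[M] M')).card = 3 := by
      rw [Finset.card_eq_three]
      exact ⟨1, τ, ρ, hτ1.symm, hcon.1.symm, hcon.2.symm, rfl⟩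
    have h4 := Finset.card_le_univ ({1, τ, ρ} : Finset (M' ≃ₐ[M] M'))
    rw [h3, ← Nat.card_eq_fintype_card, hcard] at h4
    omega
  have hfix : ∀ x : M', τ x = x → ∃ a : M, algebraMap M M' a = x := by
    intro x hx
    have h3 : x ∈ (⊥ : IntermediateField M M') := by
      rw [IsGalois.mem_bot_iff_fixed]
      intro ρ
      rcases hall ρ with rfl | rfl
      · rfl
      · exact hx
    exact IntermediateField.mem_bot.1 h3
  refine ⟨hττ, hfix, ?_⟩
  obtain ⟨z, hz⟩ := hτ
  refine ⟨z - τ z, sub_ne_zero.2 hz.symm, ?_⟩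
  rw [map_sub, hττ]
  ring

/-- The nontrivial automorphism of a quadratic extension, and a pure generator. -/
theorem exists_tau [CharZero M] {M' : Type*} [Field M'] [Algebra M M']
    (h2 : Module.finrank M M' = 2) :
    ∃ (τ : M' ≃ₐ[M] M') (δ : M'), (∀ x, τ (τ x) = x) ∧ (∀ x, τ x = x → ∃ y, algebraMap M M' y = x) ∧
      δ ≠ 0 ∧ τ δ = -δ := by
  classical
  have : FiniteDimensional M M' := Module.finite_of_finrank_pos (by omega)
  have : CharZero M' := charZero_of_injective_algebraMap (algebraMap M M').injective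
  have : Algebra.IsQuadraticExtension M M' := ⟨h2⟩
  have hgal : IsGalois M M' := inferInstance
  have hcard : Nat.card (M' ≃ₐ[M] M') = 2 := by rw [IsGalois.card_aut_eq_finrank, h2]
  obtain ⟨σ, hσ1⟩ : ∃ σ : M' ≃ₐ[M] M', σ ≠ 1 := by
    have : Nontrivial (M' ≃ₐ[M] M') := by
      rw [← Finite.one_lt_card_iff_nontrivial, hcard]
      norm_num
    exact exists_ne 1
  obtain ⟨z, hz⟩ : ∃ z, σ z ≠ z := by
    by_contra hcon
    push Not at hcon
    exact hσ1 (AlgEquiv.ext hcon)
  obtain ⟨h3, h4, δ, h5, h6⟩ := Conj_tau h2 σ ⟨z, hz⟩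
  exact ⟨σ, δ, h3, h4, h5, h6⟩

/-- The cycle of a tensor over `M` which becomes the tensor of two conjugate points over the quadratic
extension `M'`. Proof: `trPt_tower`, `phl_sq`, `tr_conj`:
`2 PhL (trPt t) = PhL (trPt (mapPt t)) = 2 trPt P`, and the group has no torsion. -/
theorem conj_cls {M' : Type u} [Field M'] [Algebra k M'] [Algebra M M'] [IsScalarTower k M M']
    [FiniteDimensional k M'] (h2 : Module.finrank M M' = 2) (τ : M' ≃ₐ[M] M') {P : Fin n → M'}
    (hP : P ≠ 0) (hs : sq P (fun i => τ (P i)) ≠ 0) {t : ℙ M (Fin (n * n) → M)}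
    (ht : mapPt (algebraMap M M') t = Projectivization.mk M' (sq P (fun i => τ (P i))) hs) :
    PhL (trPt k Ω t) = trPt k Ω (Projectivization.mk M' P hP) := by
  let τk : M' ≃ₐ[k] M' := τ.restrictScalars k
  have hQ0 : (fun i => τk (P i)) ≠ 0 := comp_ne (τ : M' →+* M') hP
  have h5 := trPt_tower (k := k) (Ω := Ω) (M := M') t
  rw [ht, h2] at h5
  have h6 : PhL (trPt k Ω (Projectivization.mk M' (sq P (fun i => τ (P i))) hs)) =
      trPt k Ω (Projectivization.mk M' P hP) +
        trPt k Ω (Projectivization.mk M' (fun i => τk (P i)) hQ0) := phl_sq hP hQ0 hs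
  rw [h5, tr_conj τk hP hQ0, map_nsmul, ← two_nsmul] at h6
  exact smul_right_injective _ two_ne_zero h6

/-- The line through two conjugate points. Proof: `exists_tau`; `W + τ W` and `δ (W - τ W)` have
coordinates in `M`, say `p` and `x`; over `M'` the line through them is the line through `W` and `τ W`
(`Lm.pt`, `Lm.lin`), so the conditions of `Lm` hold over `M` (`Ln.of_hom`-like: injectivity of
`algebraMap M M'`), the tensors agree (`Lm.hom`, `Lm.uniq`); `conj_cls`. -/
theorem conj_line {M' : Type u} [Field M'] [Algebra k M'] [Algebra M M'] [IsScalarTower k M M']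
    [FiniteDimensional k M'] (h2 : Module.finrank M M' = 2) (τ : M' ≃ₐ[M] M')
    (hτ : ∃ d, τ d ≠ d) {W : Fin n → M'} (hW : W ≠ 0) (zW : Zer (Pl A B) M' W)
    (h : bv A W (fun i => τ (W i)) ≠ 0 ∨ bv B W (fun i => τ (W i)) ≠ 0) :
    ∃ (a b : M) (t : ℙ M (Fin (n * n) → M)), algebraMap M M' a = bv B W (fun i => τ (W i)) ∧
      algebraMap M M' b = -bv A W (fun i => τ (W i)) ∧ IsM A B a b t ∧
      PhL (trPt k Ω t) = trPt k Ω (Projectivization.mk M' W hW) := by
  have : CharZero M := charZero_of_injective_algebraMap (algebraMap k M).injective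
  have : CharZero M' := charZero_of_injective_algebraMap (algebraMap k M').injective
  obtain ⟨hττ, hfix, δ, hδ0, hδ⟩ := Conj_tau h2 τ hτ
  let τk : M' ≃ₐ[k] M' := τ.restrictScalars k
  set Q : Fin n → M' := fun i => τ (W i) with hQ
  have hQW : (fun i => τk (Q i)) = W := funext fun i => hττ (W i)
  have hfix' : ∀ x : Fin n → M', (fun i => τ (x i)) = x →
      ∃ a : Fin n → M, (fun i => algebraMap M M' (a i)) = x := by
    intro x hx
    choose a ha using fun i => hfix (x i) (congrFun hx i)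
    exact ⟨a, funext ha⟩
  obtain ⟨aW, bW⟩ := (zer_iff A B).1 zW
  have hqQ : ∀ H : Matrix (Fin n) (Fin n) k, qv H W = 0 → qv H Q = 0 := by
    intro H h
    have h3 := qv_hom (H := H) (τk : M' →ₐ[k] M') W
    rw [h, map_zero] at h3
    exact h3
  have hbfix : ∀ H : Matrix (Fin n) (Fin n) k, τ (bv H W Q) = bv H W Q := by
    intro H
    have h3 : bv H Q (fun i => τk (Q i)) = τ (bv H W Q) :=
      bv_hom (H := H) (τk : M' →ₐ[k] M') W Q
    rw [hQW] at h3
    rw [← h3, bv_comm]
  obtain ⟨a, ha⟩ := hfix _ (hbfix B)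
  obtain ⟨b, hb⟩ := hfix (-bv A W Q) (by rw [map_neg, hbfix A])
  obtain ⟨p, hp⟩ := hfix' (W + Q) (by
    funext i
    rw [Pi.add_apply, map_add]
    change Q i + τk (Q i) = _
    rw [congrFun hQW i, add_comm])
  obtain ⟨x, hx⟩ := hfix' (δ • W - δ • Q) (by
    funext i
    simp only [Pi.sub_apply, Pi.smul_apply, smul_eq_mul, map_sub, map_mul, hδ]
    change -δ * Q i - -δ * τk (Q i) = _
    rw [congrFun hQW i]
    ring)
  obtain ⟨hs, hL⟩ := Lm.pt aW bW (hqQ A aW) (hqQ B bW) h
  have hdet : (1 : M') * (-δ) - 1 * δ ≠ 0 := by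
    have h3 : (1 : M') * (-δ) - 1 * δ = -(2 * δ) := by ring
    rw [h3]
    exact neg_ne_zero.2 (mul_ne_zero two_ne_zero hδ0)
  have hL2 := hL.lin hdet
  have e1 : (1 : M') • W + (1 : M') • Q = fun i => algebraMap M M' (p i) := by
    rw [hp, one_smul, one_smul]
  have e2 : δ • W + (-δ) • Q = fun i => algebraMap M M' (x i) := by
    rw [hx, neg_smul, sub_eq_add_neg]
  rw [e1, e2, ← ha, ← hb] at hL2
  set f : M →ₐ[k] M' := IsScalarTower.toAlgHom k M M' with hf
  have hfa : ∀ y, f y = algebraMap M M' y := fun y => rfl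
  obtain ⟨H, hH, h0, ht⟩ := hL2.ten
  have htn : tn H (fun i => algebraMap M M' (p i)) (fun i => algebraMap M M' (x i)) =
      fun c => algebraMap M M' (tn H p x c) := tn_hom (H := H) f p x
  have h0' : tn H p x ≠ 0 := by
    intro h3
    apply h0
    rw [htn, h3]
    funext c
    exact map_zero _
  have hind : LinearIndependent M ![p, x] := by
    obtain ⟨i, j, hij⟩ := exists_minor hL2.ind
    refine ind_of_minor (i := i) (j := j) ?_
    intro h3
    apply hij
    rw [← map_mul, ← map_mul, h3]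
  have hLM : Lm A B a b p x (Projectivization.mk M (tn H p x) h0') := by
    refine ⟨hind, ?_, ?_, ?_, H, hH, h0', rfl⟩
    · apply (algebraMap M M').injective
      rw [map_zero]
      exact (mQ_hom f a b p).symm.trans hL2.qp
    · apply (algebraMap M M').injective
      rw [map_zero]
      exact (mQ_hom f a b x).symm.trans hL2.qx
    · apply (algebraMap M M').injective
      rw [map_zero]
      exact (mB_hom f a b p x).symm.trans hL2.b
  refine ⟨a, b, _, ha, hb, ⟨p, x, hLM⟩, ?_⟩
  refine conj_cls h2 τ hW hs ?_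
  rw [ZC.mapPt_mk, ht]
  congr 1
  exact htn.symm

end Dp
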