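import Pool.Agent.Lib.MP_f80667_ag.Dp.Defs

/-! Lines on the members of the pencil: changes of the spanning vectors, the base point. -/

open scoped LinearAlgebra.Projectivization

namespace Dp

open ZC Tq

variable {k : Type*} [Field k] {n : ℕ} {A B : Matrix (Fin n) (Fin n) k} {E : Type*} [Field E]
  [Algebra k E] {a b : E} {p x : Fin n → E} {t : ℙ E (Fin (n * n) → E)}

theorem LmA_bv_lin (H : Matrix (Fin n) (Fin n) k) (α β γ δ : E) (p x : Fin n → E) :
    bv H (α • p + β • x) (γ • p + δ • x) = 2 * α * γ * qv H p + (α * δ + β * γ) * bv H p x +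
      2 * β * δ * qv H x := by
  rw [bv_add, bv_add_right, bv_add_right, bv_smul, bv_smul, bv_smul, bv_smul, bv_smul_right,
    bv_smul_right, bv_smul_right, bv_smul_right, bv_self, bv_self, bv_comm H x p]
  ring

/-- The tensor changes by the square of the determinant. Proof: `sq_ext`, `qv_lin`, `bv_add`, ...,
`ring`. -/
theorem tn_det (H : Matrix (Fin n) (Fin n) k) (α β γ δ : E) (p x : Fin n → E) :
    tn H (α • p + β • x) (γ • p + δ • x) = (α * δ - β * γ) ^ 2 • tn H p x := by
  refine sq_ext fun i j => ?_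
  simp only [tn, qv_lin, LmA_bv_lin, sq_apply, Pi.add_apply, Pi.sub_apply, Pi.smul_apply,
    smul_eq_mul]
  ring

theorem Lm.scale (h : Lm A B a b p x t) {c : E} (hc : c ≠ 0) : Lm A B (c * a) (c * b) p x t := by
  refine ⟨h.ind, ?_, ?_, ?_, h.ten⟩
  · rw [mQ_scale, h.qp, mul_zero]
  · rw [mQ_scale, h.qx, mul_zero]
  · rw [mB_scale, h.b, mul_zero]

theorem LmA_mB_lin (a b α β γ δ : E) (p x : Fin n → E) :
    mB A B a b (α • p + β • x) (γ • p + δ • x) = 2 * α * γ * mQ A B a b p +
      (α * δ + β * γ) * mB A B a b p x + 2 * β * δ * mQ A B a b x := by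
  rw [mB, mB, mQ, mQ, LmA_bv_lin, LmA_bv_lin]
  ring

theorem LmA_ind {p x : Fin n → E} (h : LinearIndependent E ![p, x]) {α β γ δ : E}
    (hd : α * δ - β * γ ≠ 0) : LinearIndependent E ![α • p + β • x, γ • p + δ • x] := by
  rw [LinearIndependent.pair_iff] at h ⊢
  intro s t hst
  have h2 := h (s * α + t * γ) (s * β + t * δ) (by rw [← hst]; module)
  constructor
  · have h3 : (α * δ - β * γ) * s = 0 := by linear_combination δ * h2.1 - γ * h2.2
    exact (mul_eq_zero.1 h3).resolve_left hd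
  · have h3 : (α * δ - β * γ) * t = 0 := by linear_combination α * h2.2 - β * h2.1
    exact (mul_eq_zero.1 h3).resolve_left hd

theorem Lm.lin (h : Lm A B a b p x t) {α β γ δ : E} (hd : α * δ - β * γ ≠ 0) :
    Lm A B a b (α • p + β • x) (γ • p + δ • x) t := by
  refine ⟨LmA_ind h.ind hd, ?_, ?_, ?_, ?_⟩
  · rw [mQ_lin, h.qp, h.qx, h.b]
    ring
  · rw [mQ_lin, h.qp, h.qx, h.b]
    ring
  · rw [LmA_mB_lin, h.qp, h.qx, h.b]
    ring
  · obtain ⟨H, hH, h0, ht⟩ := h.ten
    have hd2 : (α * δ - β * γ) ^ 2 ≠ 0 := pow_ne_zero 2 hd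
    refine ⟨H, hH, ?_, ?_⟩
    · rw [tn_det]
      exact smul_ne_zero hd2 h0
    · rw [ht, Projectivization.mk_eq_mk_iff']
      refine ⟨((α * δ - β * γ) ^ 2)⁻¹, ?_⟩
      rw [tn_det, smul_smul, inv_mul_cancel₀ hd2, one_smul]

/-- The two forms on the line are proportional. -/
theorem Lm.tn_rel (h : Lm A B a b p x t) : a • tn A p x + b • tn B p x = 0 := by
  have h1 : a * qv A p + b * qv B p = 0 := h.qp
  have h2 : a * qv A x + b * qv B x = 0 := h.qx
  have h3 : a * bv A p x + b * bv B p x = 0 := h.b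
  refine sq_ext fun i j => ?_
  simp only [Tq.tn, Pi.add_apply, Pi.sub_apply, Pi.smul_apply, smul_eq_mul, Pi.zero_apply]
  linear_combination (sq p p (finProdFinEquiv (i, j))) * h2 -
    (sq p x (finProdFinEquiv (i, j))) * h3 + (sq x x (finProdFinEquiv (i, j))) * h1

/-- If both tensors are not zero then they are proportional. -/
theorem Lm.LmA_prop (hab : a ≠ 0 ∨ b ≠ 0) (h : Lm A B a b p x t) (hA : tn A p x ≠ 0)
    (hB : tn B p x ≠ 0) : Projectivization.mk E (tn A p x) hA =
      Projectivization.mk E (tn B p x) hB := by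
  have h1 := h.tn_rel
  have ha : a ≠ 0 := by
    rintro rfl
    rw [zero_smul, zero_add] at h1
    rcases hab with h2 | h2
    · exact h2 rfl
    · exact smul_ne_zero h2 hB h1
  rw [Projectivization.mk_eq_mk_iff']
  refine ⟨a⁻¹ * (-b), ?_⟩
  have h2 : a • tn A p x = (-b) • tn B p x := by
    rw [neg_smul]
    exact eq_neg_of_add_eq_zero_left h1
  rw [mul_smul, ← h2, smul_smul, inv_mul_cancel₀ ha, one_smul]

/-- The tensor is unique. Proof: `Lm.tn_rel`: if both `tn A p x`, `tn B p x` are not `0` then they are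
proportional with a nonzero factor. -/
theorem Lm.uniq (hab : a ≠ 0 ∨ b ≠ 0) {t' : ℙ E (Fin (n * n) → E)} (h : Lm A B a b p x t)
    (h' : Lm A B a b p x t') : t = t' := by
  obtain ⟨H, hH, h0, ht⟩ := h.ten
  obtain ⟨H', hH', h0', ht'⟩ := h'.ten
  rw [ht, ht']
  rcases hH with rfl | rfl
  · rcases hH' with rfl | rfl
    · rfl
    · exact h.LmA_prop hab h0 h0'
  · rcases hH' with rfl | rfl
    · exact (h.LmA_prop hab h0' h0).symm
    · rfl

/-- The coefficients of a member which vanishes at a point `p` which is not on `X`. -/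
theorem LmA_coef (hp : ¬ Zer (Pl A B) E p) (hq : mQ A B a b p = 0) :
    ∃ c : E, a = c * qv B p ∧ b = c * (-qv A p) := by
  rw [zer_iff] at hp
  have h1 : a * qv A p + b * qv B p = 0 := hq
  by_cases hA : qv A p = 0
  · have hB : qv B p ≠ 0 := fun hB => hp ⟨hA, hB⟩
    refine ⟨a / qv B p, by field_simp, ?_⟩
    rw [hA, mul_zero, zero_add] at h1
    rw [hA, neg_zero, mul_zero]
    exact (mul_eq_zero.1 h1).resolve_right hB
  · refine ⟨-(b / qv A p), ?_, by field_simp⟩
    field_simp
    linear_combination h1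

/-- Every point of the line which is not on `X` can be taken as the base point. Proof: `Ln A B p x`:
`(qv B p, -qv A p)` is a nonzero multiple of `(a, b)` by `h.qp`. For `IsT` one needs `H` with
`qv H p ≠ 0`: if the form `H'` of `h.ten` has `qv H' p = 0` then the other form `H` has `qv H p ≠ 0`
(`p` is not on `X`), by `h.qp` its coefficient is `0`, so by `Lm.tn_rel` `tn H' p x = 0`,
contradiction; `Lm.tn_rel` and `Projectivization.mk_eq_mk_iff'`. -/
theorem Lm.isT (hab : a ≠ 0 ∨ b ≠ 0) (h : Lm A B a b p x t) (hp : ¬ Zer (Pl A B) E p) :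
    IsT A B p t := by
  obtain ⟨c, hca, hcb⟩ := LmA_coef hp h.qp
  have hc : c ≠ 0 := by
    rintro rfl
    rw [zero_mul] at hca hcb
    rcases hab with h1 | h1
    · exact h1 hca
    · exact h1 hcb
  have hL : Ln A B p x := by
    refine ⟨h.ind, ?_, ?_⟩
    · have h1 := h.qx
      rw [hca, hcb, mQ_scale, ← Qp_eq] at h1
      exact (mul_eq_zero.1 h1).resolve_left hc
    · have h1 := h.b
      rw [hca, hcb, mB_scale, ← Bp_eq] at h1
      exact (mul_eq_zero.1 h1).resolve_left hc
  obtain ⟨H, hH, h0, ht⟩ := h.ten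
  refine ⟨x, hL, H, hH, ?_, h0, ht⟩
  intro hHp
  have h1 := h.tn_rel
  rw [zer_iff] at hp
  rcases hH with rfl | rfl
  · -- `H = A`, `qv A p = 0`, `b = 0`
    rw [hHp, neg_zero, mul_zero] at hcb
    have ha : a ≠ 0 := by
      rcases hab with h2 | h2
      · exact h2
      · exact absurd hcb h2
    rw [hcb, zero_smul, add_zero] at h1
    exact smul_ne_zero ha h0 h1
  · rw [hHp, mul_zero] at hca
    have hb : b ≠ 0 := by
      rcases hab with h2 | h2
      · exact absurd hca h2
      · exact h2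
    rw [hca, zero_smul, zero_add] at h1
    exact smul_ne_zero hb h0 h1

/-- Conversely. Proof: `(a, b)` is a multiple of `(qv B p, -qv A p)` since `mQ A B a b p = 0` and `p`
is not on `X`; `Qp_eq`, `Bp_eq`. -/
theorem Lm.of_isT (h : IsT A B p t) (hq : mQ A B a b p = 0) : ∃ x, Lm A B a b p x t := by
  obtain ⟨c, hca, hcb⟩ := LmA_coef h.ne hq
  obtain ⟨x, hL, H, hH, hp, h0, ht⟩ := h
  refine ⟨x, hL.ind, hq, ?_, ?_, H, hH, h0, ht⟩
  · rw [hca, hcb, mQ_scale, ← Qp_eq, hL.q, mul_zero]
  · rw [hca, hcb, mB_scale, ← Bp_eq, hL.b, mul_zero]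

/-- The case `(a, b) = (qv B p, -qv A p)`. -/
theorem IsM.of_isT (h : IsT A B p t) : IsM A B (qv B p) (-qv A p) t := by
  obtain ⟨x, hx⟩ := Lm.of_isT h (a := qv B p) (b := -qv A p) (by rw [← Qp_eq, Qp_self])
  exact ⟨p, x, hx⟩

/-- On a line which is not contained in `X` there are, over an infinite field, vectors outside of
`X`, which avoid a finite number of points of the line: for every finite family of pairs
`(c i) ≠ (0, 0)` there is `(α, β)` with `α p + β x` not on `X` and not proportional to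
`(c i).1 p + (c i).2 x`. -/
theorem Lm.exists_avoid [CharZero E] (h : Lm A B a b p x t) {m : ℕ} (c : Fin m → E × E)
    (hc : ∀ i, (c i).1 ≠ 0 ∨ (c i).2 ≠ 0) : ∃ α β : E, ¬ Zer (Pl A B) E (α • p + β • x) ∧
      ∀ i, α * (c i).2 - β * (c i).1 ≠ 0 := by
  obtain ⟨H, hH, h0, -⟩ := h.ten
  have : Infinite E := CharZero.infinite E
  -- the form on the line is not zero
  have hf : (Polynomial.C (qv H x) * Polynomial.X ^ 2 + Polynomial.C (bv H p x) * Polynomial.X +
      Polynomial.C (qv H p) : Polynomial E) ≠ 0 := by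
    intro h1
    apply h0
    have e2 := congrArg (fun f => Polynomial.coeff f 2) h1
    have e1 := congrArg (fun f => Polynomial.coeff f 1) h1
    have e0 := congrArg (fun f => Polynomial.coeff f 0) h1
    simp only [Polynomial.coeff_add, Polynomial.coeff_C_mul, Polynomial.coeff_X_pow,
      Polynomial.coeff_X, Polynomial.coeff_C, Polynomial.coeff_zero] at e0 e1 e2
    norm_num at e0 e1 e2
    rw [Tq.tn, e0, e1, e2, zero_smul, zero_smul, zero_smul, sub_zero, add_zero]
  have hg : ∀ i, (Polynomial.C (c i).2 - Polynomial.X * Polynomial.C (c i).1 : Polynomial E) ≠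
      0 := by
    intro i h1
    have e1 := congrArg (fun f => Polynomial.coeff f 1) h1
    have e0 := congrArg (fun f => Polynomial.coeff f 0) h1
    simp only [Polynomial.coeff_sub, Polynomial.coeff_mul_C, Polynomial.coeff_X,
      Polynomial.coeff_C, Polynomial.coeff_zero] at e0 e1
    norm_num at e0 e1
    rcases hc i with h2 | h2
    · exact h2 e1
    · exact h2 e0
  have hF : ((Polynomial.C (qv H x) * Polynomial.X ^ 2 + Polynomial.C (bv H p x) * Polynomial.X +
      Polynomial.C (qv H p)) *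
        ∏ i, (Polynomial.C (c i).2 - Polynomial.X * Polynomial.C (c i).1) : Polynomial E) ≠ 0 :=
    mul_ne_zero hf (Finset.prod_ne_zero_iff.2 fun i _ => hg i)
  obtain ⟨β, hβ⟩ : ∃ β : E, ((Polynomial.C (qv H x) * Polynomial.X ^ 2 +
      Polynomial.C (bv H p x) * Polynomial.X + Polynomial.C (qv H p)) *
        ∏ i, (Polynomial.C (c i).2 - Polynomial.X * Polynomial.C (c i).1) :
          Polynomial E).eval β ≠ 0 := by
    by_contra hcon
    push Not at hcon
    exact hF (Polynomial.funext fun r => by rw [hcon r, Polynomial.eval_zero])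
  rw [Polynomial.eval_mul, Polynomial.eval_prod] at hβ
  have hβ1 := left_ne_zero_of_mul hβ
  have hβ2 := Finset.prod_ne_zero_iff.1 (right_ne_zero_of_mul hβ)
  refine ⟨1, β, ?_, fun i => ?_⟩
  · intro hz
    rw [zer_iff] at hz
    apply hβ1
    have h1 : qv H ((1 : E) • p + β • x) = 0 := by
      rcases hH with rfl | rfl
      · exact hz.1
      · exact hz.2
    rw [qv_lin] at h1
    simp only [Polynomial.eval_add, Polynomial.eval_mul, Polynomial.eval_C, Polynomial.eval_pow,
      Polynomial.eval_X]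
    linear_combination h1
  · have h1 := hβ2 i (Finset.mem_univ i)
    simp only [Polynomial.eval_sub, Polynomial.eval_mul, Polynomial.eval_C,
      Polynomial.eval_X] at h1
    rwa [one_mul]

/-- A basis of the line outside of `X`. Proof: some `tn H p x ≠ 0`, so `H` is not zero at one of `p`,
`x`, `p + x`, `p - x`, ...; a quadratic form in two variables which is not zero has at most two zeros
up to proportionality; `CharZero`. -/
theorem Lm.exists_np [CharZero E] (h : Lm A B a b p x t) : ∃ p' x', Lm A B a b p' x' t ∧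
    ¬ Zer (Pl A B) E p' ∧ ¬ Zer (Pl A B) E x' := by
  obtain ⟨α, β, h1, -⟩ := h.exists_avoid (m := 0) Fin.elim0 (fun i => i.elim0)
  have h2 : α ≠ 0 ∨ β ≠ 0 := by
    by_contra hcon
    push Not at hcon
    apply h1
    rw [hcon.1, hcon.2, zero_smul, zero_smul, add_zero, zer_iff]
    have h3 : ∀ H : Matrix (Fin n) (Fin n) k, qv H (0 : Fin n → E) = 0 := fun H => by
      have h4 := qv_smul H (0 : E) (0 : Fin n → E)
      rw [zero_smul] at h4
      rw [h4]
      ring
    exact ⟨h3 A, h3 B⟩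
  obtain ⟨γ, δ, h3, h4⟩ := h.exists_avoid (m := 1) (fun _ => (α, β)) (fun _ => h2)
  have h5 := h4 0
  refine ⟨_, _, h.lin (α := α) (β := β) (γ := γ) (δ := δ) ?_, h1, h3⟩
  intro h6
  apply h5
  dsimp only
  linear_combination -h6

theorem Lm.hom {E' : Type*} [Field E'] [Algebra k E'] (f : E →ₐ[k] E') (h : Lm A B a b p x t) :
    Lm A B (f a) (f b) (fun i => f (p i)) (fun i => f (x i)) (mapPt (f : E →+* E') t) := by
  obtain ⟨H, hH, h0, ht⟩ := h.ten
  have h1 := tn_hom (H := H) f p x
  obtain ⟨i, j, hij⟩ := exists_minor h.ind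
  refine ⟨ind_of_minor (i := i) (j := j) ?_, ?_, ?_, ?_, H, hH, ?_, ?_⟩
  · intro h2
    apply hij
    apply (f : E →+* E').injective
    simpa only [RingHom.coe_coe, map_mul] using h2
  · rw [mQ_hom, h.qp, map_zero]
  · rw [mQ_hom, h.qx, map_zero]
  · rw [mB_hom, h.b, map_zero]
  · rw [h1]
    intro h2
    apply h0
    funext c
    have h3 := congrFun h2 c
    exact (map_eq_zero_iff _ (f : E →+* E').injective).1 h3
  · rw [ht, mapPt_mk]
    congr 1
    exact h1.symm

theorem IsM.hom {E' : Type*} [Field E'] [Algebra k E'] (f : E →ₐ[k] E') (h : IsM A B a b t) :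
    IsM A B (f a) (f b) (mapPt (f : E →+* E') t) := by
  obtain ⟨p, x, hL⟩ := h
  exact ⟨_, _, hL.hom f⟩

theorem mQ_mat {F : Type*} [Field F] [Algebra F k] [Algebra F E] [IsScalarTower F k E]
    {A B : Matrix (Fin n) (Fin n) F} :
    mQ (A.map (algebraMap F k)) (B.map (algebraMap F k)) a b x = mQ A B a b x := by
  rw [mQ, mQ, finb_qv, finb_qv]

theorem mB_mat {F : Type*} [Field F] [Algebra F k] [Algebra F E] [IsScalarTower F k E]
    {A B : Matrix (Fin n) (Fin n) F} :
    mB (A.map (algebraMap F k)) (B.map (algebraMap F k)) a b p x = mB A B a b p x := by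
  rw [mB, mB, finb_bv, finb_bv]

/-- Change of the base field of the matrices. -/
theorem Lm_mat {F : Type*} [Field F] [Algebra F k] [Algebra F E] [IsScalarTower F k E]
    {A B : Matrix (Fin n) (Fin n) F} :
    Lm (A.map (algebraMap F k)) (B.map (algebraMap F k)) a b p x t ↔ Lm A B a b p x t := by
  constructor
  · rintro ⟨h1, h2, h3, h4, H, hH, h5, h6⟩
    rw [mQ_mat] at h2 h3
    rw [mB_mat] at h4
    refine ⟨h1, h2, h3, h4, ?_⟩
    rcases hH with rfl | rfl
    · refine ⟨A, Or.inl rfl, ?_, ?_⟩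
      · rwa [Ts.tn_mat] at h5
      · rw [h6]
        congr 1
        exact Ts.tn_mat p x
    · refine ⟨B, Or.inr rfl, ?_, ?_⟩
      · rwa [Ts.tn_mat] at h5
      · rw [h6]
        congr 1
        exact Ts.tn_mat p x
  · rintro ⟨h1, h2, h3, h4, H, hH, h5, h6⟩
    refine ⟨h1, by rwa [mQ_mat], by rwa [mQ_mat], by rwa [mB_mat], ?_⟩
    rcases hH with rfl | rfl
    · refine ⟨_, Or.inl rfl, ?_, ?_⟩
      · rwa [Ts.tn_mat]
      · rw [h6]
        congr 1
        exact (Ts.tn_mat p x).symm
    · refine ⟨_, Or.inr rfl, ?_, ?_⟩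
      · rwa [Ts.tn_mat]
      · rw [h6]
        congr 1
        exact (Ts.tn_mat p x).symm

theorem ND_mat {F : Type*} [Field F] [Algebra F k] [Algebra F E] [IsScalarTower F k E]
    {A B : Matrix (Fin n) (Fin n) F} :
    ND (A.map (algebraMap F k)) (B.map (algebraMap F k)) a b ↔ ND A B a b := by
  constructor
  · intro h x hx
    obtain ⟨y, hy⟩ := h x hx
    exact ⟨y, by rwa [mB_mat] at hy⟩
  · intro h x hx
    obtain ⟨y, hy⟩ := h x hx
    exact ⟨y, by rwa [mB_mat]⟩

/-- The line through two points of `X`. -/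
theorem Lm.pt [CharZero E] {P R : Fin n → E} (aP : qv A P = 0) (bP : qv B P = 0) (aR : qv A R = 0)
    (bR : qv B R = 0) (h : bv A P R ≠ 0 ∨ bv B P R ≠ 0) :
    ∃ hs : sq P R ≠ 0, Lm A B (bv B P R) (-bv A P R) P R (Projectivization.mk E (sq P R) hs) := by
  obtain ⟨H, hH, hHP, hHR, hb⟩ : ∃ H, (H = A ∨ H = B) ∧ qv H P = 0 ∧ qv H R = 0 ∧
      bv H P R ≠ 0 := by
    rcases h with h | h
    · exact ⟨A, Or.inl rfl, aP, aR, h⟩
    · exact ⟨B, Or.inr rfl, bP, bR, h⟩
  have hind : LinearIndependent E ![P, R] := by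
    rw [LinearIndependent.pair_iff]
    intro s t hst
    have h0 : ∀ y : Fin n → E, bv H (0 : Fin n → E) y = 0 := fun y => by
      have h1 := bv_smul H (0 : E) (0 : Fin n → E) y
      rwa [zero_smul, zero_mul] at h1
    constructor
    · have h1 : bv H (s • P + t • R) R = 0 := by rw [hst, h0]
      rw [bv_add, bv_smul, bv_smul, bv_self, hHR, mul_zero, mul_zero, add_zero] at h1
      exact (mul_eq_zero.1 h1).resolve_right hb
    · have h1 : bv H (s • P + t • R) P = 0 := by rw [hst, h0]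
      rw [bv_add, bv_smul, bv_smul, bv_self, hHP, mul_zero, mul_zero, zero_add,
        bv_comm] at h1
      exact (mul_eq_zero.1 h1).resolve_right hb
  have hP : P ≠ 0 := hind.ne_zero 0
  have hR : R ≠ 0 := hind.ne_zero 1
  have hs : sq P R ≠ 0 := sq_ne_zero hP hR
  have ht : tn H P R = (-bv H P R) • sq P R := by
    rw [Tq.tn, hHP, hHR, zero_smul, zero_smul, zero_sub, add_zero, neg_smul]
  refine ⟨hs, hind, ?_, ?_, ?_, H, hH, ?_, ?_⟩
  · rw [mQ, aP, bP]
    ring
  · rw [mQ, aR, bR]
    ring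
  · rw [mB]
    ring
  · rw [ht]
    exact smul_ne_zero (neg_ne_zero.2 hb) hs
  · rw [Projectivization.mk_eq_mk_iff']
    refine ⟨(-bv H P R)⁻¹, ?_⟩
    rw [ht, smul_smul, inv_mul_cancel₀ (neg_ne_zero.2 hb), one_smul]

/-- A tangent line. -/
theorem Tg.lm [CharZero E] {P u : Fin n → E} (h : Tg A B a b P u) :
    ∃ hs : sq P P ≠ 0, Lm A B a b P u (Projectivization.mk E (sq P P) hs) := by
  obtain ⟨H, hH, hHP, hHPu, hHu⟩ : ∃ H, (H = A ∨ H = B) ∧ qv H P = 0 ∧ bv H P u = 0 ∧
      qv H u ≠ 0 := by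
    by_cases hA : qv A u = 0
    · exact ⟨B, Or.inr rfl, h.bP, h.bPu, fun hB => h.nu ⟨hA, hB⟩⟩
    · exact ⟨A, Or.inl rfl, h.aP, h.aPu, hA⟩
  have hs : sq P P ≠ 0 := sq_ne_zero h.hP h.hP
  have hind : LinearIndependent E ![P, u] := by
    rw [LinearIndependent.pair_iff]
    intro s t hst
    have ht : t = 0 := by
      have h1 : qv H (s • P + t • u) = 0 := by
        rw [hst]
        have h4 := qv_smul H (0 : E) (0 : Fin n → E)
        rw [zero_smul] at h4
        rw [h4]
        ring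
      rw [qv_lin, hHP, hHPu, mul_zero, mul_zero, zero_add, zero_add] at h1
      exact pow_eq_zero_iff two_ne_zero |>.1 ((mul_eq_zero.1 h1).resolve_right hHu)
    refine ⟨?_, ht⟩
    rw [ht, zero_smul, add_zero] at hst
    exact (smul_eq_zero.1 hst).resolve_right h.hP
  have ht : tn H P u = qv H u • sq P P := by
    rw [Tq.tn, hHP, hHPu, zero_smul, zero_smul, sub_zero, add_zero]
  refine ⟨hs, hind, ?_, h.qu, ?_, H, hH, ?_, ?_⟩
  · rw [mQ, h.aP, h.bP]
    ring
  · rw [mB, h.aPu, h.bPu]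
    ring
  · rw [ht]
    exact smul_ne_zero hHu hs
  · rw [Projectivization.mk_eq_mk_iff']
    refine ⟨(qv H u)⁻¹, ?_⟩
    rw [ht, smul_smul, inv_mul_cancel₀ hHu, one_smul]

end Dp
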