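import Pool.Agent.Lib.MP_f80667_ag.Dp.Root

/-! Generators of a field near a given element. -/

open Polynomial

namespace Dp

universe u

variable {k Ω : Type u} [Field k] [CharZero k] [NormedField Ω] [Algebra k Ω] [IsAlgClosure k Ω]

omit [CharZero k] [IsAlgClosure k Ω] in
/-- A generator of `K` over `k` generates `K` as an intermediate field of `Ω`. -/
theorem adjoin_coe_eq (K : IntermediateField k Ω) (y : K)
    (hy : IntermediateField.adjoin k {y} = (⊤ : IntermediateField k K)) :
    IntermediateField.adjoin k {(y : Ω)} = K := by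
  have h1 : (IntermediateField.adjoin k {y}).map K.val = IntermediateField.adjoin k {(y : Ω)} := by
    rw [IntermediateField.adjoin_map, Set.image_singleton]
    rfl
  rw [← h1, hy, ← AlgHom.fieldRange_eq_map, IntermediateField.fieldRange_val]

/-- Elements near a given one which generate the field and avoid a finite set. Proof: let `θ` be a
generator of `K` (`Field.exists_primitive_element`, as an intermediate field: `K = k⟮θ⟯`); for the
infinitely many small `c : k` (`Lc.infinite_small`) the elements `x + c θ` are different (if `θ ≠ 0`;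
if `K = k` take `θ = 1`); two of them which generate the same subfield `K'` have `θ ∈ K'`, so
`K' = K`; there are finitely many intermediate fields, so almost all `x + c θ` generate `K`. -/
theorem exists_gen_near (h : Lc k Ω) (K : IntermediateField k Ω) [FiniteDimensional k K] (x : K)
    {ε : ℝ} (hε : 0 < ε) (Φ : Finset Ω) :
    ∃ y : K, ‖(y : Ω) - x‖ < ε ∧ (y : Ω) ∉ Φ ∧ IntermediateField.adjoin k {(y : Ω)} = K := by
  classical
  obtain ⟨α, hα⟩ := Field.exists_primitive_element k K
  have hfin : Finite (IntermediateField k K) :=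
    (Field.exists_primitive_element_iff_finite_intermediateField k K).1 ⟨inferInstance, α, hα⟩
  obtain ⟨θ, hθ0, hθ⟩ : ∃ θ : K, θ ≠ 0 ∧
      IntermediateField.adjoin k {θ} = (⊤ : IntermediateField k K) := by
    by_cases h0 : α = 0
    · refine ⟨1, one_ne_zero, ?_⟩
      rw [h0, IntermediateField.adjoin_zero] at hα
      rw [IntermediateField.adjoin_one, hα]
    · exact ⟨α, h0, hα⟩
  have hθΩ : (θ : Ω) ≠ 0 := fun h1 => hθ0 (Subtype.ext h1)
  have hn : 0 < ‖(θ : Ω)‖ := norm_pos_iff.2 hθΩ
  let S : Set k := {c | ‖algebraMap k Ω c‖ < ε / ‖(θ : Ω)‖}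
  have hS : S.Infinite := h.infinite_small (div_pos hε hn)
  let g : k → Ω := fun c => (x : Ω) + algebraMap k Ω c * θ
  have hg : Function.Injective g := by
    intro a b hab
    have h1 : algebraMap k Ω a * θ = algebraMap k Ω b * θ := add_left_cancel hab
    exact (algebraMap k Ω).injective (mul_right_cancel₀ hθΩ h1)
  have hS2 : (S \ g ⁻¹' (Φ : Set Ω)).Infinite :=
    hS.sdiff (Φ.finite_toSet.preimage hg.injOn)
  let f : k → IntermediateField k K := fun c =>
    IntermediateField.adjoin k {x + algebraMap k K c * θ}
  obtain ⟨c, hc, c', hc', hne, hcc⟩ := hS2.exists_ne_map_eq_of_mapsTo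
    (f := f) (t := Set.univ) (fun _ _ => Set.mem_univ _) Set.finite_univ
  have htop : f c = ⊤ := by
    have m1 : x + algebraMap k K c * θ ∈ f c := IntermediateField.mem_adjoin_simple_self k _
    have m2 : x + algebraMap k K c' * θ ∈ f c := by
      rw [hcc]
      exact IntermediateField.mem_adjoin_simple_self k _
    have m3 : algebraMap k K (c - c') * θ ∈ f c := by
      have h1 := sub_mem m1 m2
      have e : x + algebraMap k K c * θ - (x + algebraMap k K c' * θ) =
          algebraMap k K (c - c') * θ := by
        rw [map_sub]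
        ring
      rwa [e] at h1
    have m4 : θ ∈ f c := by
      have h1 := mul_mem ((f c).algebraMap_mem (c - c')⁻¹) m3
      have e : algebraMap k K (c - c')⁻¹ * (algebraMap k K (c - c') * θ) = θ := by
        rw [← mul_assoc, ← map_mul, inv_mul_cancel₀ (sub_ne_zero.2 hne), map_one, one_mul]
      rwa [e] at h1
    rw [eq_top_iff, ← hθ, IntermediateField.adjoin_simple_le_iff]
    exact m4
  refine ⟨x + algebraMap k K c * θ, ?_, hc.2, adjoin_coe_eq K _ htop⟩
  have e : ((x + algebraMap k K c * θ : K) : Ω) - x = algebraMap k Ω c * θ := by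
    have e1 : ((x + algebraMap k K c * θ : K) : Ω) = (x : Ω) + algebraMap k Ω c * θ := rfl
    rw [e1, add_sub_cancel_left]
  rw [e, norm_mul]
  have h1 : ‖algebraMap k Ω c‖ < ε / ‖(θ : Ω)‖ := hc.1
  rwa [lt_div_iff₀ hn] at h1

end Dp
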