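import Pool.Agent.Lib.MP_f80667_ag.Dp.LineC
import Pool.Agent.Lib.MP_f80667_ag.Dp.RootG
import Pool.Agent.Lib.MP_f80667_ag.Dp.LmA
import Pool.Agent.Lib.MP_f80667_ag.Ts.BcP
import Pool.Agent.Lib.MP_f80667_ag.Dz.Main

/-!
Local data: `Dat A B P₀ z`: the roots of the monic polynomial `P₀` are simple, for every root `x` the
member `(1, -x)` is nondegenerate and contains a line over `k⟮x⟯`, and `z` is the class of the sum of the
cycles of these lines over all roots. `Atom A B d z`: the same for one irreducible polynomial of degree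
`d`, which can be chosen to avoid a finite set.
-/

open Polynomial IntermediateField
open scoped LinearAlgebra.Projectivization

namespace Dp

open ZC Tq

universe u

section inst

variable {k Ω : Type u} [Field k] [Field Ω] [Algebra k Ω] [IsAlgClosure k Ω]

instance fdAdj (x : Ω) : FiniteDimensional k k⟮x⟯ :=
  have : Algebra.IsAlgebraic k Ω := IsAlgClosure.isAlgebraic
  adjoin.finiteDimensional (Algebra.IsIntegral.isIntegral x)

end inst

section defs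

variable {k : Type u} [Field k] {Ω : Type u} [Field Ω] [Algebra k Ω] [IsAlgClosure k Ω] {n : ℕ}
  (A B : Matrix (Fin n) (Fin n) k)

/-- `t` is the tensor of a line over `k⟮x⟯` on the member `(1, -x)`, which is nondegenerate. -/
def Root (x : Ω) (t : ℙ k⟮x⟯ (Fin (n * n) → k⟮x⟯)) : Prop :=
  IsM A B 1 (-AdjoinSimple.gen k x) t ∧ ND A B (1 : k⟮x⟯) (-AdjoinSimple.gen k x)

/-- A datum: the roots of `P₀` up to conjugation are the `x j`. -/
def Dat (P₀ : k[X]) (z : ℙ Ω (Fin n → Ω) →₀ ℤ) : Prop :=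
  ∃ (m : ℕ) (x : Fin m → Ω) (t : ∀ j, ℙ k⟮x j⟯ (Fin (n * n) → k⟮x j⟯)),
    (∀ i j, minpoly k (x i) = minpoly k (x j) → i = j) ∧ P₀ = ∏ j, minpoly k (x j) ∧
    (∀ j, Root A B (x j) (t j)) ∧ z - ∑ j, PhL (trPt k Ω (t j)) ∈ ratEq Ω (Pl A B)

/-- An atom. -/
def Atom (d : ℕ) (z : ℙ Ω (Fin n → Ω) →₀ ℤ) : Prop :=
  ∀ Φ : Finset Ω, ∃ (x : Ω) (t : ℙ k⟮x⟯ (Fin (n * n) → k⟮x⟯)), x ∉ Φ ∧
    Module.finrank k k⟮x⟯ = d ∧ Root A B x t ∧ z - PhL (trPt k Ω t) ∈ ratEq Ω (Pl A B)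

end defs

section api

variable {k : Type u} [Field k] [CharZero k] {Ω : Type u} [Field Ω] [Algebra k Ω]
  [IsAlgClosure k Ω] {n : ℕ} {A B : Matrix (Fin n) (Fin n) k}

omit [CharZero k] in
theorem dat_int (x : Ω) : IsIntegral k x :=
  have : Algebra.IsAlgebraic k Ω := IsAlgClosure.isAlgebraic
  Algebra.IsIntegral.isIntegral x

theorem Dat.monic {P₀ : k[X]} {z : ℙ Ω (Fin n → Ω) →₀ ℤ} (h : Dat A B P₀ z) : P₀.Monic := by
  obtain ⟨m, x, t, -, hP, -, -⟩ := h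
  rw [hP]
  exact monic_prod_of_monic _ _ fun j _ => minpoly.monic (dat_int (x j))

/-- Proof: the minimal polynomials are irreducible and different, characteristic `0`. -/
theorem Dat.separable {P₀ : k[X]} {z : ℙ Ω (Fin n → Ω) →₀ ℤ} (h : Dat A B P₀ z) :
    P₀.Separable := by
  obtain ⟨m, x, t, hx, hP, -, -⟩ := h
  rw [hP]
  refine separable_prod ?_ fun j => (minpoly.irreducible (dat_int (x j))).separable
  intro i j hij
  change IsCoprime (minpoly k (x i)) (minpoly k (x j))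
  rw [(minpoly.irreducible (dat_int (x i))).coprime_iff_not_dvd]
  intro hd
  apply hij
  apply hx
  have h1 := (minpoly.irreducible (dat_int (x i))).associated_of_dvd
    (minpoly.irreducible (dat_int (x j))) hd
  exact eq_of_monic_of_associated (minpoly.monic (dat_int (x i))) (minpoly.monic (dat_int (x j))) h1

theorem Dat.one : Dat A B 1 (0 : ℙ Ω (Fin n → Ω) →₀ ℤ) := by
  refine ⟨0, Fin.elim0, fun j => j.elim0, fun i => i.elim0, ?_, fun j => j.elim0, ?_⟩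
  · simp
  · rw [Fin.sum_univ_zero, sub_zero]
    exact zero_mem _

theorem Dat.congr {P₀ : k[X]} {z z' : ℙ Ω (Fin n → Ω) →₀ ℤ} (h : Dat A B P₀ z)
    (hz : z - z' ∈ ratEq Ω (Pl A B)) : Dat A B P₀ z' := by
  obtain ⟨m, x, t, hx, hP, hR, h1⟩ := h
  refine ⟨m, x, t, hx, hP, hR, ?_⟩
  have h2 := sub_mem h1 hz
  have e : z - ∑ j, PhL (trPt k Ω (t j)) - (z - z') = z' - ∑ j, PhL (trPt k Ω (t j)) := by abel
  rwa [e] at h2

theorem Atom.congr {d : ℕ} {z z' : ℙ Ω (Fin n → Ω) →₀ ℤ} (h : Atom A B d z)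
    (hz : z - z' ∈ ratEq Ω (Pl A B)) : Atom A B d z' := by
  intro Φ
  obtain ⟨x, t, hx, hd, hR, h1⟩ := h Φ
  refine ⟨x, t, hx, hd, hR, ?_⟩
  have h2 := sub_mem h1 hz
  have e : z - PhL (trPt k Ω t) - (z - z') = z' - PhL (trPt k Ω t) := by abel
  rwa [e] at h2

/-- Adding an atom. Proof: avoid the roots of `P₀`. -/
theorem Dat.add {P₀ : k[X]} {z : ℙ Ω (Fin n → Ω) →₀ ℤ} (h : Dat A B P₀ z) {d : ℕ}
    {z' : ℙ Ω (Fin n → Ω) →₀ ℤ} (h' : Atom A B d z') :
    ∃ P₁ : k[X], P₁.natDegree = P₀.natDegree + d ∧ Dat A B P₁ (z + z') := by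
  classical
  have hmon := h.monic
  obtain ⟨m, x, t, hx, hP, hR, hz⟩ := h
  obtain ⟨y, s, hy, hd, hRy, hz'⟩ := h' (P₀.aroots Ω).toFinset
  have hroot : ∀ i, minpoly k (x i) ≠ minpoly k y := by
    intro i hi
    apply hy
    rw [Multiset.mem_toFinset, mem_aroots]
    refine ⟨hmon.ne_zero, ?_⟩
    have h1 : aeval y (minpoly k (x i)) = 0 := by
      rw [hi]
      exact minpoly.aeval k y
    rw [hP, map_prod]
    exact Finset.prod_eq_zero (Finset.mem_univ i) h1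
  let X' : Fin (m + 1) → (Σ x : Ω, ℙ k⟮x⟯ (Fin (n * n) → k⟮x⟯)) :=
    Fin.snoc (α := fun _ => Σ x : Ω, ℙ k⟮x⟯ (Fin (n * n) → k⟮x⟯)) (fun j => ⟨x j, t j⟩) ⟨y, s⟩
  have hX1 : ∀ j : Fin m, X' j.castSucc = ⟨x j, t j⟩ := fun j =>
    Fin.snoc_castSucc (α := fun _ => Σ x : Ω, ℙ k⟮x⟯ (Fin (n * n) → k⟮x⟯)) _ _ j
  have hX2 : X' (Fin.last m) = ⟨y, s⟩ :=
    Fin.snoc_last (α := fun _ => Σ x : Ω, ℙ k⟮x⟯ (Fin (n * n) → k⟮x⟯)) _ _
  refine ⟨P₀ * minpoly k y, ?_, m + 1, fun j => (X' j).1, fun j => (X' j).2, ?_, ?_, ?_, ?_⟩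
  · rw [hmon.natDegree_mul (minpoly.monic (dat_int y)), ← hd,
      IntermediateField.adjoin.finrank (dat_int y)]
  · intro i j
    refine Fin.lastCases ?_ (fun i => ?_) i
    · refine Fin.lastCases (fun _ => rfl) (fun j => ?_) j
      intro hij
      simp only [hX1, hX2] at hij
      exact absurd hij.symm (hroot j)
    · refine Fin.lastCases ?_ (fun j => ?_) j
      · intro hij
        simp only [hX1, hX2] at hij
        exact absurd hij (hroot i)
      · intro hij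
        simp only [hX1] at hij
        rw [hx i j hij]
  · rw [Fin.prod_univ_castSucc]
    simp only [hX1, hX2]
    rw [← hP]
  · intro j
    refine Fin.lastCases ?_ (fun j => ?_) j
    · have e : ∀ u : (Σ x : Ω, ℙ k⟮x⟯ (Fin (n * n) → k⟮x⟯)), u = ⟨y, s⟩ → Root A B u.1 u.2 := by
        rintro _ rfl
        exact hRy
      exact e _ hX2
    · have e : ∀ u : (Σ x : Ω, ℙ k⟮x⟯ (Fin (n * n) → k⟮x⟯)), u = ⟨x j, t j⟩ →
          Root A B u.1 u.2 := by
        rintro _ rfl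
        exact hR j
      exact e _ (hX1 j)
  · have e : ∑ j : Fin (m + 1), PhL (trPt k Ω (X' j).2) =
        (∑ j, PhL (trPt k Ω (t j))) + PhL (trPt k Ω s) := by
      let f : (Σ x : Ω, ℙ k⟮x⟯ (Fin (n * n) → k⟮x⟯)) → (ℙ Ω (Fin n → Ω) →₀ ℤ) :=
        fun u => PhL (trPt k Ω u.2)
      have h1 : ∑ j : Fin (m + 1), f (X' j) = (∑ j, f ⟨x j, t j⟩) + f ⟨y, s⟩ := by
        rw [Fin.sum_univ_castSucc]
        simp only [hX1, hX2]
      exact h1
    rw [e]
    have h2 := add_mem hz hz'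
    have e2 : z - ∑ j, PhL (trPt k Ω (t j)) + (z' - PhL (trPt k Ω s)) =
        z + z' - ((∑ j, PhL (trPt k Ω (t j))) + PhL (trPt k Ω s)) := by abel
    rwa [e2] at h2

/-- The degree of the cycle of a datum. Proof: `Ts.PhL_mem`, `Lm.isT`, `ratEq` has degree `0`. -/
theorem Dat.deg {P₀ : k[X]} {z : ℙ Ω (Fin n → Ω) →₀ ℤ} (h : Dat A B P₀ z) :
    deg Ω z = 2 * P₀.natDegree := by
  have : IsAlgClosed Ω := IsAlgClosure.isAlgClosed k
  obtain ⟨m, x, t, -, hP, hR, hz⟩ := h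
  have h1 : ZC.deg Ω (z - ∑ j, PhL (trPt k Ω (t j))) = 0 := Dz.ratEq_le_deg (Pl A B) hz
  have h2 : ∀ j, ZC.deg Ω (PhL (trPt k Ω (t j))) = 2 * ((minpoly k (x j)).natDegree : ℤ) := by
    intro j
    have : CharZero k⟮x j⟯ :=
      charZero_of_injective_algebraMap (algebraMap k k⟮x j⟯).injective
    obtain ⟨p, y, hL⟩ := (hR j).1
    obtain ⟨p', y', hL', hp', -⟩ := hL.exists_np
    have h3 := (Ts.PhL_mem (F := k) (Ω := Ω) (hL'.isT (Or.inl one_ne_zero) hp')).2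
    rw [h3, IntermediateField.adjoin.finrank (dat_int (x j))]
  rw [map_sub, map_sum, sub_eq_zero, Finset.sum_congr rfl fun j _ => h2 j, ← Finset.mul_sum] at h1
  rw [h1, hP, natDegree_prod_of_monic _ _ fun j _ => minpoly.monic (dat_int (x j))]
  push_cast
  rfl

end api

end Dp
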