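import Pool.Agent.Lib.MP_f80667_ag.Dp.L1

/-! Relations between points of `X` from tangent lines. -/

open scoped LinearAlgebra.Projectivization

namespace Dp

open ZC Tq

universe u

variable {k : Type u} [Field k] [CharZero k] {Ω : Type u} [Field Ω] [Algebra k Ω] [IsAlgClosed Ω]
  {n : ℕ} {A B : Matrix (Fin n) (Fin n) k} {M : Type u} [Field M] [Algebra k M]
  [FiniteDimensional k M]

/-- The class of a tangent line is twice the point. Proof: `Tg.lm`, `mem_line`, `phl_sq`. -/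
theorem tg_cls (hs : Sm Ω A B) (hn : 5 ≤ n) {a b : M} (hab : a ≠ 0 ∨ b ≠ 0) {P u : Fin n → M}
    (h : Tg A B a b P u) {t : ℙ M (Fin (n * n) → M)} (ht : IsM A B a b t) :
    PhL (trPt k Ω t) - (2 : ℤ) • trPt k Ω (Projectivization.mk M P h.hP) ∈ ratEq Ω (Pl A B) := by
  have : CharZero M := charZero_of_injective_algebraMap (algebraMap k M).injective
  obtain ⟨hsq, hL⟩ := h.lm
  have h1 := mem_line (k := k) (Ω := Ω) hs hn hab ht ⟨P, u, hL⟩
  rw [phl_sq h.hP h.hP hsq] at h1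
  rwa [two_zsmul]

omit [CharZero k] [FiniteDimensional k M] in
/-- A member which contains the line through two points. -/
theorem prop_of_mB {a b : M} (hab : a ≠ 0 ∨ b ≠ 0) {P R : Fin n → M}
    (h : bv A P R ≠ 0 ∨ bv B P R ≠ 0) (hPR : mB A B a b P R = 0) :
    ∃ c : M, c ≠ 0 ∧ a = c * bv B P R ∧ b = c * -bv A P R := by
  have h1 : a * bv A P R + b * bv B P R = 0 := hPR
  by_cases hA : bv A P R = 0
  · have hB : bv B P R ≠ 0 := h.resolve_left fun h' => h' hA
    have hb : b = 0 := by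
      rw [hA, mul_zero, zero_add] at h1
      exact (mul_eq_zero.1 h1).resolve_right hB
    have ha : a ≠ 0 := hab.resolve_right fun h' => h' hb
    refine ⟨a / bv B P R, div_ne_zero ha hB, (div_mul_cancel₀ a hB).symm, ?_⟩
    rw [hb, hA, neg_zero, mul_zero]
  · have hb : b ≠ 0 ∨ b = 0 := ne_or_eq b 0
    refine ⟨-b / bv A P R, ?_, ?_, ?_⟩
    · rcases hb with hb | hb
      · exact div_ne_zero (neg_ne_zero.2 hb) hA
      · exfalso
        rw [hb, zero_mul, add_zero] at h1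
        rcases hab with ha | ha
        · exact (mul_ne_zero ha hA) h1
        · exact ha hb
    · field_simp
      linear_combination h1
    · field_simp

/-- The class of the line through two points. Proof: `Lm.pt`, `mem_line`, `phl_sq`. -/
theorem pt_cls (hs : Sm Ω A B) (hn : 5 ≤ n) {a b : M} (hab : a ≠ 0 ∨ b ≠ 0) {P R : Fin n → M}
    (hP : P ≠ 0) (hR : R ≠ 0) (zP : Zer (Pl A B) M P) (zR : Zer (Pl A B) M R)
    (h : bv A P R ≠ 0 ∨ bv B P R ≠ 0) (hPR : mB A B a b P R = 0) {t : ℙ M (Fin (n * n) → M)}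
    (ht : IsM A B a b t) :
    PhL (trPt k Ω t) - (trPt k Ω (Projectivization.mk M P hP) +
      trPt k Ω (Projectivization.mk M R hR)) ∈ ratEq Ω (Pl A B) := by
  have : CharZero M := charZero_of_injective_algebraMap (algebraMap k M).injective
  rw [zer_iff] at zP zR
  obtain ⟨hsq, hL⟩ := Lm.pt zP.1 zP.2 zR.1 zR.2 h
  obtain ⟨c, hc, h1, h2⟩ := prop_of_mB hab h hPR
  have hL' := hL.scale hc
  rw [← h1, ← h2] at hL'
  have h3 := mem_line (k := k) (Ω := Ω) hs hn hab ht ⟨P, R, hL'⟩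
  rwa [phl_sq hP hR hsq] at h3

/-- **Proposition T.** If the member through the points `P` and `R` contains a line which is tangent
to `X` at `P` then `P` and `R` are rationally equivalent. Proof: `Lm.pt`, `Tg.lm`, `mem_line`,
`phl_sq`. -/
theorem propT (hs : Sm Ω A B) (hn : 5 ≤ n) {P R u : Fin n → M} (hR : R ≠ 0)
    (zR : Zer (Pl A B) M R) (h : bv A P R ≠ 0 ∨ bv B P R ≠ 0)
    (hT : Tg A B (bv B P R) (-bv A P R) P u) :
    trPt k Ω (Projectivization.mk M R hR) - trPt k Ω (Projectivization.mk M P hT.hP) ∈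
      ratEq Ω (Pl A B) := by
  have : CharZero M := charZero_of_injective_algebraMap (algebraMap k M).injective
  have hab : bv B P R ≠ 0 ∨ -bv A P R ≠ 0 := by
    rcases h with h | h
    · exact Or.inr (neg_ne_zero.2 h)
    · exact Or.inl h
  obtain ⟨hsq, hL⟩ := hT.lm
  have ht : IsM A B (bv B P R) (-bv A P R) (Projectivization.mk M (sq P P) hsq) := ⟨P, u, hL⟩
  have h1 := tg_cls (k := k) (Ω := Ω) hs hn hab hT ht
  have hPR : mB A B (bv B P R) (-bv A P R) P R = 0 := by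
    rw [mB]
    ring
  have h2 := pt_cls (k := k) (Ω := Ω) hs hn hab hT.hP hR ((zer_iff A B).2 ⟨hT.aP, hT.bP⟩) zR h hPR ht
  have h3 := AddSubgroup.sub_mem _ h1 h2
  have e : ∀ x y z : ℙ Ω (Fin n → Ω) →₀ ℤ, x - (2 : ℤ) • y - (x - (y + z)) = z - y := by
    intro x y z
    rw [two_zsmul]
    abel
  rwa [e] at h3

/-- Proof. Let `λ = (bv B P R, - bv A P R)`, `μ = (qv B u, - qv A u)` and write `λ_PR = mB λ P R`
etc. So `λ_PR = 0`, `mQ μ u = 0`, `μ_PR = - mQ λ u`. Put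
`T = -λ_Ru μ_Ru P - mQ λ u μ_PR R + λ_Ru μ_PR u`. Then `T` is on `X` (`mQ λ T = mQ μ T = 0`, and `λ`,
`μ` are independent), `λ_PT = 0` and `bv H P T = - mQ λ u μ_PR bv H P R` for all `H`, so `P` and `T`
are joined by a line on the member `λ`: `[T] = [R]` by `Lm.pt` twice and `mem_line`. `μ_RT = 0`,
`λ_RT = λ_Ru ^ 2 μ_PR ≠ 0`, so `R` and `T` are joined by a line on the member `μ`, which contains the
tangent line through `P` and `u`: `[R] + [T] = 2 [P]`. -/
theorem dbl_step (hs : Sm Ω A B) (hn : 5 ≤ n) {P R u : Fin n → M} (hP : P ≠ 0) (hR : R ≠ 0)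
    (zP : Zer (Pl A B) M P) (zR : Zer (Pl A B) M R) (h : bv A P R ≠ 0 ∨ bv B P R ≠ 0)
    (hu : u ∈ TP A B P) (hQ : mQ A B (bv B P R) (-bv A P R) u ≠ 0)
    (hRu : mB A B (bv B P R) (-bv A P R) R u ≠ 0) :
    (2 : ℤ) • trPt k Ω (Projectivization.mk M P hP) -
      (2 : ℤ) • trPt k Ω (Projectivization.mk M R hR) ∈ ratEq Ω (Pl A B) := by
  have : CharZero M := charZero_of_injective_algebraMap (algebraMap k M).injective
  obtain ⟨aP, bP⟩ := (zer_iff A B).1 zP
  obtain ⟨aR, bR⟩ := (zer_iff A B).1 zR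
  obtain ⟨aPu, bPu⟩ := mem_TP.1 hu
  -- names
  obtain ⟨p, hp⟩ : ∃ p, p = bv A P R := ⟨_, rfl⟩
  obtain ⟨q, hq⟩ : ∃ q, q = bv B P R := ⟨_, rfl⟩
  obtain ⟨r, hr⟩ : ∃ r, r = bv A R u := ⟨_, rfl⟩
  obtain ⟨s, hs'⟩ : ∃ s, s = bv B R u := ⟨_, rfl⟩
  obtain ⟨v, hv⟩ : ∃ v, v = qv A u := ⟨_, rfl⟩
  obtain ⟨w, hw⟩ : ∃ w, w = qv B u := ⟨_, rfl⟩
  have hQ' : q * v - p * w ≠ 0 := by
    intro h0
    apply hQ
    rw [mQ, ← hp, ← hq, ← hv, ← hw]
    linear_combination h0
  have hRu' : q * r - p * s ≠ 0 := by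
    intro h0
    apply hRu
    rw [mB, ← hp, ← hq, ← hr, ← hs']
    linear_combination h0
  have bRR : ∀ H : Matrix (Fin n) (Fin n) k, qv H R = 0 → bv H R R = 0 := by
    intro H hH
    rw [bv_self, hH, mul_zero]
  -- the point `T`
  set α : M := -((q * r - p * s) * (w * r - v * s)) with hα
  set β : M := (q * v - p * w) ^ 2 with hβ
  set γ : M := -((q * v - p * w) * (q * r - p * s)) with hγ
  set T : Fin n → M := α • P + β • R + γ • u with hT
  have hqT : ∀ H : Matrix (Fin n) (Fin n) k, qv H P = 0 → qv H R = 0 → bv H P u = 0 →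
      qv H T = α * β * bv H P R + β * γ * bv H R u + γ ^ 2 * qv H u := by
    intro H h1 h2 h3
    rw [hT, qv_add, qv_lin, bv_smul_right, bv_add, bv_smul, bv_smul, qv_smul, h1, h2, h3]
    ring
  have hbP : ∀ H : Matrix (Fin n) (Fin n) k, qv H P = 0 → bv H P u = 0 →
      bv H P T = β * bv H P R := by
    intro H h1 h2
    rw [hT, bv_add_right, bv_add_right, bv_smul_right, bv_smul_right, bv_smul_right, h2, bv_self,
      h1]
    ring
  have hbR : ∀ H : Matrix (Fin n) (Fin n) k, qv H R = 0 →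
      bv H R T = α * bv H P R + γ * bv H R u := by
    intro H h1
    rw [hT, bv_add_right, bv_add_right, bv_smul_right, bv_smul_right, bv_smul_right, bRR H h1,
      bv_comm H R P]
    ring
  have aT0 := hqT A aP aR aPu
  have bT0 := hqT B bP bR bPu
  rw [← hp, ← hr, ← hv] at aT0
  rw [← hq, ← hs', ← hw] at bT0
  have e1 : q * qv A T - p * qv B T = 0 := by
    rw [aT0, bT0, hα, hβ, hγ]
    ring
  have e2 : w * qv A T - v * qv B T = 0 := by
    rw [aT0, bT0, hα, hβ, hγ]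
    ring
  have aT : qv A T = 0 := by
    have h1 : (q * v - p * w) * qv A T = 0 := by linear_combination v * e1 - p * e2
    exact (mul_eq_zero.1 h1).resolve_left hQ'
  have bT : qv B T = 0 := by
    have h1 : (q * v - p * w) * qv B T = 0 := by linear_combination w * e1 - q * e2
    exact (mul_eq_zero.1 h1).resolve_left hQ'
  have aPT := hbP A aP aPu
  have bPT := hbP B bP bPu
  have aRT := hbR A aR
  have bRT := hbR B bR
  rw [← hp] at aPT
  rw [← hq] at bPT
  rw [← hp, ← hr] at aRT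
  rw [← hq, ← hs'] at bRT
  have hβ0 : β ≠ 0 := pow_ne_zero 2 hQ'
  have hPT : bv A P T ≠ 0 ∨ bv B P T ≠ 0 := by
    rw [aPT, bPT, hp, hq]
    rcases h with h | h
    · exact Or.inl (mul_ne_zero hβ0 h)
    · exact Or.inr (mul_ne_zero hβ0 h)
  have hT0 : T ≠ 0 := by
    intro h0
    have hz : ∀ H : Matrix (Fin n) (Fin n) k, bv H P T = 0 := fun H => by
      have h1 := bv_smul_right (A := H) (0 : M) P T
      rwa [zero_smul, zero_mul, ← h0] at h1
    rcases hPT with h1 | h1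
    · exact h1 (hz A)
    · exact h1 (hz B)
  have hlRT : q * bv A R T - p * bv B R T ≠ 0 := by
    have e3 : q * bv A R T - p * bv B R T = -((q * v - p * w) * (q * r - p * s) ^ 2) := by
      rw [aRT, bRT, hα, hγ]
      ring
    rw [e3]
    exact neg_ne_zero.2 (mul_ne_zero hQ' (pow_ne_zero 2 hRu'))
  have hRT : bv A R T ≠ 0 ∨ bv B R T ≠ 0 := by
    by_contra hc
    push Not at hc
    apply hlRT
    rw [hc.1, hc.2]
    ring
  -- the member `λ`
  have hab : q ≠ 0 ∨ -p ≠ 0 := by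
    rw [hp, hq]
    rcases h with h | h
    · exact Or.inr (neg_ne_zero.2 h)
    · exact Or.inl h
  obtain ⟨hsq, hL⟩ := Lm.pt aP bP aR bR h
  rw [← hp, ← hq] at hL
  have h1 := pt_cls (k := k) (Ω := Ω) hs hn hab hP hR zP zR h
    (by rw [mB, ← hp, ← hq]; ring) ⟨P, R, hL⟩
  have h2 := pt_cls (k := k) (Ω := Ω) hs hn hab hP hT0 zP ((zer_iff A B).2 ⟨aT, bT⟩) hPT
    (by rw [mB, aPT, bPT]; ring) ⟨P, R, hL⟩
  -- the member `μ`
  have hcd : w ≠ 0 ∨ -v ≠ 0 := by
    by_contra hc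
    push Not at hc
    apply hQ'
    rw [hc.1, neg_eq_zero.1 hc.2]
    ring
  have hTg : Tg A B w (-v) P u := by
    refine ⟨hP, aP, bP, aPu, bPu, ?_, ?_⟩
    · rw [mQ, ← hv, ← hw]
      ring
    · rintro ⟨h3, h4⟩
      rw [← hv] at h3
      rw [← hw] at h4
      apply hQ'
      rw [h3, h4]
      ring
  obtain ⟨hsq', hL'⟩ := hTg.lm
  have h3 := tg_cls (k := k) (Ω := Ω) hs hn hcd hTg ⟨P, u, hL'⟩
  have h4 := pt_cls (k := k) (Ω := Ω) hs hn hcd hR hT0 zR ((zer_iff A B).2 ⟨aT, bT⟩) hRT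
    (by rw [mB, aRT, bRT, hα, hγ]; ring) ⟨P, u, hL'⟩
  have h5 := AddSubgroup.sub_mem _ (AddSubgroup.sub_mem _ h4 h3) (AddSubgroup.sub_mem _ h2 h1)
  have e : ∀ x y z t t' : ℙ Ω (Fin n → Ω) →₀ ℤ, t' - (y + z) - (t' - (2 : ℤ) • x) -
      (t - (x + z) - (t - (x + y))) = (2 : ℤ) • x - (2 : ℤ) • y := by
    intro x y z t t'
    rw [two_zsmul, two_zsmul]
    abel
  rwa [e] at h5

end Dp
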