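import Pool.Agent.Lib.MP_f80667_ag.Dp.Gen
import Pool.Agent.Lib.MP_f80667_ag.Dp.Tang
import Pool.Agent.Lib.MP_f80667_ag.Tq.EndD

/-! The double of a point does not depend on the point; criterion for `F^1 = 0`. -/

open scoped LinearAlgebra.Projectivization

namespace Dp

open ZC Tq

universe u

variable {k : Type u} [Field k] [CharZero k] {Ω : Type u} [Field Ω] [Algebra k Ω] [IsAlgClosed Ω]
  {n : ℕ} {A B : Matrix (Fin n) (Fin n) k} {M : Type u} [Field M] [Algebra k M]
  [FiniteDimensional k M]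

/-- If the member through `P` and `R` is nondegenerate. Proof: `dbl_step`: a vector `u ∈ TP A B P`
with `mQ u ≠ 0` (`no_sub` with `TP_rank`) and `mB R u ≠ 0` (otherwise by `TP_ann` `mB R` is a
combination of `bv A P`, `bv B P`, evaluated at `R` it is a multiple of the member, so `R - c P` is in
the radical, so `R = c P`, and `bv A P R = bv B P R = 0`, contradiction to `ND`, `n > 0`), together by
`PL.exists_two` on `TP A B P`. -/
theorem dbl_nd (hs : Sm Ω A B) (hn : 6 ≤ n) {P R : Fin n → M} (hP : P ≠ 0) (hR : R ≠ 0)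
    (zP : Zer (Pl A B) M P) (zR : Zer (Pl A B) M R) (h : ND A B (bv B P R) (-bv A P R)) :
    (2 : ℤ) • trPt k Ω (Projectivization.mk M P hP) -
      (2 : ℤ) • trPt k Ω (Projectivization.mk M R hR) ∈ ratEq Ω (Pl A B) := by
  have hcM : CharZero M := charZero_of_injective_algebraMap (algebraMap k M).injective
  have halg : Algebra.IsAlgebraic k M := inferInstance
  obtain ⟨σ, -⟩ : ∃ σ : M →ₐ[k] Ω, True := ⟨IsAlgClosed.lift, trivial⟩
  obtain ⟨aP, bP⟩ := (zer_iff A B).1 zP
  obtain ⟨aR, bR⟩ := (zer_iff A B).1 zR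
  have hPR : bv A P R ≠ 0 ∨ bv B P R ≠ 0 := by
    by_contra hcon
    push Not at hcon
    obtain ⟨y, hy⟩ := h P hP
    apply hy
    rw [mB, hcon.1, hcon.2]
    ring
  have hab : bv B P R ≠ 0 ∨ -bv A P R ≠ 0 := by
    rcases hPR with h1 | h1
    · exact Or.inr (neg_ne_zero.2 h1)
    · exact Or.inl h1
  -- the form is not zero on the tangent space
  have hrank := TP_rank hs σ hP aP bP
  obtain ⟨u₁, hu₁, hq₁⟩ := no_sub two_ne_zero hs σ hn (TP A B P) (by omega) hab
  -- the functional of `R` is not zero on the tangent space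
  obtain ⟨u₂, hu₂, hq₂⟩ : ∃ u ∈ TP A B P, mB A B (bv B P R) (-bv A P R) R u ≠ 0 := by
    by_contra hcon
    push Not at hcon
    obtain ⟨c, d, hcd⟩ := TP_ann (mBl A B (bv B P R) (-bv A P R) R) hcon
    have h0 : c * bv A P R + d * bv B P R = 0 := by
      rw [← hcd R, mBl_apply, mB_self, mQ, aR, bR]
      ring
    obtain ⟨e, he₁, he₂⟩ : ∃ e : M, c = e * bv B P R ∧ d = e * -bv A P R := by
      rcases hPR with h1 | h1
      · refine ⟨-(d / bv A P R), ?_, ?_⟩
        · field_simp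
          linear_combination h0
        · field_simp
      · refine ⟨c / bv B P R, ?_, ?_⟩
        · field_simp
        · field_simp
          linear_combination h0
    have hrad : R - e • P = 0 := by
      by_contra hne
      obtain ⟨y, hy⟩ := h _ hne
      apply hy
      have h1 := hcd y
      rw [mBl_apply] at h1
      have h2 : R - e • P = R + (-e) • P := by
        rw [neg_smul, sub_eq_add_neg]
      rw [h2, mB_add, mB_smul, h1, he₁, he₂, mB]
      ring
    have hRe : R = e • P := sub_eq_zero.1 hrad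
    have hz : ∀ H : Matrix (Fin n) (Fin n) k, qv H P = 0 → bv H P R = 0 := by
      intro H hH
      rw [hRe, bv_smul_right, bv_self, hH]
      ring
    rcases hPR with h1 | h1
    · exact h1 (hz A aP)
    · exact h1 (hz B bP)
  obtain ⟨u, hu, hq, hr⟩ : ∃ u ∈ TP A B P, mQ A B (bv B P R) (-bv A P R) u ≠ 0 ∧
      mB A B (bv B P R) (-bv A P R) R u ≠ 0 := by
    by_cases h1 : mB A B (bv B P R) (-bv A P R) R u₁ = 0
    swap
    · exact ⟨u₁, hu₁, hq₁, h1⟩
    by_cases h2 : mQ A B (bv B P R) (-bv A P R) u₂ = 0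
    swap
    · exact ⟨u₂, hu₂, h2, hq₂⟩
    by_cases h3 : mQ A B (bv B P R) (-bv A P R) (u₁ + u₂) = 0
    · refine ⟨u₁ + (-1 : M) • u₂, (TP A B P).add_mem hu₁ ((TP A B P).smul_mem _ hu₂), ?_, ?_⟩
      · rw [mQ_add, h2] at h3
        rw [mQ_add, mB_smul_right, mQ_smul, h2]
        intro h4
        apply hq₁
        have h5 : (2 : M) * mQ A B (bv B P R) (-bv A P R) u₁ = 0 := by
          linear_combination h3 + h4
        exact (mul_eq_zero.1 h5).resolve_left two_ne_zero
      · rw [mB_add_right, mB_smul_right, h1]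
        intro h4
        apply hq₂
        linear_combination -h4
    · refine ⟨u₁ + u₂, (TP A B P).add_mem hu₁ hu₂, h3, ?_⟩
      rw [mB_add_right, h1, zero_add]
      exact hq₂
  exact dbl_step hs (by omega) hP hR zP zR hPR hu hq hr

/-- Proof: `exists_third`, `dbl_nd` twice. -/
theorem dbl (hs : Sm Ω A B) (hn : 6 ≤ n) {P R : Fin n → M} (hP : P ≠ 0) (hR : R ≠ 0)
    (zP : Zer (Pl A B) M P) (zR : Zer (Pl A B) M R) :
    (2 : ℤ) • trPt k Ω (Projectivization.mk M P hP) -
      (2 : ℤ) • trPt k Ω (Projectivization.mk M R hR) ∈ ratEq Ω (Pl A B) := by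
  have halg : Algebra.IsAlgebraic k M := inferInstance
  obtain ⟨σ, -⟩ : ∃ σ : M →ₐ[k] Ω, True := ⟨IsAlgClosed.lift, trivial⟩
  obtain ⟨W, hW, zW, h1, h2⟩ := exists_third hs σ hn hP zP hR zR
  have h3 := dbl_nd (k := k) (Ω := Ω) hs hn hP hW zP zW h1
  have h4 := dbl_nd (k := k) (Ω := Ω) hs hn hR hW zR zW h2
  have h5 := (ratEq Ω (Pl A B)).sub_mem h3 h4
  rwa [sub_sub_sub_cancel_right] at h5

/-- **If all members over all finite extensions contain tangent lines then `F^1` is zero.** Proof: a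
point `P₀` of `X` over `k` (the hypothesis for `M = k`, `(1, 0)`), `ζ = 2 [P₀]`; `Tq.mem_of_cls`: for
`IsT A B p t` over `M` take the tangent line of the hypothesis for `(qv B p, -qv A p)`, `tg_cls`,
`dbl` with `P₀` over `M`, `trPt_tower` (for `K = k`; the trace over `k` itself). -/
theorem F1_of_tg [IsAlgClosure k Ω] (hs : Sm Ω A B) (hn : 6 ≤ n)
    (h : ∀ (M : Type u) [Field M] [Algebra k M] [FiniteDimensional k M] (a b : M),
      a ≠ 0 ∨ b ≠ 0 → ∃ P u : Fin n → M, Tg A B a b P u) :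
    ∀ z ∈ cyc0 Ω (Pl A B), z ∈ ratEq Ω (Pl A B) := by
  obtain ⟨P₀, u₀, h₀⟩ := h k 1 0 (Or.inl one_ne_zero)
  have zP₀ : Zer (Pl A B) k P₀ := (zer_iff A B).2 ⟨h₀.aP, h₀.bP⟩
  refine mem_of_cls (ζ := (2 : ℤ) • trPt k Ω (Projectivization.mk k P₀ h₀.hP)) ?_ ?_ hs hn
  · intro M _ _ _ p t ht
    have hp : qv B p ≠ 0 ∨ -qv A p ≠ 0 := by
      by_contra hcon
      push Not at hcon
      exact ht.ne ((zer_iff A B).2 ⟨neg_eq_zero.1 hcon.2, hcon.1⟩)
    obtain ⟨P, u, hT⟩ := h M (qv B p) (-qv A p) hp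
    have hM : IsM A B (qv B p) (-qv A p) t := IsM.of_isT ht
    have h1 := tg_cls (k := k) (Ω := Ω) hs (by omega) hp hT hM
    have hPM : (fun i => algebraMap k M (P₀ i)) ≠ 0 := comp_ne (algebraMap k M) h₀.hP
    have zPM : Zer (Pl A B) M (fun i => algebraMap k M (P₀ i)) :=
      (zer_comp (Algebra.ofId k M) P₀).2 zP₀
    have h2 := dbl (k := k) (Ω := Ω) hs hn hT.hP hPM ((zer_iff A B).2 ⟨hT.aP, hT.bP⟩) zPM
    have h3 := (ratEq Ω (Pl A B)).add_mem h1 h2
    rw [sub_add_sub_cancel, ← mapPt_mk (algebraMap k M) P₀ h₀.hP, trPt_tower] at h3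
    rw [smul_comm, natCast_zsmul]
    exact h3
  · rw [map_zsmul, deg_trPt, Module.finrank_self]
    rfl

end Dp
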