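import Pool.Agent.Lib.MP_f80667_ag.Tq.Cor
import Pool.Agent.Lib.MP_f80667_ag.Tq.One
import Pool.Agent.Lib.MP_f80667_ag.Tq.Pts
import Pool.Agent.Lib.MP_f80667_ag.Tq.GenA
import Pool.Agent.Lib.MP_f80667_ag.Ts.ConcA

/-!
Smooth intersections of two quadrics in at least six variables, without points: the members
`a A + b B` of the pencil and the lines on them.

* `mQ A B a b x`, `mB A B a b x y`: the member `(a, b)` of the pencil and its polar form.
* `ND A B a b`: the member is nondegenerate.
* `Lm A B a b p x t`: `p`, `x` span a line on the member `(a, b)` which is not contained in `X`, and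
  `t` is the tensor of its intersection with `X`.
* `IsM A B a b t`: `t` is the tensor of a line on the member `(a, b)`.
* `Tg A B a b P u`: the line through `P` and `u` is on the member `(a, b)`, is not contained in `X`
  and is tangent to `X` at `P`.
-/

open scoped LinearAlgebra.Projectivization

namespace Dp

open ZC Tq

universe u

section alg

variable {k : Type*} [Field k] {n : ℕ} (A B : Matrix (Fin n) (Fin n) k) {R : Type*} [CommRing R]
  [Algebra k R]

/-- The member `(a, b)` of the pencil. -/
def mQ (a b : R) (x : Fin n → R) : R := a * qv A x + b * qv B x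

/-- Its polar form. -/
def mB (a b : R) (x y : Fin n → R) : R := a * bv A x y + b * bv B x y

variable {A B}

theorem mQ_smul (a b c : R) (x : Fin n → R) : mQ A B a b (c • x) = c ^ 2 * mQ A B a b x := by
  rw [mQ, mQ, qv_smul, qv_smul]
  ring

theorem mQ_add (a b : R) (x y : Fin n → R) :
    mQ A B a b (x + y) = mQ A B a b x + mB A B a b x y + mQ A B a b y := by
  rw [mQ, mQ, mQ, mB, qv_add, qv_add]
  ring

theorem mQ_lin (a b c d : R) (x y : Fin n → R) : mQ A B a b (c • x + d • y) =
    c ^ 2 * mQ A B a b x + c * d * mB A B a b x y + d ^ 2 * mQ A B a b y := by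
  rw [mQ, mQ, mQ, mB, qv_lin, qv_lin]
  ring

theorem mB_comm (a b : R) (x y : Fin n → R) : mB A B a b x y = mB A B a b y x := by
  rw [mB, mB, bv_comm A x y, bv_comm B x y]

theorem mB_self (a b : R) (x : Fin n → R) : mB A B a b x x = 2 * mQ A B a b x := by
  rw [mB, mQ, bv_self, bv_self]
  ring

theorem mB_add (a b : R) (x y z : Fin n → R) :
    mB A B a b (x + y) z = mB A B a b x z + mB A B a b y z := by
  rw [mB, mB, mB, bv_add, bv_add]
  ring

theorem mB_add_right (a b : R) (x y z : Fin n → R) :
    mB A B a b x (y + z) = mB A B a b x y + mB A B a b x z := by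
  rw [mB, mB, mB, bv_add_right, bv_add_right]
  ring

theorem mB_smul (a b c : R) (x y : Fin n → R) : mB A B a b (c • x) y = c * mB A B a b x y := by
  rw [mB, mB, bv_smul, bv_smul]
  ring

theorem mB_smul_right (a b c : R) (x y : Fin n → R) :
    mB A B a b x (c • y) = c * mB A B a b x y := by
  rw [mB, mB, bv_smul_right, bv_smul_right]
  ring

theorem mQ_scale (a b c : R) (x : Fin n → R) : mQ A B (c * a) (c * b) x = c * mQ A B a b x := by
  rw [mQ, mQ]
  ring

theorem mB_scale (a b c : R) (x y : Fin n → R) :
    mB A B (c * a) (c * b) x y = c * mB A B a b x y := by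
  rw [mB, mB]
  ring

theorem mQ_hom {S : Type*} [CommRing S] [Algebra k S] (f : R →ₐ[k] S) (a b : R) (x : Fin n → R) :
    mQ A B (f a) (f b) (fun i => f (x i)) = f (mQ A B a b x) := by
  simp only [mQ, qv_hom, map_add, map_mul]

theorem mB_hom {S : Type*} [CommRing S] [Algebra k S] (f : R →ₐ[k] S) (a b : R)
    (x y : Fin n → R) :
    mB A B (f a) (f b) (fun i => f (x i)) (fun i => f (y i)) = f (mB A B a b x y) := by
  simp only [mB, bv_hom, map_add, map_mul]

theorem Qp_eq (p x : Fin n → R) : Qp A B p x = mQ A B (qv B p) (-qv A p) x := by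
  rw [Qp, mQ]
  ring

theorem Bp_eq (p x y : Fin n → R) : Bp A B p x y = mB A B (qv B p) (-qv A p) x y := by
  rw [Bp, mB]
  ring

variable (A B) in
/-- The polar form of a member with one vector fixed, as a linear map. -/
def mBl (a b : R) (x : Fin n → R) : (Fin n → R) →ₗ[R] R where
  toFun := mB A B a b x
  map_add' := mB_add_right a b x
  map_smul' c y := mB_smul_right a b c x y

theorem mBl_apply (a b : R) (x y : Fin n → R) : mBl A B a b x y = mB A B a b x y := rfl

variable (A B) in
/-- A member of the pencil as a quadratic map. -/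
def mqf (a b : R) : QuadraticMap R (Fin n → R) R :=
  QuadraticMap.ofPolar (mQ A B a b)
    (fun c x => by rw [mQ_smul, smul_eq_mul, pow_two])
    (fun x y z => by
      simp only [QuadraticMap.polar, mQ_add, mB_add]
      ring)
    (fun c x y => by
      simp only [QuadraticMap.polar, mQ_add, mB_smul, mQ_smul, smul_eq_mul]
      ring)

theorem mqf_apply (a b : R) (x : Fin n → R) : mqf A B a b x = mQ A B a b x := rfl

theorem mqf_polar (a b : R) (x y : Fin n → R) :
    QuadraticMap.polar (mqf A B a b) x y = mB A B a b x y := by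
  simp only [QuadraticMap.polar, mqf_apply, mQ_add]
  ring

variable (A B)

/-- The member `(a, b)` is nondegenerate. -/
def ND (a b : R) : Prop := ∀ x : Fin n → R, x ≠ 0 → ∃ y : Fin n → R, mB A B a b x y ≠ 0

end alg

section field

variable {k : Type*} [Field k] {n : ℕ} (A B : Matrix (Fin n) (Fin n) k) {E : Type*} [Field E]
  [Algebra k E]

/-- The vectors `p`, `x` span a line on the member `(a, b)`, not contained in `X`; `t` is the tensor
of the intersection of this line and `X`. -/
structure Lm (a b : E) (p x : Fin n → E) (t : ℙ E (Fin (n * n) → E)) : Prop where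
  ind : LinearIndependent E ![p, x]
  qp : mQ A B a b p = 0
  qx : mQ A B a b x = 0
  b : mB A B a b p x = 0
  ten : ∃ H, (H = A ∨ H = B) ∧ ∃ h : tn H p x ≠ 0, t = Projectivization.mk E (tn H p x) h

/-- `t` is the tensor of a line on the member `(a, b)`. -/
def IsM (a b : E) (t : ℙ E (Fin (n * n) → E)) : Prop := ∃ p x, Lm A B a b p x t

/-- The line through `P` and `u` is on the member `(a, b)`, is not contained in `X`, and is tangent
to `X` at the point `P`. -/
structure Tg (a b : E) (P u : Fin n → E) : Prop where
  hP : P ≠ 0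
  aP : qv A P = 0
  bP : qv B P = 0
  aPu : bv A P u = 0
  bPu : bv B P u = 0
  qu : mQ A B a b u = 0
  nu : ¬ (qv A u = 0 ∧ qv B u = 0)

/-- The tangent space of `X` at `P`. -/
def TP (P : Fin n → E) : Submodule E (Fin n → E) where
  carrier := {u | bv A P u = 0 ∧ bv B P u = 0}
  add_mem' := by
    rintro x y ⟨h1, h2⟩ ⟨h3, h4⟩
    exact ⟨by rw [bv_add_right, h1, h3, add_zero], by rw [bv_add_right, h2, h4, add_zero]⟩
  zero_mem' := by
    have h : ∀ H : Matrix (Fin n) (Fin n) k, bv H P (0 : Fin n → E) = 0 := fun H => by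
      have h1 := bv_smul_right H (0 : E) P (0 : Fin n → E)
      rwa [zero_smul, zero_mul] at h1
    exact ⟨h A, h B⟩
  smul_mem' := by
    rintro c x ⟨h1, h2⟩
    exact ⟨by rw [bv_smul_right, h1, mul_zero], by rw [bv_smul_right, h2, mul_zero]⟩

variable {A B}

theorem mem_TP {P u : Fin n → E} : u ∈ TP A B P ↔ bv A P u = 0 ∧ bv B P u = 0 := Iff.rfl

end field

end Dp
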