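import Pool.Agent.Lib.MP_f80667_ag.Dp.Defs

/-! Nonzero polynomial functions over infinite fields. -/

namespace Dp

open ZC Tq

section pl

variable (E : Type*) [Field E] {V : Type*} [AddCommGroup V] [Module E V] {R : Type*} [Field R]
  [Algebra E R]

/-- A function which is polynomial on all lines. -/
def PL (f : V → R) : Prop :=
  ∀ x y : V, ∃ p : Polynomial R, ∀ t : E, f (x + t • y) = p.eval (algebraMap E R t)

variable {E}

theorem PL.const (c : R) : PL E (fun _ : V => c) := fun _ _ =>
  ⟨Polynomial.C c, fun _ => by rw [Polynomial.eval_C]⟩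

theorem PL.add {f g : V → R} (hf : PL E f) (hg : PL E g) : PL E (fun v => f v + g v) := by
  intro x y
  obtain ⟨p, hp⟩ := hf x y
  obtain ⟨q, hq⟩ := hg x y
  exact ⟨p + q, fun t => by rw [Polynomial.eval_add, ← hp, ← hq]⟩

theorem PL.neg {f : V → R} (hf : PL E f) : PL E (fun v => -f v) := by
  intro x y
  obtain ⟨p, hp⟩ := hf x y
  exact ⟨-p, fun t => by rw [Polynomial.eval_neg, ← hp]⟩

theorem PL.sub {f g : V → R} (hf : PL E f) (hg : PL E g) : PL E (fun v => f v - g v) := by
  intro x y
  obtain ⟨p, hp⟩ := hf x y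
  obtain ⟨q, hq⟩ := hg x y
  exact ⟨p - q, fun t => by rw [Polynomial.eval_sub, ← hp, ← hq]⟩

theorem PL.mul {f g : V → R} (hf : PL E f) (hg : PL E g) : PL E (fun v => f v * g v) := by
  intro x y
  obtain ⟨p, hp⟩ := hf x y
  obtain ⟨q, hq⟩ := hg x y
  exact ⟨p * q, fun t => by rw [Polynomial.eval_mul, ← hp, ← hq]⟩

theorem PL.pow {f : V → R} (hf : PL E f) (m : ℕ) : PL E (fun v => f v ^ m) := by
  intro x y
  obtain ⟨p, hp⟩ := hf x y
  exact ⟨p ^ m, fun t => by rw [Polynomial.eval_pow, ← hp]⟩

theorem PL.lin (ℓ : V →ₗ[E] R) : PL E (fun v => ℓ v) := by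
  intro x y
  refine ⟨Polynomial.C (ℓ x) + Polynomial.X * Polynomial.C (ℓ y), fun t => ?_⟩
  change ℓ (x + t • y) = _
  rw [Polynomial.eval_add, Polynomial.eval_mul, Polynomial.eval_C, Polynomial.eval_C,
    Polynomial.eval_X, map_add, map_smul, Algebra.smul_def]

theorem PL.sum {ι : Type*} (s : Finset ι) {f : ι → V → R} (hf : ∀ i, PL E (f i)) :
    PL E (fun v => ∑ i ∈ s, f i v) := by
  classical
  induction s using Finset.induction_on with
  | empty =>
    have h1 : (fun v : V => ∑ i ∈ (∅ : Finset ι), f i v) = fun _ => (0 : R) := by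
      funext v
      exact Finset.sum_empty
    rw [h1]
    exact PL.const 0
  | insert a s ha ih =>
    have h1 : (fun v : V => ∑ i ∈ insert a s, f i v) = fun v => f a v + ∑ i ∈ s, f i v := by
      funext v
      exact Finset.sum_insert ha
    rw [h1]
    exact (hf a).add ih

/-- The forms of vectors with polynomial coordinates. -/
theorem PL.qv {k : Type*} [Field k] [Algebra k R] {n : ℕ} (H : Matrix (Fin n) (Fin n) k)
    {f : V → Fin n → R} (hf : ∀ i, PL E (fun v => f v i)) : PL E (fun v => ZC.qv H (f v)) := by
  unfold ZC.qv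
  exact PL.sum _ fun i => PL.sum _ fun j => (PL.const _).mul ((hf i).mul (hf j))

theorem PL.bv {k : Type*} [Field k] [Algebra k R] {n : ℕ} (H : Matrix (Fin n) (Fin n) k)
    {f g : V → Fin n → R} (hf : ∀ i, PL E (fun v => f v i)) (hg : ∀ i, PL E (fun v => g v i)) :
    PL E (fun v => ZC.bv H (f v) (g v)) := by
  unfold ZC.bv
  exact PL.sum _ fun i => PL.sum _ fun j =>
    (PL.const _).mul (((hf i).mul (hg j)).add ((hg i).mul (hf j)))

/-- Finitely many polynomial functions which are not zero have a common point where they do not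
vanish. Proof: induction on the number of functions; for two points `x`, `y` the functions are
polynomial on the line through `x` and `y`, so each of them has finitely many zeros there or vanishes
on the line, which it does not (`f (x + 0 • (y - x))`, `f (x + 1 • (y - x))`). -/
theorem PL.exists_ne [Infinite E] {ι : Type*} [Finite ι] [Nonempty V] (f : ι → V → R)
    (hf : ∀ i, PL E (f i)) (h : ∀ i, ∃ x, f i x ≠ 0) : ∃ x, ∀ i, f i x ≠ 0 := by
  classical
  have key : ∀ s : Finset ι, ∃ x, ∀ i ∈ s, f i x ≠ 0 := by
    intro s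
    induction s using Finset.induction_on with
    | empty => exact ⟨Classical.arbitrary V, fun i hi => absurd hi (Finset.notMem_empty i)⟩
    | insert a s ha ih =>
      obtain ⟨x, hx⟩ := ih
      obtain ⟨y, hy⟩ := h a
      choose p hp using fun i => hf i x (y - x)
      have hp0 : ∀ i ∈ insert a s, p i ≠ 0 := by
        intro i hi h0
        rcases Finset.mem_insert.1 hi with rfl | hi
        · have h1 := hp i 1
          rw [h0, Polynomial.eval_zero, one_smul, add_sub_cancel] at h1
          exact hy h1
        · have h1 := hp i 0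
          rw [h0, Polynomial.eval_zero, zero_smul, add_zero] at h1
          exact hx i hi h1
      have hP : ∏ i ∈ insert a s, p i ≠ 0 := Finset.prod_ne_zero_iff.2 hp0
      obtain ⟨t, ht⟩ : ∃ t : E, (∏ i ∈ insert a s, p i).eval (algebraMap E R t) ≠ 0 := by
        by_contra hcon
        push Not at hcon
        apply hP
        refine Polynomial.eq_zero_of_infinite_isRoot _ ?_
        refine (Set.infinite_range_of_injective (algebraMap E R).injective).mono ?_
        rintro _ ⟨t, rfl⟩
        exact hcon t
      refine ⟨x + t • (y - x), fun i hi => ?_⟩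
      rw [hp i t]
      intro h0
      apply ht
      rw [Polynomial.eval_prod]
      exact Finset.prod_eq_zero hi h0
  have := Fintype.ofFinite ι
  obtain ⟨x, hx⟩ := key Finset.univ
  exact ⟨x, fun i => hx i (Finset.mem_univ i)⟩

/-- The case of two functions. -/
theorem PL.exists_two [Infinite E] {f g : V → R} (hf : PL E f) (hg : PL E g) (h : ∃ x, f x ≠ 0)
    (h' : ∃ x, g x ≠ 0) : ∃ x, f x ≠ 0 ∧ g x ≠ 0 := by
  have : Nonempty V := ⟨h.choose⟩
  obtain ⟨x, hx⟩ := PL.exists_ne (E := E) (fun i : Fin 2 => if i = 0 then f else g)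
    (fun i => by
      fin_cases i
      · exact hf
      · exact hg)
    (fun i => by
      fin_cases i
      · exact h
      · exact h')
  exact ⟨x, hx 0, hx 1⟩

end pl

section mv

variable {M Ω : Type*} [Field M] [Field Ω] (σ : M →+* Ω) [Infinite M] {m : ℕ}

/-- A nonzero polynomial over `Ω` does not vanish at all points with coordinates in an infinite
subfield. Proof: `MvPolynomial.funext_set`. -/
theorem exists_eval_ne (f : MvPolynomial (Fin m) Ω) (hf : f ≠ 0) :
    ∃ c : Fin m → M, MvPolynomial.eval (fun i => σ (c i)) f ≠ 0 := by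
  by_contra hcon
  push Not at hcon
  apply hf
  refine MvPolynomial.funext_set (fun _ => Set.range σ)
    (fun _ => Set.infinite_range_of_injective σ.injective) fun x hx => ?_
  choose c hc using fun i => hx i (Set.mem_univ i)
  rw [map_zero, ← hcon c]
  congr 2
  funext i
  exact (hc i).symm

/-- A polynomial in two sets of variables does not vanish at all pairs of conjugate points of a
quadratic extension. Proof: there is `δ : M'` with `τ δ ≠ δ`; `c i = x i + δ y i`; the linear change
of variables `(x, y) ↦ (x + σ δ y, x + σ (τ δ) y)` over `Ω` is invertible, so the polynomial in `x`,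
`y` is not zero, and it does not vanish at some `(x, y)` with coordinates in `M`. (Here `τ` is an
automorphism of `M'` over `M`.) -/
theorem exists_eval_conj {M' : Type*} [Field M'] [Algebra M M'] (τ : M' ≃ₐ[M] M')
    (hτ : ∃ d, τ d ≠ d) (σ : M' →+* Ω) (f : MvPolynomial (Fin m ⊕ Fin m) Ω) (hf : f ≠ 0) :
    ∃ c : Fin m → M',
      MvPolynomial.eval (Sum.elim (fun i => σ (c i)) (fun i => σ (τ (c i)))) f ≠ 0 := by
  obtain ⟨δ, hδ⟩ := hτ
  have hinf : Infinite Ω := Infinite.of_injective (fun x : M => σ (algebraMap M M' x))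
    (σ.injective.comp (algebraMap M M').injective)
  have hab : σ (τ δ) - σ δ ≠ 0 := sub_ne_zero.2 fun h => hδ (σ.injective h)
  by_contra hcon
  push Not at hcon
  apply hf
  -- the polynomial in the new variables
  obtain ⟨F, hF⟩ : ∃ F : MvPolynomial (Fin m ⊕ Fin m) Ω, ∀ x y : Fin m → Ω,
      MvPolynomial.eval (Sum.elim x y) F =
        MvPolynomial.eval (Sum.elim (fun i => x i + σ δ * y i) (fun i => x i + σ (τ δ) * y i)) f := by
    refine ⟨MvPolynomial.bind₁ (Sum.elim
      (fun i => MvPolynomial.X (Sum.inl i) + MvPolynomial.C (σ δ) * MvPolynomial.X (Sum.inr i))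
      (fun i => MvPolynomial.X (Sum.inl i) + MvPolynomial.C (σ (τ δ)) *
        MvPolynomial.X (Sum.inr i))) f, fun x y => ?_⟩
    change MvPolynomial.eval₂Hom (RingHom.id Ω) (Sum.elim x y) (MvPolynomial.bind₁ _ f) =
      MvPolynomial.eval₂Hom (RingHom.id Ω) _ f
    rw [MvPolynomial.eval₂Hom_bind₁]
    congr 2
    funext j
    rcases j with i | i
    · simp
    · simp
  have hF0 : F = 0 := by
    refine MvPolynomial.funext_set (fun _ => Set.range fun x : M => σ (algebraMap M M' x))
      (fun _ => Set.infinite_range_of_injective (σ.injective.comp (algebraMap M M').injective))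
      fun z hz => ?_
    choose c hc using fun i => hz i (Set.mem_univ i)
    have hz' : z = Sum.elim (fun i => σ (algebraMap M M' (c (Sum.inl i))))
        (fun i => σ (algebraMap M M' (c (Sum.inr i)))) := by
      funext j
      rcases j with i | i
      · exact (hc _).symm
      · exact (hc _).symm
    rw [hz', hF, map_zero, ← hcon (fun i => algebraMap M M' (c (Sum.inl i)) +
      δ * algebraMap M M' (c (Sum.inr i)))]
    congr 2
    funext j
    rcases j with i | i
    · simp
    · simp
  refine MvPolynomial.funext fun z => ?_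
  have h1 := hF (fun i => z (Sum.inl i) - σ δ * ((z (Sum.inr i) - z (Sum.inl i)) /
    (σ (τ δ) - σ δ))) (fun i => (z (Sum.inr i) - z (Sum.inl i)) / (σ (τ δ) - σ δ))
  rw [hF0, map_zero] at h1
  rw [map_zero, h1]
  congr 2
  funext j
  rcases j with i | i
  · simp
  · simp only [Sum.elim_inr]
    field_simp
    ring

end mv

end Dp
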