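import Mathlib

/-! Zeros of quadratic forms over finite fields. -/

namespace Dp

open Finset MvPolynomial

/-- A quadratic form in the coordinates of linearly independent vectors, as a polynomial. -/
private theorem ffa_poly {k : Type*} [Field k] {V : Type*} [AddCommGroup V] [Module k V]
    {n : ℕ} (b : Fin n → V) (Q : QuadraticMap k V k) :
    ∃ f : MvPolynomial (Fin n) k, f.totalDegree ≤ 2 ∧
      ∀ x : Fin n → k, eval x f = Q (∑ i, x i • b i) := by
  obtain ⟨B, rfl⟩ := LinearMap.BilinMap.toQuadraticMap_surjective Q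
  refine ⟨∑ i, ∑ j, C (B (b i) (b j)) * (X i * X j), ?_, fun x => ?_⟩
  · refine (totalDegree_finsetSum _ _).trans (Finset.sup_le fun i _ => ?_)
    refine (totalDegree_finsetSum _ _).trans (Finset.sup_le fun j _ => ?_)
    refine (totalDegree_mul _ _).trans ?_
    rw [totalDegree_C, zero_add]
    refine (totalDegree_mul _ _).trans ?_
    rw [totalDegree_X, totalDegree_X]
  · rw [LinearMap.BilinMap.toQuadraticMap_apply]
    simp only [map_sum, map_mul, eval_C, eval_X, LinearMap.sum_apply, map_smul,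
      LinearMap.smul_apply, smul_eq_mul]
    rw [sum_comm]
    refine sum_congr rfl fun i _ => ?_
    rw [mul_sum]
    refine sum_congr rfl fun j _ => ?_
    ring

/-- Two polynomials of small degree without constant term have a common nonzero zero. -/
private theorem ffa_cw {k : Type*} [Field k] [Finite k] {n : ℕ} (f g : MvPolynomial (Fin n) k)
    (h : f.totalDegree + g.totalDegree < n) (hf : eval 0 f = 0) (hg : eval 0 g = 0) :
    ∃ x : Fin n → k, x ≠ 0 ∧ eval x f = 0 ∧ eval x g = 0 := by
  classical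
  have := Fintype.ofFinite k
  obtain ⟨p, hp⟩ := CharP.exists k
  have hpp : p.Prime := CharP.char_is_prime k p
  have h1 := char_dvd_card_solutions_of_add_lt p (f₁ := f) (f₂ := g) (by simpa using h)
  have h2 : 0 < Fintype.card { x : Fin n → k // eval x f = 0 ∧ eval x g = 0 } :=
    Fintype.card_pos_iff.2 ⟨⟨0, hf, hg⟩⟩
  have h3 : 1 < Fintype.card { x : Fin n → k // eval x f = 0 ∧ eval x g = 0 } :=
    lt_of_lt_of_le hpp.one_lt (Nat.le_of_dvd h2 h1)
  obtain ⟨⟨x, hx⟩, hne⟩ := Fintype.exists_ne_of_one_lt_card h3 ⟨0, hf, hg⟩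
  exact ⟨x, fun h0 => hne (Subtype.ext h0), hx.1, hx.2⟩

private theorem ffa_vec {k : Type*} [Field k] {V : Type*} [AddCommGroup V] [Module k V]
    {U : Submodule k V} {n : ℕ} {b : Fin n → U} (hb : LinearIndependent k b) {x : Fin n → k}
    (hx : x ≠ 0) : ∑ i, x i • (b i : V) ∈ U ∧ ∑ i, x i • (b i : V) ≠ 0 := by
  refine ⟨U.sum_mem fun i _ => U.smul_mem _ (b i).2, fun h0 => hx ?_⟩
  have h1 : ∑ i, x i • b i = 0 := by
    apply Subtype.ext
    simpa using h0
  funext i
  exact Fintype.linearIndependent_iff.1 hb x h1 i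

/-- A quadratic form on a space of dimension at least three over a finite field has a zero
(Chevalley-Warning). -/
theorem exists_zero3 {k : Type*} [Field k] [Finite k] {V : Type*} [AddCommGroup V] [Module k V]
    (U : Submodule k V) (hU : 3 ≤ Module.finrank k U) (Q : QuadraticMap k V k) :
    ∃ x ∈ U, x ≠ 0 ∧ Q x = 0 := by
  obtain ⟨b, hb⟩ := exists_linearIndependent_of_le_finrank hU
  obtain ⟨f, hf, hfe⟩ := ffa_poly (fun i => (b i : V)) Q
  obtain ⟨x, hx, hx1, -⟩ := ffa_cw f 0 (by simp; omega) (by rw [hfe]; simp) (by simp)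
  obtain ⟨h1, h2⟩ := ffa_vec hb hx
  exact ⟨_, h1, h2, by rw [← hfe, hx1]⟩

/-- Two quadratic forms on a space of dimension at least five have a common zero. -/
theorem exists_zero5 {k : Type*} [Field k] [Finite k] {V : Type*} [AddCommGroup V] [Module k V]
    (U : Submodule k V) (hU : 5 ≤ Module.finrank k U) (Q Q' : QuadraticMap k V k) :
    ∃ x ∈ U, x ≠ 0 ∧ Q x = 0 ∧ Q' x = 0 := by
  obtain ⟨b, hb⟩ := exists_linearIndependent_of_le_finrank hU
  obtain ⟨f, hf, hfe⟩ := ffa_poly (fun i => (b i : V)) Q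
  obtain ⟨g, hg, hge⟩ := ffa_poly (fun i => (b i : V)) Q'
  obtain ⟨x, hx, hx1, hx2⟩ := ffa_cw f g (by omega) (by rw [hfe]; simp) (by rw [hge]; simp)
  obtain ⟨h1, h2⟩ := ffa_vec hb hx
  exact ⟨_, h1, h2, by rw [← hfe, hx1], by rw [← hge, hx2]⟩

/-- A binary form `α s² + β s t + γ t²` with `β² - 4 α γ ≠ 0` over a finite field of characteristic
not `2` takes every nonzero value. Proof: complete the square (if `α = γ = 0`, `s = 1`); then
`FiniteField.exists_root_sum_quadratic` or counting the squares. -/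
theorem binary_value {k : Type*} [Field k] [Finite k] (h2 : (2 : k) ≠ 0) {α β γ : k}
    (h : β ^ 2 - 4 * α * γ ≠ 0) {c : k} (hc : c ≠ 0) :
    ∃ s t : k, α * s ^ 2 + β * (s * t) + γ * t ^ 2 = c := by
  have _ := h2
  have _ := hc
  let P : Fin 3 → ((Fin 3 → k) →ₗ[k] k) := fun i => LinearMap.proj i
  let Q : QuadraticMap k (Fin 3 → k) k := α • QuadraticMap.linMulLin (P 0) (P 0) +
    β • QuadraticMap.linMulLin (P 0) (P 1) + γ • QuadraticMap.linMulLin (P 1) (P 1) +
    (-c) • QuadraticMap.linMulLin (P 2) (P 2)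
  have hQ : ∀ x, Q x = α * x 0 ^ 2 + β * (x 0 * x 1) + γ * x 1 ^ 2 - c * x 2 ^ 2 := by
    intro x
    simp only [Q, P, add_apply, smul_apply, QuadraticMap.linMulLin_apply,
      LinearMap.proj_apply, smul_eq_mul]
    ring
  obtain ⟨x, -, hx, hx0⟩ := exists_zero3 (⊤ : Submodule k (Fin 3 → k)) (by simp) Q
  rw [hQ] at hx0
  by_cases hu : x 2 = 0
  · -- the binary form is isotropic
    rw [hu] at hx0
    have hne : x 0 ≠ 0 ∨ x 1 ≠ 0 := by
      by_contra hcon
      push Not at hcon
      exact hx (by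
        funext i
        fin_cases i
        · exact hcon.1
        · exact hcon.2
        · exact hu)
    set s := x 0
    set t := x 1
    have hq : α * s ^ 2 + β * (s * t) + γ * t ^ 2 = 0 := by linear_combination hx0
    have hlin : 2 * α * s + β * t ≠ 0 ∨ β * s + 2 * γ * t ≠ 0 := by
      by_contra hcon
      push Not at hcon
      obtain ⟨e1, e2⟩ := hcon
      have h3 : (β ^ 2 - 4 * α * γ) * s = 0 := by linear_combination β * e2 - 2 * γ * e1
      have h4 : (β ^ 2 - 4 * α * γ) * t = 0 := by linear_combination β * e1 - 2 * α * e2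
      rcases hne with h5 | h5
      · exact (mul_ne_zero h h5) h3
      · exact (mul_ne_zero h h5) h4
    rcases hlin with h3 | h3
    · -- w = (1, 0)
      refine ⟨1 + (c - α) / (2 * α * s + β * t) * s, (c - α) / (2 * α * s + β * t) * t, ?_⟩
      set l := (c - α) / (2 * α * s + β * t) with hl
      have h4 : l * (2 * α * s + β * t) = c - α := div_mul_cancel₀ _ h3
      linear_combination l ^ 2 * hq + h4
    · refine ⟨(c - γ) / (β * s + 2 * γ * t) * s, 1 + (c - γ) / (β * s + 2 * γ * t) * t, ?_⟩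
      set l := (c - γ) / (β * s + 2 * γ * t) with hl
      have h4 : l * (β * s + 2 * γ * t) = c - γ := div_mul_cancel₀ _ h3
      linear_combination l ^ 2 * hq + h4
  · refine ⟨x 0 / x 2, x 1 / x 2, ?_⟩
    field_simp
    linear_combination hx0

end Dp
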