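import Pool.Agent.Lib.MP_f80667_ag.Dp.Defs

/-! The ranks of the members of a smooth pencil and of their restrictions, characteristic not `2`. -/

namespace Dp

open ZC Tq

universe u

variable {k : Type u} [Field k] {Ω : Type u} [Field Ω] [Algebra k Ω] [IsAlgClosed Ω]
  {n : ℕ} {A B : Matrix (Fin n) (Fin n) k} {M : Type u} [Field M] [Algebra k M]

theorem rad_two_ne (h2 : (2 : k) ≠ 0) : (2 : M) ≠ 0 := by
  intro h
  apply h2
  have h1 : algebraMap k M 2 = 0 := by rw [map_ofNat, h]
  exact (map_eq_zero (algebraMap k M)).1 h1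

omit [Algebra k Ω] in
theorem rad_zero_two (h2 : (2 : Ω) ≠ 0) (a b c : Ω) :
    ∃ s t : Ω, (s ≠ 0 ∨ t ≠ 0) ∧ s ^ 2 * a + s * t * b + t ^ 2 * c = 0 := by
  have : NeZero (2 : Ω) := ⟨h2⟩
  by_cases ha : a = 0
  · exact ⟨1, 0, Or.inl one_ne_zero, by rw [ha]; ring⟩
  · obtain ⟨x, hx⟩ := exists_quadratic_eq_zero (a := a) (b := b) (c := c) ha
      (IsAlgClosed.exists_eq_mul_self _)
    exact ⟨x, 1, Or.inr one_ne_zero, by linear_combination hx⟩

/-- `Tq.rad_le` in characteristic not `2` (the same proof). -/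
theorem rad_le (h2 : (2 : k) ≠ 0) (hs : Sm Ω A B) (σ : M →ₐ[k] Ω) {a b : M} (hab : a ≠ 0 ∨ b ≠ 0)
    {u u' : Fin n → M} (hu : LinearIndependent M ![u, u'])
    (h : ∀ y : Fin n → M, mB A B a b u y = 0) (h' : ∀ y : Fin n → M, mB A B a b u' y = 0) :
    False := by
  have hΩ : (2 : Ω) ≠ 0 := rad_two_ne h2
  have h1 := rad_ext σ h
  have h1' := rad_ext σ h'
  have hab' : σ a ≠ 0 ∨ σ b ≠ 0 := by
    rcases hab with h2 | h2
    · exact Or.inl ((map_ne_zero σ).2 h2)
    · exact Or.inr ((map_ne_zero σ).2 h2)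
  obtain ⟨i, j, hij⟩ := exists_minor hu
  have hij' : σ (u i) * σ (u' j) - σ (u j) * σ (u' i) ≠ 0 := by
    rw [← map_mul, ← map_mul, sub_ne_zero]
    exact fun h2 => hij (σ.injective h2)
  obtain ⟨v, hv⟩ : ∃ v : Fin n → Ω, v = fun i => σ (u i) := ⟨_, rfl⟩
  obtain ⟨v', hv'⟩ : ∃ v' : Fin n → Ω, v' = fun i => σ (u' i) := ⟨_, rfl⟩
  rw [← hv] at h1
  rw [← hv'] at h1'
  have hm : v i * v' j - v j * v' i ≠ 0 := by
    rw [hv, hv']
    exact hij'
  obtain ⟨c, d, hcd⟩ : ∃ c d : Ω, σ a * d - σ b * c ≠ 0 := by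
    rcases hab' with h2 | h2
    · exact ⟨0, 1, by simpa using h2⟩
    · exact ⟨-1, 0, by simpa using h2⟩
  obtain ⟨s, t, hst, h0⟩ := rad_zero_two hΩ (c * qv A v + d * qv B v)
    (c * bv A v v' + d * bv B v v') (c * qv A v' + d * qv B v')
  have hx0 : s • v + t • v' ≠ 0 := by
    intro h2
    have e1 : s * v i + t * v' i = 0 := congrFun h2 i
    have e2 : s * v j + t * v' j = 0 := congrFun h2 j
    have e3 : s * (v i * v' j - v j * v' i) = 0 := by linear_combination v' j * e1 - v' i * e2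
    have e4 : t * (v i * v' j - v j * v' i) = 0 := by linear_combination -v j * e1 + v i * e2
    rcases hst with h3 | h3
    · exact h3 ((mul_eq_zero.1 e3).resolve_right hm)
    · exact h3 ((mul_eq_zero.1 e4).resolve_right hm)
  have hr : ∀ y : Fin n → Ω, σ a * bv A (s • v + t • v') y + σ b * bv B (s • v + t • v') y = 0 := by
    intro y
    rw [bv_add, bv_add, bv_smul, bv_smul, bv_smul, bv_smul]
    linear_combination s * h1 y + t * h1' y
  have hf : σ a * qv A (s • v + t • v') + σ b * qv B (s • v + t • v') = 0 := by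
    have e1 := hr (s • v + t • v')
    rw [bv_self, bv_self] at e1
    have e2 : 2 * (σ a * qv A (s • v + t • v') + σ b * qv B (s • v + t • v')) = 0 := by
      linear_combination e1
    exact (mul_eq_zero.1 e2).resolve_left hΩ
  have hh : c * qv A (s • v + t • v') + d * qv B (s • v + t • v') = 0 := by
    rw [qv_lin, qv_lin]
    linear_combination h0
  have qA : qv A (s • v + t • v') = 0 := by
    have e : (σ a * d - σ b * c) * qv A (s • v + t • v') = 0 := by
      linear_combination d * hf - σ b * hh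
    exact (mul_eq_zero.1 e).resolve_left hcd
  have qB : qv B (s • v + t • v') = 0 := by
    have e : (σ a * d - σ b * c) * qv B (s • v + t • v') = 0 := by
      linear_combination σ a * hh - c * hf
    exact (mul_eq_zero.1 e).resolve_left hcd
  obtain ⟨z1, z2⟩ := hs _ hx0 qA qB (σ a) (σ b) hr
  rcases hab' with h2 | h2
  · exact h2 z1
  · exact h2 z2

/-- `Tq.no_sub` in characteristic not `2` (the same proof). -/
theorem no_sub (h2 : (2 : k) ≠ 0) (hs : Sm Ω A B) (σ : M →ₐ[k] Ω) (hn : 6 ≤ n)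
    (U : Submodule M (Fin n → M)) (hU : n ≤ Module.finrank M U + 2) {a b : M}
    (hab : a ≠ 0 ∨ b ≠ 0) : ∃ y ∈ U, mQ A B a b y ≠ 0 := by
  by_contra hcon
  push Not at hcon
  have hrefl : (bvB A B a b).IsRefl := by
    intro x y h
    rw [bvB_apply] at h ⊢
    rw [bv_comm A y x, bv_comm B y x]
    exact h
  have hU1 : U ≤ (bvB A B a b).orthogonal U := by
    intro y hy
    rw [LinearMap.BilinForm.mem_orthogonal_iff]
    intro x hx
    change bvB A B a b x y = 0
    rw [bvB_apply]
    have h1 := hcon x hx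
    have h2 := hcon y hy
    have h3 := hcon (x + y) (U.add_mem hx hy)
    rw [mQ] at h1 h2
    rw [mQ, qv_add, qv_add] at h3
    linear_combination h3 - h1 - h2
  have h1 := LinearMap.BilinForm.finrank_add_finrank_orthogonal hrefl U
  have h2' := Submodule.finrank_mono hU1
  have h3 : Module.finrank M (U ⊓ (bvB A B a b).orthogonal ⊤ : Submodule M (Fin n → M)) ≤ 1 := by
    by_contra h4
    rw [not_le] at h4
    have : Nontrivial (U ⊓ (bvB A B a b).orthogonal ⊤ : Submodule M (Fin n → M)) :=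
      Module.nontrivial_of_finrank_pos (R := M) (lt_trans Nat.zero_lt_one h4)
    obtain ⟨x, hx⟩ := exists_ne (0 : (U ⊓ (bvB A B a b).orthogonal ⊤ : Submodule M (Fin n → M)))
    obtain ⟨y, hy⟩ := exists_linearIndependent_pair_of_one_lt_finrank h4 hx
    have hxy := hy.map' (Submodule.subtype _) (Submodule.ker_subtype _)
    have e : (Submodule.subtype (U ⊓ (bvB A B a b).orthogonal ⊤ : Submodule M (Fin n → M))) ∘
        ![x, y] = ![(x : Fin n → M), (y : Fin n → M)] := by
      funext i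
      fin_cases i <;> rfl
    rw [e] at hxy
    have hr : ∀ z : (U ⊓ (bvB A B a b).orthogonal ⊤ : Submodule M (Fin n → M)),
        ∀ w : Fin n → M, mB A B a b (z : Fin n → M) w = 0 := by
      intro z w
      have h5 := (LinearMap.BilinForm.mem_orthogonal_iff.1 z.2.2) w trivial
      change bvB A B a b w z = 0 at h5
      rw [bvB_apply, bv_comm A, bv_comm B] at h5
      exact h5
    exact rad_le h2 hs σ hab hxy (hr x) (hr y)
  rw [Module.finrank_fin_fun] at h1
  omega

/-- A member of the pencil does not agree with the square of a linear form on a subspace of dimension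
`n - 1`. Proof: let `ℓ` be the linear form and `U₀ = U ∩ ker ℓ`, of dimension at least `n - 2`: the
member vanishes on `U₀`, against `no_sub`. -/
theorem no_sq (h2 : (2 : k) ≠ 0) (hs : Sm Ω A B) (σ : M →ₐ[k] Ω) (hn : 6 ≤ n)
    (U : Submodule M (Fin n → M)) (hU : n ≤ Module.finrank M U + 1) {a b : M}
    (hab : a ≠ 0 ∨ b ≠ 0) (ℓ : (Fin n → M) →ₗ[M] M) : ∃ y ∈ U, mQ A B a b y ≠ ℓ y ^ 2 := by
  have h1 := LinearMap.finrank_range_add_finrank_ker (ℓ.domRestrict U)
  have h3 : Module.finrank M (LinearMap.range (ℓ.domRestrict U)) ≤ 1 := by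
    have := Submodule.finrank_le (LinearMap.range (ℓ.domRestrict U))
    rwa [Module.finrank_self] at this
  have h4 := Submodule.finrank_map_subtype_eq U (LinearMap.ker (ℓ.domRestrict U))
  obtain ⟨y, hy, hq⟩ := no_sub h2 hs σ hn
    ((LinearMap.ker (ℓ.domRestrict U)).map U.subtype) (by omega) hab
  obtain ⟨⟨z, hz⟩, hzk, rfl⟩ := hy
  refine ⟨z, hz, fun h => hq ?_⟩
  have h5 : ℓ z = 0 := hzk
  rw [h5] at h
  rw [Submodule.subtype_apply, h]
  ring

/-- A smooth point is not in the radical of a member, and the differentials at a point are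
independent. Proof: `Sm` over `Ω` for `σ ∘ P`, `Tq.rad_ext`. -/
theorem sm_pt (hs : Sm Ω A B) (σ : M →ₐ[k] Ω) {P : Fin n → M} (hP : P ≠ 0) (aP : qv A P = 0)
    (bP : qv B P = 0) {a b : M} (h : ∀ y : Fin n → M, mB A B a b P y = 0) : a = 0 ∧ b = 0 := by
  have h1 := rad_ext σ h
  have h2 : (fun i => σ (P i)) ≠ 0 := by
    intro h0
    apply hP
    funext i
    exact (map_eq_zero σ).1 (congrFun h0 i)
  obtain ⟨z1, z2⟩ := hs (fun i => σ (P i)) h2 (by rw [qv_hom, aP, map_zero])
    (by rw [qv_hom, bP, map_zero]) (σ a) (σ b) h1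
  exact ⟨(map_eq_zero σ).1 z1, (map_eq_zero σ).1 z2⟩

theorem rad_range (hs : Sm Ω A B) (σ : M →ₐ[k] Ω) {P : Fin n → M} (hP : P ≠ 0) (aP : qv A P = 0)
    (bP : qv B P = 0) : LinearMap.range ((bvl A P).prod (bvl B P)) = ⊤ := by
  by_contra hne
  obtain ⟨f, hf, hle⟩ := Submodule.exists_le_ker_of_lt_top _ (lt_top_iff_ne_top.2 hne)
  have hfv : ∀ x y : M, f (x, y) = f (1, 0) * x + f (0, 1) * y := by
    intro x y
    have e : ((x, y) : M × M) = x • (1, 0) + y • (0, 1) := by simp
    rw [e, map_add, map_smul, map_smul, smul_eq_mul, smul_eq_mul]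
    ring
  obtain ⟨z1, z2⟩ := sm_pt hs σ hP aP bP (a := f (1, 0)) (b := f (0, 1)) (fun y => by
    have h1 : f (bvl A P y, bvl B P y) = 0 := hle ⟨y, rfl⟩
    rw [hfv] at h1
    exact h1)
  apply hf
  refine LinearMap.ext fun w => ?_
  obtain ⟨x, y⟩ := w
  rw [hfv, z1, z2]
  simp

theorem rad_ker (P : Fin n → M) : LinearMap.ker ((bvl A P).prod (bvl B P)) = TP A B P := by
  ext u
  rw [LinearMap.mem_ker, LinearMap.prod_apply, mem_TP]
  exact Prod.mk_eq_zero

/-- The dimension of the tangent space. Proof: `sm_pt`: the two functionals are independent. -/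
theorem TP_rank (hs : Sm Ω A B) (σ : M →ₐ[k] Ω) {P : Fin n → M} (hP : P ≠ 0) (aP : qv A P = 0)
    (bP : qv B P = 0) : Module.finrank M (TP A B P) + 2 = n := by
  have h1 := LinearMap.finrank_range_add_finrank_ker ((bvl A P).prod (bvl B P))
  rw [rad_range hs σ hP aP bP, finrank_top, rad_ker, Module.finrank_fin_fun, Module.finrank_prod,
    Module.finrank_self] at h1
  omega

/-- A functional which vanishes on the tangent space is a combination of the differentials. -/
theorem TP_ann {P : Fin n → M} (ℓ : (Fin n → M) →ₗ[M] M) (h : ∀ u ∈ TP A B P, ℓ u = 0) :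
    ∃ c d : M, ∀ y, ℓ y = c * bv A P y + d * bv B P y := by
  have h1 : ℓ ∈ Submodule.span M (Set.range ![bvl A P, bvl B P]) := by
    apply mem_span_of_iInf_ker_le_ker
    intro u hu
    rw [Submodule.mem_iInf] at hu
    exact h u ⟨hu 0, hu 1⟩
  rw [Matrix.range_cons, Matrix.range_cons, Matrix.range_empty, Set.union_empty,
    Set.singleton_union, Submodule.mem_span_pair] at h1
  obtain ⟨c, d, rfl⟩ := h1
  exact ⟨c, d, fun y => rfl⟩

/-- The two functionals are jointly onto. -/
theorem TP_surj (hs : Sm Ω A B) (σ : M →ₐ[k] Ω) {P : Fin n → M} (hP : P ≠ 0) (aP : qv A P = 0)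
    (bP : qv B P = 0) (c d : M) : ∃ y : Fin n → M, bv A P y = c ∧ bv B P y = d := by
  have h1 : ((c, d) : M × M) ∈ LinearMap.range ((bvl A P).prod (bvl B P)) := by
    rw [rad_range hs σ hP aP bP]
    trivial
  obtain ⟨y, hy⟩ := h1
  exact ⟨y, congrArg Prod.fst hy, congrArg Prod.snd hy⟩

end Dp
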