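import Pool.Agent.Lib.MP_f80667_ag.Dp.LemZ
import Pool.Agent.Lib.MP_f80667_ag.Dp.FfA
import Pool.Agent.Lib.MP_f80667_ag.Dp.Rad

/-! Tangent lines on the members over finite fields. -/

namespace Dp

open ZC Tq

universe u

/-- A tangent line which does not meet the vertex of the member. -/
structure TgR {k : Type*} [Field k] {n : ℕ} (A B : Matrix (Fin n) (Fin n) k) {E : Type*} [Field E]
    [Algebra k E] (a b : E) (P u : Fin n → E) : Prop where
  tg : Tg A B a b P u
  nr : ∀ c d : E, (∀ y : Fin n → E, mB A B a b (c • P + d • u) y = 0) → c = 0 ∧ d = 0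

variable {k : Type u} [Field k] {n : ℕ} {A B : Matrix (Fin n) (Fin n) k}

theorem ff_ker {K V : Type*} [Field K] [AddCommGroup V] [Module K V] [FiniteDimensional K V]
    (U : Submodule K V) (ℓ : V →ₗ[K] K) :
    Module.finrank K U ≤ Module.finrank K (U ⊓ LinearMap.ker ℓ : Submodule K V) + 1 := by
  have h1 := LinearMap.finrank_range_add_finrank_ker (ℓ.domRestrict U)
  have h3 : Module.finrank K (LinearMap.range (ℓ.domRestrict U)) ≤ 1 := by
    have := Submodule.finrank_le (LinearMap.range (ℓ.domRestrict U))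
    rwa [Module.finrank_self] at this
  have h4 := Submodule.finrank_map_subtype_eq U (LinearMap.ker (ℓ.domRestrict U))
  have h5 : (LinearMap.ker (ℓ.domRestrict U)).map U.subtype ≤ U ⊓ LinearMap.ker ℓ := by
    rintro _ ⟨⟨z, hz⟩, hzk, rfl⟩
    exact ⟨hz, hzk⟩
  have h6 := Submodule.finrank_mono h5
  omega

theorem ff_two {K V : Type*} [Field K] [AddCommGroup V] [Module K V] (U : Submodule K V)
    (h : 1 < Module.finrank K U) : ∃ x ∈ U, ∃ y ∈ U, LinearIndependent K ![x, y] := by
  have : Nontrivial U := Module.nontrivial_of_finrank_pos (R := K) (lt_trans Nat.zero_lt_one h)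
  obtain ⟨x, hx⟩ := exists_ne (0 : U)
  obtain ⟨y, hy⟩ := exists_linearIndependent_pair_of_one_lt_finrank h hx
  have hxy := hy.map' (Submodule.subtype _) (Submodule.ker_subtype _)
  have e : (Submodule.subtype U) ∘ ![x, y] = ![(x : V), (y : V)] := by
    funext i
    fin_cases i <;> rfl
  rw [e] at hxy
  exact ⟨x, x.2, y, y.2, hxy⟩

theorem ff_core {a b c d : k} (hcd : a * d - b * c ≠ 0) {P u : Fin n → k} (hP : P ≠ 0)
    (q1 : mQ A B a b P = 0) (q2 : mQ A B c d P = 0) (b1 : mB A B a b P u = 0)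
    (b2 : mB A B c d P u = 0) (q3 : mQ A B a b u = 0) (q4 : mQ A B c d u ≠ 0) :
    Tg A B a b P u := by
  rw [mQ] at q1 q2 q4
  rw [mB] at b1 b2
  refine ⟨hP, ?_, ?_, ?_, ?_, q3, ?_⟩
  · have e : (a * d - b * c) * qv A P = 0 := by linear_combination d * q1 - b * q2
    exact (mul_eq_zero.1 e).resolve_left hcd
  · have e : (a * d - b * c) * qv B P = 0 := by linear_combination a * q2 - c * q1
    exact (mul_eq_zero.1 e).resolve_left hcd
  · have e : (a * d - b * c) * bv A P u = 0 := by linear_combination d * b1 - b * b2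
    exact (mul_eq_zero.1 e).resolve_left hcd
  · have e : (a * d - b * c) * bv B P u = 0 := by linear_combination a * b2 - c * b1
    exact (mul_eq_zero.1 e).resolve_left hcd
  · rintro ⟨h1, h2⟩
    apply q4
    rw [h1, h2]
    ring

theorem ff_comb_ne {a b c d : k} (hcd : a * d - b * c ≠ 0) (s : k) {t : k} (ht : t ≠ 0) :
    t * c + s * a ≠ 0 ∨ t * d + s * b ≠ 0 := by
  by_contra hcon
  push Not at hcon
  obtain ⟨h1, h2⟩ := hcon
  apply mul_ne_zero ht hcd
  linear_combination a * h2 - b * h1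

/-- two vectors of the radical of a member -/
theorem ff_rad (h2 : (2 : k) ≠ 0) (hs : Sm (AlgebraicClosure k) A B) {a b c d : k}
    (hab : a ≠ 0 ∨ b ≠ 0) {v z : Fin n → k} (hv : ∀ y : Fin n → k, mB A B a b v y = 0)
    (hz : ∀ y : Fin n → k, mB A B a b z y = 0) (h1 : mQ A B c d v ≠ 0)
    (h3 : mB A B c d v z = 0) : z = 0 := by
  by_contra hne
  refine rad_le h2 hs (Algebra.ofId k (AlgebraicClosure k)) hab
    (LinearIndependent.pair_iff.2 fun s t hst => ?_) hv hz
  have e1 : mB A B c d v (s • v + t • z) = s * (2 * mQ A B c d v) := by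
    rw [mB_add_right, mB_smul_right, mB_smul_right, mB_self, h3]
    ring
  have e2 : mB A B c d v (s • v + t • z) = 0 := by
    rw [hst]
    exact map_zero (mBl A B c d v)
  have e3 : s = 0 := by
    rw [e2] at e1
    exact ((mul_eq_zero.1 e1.symm).resolve_right (mul_ne_zero h2 h1))
  rw [e3, zero_smul, zero_add, smul_eq_zero] at hst
  exact ⟨e3, hst.resolve_right hne⟩

/-- The cone case, over a finite field of characteristic not `2`, `3`. Let `v` be in the radical of
`Q = mQ a b`. Then `v` is not on `X` (smoothness), so `qv H v ≠ 0` for `H = A` or `B`, `H` and `(a, b)`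
independent. Let `V'` be the orthogonal space of `v` for `H`, of dimension `n - 1`, a complement of
`v`; `Q` is nondegenerate on `V'` (the radical is the line of `v`: `rad_le`). Step 1: there is
`y ∈ V'` with `Q y = 0`, `qv H y ≠ 0`: `Q` has a nonzero zero on `V'` (dimension at least `3`, finite
field: `exists_zero3`), it is not in the radical of `Q` on `V'`; if `qv H` vanishes at all zeros then
`qv H = c Q` on `V'` (`lemZ` with `s₀ = 2`), against `no_sub`. Step 2: on `Y = V' ∩ y^⊥` (for `Q`;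
dimension `n - 2`) the form `Q` has a zero `e` which is not a multiple of `y` (a complement of `y` in `Y`
has dimension at least `3`), and it is not in the radical of `Q` on `Y` (which is the line of `y`, as
`Q` is nondegenerate on `V'`). Let `F x = bv H y x ^ 2 - 4 qv H y qv H x`. There is `x ∈ Y`, `Q x = 0`,
`F x ≠ 0`: otherwise `F = c Q` on `Y`, so the member `G = 4 qv H y H + c Q` agrees with `bv H y · ^ 2` on
`Y`; its radical contains the vectors `x₀` of `Y₀ = Y ∩ ker (bv H y)` with one more linear condition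
(for `x₀ ∈ Y₀` the functional `pG x₀` vanishes on `Y` and on `v`, so it is determined by its value at
one vector), so it has dimension at least `dim Y - 2 ≥ 2`, against `rad_le`. So the plane `W` of `x`,
`y` is totally isotropic for `Q` and `H` is nondegenerate on it. Step 3: a nondegenerate binary form
over a finite field takes all nonzero values: `x₁ ∈ W` with `qv H x₁ = - qv H v`, and `y₁ ∈ W`
independent of `x₁`. `P = x₁ + v`, `u = y₁ - (bv H x₁ y₁ / (2 qv H v)) v`: `Q P = 0`, `qv H P = 0`,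
`mB P u = 0`, `bv H P u = 0`, `Q u = 0`,
`4 qv H x₁ qv H u = 4 qv H x₁ qv H y₁ - (bv H x₁ y₁) ^ 2 ≠ 0`, and `c P + d u` is in the radical, i.e.
a multiple of `v`, only for `c = d = 0`. -/
theorem ff_cone [Finite k] (h6 : (6 : k) ≠ 0) (hs : Sm (AlgebraicClosure k) A B) (hn : 6 ≤ n)
    {a b : k} (hab : a ≠ 0 ∨ b ≠ 0) {v : Fin n → k} (hv : v ≠ 0)
    (hrad : ∀ y : Fin n → k, mB A B a b v y = 0) : ∃ P u : Fin n → k, TgR A B a b P u := by
  have h2 : (2 : k) ≠ 0 := fun h => h6 (by linear_combination 3 * h)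
  have h3 : (3 : k) ≠ 0 := fun h => h6 (by linear_combination 2 * h)
  have hQv : mQ A B a b v = 0 := by
    have h1 := hrad v
    rw [mB_self] at h1
    exact (mul_eq_zero.1 h1).resolve_left h2
  obtain ⟨c, d, hcd, hHv⟩ : ∃ c d : k, a * d - b * c ≠ 0 ∧ mQ A B c d v ≠ 0 := by
    rw [mQ] at hQv
    by_cases hA : qv A v = 0
    · have hB : qv B v ≠ 0 := by
        intro hB
        obtain ⟨z1, z2⟩ := sm_pt hs (Algebra.ofId k (AlgebraicClosure k)) hv hA hB hrad
        rcases hab with h | h
        · exact h z1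
        · exact h z2
      have hb : b = 0 := by
        rw [hA, mul_zero, zero_add] at hQv
        exact (mul_eq_zero.1 hQv).resolve_right hB
      refine ⟨0, 1, ?_, ?_⟩
      · rw [hb, mul_one, zero_mul, sub_zero]
        rcases hab with h | h
        · exact h
        · exact absurd hb h
      · rw [mQ, zero_mul, zero_add, one_mul]
        exact hB
    · refine ⟨1, 0, ?_, ?_⟩
      · rw [mul_zero, mul_one, zero_sub, neg_ne_zero]
        intro hb
        rw [hb, zero_mul, add_zero] at hQv
        rcases hab with h | h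
        · exact h ((mul_eq_zero.1 hQv).resolve_right hA)
        · exact h hb
      · rw [mQ, zero_mul, add_zero, one_mul]
        exact hA
  have hradr : ∀ y : Fin n → k, mB A B a b y v = 0 := fun y => by rw [mB_comm]; exact hrad y
  -- the orthogonal space of v
  obtain ⟨V', hV'⟩ : ∃ V' : Submodule k (Fin n → k),
      V' = ⊤ ⊓ LinearMap.ker (mBl A B c d v) := ⟨_, rfl⟩
  have memV' : ∀ x : Fin n → k, x ∈ V' ↔ mB A B c d v x = 0 := by
    intro x
    rw [hV', top_inf_eq, LinearMap.mem_ker]
    exact Iff.rfl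
  have dimV' : n ≤ Module.finrank k V' + 1 := by
    have := ff_ker (⊤ : Submodule k (Fin n → k)) (mBl A B c d v)
    rw [finrank_top, Module.finrank_fin_fun, ← hV'] at this
    exact this
  -- decomposition
  have dec : ∀ x : Fin n → k, ∃ s : k, x - s • v ∈ V' := by
    intro x
    refine ⟨mB A B c d v x / (2 * mQ A B c d v), ?_⟩
    rw [memV', sub_eq_add_neg, ← neg_smul, mB_add_right, mB_smul_right, mB_self]
    field_simp
    ring
  -- radical on V'
  have radV : ∀ z ∈ V', z ≠ 0 → ∃ g ∈ V', mB A B a b z g ≠ 0 := by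
    intro z hz hz0
    by_contra hcon
    push Not at hcon
    apply hz0
    refine ff_rad h2 hs hab hrad (fun y => ?_) hHv ((memV' z).1 hz)
    obtain ⟨s, hs'⟩ := dec y
    have h4 := hcon _ hs'
    rw [sub_eq_add_neg, ← neg_smul, mB_add_right, mB_smul_right, hradr z] at h4
    linear_combination h4
  -- step 1
  obtain ⟨y, hyV, hQy, hHy⟩ : ∃ y ∈ V', mQ A B a b y = 0 ∧ mQ A B c d y ≠ 0 := by
    obtain ⟨e, heV, he0, hQe⟩ := exists_zero3 V' (by omega) (mqf A B a b)
    obtain ⟨g, hg, heg⟩ := radV e heV he0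
    by_contra hcon
    push Not at hcon
    obtain ⟨c0, hc0⟩ := lemZ h2 h2 (fun h => one_ne_zero (α := k) (by linear_combination h))
      (fun h => h3 (by linear_combination h)) V' (mqf A B a b) (mqf A B c d) heV hg hQe
      (by rw [mqf_polar]; exact heg) (fun u hu hQu => hcon u hu hQu)
    obtain ⟨x, hx, hx2⟩ := no_sub h2 hs (Algebra.ofId k (AlgebraicClosure k)) hn V' (by omega)
      (a := 1 * c + (-c0) * a) (b := 1 * d + (-c0) * b) (ff_comb_ne hcd (-c0) one_ne_zero)
    apply hx2
    have h4 := hc0 x hx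
    rw [mqf_apply, mqf_apply] at h4
    rw [mQ, mQ] at h4
    rw [mQ]
    linear_combination h4
  -- step 2
  obtain ⟨Y, hY⟩ : ∃ Y : Submodule k (Fin n → k), Y = V' ⊓ LinearMap.ker (mBl A B a b y) :=
    ⟨_, rfl⟩
  have memY : ∀ x : Fin n → k, x ∈ Y ↔ x ∈ V' ∧ mB A B a b y x = 0 := by
    intro x
    rw [hY, Submodule.mem_inf, LinearMap.mem_ker]
    exact Iff.rfl
  have dimY : n ≤ Module.finrank k Y + 2 := by
    have := ff_ker V' (mBl A B a b y)
    rw [← hY] at this
    omega
  obtain ⟨Y1, hY1⟩ : ∃ Y1 : Submodule k (Fin n → k), Y1 = Y ⊓ LinearMap.ker (mBl A B c d y) :=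
    ⟨_, rfl⟩
  have memY1 : ∀ x : Fin n → k, x ∈ Y1 ↔ x ∈ Y ∧ mB A B c d y x = 0 := by
    intro x
    rw [hY1, Submodule.mem_inf, LinearMap.mem_ker]
    exact Iff.rfl
  have dimY1 : n ≤ Module.finrank k Y1 + 3 := by
    have := ff_ker Y (mBl A B c d y)
    rw [← hY1] at this
    omega
  have hy0 : y ≠ 0 := by
    intro h
    apply hHy
    rw [h, ← zero_smul k (0 : Fin n → k), mQ_smul]
    ring
  obtain ⟨w, hwV, hyw⟩ := radV y hyV hy0
  obtain ⟨x, hxY, hQx, hFx⟩ : ∃ x ∈ Y, mQ A B a b x = 0 ∧
      mB A B c d y x ^ 2 - 4 * mQ A B c d y * mQ A B c d x ≠ 0 := by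
    obtain ⟨e, heY1, he0, hQe⟩ := exists_zero3 Y1 (by omega) (mqf A B a b)
    obtain ⟨heY, hye⟩ := (memY1 e).1 heY1
    obtain ⟨heV, hye'⟩ := (memY e).1 heY
    -- not in the radical of Y
    obtain ⟨g, hg, heg⟩ : ∃ g ∈ Y, mB A B a b e g ≠ 0 := by
      by_contra hcon
      push Not at hcon
      -- e - β y is in the radical
      have key : e - (mB A B a b e w / mB A B a b y w) • y = 0 := by
        by_contra hne
        obtain ⟨g, hg, h4⟩ := radV (e - (mB A B a b e w / mB A B a b y w) • y)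
          (V'.sub_mem heV (V'.smul_mem _ hyV)) hne
        apply h4
        have h5 : g - (mB A B a b y g / mB A B a b y w) • w ∈ Y := by
          rw [memY]
          refine ⟨V'.sub_mem hg (V'.smul_mem _ hwV), ?_⟩
          rw [sub_eq_add_neg, ← neg_smul, mB_add_right, mB_smul_right]
          field_simp
          ring
        have h6 := hcon _ h5
        rw [sub_eq_add_neg, ← neg_smul, mB_add_right, mB_smul_right] at h6
        rw [sub_eq_add_neg, ← neg_smul, mB_add, mB_smul]
        field_simp at h6 ⊢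
        linear_combination h6
      have h7 : e = (mB A B a b e w / mB A B a b y w) • y := sub_eq_zero.1 key
      rw [h7, mB_smul_right, mB_self] at hye
      have h8 : mB A B a b e w / mB A B a b y w = 0 :=
        (mul_eq_zero.1 hye).resolve_right (mul_ne_zero h2 hHy)
      rw [h8, zero_smul] at h7
      exact he0 h7
    by_contra hcon
    push Not at hcon
    obtain ⟨F, hF⟩ : ∃ F : QuadraticMap k (Fin n → k) k, ∀ x, F x =
        mB A B c d y x ^ 2 - 4 * mQ A B c d y * mQ A B c d x := by
      refine ⟨QuadraticMap.linMulLin (mBl A B c d y) (mBl A B c d y) +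
        (-(4 * mQ A B c d y)) • mqf A B c d, fun x => ?_⟩
      rw [add_apply, smul_apply, QuadraticMap.linMulLin_apply, mBl_apply,
        mqf_apply, smul_eq_mul]
      ring
    obtain ⟨c0, hc0⟩ := lemZ h2 h2 (fun h => one_ne_zero (α := k) (by linear_combination h))
      (fun h => h3 (by linear_combination h)) Y (mqf A B a b) F heY hg hQe
      (by rw [mqf_polar]; exact heg) (fun u hu hQu => by rw [hF]; exact hcon u hu hQu)
    -- the member G
    obtain ⟨t, ht⟩ : ∃ t : k, t = 4 * mQ A B c d y := ⟨_, rfl⟩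
    have ht0 : t ≠ 0 := by
      rw [ht]
      have h4 : (4 : k) = 2 * 2 := by norm_num
      rw [h4]
      exact mul_ne_zero (mul_ne_zero h2 h2) hHy
    have hG : ∀ x ∈ Y, mQ A B (t * c + c0 * a) (t * d + c0 * b) x = mB A B c d y x ^ 2 := by
      intro x hx
      have h4 := hc0 x hx
      rw [hF, mqf_apply, ← ht, mQ, mQ] at h4
      rw [mQ]
      linear_combination -h4
    have hG2 : ∀ x ∈ Y, ∀ x' ∈ Y, mB A B (t * c + c0 * a) (t * d + c0 * b) x x' =
        2 * (mB A B c d y x * mB A B c d y x') := by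
      intro x hx x' hx'
      have h4 := hG _ (Y.add_mem hx hx')
      rw [mQ_add, hG x hx, hG x' hx', mB_add_right] at h4
      linear_combination h4
    have hGv : ∀ x ∈ V', mB A B (t * c + c0 * a) (t * d + c0 * b) x v = 0 := by
      intro x hx
      have h4 := hradr x
      have h5 := (memV' x).1 hx
      rw [mB_comm] at h5
      rw [mB] at h4 h5 ⊢
      linear_combination t * h5 + c0 * h4
    obtain ⟨z1, hz1, z2, hz2, hli⟩ := ff_two
      (Y1 ⊓ LinearMap.ker (mBl A B (t * c + c0 * a) (t * d + c0 * b) w)) (by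
        have := ff_ker Y1 (mBl A B (t * c + c0 * a) (t * d + c0 * b) w)
        omega)
    have hrG : ∀ z ∈ Y1 ⊓ LinearMap.ker (mBl A B (t * c + c0 * a) (t * d + c0 * b) w),
        ∀ q : Fin n → k, mB A B (t * c + c0 * a) (t * d + c0 * b) z q = 0 := by
      rintro z ⟨hzY1, hzw⟩ q
      obtain ⟨hzY, hyz⟩ := (memY1 z).1 hzY1
      have hzV := ((memY z).1 hzY).1
      have hzw' : mB A B (t * c + c0 * a) (t * d + c0 * b) z w = 0 := by
        rw [mB_comm]
        exact hzw
      obtain ⟨s, hs'⟩ := dec q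
      obtain ⟨q', hq'⟩ : ∃ q' : Fin n → k, q' = q - s • v := ⟨_, rfl⟩
      rw [← hq'] at hs'
      have h5 : q' - (mB A B a b y q' / mB A B a b y w) • w ∈ Y := by
        rw [memY]
        refine ⟨V'.sub_mem hs' (V'.smul_mem _ hwV), ?_⟩
        rw [sub_eq_add_neg, ← neg_smul, mB_add_right, mB_smul_right]
        field_simp
        ring
      have h6 := hG2 z hzY _ h5
      rw [hyz, zero_mul, mul_zero, sub_eq_add_neg, ← neg_smul, mB_add_right, mB_smul_right, hzw',
        mul_zero, add_zero] at h6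
      have h7 : q = q' + s • v := by rw [hq']; abel
      rw [h7, mB_add_right, mB_smul_right, h6, hGv z hzV]
      ring
    exact rad_le h2 hs (Algebra.ofId k (AlgebraicClosure k)) (ff_comb_ne hcd c0 ht0) hli
      (hrG z1 hz1) (hrG z2 hz2)
  -- step 3
  obtain ⟨hxV, hyx⟩ := (memY x).1 hxY
  have hxy : mB A B a b x y = 0 := by rw [mB_comm]; exact hyx
  obtain ⟨s, t, hst⟩ := binary_value h2 (α := mQ A B c d x) (β := mB A B c d x y)
    (γ := mQ A B c d y) (by
      rw [mB_comm] at hFx
      intro h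
      apply hFx
      linear_combination h) (neg_ne_zero.2 hHv)
  obtain ⟨s', t', hdet⟩ : ∃ s' t' : k, s * t' - t * s' ≠ 0 := by
    by_cases hs0 : s = 0
    · refine ⟨1, 0, ?_⟩
      rw [mul_zero, zero_sub, mul_one, neg_ne_zero]
      intro ht0
      rw [hs0, ht0] at hst
      apply hHv
      linear_combination hst
    · exact ⟨0, 1, by rw [mul_one, mul_zero, sub_zero]; exact hs0⟩
  obtain ⟨x1, hx1⟩ : ∃ x1 : Fin n → k, x1 = s • x + t • y := ⟨_, rfl⟩
  obtain ⟨y1, hy1⟩ : ∃ y1 : Fin n → k, y1 = s' • x + t' • y := ⟨_, rfl⟩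
  have x1V : mB A B c d v x1 = 0 := by
    rw [← memV', hx1]
    exact V'.add_mem (V'.smul_mem _ hxV) (V'.smul_mem _ hyV)
  have y1V : mB A B c d v y1 = 0 := by
    rw [← memV', hy1]
    exact V'.add_mem (V'.smul_mem _ hxV) (V'.smul_mem _ hyV)
  have x1V' : mB A B c d x1 v = 0 := by rw [mB_comm]; exact x1V
  have y1V' : mB A B c d y1 v = 0 := by rw [mB_comm]; exact y1V
  have Qx1 : mQ A B a b x1 = 0 := by
    rw [hx1, mQ_lin, hQx, hQy, hxy]
    ring
  have Qy1 : mQ A B a b y1 = 0 := by
    rw [hy1, mQ_lin, hQx, hQy, hxy]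
    ring
  have Qxy1 : mB A B a b x1 y1 = 0 := by
    rw [hx1, hy1, mB_add, mB_add_right, mB_add_right, mB_smul, mB_smul, mB_smul, mB_smul,
      mB_smul_right, mB_smul_right, mB_smul_right, mB_smul_right, mB_self, mB_self, hQx, hQy, hxy,
      hyx]
    ring
  have Hx1 : mQ A B c d x1 = -mQ A B c d v := by
    rw [hx1, mQ_lin]
    linear_combination hst
  have disc1 : mB A B c d x1 y1 ^ 2 - 4 * mQ A B c d x1 * mQ A B c d y1 ≠ 0 := by
    have e : mB A B c d x1 y1 ^ 2 - 4 * mQ A B c d x1 * mQ A B c d y1 = (s * t' - t * s') ^ 2 *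
        (mB A B c d y x ^ 2 - 4 * mQ A B c d y * mQ A B c d x) := by
      rw [hx1, hy1, mQ_lin, mQ_lin, mB_add, mB_add_right, mB_add_right, mB_smul, mB_smul, mB_smul,
        mB_smul, mB_smul_right, mB_smul_right, mB_smul_right, mB_smul_right, mB_self, mB_self,
        mB_comm c d y x]
      ring
    rw [e]
    exact mul_ne_zero (pow_ne_zero _ hdet) hFx
  obtain ⟨l, hl⟩ : ∃ l : k, l * (2 * mQ A B c d v) = mB A B c d x1 y1 :=
    ⟨mB A B c d x1 y1 / (2 * mQ A B c d v), div_mul_cancel₀ _ (mul_ne_zero h2 hHv)⟩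
  have bb : ∀ a' b' : k, mB A B a' b' (x1 + v) (y1 + (-l) • v) = mB A B a' b' x1 y1 -
      l * mB A B a' b' x1 v + mB A B a' b' v y1 - l * (2 * mQ A B a' b' v) := by
    intro a' b'
    rw [mB_add, mB_add_right, mB_add_right, mB_smul_right, mB_smul_right, mB_self]
    ring
  have hqu : ∀ a' b' : k, mQ A B a' b' (y1 + (-l) • v) = mQ A B a' b' y1 -
      l * mB A B a' b' y1 v + l ^ 2 * mQ A B a' b' v := by
    intro a' b'
    rw [mQ_add, mB_smul_right, mQ_smul]
    ring
  refine ⟨x1 + v, y1 + (-l) • v, ?_, ?_⟩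
  · refine ff_core hcd ?_ ?_ ?_ ?_ ?_ ?_ ?_
    · intro h
      have h4 : x1 = -v := eq_neg_of_add_eq_zero_left h
      rw [h4, ← neg_one_smul k v, mB_smul_right, mB_self] at x1V
      have h5 : (-1 : k) ≠ 0 := neg_ne_zero.2 one_ne_zero
      rcases mul_eq_zero.1 x1V with h | h
      · exact h5 h
      · exact (mul_ne_zero h2 hHv) h
    · rw [mQ_add, Qx1, hradr, hQv]
      ring
    · rw [mQ_add, Hx1, x1V']
      ring
    · rw [bb, Qxy1, hradr, hrad, hQv]
      ring
    · rw [bb, x1V', y1V, ← hl]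
      ring
    · rw [hqu, Qy1, hradr, hQv]
      ring
    · rw [hqu, y1V']
      intro h
      apply disc1
      rw [Hx1]
      rw [← hl]
      linear_combination 4 * mQ A B c d v * h
  · intro c' d' hr
    have h4 : ∀ q : Fin n → k, mB A B a b (c' • x1 + d' • y1) q = 0 := by
      intro q
      have h5 := hr q
      rw [mB_add, mB_smul, mB_smul, mB_add, mB_add, mB_smul, hrad q] at h5
      rw [mB_add, mB_smul, mB_smul]
      linear_combination h5
    have h5 : c' • x1 + d' • y1 = 0 := by
      refine ff_rad h2 hs hab hrad h4 hHv ?_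
      rw [mB_add_right, mB_smul_right, mB_smul_right, x1V, y1V]
      ring
    have h6 : c' * (2 * mQ A B c d x1) + d' * mB A B c d x1 y1 = 0 := by
      have h7 : mB A B c d x1 (c' • x1 + d' • y1) = 0 := by
        rw [h5]
        exact map_zero (mBl A B c d x1)
      rw [mB_add_right, mB_smul_right, mB_smul_right, mB_self] at h7
      exact h7
    have h8 : c' * mB A B c d x1 y1 + d' * (2 * mQ A B c d y1) = 0 := by
      have h7 : mB A B c d y1 (c' • x1 + d' • y1) = 0 := by
        rw [h5]
        exact map_zero (mBl A B c d y1)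
      rw [mB_add_right, mB_smul_right, mB_smul_right, mB_self, mB_comm c d y1 x1] at h7
      exact h7
    constructor
    · have e : c' * (mB A B c d x1 y1 ^ 2 - 4 * mQ A B c d x1 * mQ A B c d y1) = 0 := by
        linear_combination mB A B c d x1 y1 * h8 - 2 * mQ A B c d y1 * h6
      exact (mul_eq_zero.1 e).resolve_right disc1
    · have e : d' * (mB A B c d x1 y1 ^ 2 - 4 * mQ A B c d x1 * mQ A B c d y1) = 0 := by
        linear_combination mB A B c d x1 y1 * h6 - 2 * mQ A B c d x1 * h8
      exact (mul_eq_zero.1 e).resolve_right disc1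

end Dp
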