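import Pool.Agent.Lib.MP_f80667_ag.Dp.Ff

/-! Tangent lines on the nondegenerate members over finite fields. -/

namespace Dp

open ZC Tq

universe u

variable {k : Type u} [Field k] {n : ℕ} {A B : Matrix (Fin n) (Fin n) k}

theorem ffn_ext {Ω : Type u} [Field Ω] [Algebra k Ω] (σ : k →ₐ[k] Ω) {p q : Fin n → k}
    (h : ∀ y : Fin n → k, bv A p y + bv B q y = 0) (y : Fin n → Ω) :
    bv A (fun i => σ (p i)) y + bv B (fun i => σ (q i)) y = 0 := by
  have key : bvl A (fun i => σ (p i)) + bvl B (fun i => σ (q i)) =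
      (0 : (Fin n → Ω) →ₗ[Ω] Ω) := by
    refine (Pi.basisFun Ω (Fin n)).ext fun i => ?_
    have h1 : (Pi.single i (1 : Ω) : Fin n → Ω) =
        fun j => σ ((Pi.single i (1 : k) : Fin n → k) j) := by
      funext j
      by_cases hj : j = i
      · subst hj
        simp
      · simp [Pi.single_eq_of_ne hj]
    rw [Pi.basisFun_apply, h1]
    change bv A (fun i => σ (p i)) _ + bv B (fun i => σ (q i)) _ = 0
    rw [bv_hom, bv_hom, ← map_add, h, map_zero]
  exact LinearMap.congr_fun key y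

/-- the relation between the functionals of two vectors, over an extension -/
theorem ffn_rel {Ω : Type u} [Field Ω] [Algebra k Ω] (σ : k →ₐ[k] Ω) {a b c d x z : k}
    {e f : Fin n → k}
    (h : ∀ y : Fin n → k, mB A B a b f y = x * mB A B a b e y + z * mB A B c d e y)
    (y : Fin n → Ω) : mB A B (σ a) (σ b) (fun i => σ (f i)) y =
      σ x * mB A B (σ a) (σ b) (fun i => σ (e i)) y +
      σ z * mB A B (σ c) (σ d) (fun i => σ (e i)) y := by
  have h1 := ffn_ext (A := A) (B := B) σ (p := a • f + (-(x * a + z * c)) • e)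
    (q := b • f + (-(x * b + z * d)) • e) (fun y => by
      rw [bv_add, bv_add, bv_smul, bv_smul, bv_smul, bv_smul]
      have h2 := h y
      rw [mB, mB, mB] at h2
      linear_combination h2) y
  have e1 : (fun i => σ ((a • f + (-(x * a + z * c)) • e) i)) =
      σ a • (fun i => σ (f i)) + (-(σ x * σ a + σ z * σ c)) • (fun i => σ (e i)) := by
    funext i
    simp only [Pi.add_apply, Pi.smul_apply, smul_eq_mul, map_add, map_mul, map_neg]
  have e2 : (fun i => σ ((b • f + (-(x * b + z * d)) • e) i)) =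
      σ b • (fun i => σ (f i)) + (-(σ x * σ b + σ z * σ d)) • (fun i => σ (e i)) := by
    funext i
    simp only [Pi.add_apply, Pi.smul_apply, smul_eq_mul, map_add, map_mul, map_neg]
  rw [e1, e2, bv_add, bv_add, bv_smul, bv_smul, bv_smul, bv_smul] at h1
  rw [mB, mB, mB]
  linear_combination h1

/-- the end of the proof: a tangent vector at a point -/
theorem ffn_fin {a b c d : k} (hcd : a * d - b * c ≠ 0) (hnd : ND A B a b) {e u : Fin n → k}
    (he : e ≠ 0) (aP : qv A e = 0) (bP : qv B e = 0) (hu : u ∈ TP A B e)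
    (hQu : mQ A B a b u = 0) (hHu : mQ A B c d u ≠ 0) : TgR A B a b e u := by
  have hm : ∀ a' b' : k, mQ A B a' b' e = 0 := fun a' b' => by
    rw [mQ, aP, bP, mul_zero, mul_zero, add_zero]
  have hb : ∀ a' b' : k, mB A B a' b' e u = 0 := fun a' b' => by
    rw [mB, hu.1, hu.2, mul_zero, mul_zero, add_zero]
  refine ⟨ff_core hcd he (hm a b) (hm c d) (hb a b) (hb c d) hQu hHu, fun c' d' h => ?_⟩
  have h1 : c' • e + d' • u = 0 := by
    by_contra hne
    obtain ⟨y, hy⟩ := hnd _ hne
    exact hy (h y)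
  have h2 : d' = 0 := by
    have h3 : mQ A B c d (c' • e + d' • u) = d' ^ 2 * mQ A B c d u := by
      rw [mQ_lin, hm, hb]
      ring
    rw [h1, ← zero_smul k (0 : Fin n → k), mQ_smul] at h3
    have h4 : d' ^ 2 * mQ A B c d u = 0 := by linear_combination -h3
    exact pow_eq_zero_iff (two_ne_zero) |>.1 ((mul_eq_zero.1 h4).resolve_right hHu)
  rw [h2, zero_smul, add_zero, smul_eq_zero] at h1
  exact ⟨h1.resolve_right he, h2⟩

theorem ffn_case (h2 : (2 : k) ≠ 0) (h3 : (3 : k) ≠ 0) (hs : Sm (AlgebraicClosure k) A B)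
    (hn : 6 ≤ n) {a b c d : k} (hcd : a * d - b * c ≠ 0) (hnd : ND A B a b) {e f g : Fin n → k}
    (he : e ≠ 0) (aP : qv A e = 0) (bP : qv B e = 0) (hf : f ∈ TP A B e)
    (hQf : mQ A B a b f = 0) (hg : g ∈ TP A B e) (hfg : mB A B a b f g ≠ 0) :
    ∃ P u : Fin n → k, TgR A B a b P u := by
  by_contra hno
  push Not at hno
  have hcon : ∀ u ∈ TP A B e, mQ A B a b u = 0 → mQ A B c d u = 0 := by
    intro u hu hQu
    by_contra hHu
    exact hno e u (ffn_fin hcd hnd he aP bP hu hQu hHu)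
  obtain ⟨c0, hc0⟩ := lemZ h2 h2 (fun h => one_ne_zero (α := k) (by linear_combination h))
    (fun h => h3 (by linear_combination h)) (TP A B e) (mqf A B a b) (mqf A B c d) hf hg hQf
    (by rw [mqf_polar]; exact hfg) (fun u hu hQu => hcon u hu hQu)
  have hr := TP_rank hs (Algebra.ofId k (AlgebraicClosure k)) he aP bP
  obtain ⟨x, hx, hx2⟩ := no_sub h2 hs (Algebra.ofId k (AlgebraicClosure k)) hn (TP A B e)
    (by omega) (a := 1 * c + (-c0) * a) (b := 1 * d + (-c0) * b)
    (ff_comb_ne hcd (-c0) one_ne_zero)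
  apply hx2
  have h4 := hc0 x hx
  rw [mqf_apply, mqf_apply] at h4
  rw [mQ, mQ] at h4
  rw [mQ]
  linear_combination h4

/-- a functional which vanishes on the tangent space, in terms of two members -/
theorem ffn_ann {a b c d : k} (hcd : a * d - b * c ≠ 0) {e f : Fin n → k}
    (h : ∀ g ∈ TP A B e, mB A B a b f g = 0) :
    ∃ x z : k, ∀ y : Fin n → k, mB A B a b f y = x * mB A B a b e y + z * mB A B c d e y := by
  obtain ⟨x, z, hxz⟩ := TP_ann (A := A) (B := B) (P := e) (mBl A B a b f) (fun u hu => h u hu)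
  refine ⟨(x * d - z * c) / (a * d - b * c), (z * a - x * b) / (a * d - b * c), fun y => ?_⟩
  have h1 := hxz y
  rw [mBl_apply] at h1
  rw [h1, mB, mB, div_mul_eq_mul_div, div_mul_eq_mul_div, ← add_div, eq_div_iff hcd]
  ring

/-- the pencil on a line of `X` cannot be an isomorphism of the plane of the two functionals -/
theorem ffn_eig (h2 : (2 : k) ≠ 0) (hs : Sm (AlgebraicClosure k) A B) {a b c d : k}
    (hcd : a * d - b * c ≠ 0) (hnd : ND A B a b) {e f : Fin n → k}
    (hef : LinearIndependent k ![e, f]) (ae : qv A e = 0) (be : qv B e = 0) (af : qv A f = 0)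
    (bf : qv B f = 0) (aef : bv A e f = 0) (bef : bv B e f = 0) {x1 z1 x2 z2 : k}
    (r1 : ∀ y : Fin n → k, mB A B a b f y = x1 * mB A B a b e y + z1 * mB A B c d e y)
    (r2 : ∀ y : Fin n → k, mB A B a b e y = x2 * mB A B a b f y + z2 * mB A B c d f y) :
    False := by
  have hΩ : (2 : AlgebraicClosure k) ≠ 0 := rad_two_ne h2
  have hz1 : z1 ≠ 0 := by
    intro h
    have h4 : (-x1) • e + (1 : k) • f = 0 := by
      by_contra hne
      obtain ⟨y, hy⟩ := hnd _ hne
      apply hy
      rw [mB_add, mB_smul, mB_smul, r1 y, h]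
      ring
    exact one_ne_zero (LinearIndependent.pair_iff.1 hef _ _ h4).2
  have hz2 : z2 ≠ 0 := by
    intro h
    have h4 : (1 : k) • e + (-x2) • f = 0 := by
      by_contra hne
      obtain ⟨y, hy⟩ := hnd _ hne
      apply hy
      rw [mB_add, mB_smul, mB_smul, r2 y, h]
      ring
    exact one_ne_zero (LinearIndependent.pair_iff.1 hef _ _ h4).1
  obtain ⟨σ, -⟩ : ∃ σ : k →ₐ[k] AlgebraicClosure k, σ = Algebra.ofId k _ := ⟨_, rfl⟩
  obtain ⟨i, j, hij⟩ := exists_minor hef
  have hm : σ (e i) * σ (f j) - σ (e j) * σ (f i) ≠ 0 := by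
    rw [← map_mul, ← map_mul, sub_ne_zero]
    exact fun h2 => hij (σ.injective h2)
  have R1 := ffn_rel σ r1
  have R2 := ffn_rel σ r2
  have hz1' : σ z1 ≠ 0 := (map_ne_zero σ).2 hz1
  have hz2' : σ z2 ≠ 0 := (map_ne_zero σ).2 hz2
  have hcd' : σ a * σ d - σ b * σ c ≠ 0 := by
    rw [← map_mul, ← map_mul, ← map_sub]
    exact (map_ne_zero σ).2 hcd
  have Ae : qv A (fun i => σ (e i)) = 0 := by rw [qv_hom, ae, map_zero]
  have Be : qv B (fun i => σ (e i)) = 0 := by rw [qv_hom, be, map_zero]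
  have Af : qv A (fun i => σ (f i)) = 0 := by rw [qv_hom, af, map_zero]
  have Bf : qv B (fun i => σ (f i)) = 0 := by rw [qv_hom, bf, map_zero]
  have Aef : bv A (fun i => σ (e i)) (fun i => σ (f i)) = 0 := by rw [bv_hom, aef, map_zero]
  have Bef : bv B (fun i => σ (e i)) (fun i => σ (f i)) = 0 := by rw [bv_hom, bef, map_zero]
  obtain ⟨e', he'⟩ : ∃ e' : Fin n → AlgebraicClosure k, e' = fun i => σ (e i) := ⟨_, rfl⟩
  obtain ⟨f', hf'⟩ : ∃ f' : Fin n → AlgebraicClosure k, f' = fun i => σ (f i) := ⟨_, rfl⟩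
  rw [← he'] at Ae Be Aef Bef R1 R2
  rw [← hf'] at Af Bf Aef Bef R1 R2
  have hm' : e' i * f' j - e' j * f' i ≠ 0 := by
    rw [he', hf']
    exact hm
  obtain ⟨s, t, hst, h0⟩ := rad_zero_two hΩ (-σ z2) (σ x2 * σ z1 - σ x1 * σ z2) (σ z1)
  have hw : s • e' + t • f' ≠ 0 := by
    intro h3
    have e1 : s * e' i + t * f' i = 0 := congrFun h3 i
    have e2 : s * e' j + t * f' j = 0 := congrFun h3 j
    have e3 : s * (e' i * f' j - e' j * f' i) = 0 := by
      linear_combination f' j * e1 - f' i * e2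
    have e4 : t * (e' i * f' j - e' j * f' i) = 0 := by
      linear_combination -e' j * e1 + e' i * e2
    rcases hst with h3 | h3
    · exact h3 ((mul_eq_zero.1 e3).resolve_right hm')
    · exact h3 ((mul_eq_zero.1 e4).resolve_right hm')
  have qA : qv A (s • e' + t • f') = 0 := by
    rw [qv_lin, Ae, Af, Aef]
    ring
  have qB : qv B (s • e' + t • f') = 0 := by
    rw [qv_lin, Be, Bf, Bef]
    ring
  obtain ⟨α, β, hα, hr⟩ : ∃ α β : AlgebraicClosure k, α ≠ 0 ∧ ∀ y : Fin n → AlgebraicClosure k,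
      α * mB A B (σ c) (σ d) (s • e' + t • f') y +
      β * mB A B (σ a) (σ b) (s • e' + t • f') y = 0 := by
    have hC : ∀ y : Fin n → AlgebraicClosure k,
        σ z1 * σ z2 * mB A B (σ c) (σ d) (s • e' + t • f') y =
        (t * σ z1 - s * σ x1 * σ z2) * mB A B (σ a) (σ b) e' y +
        (s * σ z2 - t * σ z1 * σ x2) * mB A B (σ a) (σ b) f' y := by
      intro y
      rw [mB_add, mB_smul, mB_smul]
      linear_combination -(s * σ z2) * R1 y - (t * σ z1) * R2 y
    rcases hst with h | h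
    · refine ⟨s * (σ z1 * σ z2), -(t * σ z1 - s * σ x1 * σ z2),
        mul_ne_zero h (mul_ne_zero hz1' hz2'), fun y => ?_⟩
      rw [mul_assoc, hC, mB_add, mB_smul, mB_smul]
      linear_combination (-mB A B (σ a) (σ b) f' y) * h0
    · refine ⟨t * (σ z1 * σ z2), -(s * σ z2 - t * σ z1 * σ x2),
        mul_ne_zero h (mul_ne_zero hz1' hz2'), fun y => ?_⟩
      rw [mul_assoc, hC, mB_add, mB_smul, mB_smul]
      linear_combination (mB A B (σ a) (σ b) e' y) * h0
  obtain ⟨w1, w2⟩ := hs _ hw qA qB (α * σ c + β * σ a) (α * σ d + β * σ b) (fun y => by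
    have h4 := hr y
    rw [mB, mB] at h4
    linear_combination h4)
  rcases ff_comb_ne hcd' β hα with h | h
  · exact h w1
  · exact h w2

/-- The nondegenerate case. Let `Q = mQ a b` and `H = A` or `B`, independent of `Q`. There is a point
`e ≠ 0` of `X` over `k` (Chevalley-Warning for two quadratic forms in at least five variables,
`char_dvd_card_solutions_of_sum_lt` or the existing versions), and `u ∈ TP e`, not a multiple of `e`,
with `Q u = 0` (a complement of `e` in `TP e` has dimension at least `3`: `exists_zero3`). If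
`qv H u ≠ 0` done (`P = e`; `nr` since `ND` and `P`, `u` are independent). Otherwise let `f = u`: the
line through `e` and `f` is on `X`. Not both `mB f` vanishes on `TP e` and `mB e` vanishes on `TP f`:
otherwise by `TP_ann` `mB f = x mB e + y bv H e`, `mB e = x' mB f + y' bv H f`; `y ≠ 0`, `y' ≠ 0`
(`ND`), so `bv H e` and `bv H f` are combinations of `mB e`, `mB f`: `bv H` maps the plane of `e`, `f` to
the plane of the functionals `mB e`, `mB f`, and over the algebraic closure there is an eigenvector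
`w = s e + t f ≠ 0`, `bv H w = c mB w`, against smoothness at `w ∈ X`. By symmetry let `mB f` be not `0`
on `TP e`. If `qv H` vanishes at all zeros of `Q` in `TP e` then `qv H = c Q` on `TP e` by `lemZ`
(zero `f`, `s₀ = 2`), against `no_sub` (`TP_rank`). So there is `u ∈ TP e`, `Q u = 0`, `qv H u ≠ 0`. -/
theorem ff_nd [Finite k] (h6 : (6 : k) ≠ 0) (hs : Sm (AlgebraicClosure k) A B) (hn : 6 ≤ n)
    {a b : k} (hab : a ≠ 0 ∨ b ≠ 0) (hnd : ND A B a b) : ∃ P u : Fin n → k, TgR A B a b P u := by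
  have h2 : (2 : k) ≠ 0 := fun h => h6 (by linear_combination 3 * h)
  have h3 : (3 : k) ≠ 0 := fun h => h6 (by linear_combination 2 * h)
  obtain ⟨c, d, hcd⟩ : ∃ c d : k, a * d - b * c ≠ 0 := by
    rcases hab with h | h
    · exact ⟨0, 1, by rw [mul_one, mul_zero, sub_zero]; exact h⟩
    · exact ⟨1, 0, by rw [mul_zero, mul_one, zero_sub, neg_ne_zero]; exact h⟩
  obtain ⟨e, -, he, ae, be⟩ := exists_zero5 (⊤ : Submodule k (Fin n → k))
    (by rw [finrank_top, Module.finrank_fin_fun]; omega) (mqf A B 1 0) (mqf A B 0 1)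
  rw [mqf_apply, mQ, one_mul, zero_mul, add_zero] at ae
  rw [mqf_apply, mQ, one_mul, zero_mul, zero_add] at be
  obtain ⟨i, hi⟩ : ∃ i, e i ≠ 0 := by
    by_contra hcon
    push Not at hcon
    exact he (funext hcon)
  have hr := TP_rank hs (Algebra.ofId k (AlgebraicClosure k)) he ae be
  have hk := ff_ker (TP A B e) (LinearMap.proj i)
  obtain ⟨f, hf, hf0, hQf⟩ := exists_zero3 (TP A B e ⊓ LinearMap.ker (LinearMap.proj i))
    (by omega) (mqf A B a b)
  obtain ⟨hfT, hfi⟩ := hf
  have hfi' : f i = 0 := hfi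
  have hef : LinearIndependent k ![e, f] := LinearIndependent.pair_iff.2 fun s t hst => by
    have h4 : s * e i + t * f i = 0 := congrFun hst i
    have h5 : s = 0 := by
      rw [hfi', mul_zero, add_zero] at h4
      exact (mul_eq_zero.1 h4).resolve_right hi
    rw [h5, zero_smul, zero_add, smul_eq_zero] at hst
    exact ⟨h5, hst.resolve_right hf0⟩
  by_cases hHf : mQ A B c d f = 0
  swap
  · exact ⟨e, f, ffn_fin hcd hnd he ae be hfT hQf hHf⟩
  have hQf' : mQ A B a b f = 0 := hQf
  have af : qv A f = 0 := by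
    rw [mQ] at hQf' hHf
    have e1 : (a * d - b * c) * qv A f = 0 := by linear_combination d * hQf' - b * hHf
    exact (mul_eq_zero.1 e1).resolve_left hcd
  have bf : qv B f = 0 := by
    rw [mQ] at hQf' hHf
    have e1 : (a * d - b * c) * qv B f = 0 := by linear_combination a * hHf - c * hQf'
    exact (mul_eq_zero.1 e1).resolve_left hcd
  have heT : e ∈ TP A B f := ⟨by rw [bv_comm]; exact hfT.1, by rw [bv_comm]; exact hfT.2⟩
  by_cases hx1 : ∃ g ∈ TP A B e, mB A B a b f g ≠ 0
  · obtain ⟨g, hg, hfg⟩ := hx1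
    exact ffn_case h2 h3 hs hn hcd hnd he ae be hfT hQf' hg hfg
  by_cases hx2 : ∃ g ∈ TP A B f, mB A B a b e g ≠ 0
  · obtain ⟨g, hg, heg⟩ := hx2
    exact ffn_case h2 h3 hs hn hcd hnd hf0 af bf heT
      (by rw [mQ, ae, be, mul_zero, mul_zero, add_zero]) hg heg
  push Not at hx1 hx2
  obtain ⟨x1, z1, r1⟩ := ffn_ann hcd hx1
  obtain ⟨x2, z2, r2⟩ := ffn_ann hcd hx2
  exact (ffn_eig h2 hs hcd hnd hef ae be af bf hfT.1 hfT.2 r1 r2).elim

theorem ff_tg [Finite k] (h6 : (6 : k) ≠ 0) (hs : Sm (AlgebraicClosure k) A B) (hn : 6 ≤ n)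
    {a b : k} (hab : a ≠ 0 ∨ b ≠ 0) : ∃ P u : Fin n → k, TgR A B a b P u := by
  by_cases h : ND A B a b
  · exact ff_nd h6 hs hn hab h
  · simp only [ND, not_forall, not_exists, not_not] at h
    obtain ⟨v, hv, hr⟩ := h
    exact ff_cone h6 hs hn hab hv hr

end Dp
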