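import Pool.Agent.Lib.MP_f80667_ag.Dp.Wf

/-! The functionals which vanish at all points of the family `Wf`. -/

namespace Dp

open ZC Tq

universe u

variable {k : Type u} [Field k] [CharZero k] {Ω : Type u} [Field Ω] [Algebra k Ω] [IsAlgClosed Ω]
  {n : ℕ} {A B H : Matrix (Fin n) (Fin n) k}

/-- A functional which vanishes on the kernel of another one is a multiple of it. -/
theorem fl_mul {V : Type*} [AddCommGroup V] [Module Ω V] (f g : V →ₗ[Ω] Ω)
    (h : ∀ y, f y = 0 → g y = 0) : ∃ c : Ω, ∀ y, g y = c * f y := by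
  by_cases hf : ∃ z, f z ≠ 0
  · obtain ⟨z, hz⟩ := hf
    refine ⟨g z / f z, fun y => ?_⟩
    have h1 : f (f z • y - f y • z) = 0 := by
      rw [map_sub, map_smul, map_smul, smul_eq_mul, smul_eq_mul]
      ring
    have h2 := h _ h1
    rw [map_sub, map_smul, map_smul, smul_eq_mul, smul_eq_mul] at h2
    field_simp
    linear_combination h2
  · push Not at hf
    refine ⟨0, fun y => ?_⟩
    rw [h y (hf y), zero_mul]

/-- There is a vector orthogonal to `P` and `u` which is not a zero of the member. -/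
theorem fl_aux (hs : Sm Ω A B) (hn : 6 ≤ n) {a b : Ω} (hab : a ≠ 0 ∨ b ≠ 0) (P u : Fin n → Ω) :
    ∃ g : Fin n → Ω, mB A B a b P g = 0 ∧ mB A B a b u g = 0 ∧ mQ A B a b g ≠ 0 := by
  have h1 := LinearMap.finrank_range_add_finrank_ker
    ((mBl A B a b P).prod (mBl A B a b u))
  have h2 : Module.finrank Ω (LinearMap.range ((mBl A B a b P).prod (mBl A B a b u))) ≤ 2 := by
    refine (Submodule.finrank_le _).trans ?_
    rw [Module.finrank_prod, Module.finrank_self]
  rw [Module.finrank_fin_fun] at h1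
  obtain ⟨y, hy, hq⟩ := no_sub (k := k) (two_ne_zero) hs (AlgHom.id k Ω) hn
    (LinearMap.ker ((mBl A B a b P).prod (mBl A B a b u))) (by omega) hab
  rw [LinearMap.mem_ker, LinearMap.prod_apply] at hy
  have hy1 : mB A B a b P y = 0 := congrArg Prod.fst hy
  have hy2 : mB A B a b u y = 0 := congrArg Prod.snd hy
  exact ⟨y, hy1, hy2, hq⟩

/-- **The functionals which vanish at all points of the family.** Proof. Write `Q = mQ A B a b`,
`b u g = mB A B a b u g`. For `g` with `mB P g = 0`: `pg g = κ g` with `κ = mB P w ≠ 0`, so (`px_smul`,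
`pW_smul`) `φ (pW H P (px u g)) = 0`. Let `F x = qv H x * φ P - bv H P x * φ x`, a quadratic form with
polar form `pF`. So `0 = F (b g - Q(g) u) = b² F g - b Q(g) pF g u + Q(g)² F u`, `b = mB u g`, and
`F u = qv H u * φ P`. (1) There is `g` orthogonal to `P` and `u` with `Q g ≠ 0` (`no_sub`); so
`φ P = 0`. (2) Now `F x = -bv H P x * φ x`, `pF g u = -bv H P g * φ u`, so
`b * bv H P g * (Q g * φ u - b * φ g) = 0` for all `g` orthogonal to `P`. The functionals `mB u` and
`bv H P` do not vanish on the orthogonal space of `P` (`ND` and `u`, `P` independent; `sm_pt`), so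
`Q g * φ u = mB u g * φ g` for all `g` orthogonal to `P` (`PL.exists_ne` for the module
`ker (mBl P)`). (3) If `φ u ≠ 0` then `Q` vanishes on the orthogonal space of `P` and `u`, against
`no_sub`. So `φ u = 0`, and `mB u g * φ g = 0`, so `φ` vanishes on the orthogonal space of `P`
(`PL.exists_two`), so it is a multiple of `mB P`. -/
theorem fl (hs : Sm Ω A B) (hn : 6 ≤ n) {a b : Ω} (hab : a ≠ 0 ∨ b ≠ 0) (hnd : ND A B a b)
    (hH : H = A ∨ H = B) {P u w : Fin n → Ω} (hT : Tg A B a b P u) (hu : qv H u ≠ 0)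
    (hw : mB A B a b P w ≠ 0) (φ : (Fin n → Ω) →ₗ[Ω] Ω)
    (h : ∀ z : Fin n → Ω, φ (Wf A B H a b P u w z) = 0) : ∃ c : Ω, ∀ y, φ y = c * mB A B a b P y := by
  have hc0 : CharZero Ω := charZero_of_injective_algebraMap (algebraMap k Ω).injective
  have hinf : Infinite Ω := CharZero.infinite Ω
  have hHP : qv H P = 0 := by
    rcases hH with rfl | rfl
    · exact hT.aP
    · exact hT.bP
  have hHPu : bv H P u = 0 := by
    rcases hH with rfl | rfl
    · exact hT.aPu
    · exact hT.bPu
  -- the basic identity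
  have h0 : ∀ g : Fin n → Ω, mB A B a b P g = 0 →
      (mB A B a b u g ^ 2 * qv H g - mB A B a b u g * mQ A B a b g * bv H g u +
        mQ A B a b g ^ 2 * qv H u) * φ P -
      mB A B a b u g * bv H P g * (mB A B a b u g * φ g - mQ A B a b g * φ u) = 0 := by
    intro g hg
    have e1 := h g
    rw [Wf, pg_of_perp hg, px_smul, pW_smul, map_smul, smul_eq_mul] at e1
    have e2 : φ (pW H P (px A B a b u g)) = 0 :=
      (mul_eq_zero.1 e1).resolve_left (pow_ne_zero _ (pow_ne_zero _ hw))
    have e3 : px A B a b u g = mB A B a b u g • g + (-mQ A B a b g) • u := by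
      rw [px, neg_smul, ← sub_eq_add_neg]
    have e4 : bv H P (px A B a b u g) = mB A B a b u g * bv H P g := by
      rw [e3, bv_add_right, bv_smul_right, bv_smul_right, hHPu]
      ring
    rw [pW, map_sub, map_smul, map_smul, smul_eq_mul, smul_eq_mul, e4, e3, qv_lin, map_add,
      map_smul, map_smul, smul_eq_mul, smul_eq_mul] at e2
    linear_combination e2
  -- (1)
  have hP0 : φ P = 0 := by
    obtain ⟨g, hg1, hg2, hg3⟩ := fl_aux (n := n) hs hn hab P u
    have e1 := h0 g hg1
    rw [hg2] at e1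
    have e2 : mQ A B a b g ^ 2 * qv H u * φ P = 0 := by linear_combination e1
    exact (mul_eq_zero.1 e2).resolve_left (mul_ne_zero (pow_ne_zero _ hg3) hu)
  have h1 : ∀ g : Fin n → Ω, mB A B a b P g = 0 →
      mB A B a b u g * (bv H P g * (mQ A B a b g * φ u - mB A B a b u g * φ g)) = 0 := by
    intro g hg
    have e1 := h0 g hg
    rw [hP0] at e1
    linear_combination e1
  -- (2)
  let W : Submodule Ω (Fin n → Ω) := LinearMap.ker (mBl A B a b P)
  have hW : ∀ g : W, mB A B a b P g = 0 := fun g => LinearMap.mem_ker.1 g.2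
  have f1 : ∃ g : W, mB A B a b u g ≠ 0 := by
    by_contra hcon
    push Not at hcon
    obtain ⟨c, hc⟩ := fl_mul (mBl A B a b P) (mBl A B a b u)
      (fun y hy => hcon ⟨y, LinearMap.mem_ker.2 hy⟩)
    have e1 : ∀ y, mB A B a b (u + (-c) • P) y = 0 := by
      intro y
      have e2 : mB A B a b u y = c * mB A B a b P y := hc y
      rw [mB_add, mB_smul, e2]
      ring
    by_cases hz : u + (-c) • P = 0
    · apply hu
      have e2 : u = c • P := by
        rw [neg_smul, ← sub_eq_add_neg, sub_eq_zero] at hz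
        exact hz
      rw [e2, qv_smul, hHP, mul_zero]
    · obtain ⟨y, hy⟩ := hnd _ hz
      exact hy (e1 y)
  have f2 : ∃ g : W, bv H P g ≠ 0 := by
    by_contra hcon
    push Not at hcon
    obtain ⟨c, hc⟩ := fl_mul (mBl A B a b P) (bvl H P)
      (fun y hy => hcon ⟨y, LinearMap.mem_ker.2 hy⟩)
    have e1 : ∀ y, bv H P y = c * mB A B a b P y := hc
    have hqu : a * qv A u + b * qv B u = 0 := hT.qu
    rcases hH with rfl | rfl
    · obtain ⟨z1, z2⟩ := sm_pt hs (AlgHom.id k Ω) hT.hP hT.aP hT.bP (a := 1 - c * a)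
        (b := -(c * b)) (fun y => by
          have e2 := e1 y
          rw [mB] at e2
          rw [mB]
          linear_combination e2)
      have hcb : c ≠ 0 := by
        rintro rfl
        rw [zero_mul, sub_zero] at z1
        exact one_ne_zero z1
      have hb : b = 0 := (mul_eq_zero.1 (neg_eq_zero.1 z2)).resolve_left hcb
      rw [hb, zero_mul, add_zero] at hqu
      have ha : a ≠ 0 := hab.resolve_right (fun h => h hb)
      exact hu ((mul_eq_zero.1 hqu).resolve_left ha)
    · obtain ⟨z1, z2⟩ := sm_pt hs (AlgHom.id k Ω) hT.hP hT.aP hT.bP (a := -(c * a))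
        (b := 1 - c * b) (fun y => by
          have e2 := e1 y
          rw [mB] at e2
          rw [mB]
          linear_combination e2)
      have hcb : c ≠ 0 := by
        rintro rfl
        rw [zero_mul, sub_zero] at z2
        exact one_ne_zero z2
      have ha : a = 0 := (mul_eq_zero.1 (neg_eq_zero.1 z1)).resolve_left hcb
      rw [ha, zero_mul, zero_add] at hqu
      have hb : b ≠ 0 := hab.resolve_left (fun h => h ha)
      exact hu ((mul_eq_zero.1 hqu).resolve_left hb)
  -- polynomial functions on `W`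
  have p0 : ∀ i, PL Ω (fun g : W => (g : Fin n → Ω) i) := fun i =>
    PL.lin ((LinearMap.proj i : (Fin n → Ω) →ₗ[Ω] Ω) ∘ₗ W.subtype)
  have p1 : PL Ω (fun g : W => mB A B a b u g) := PL.lin ((mBl A B a b u) ∘ₗ W.subtype)
  have p2 : PL Ω (fun g : W => bv H P g) := PL.lin ((bvl H P) ∘ₗ W.subtype)
  have p3 : PL Ω (fun g : W => mQ A B a b g) :=
    PL.add (PL.mul (PL.const a) (PL.qv A p0)) (PL.mul (PL.const b) (PL.qv B p0))
  have p4 : PL Ω (fun g : W => φ g) := PL.lin (φ ∘ₗ W.subtype)
  have p5 : PL Ω (fun g : W => mQ A B a b g * φ u - mB A B a b u g * φ g) :=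
    PL.sub (PL.mul p3 (PL.const (φ u))) (PL.mul p1 p4)
  have h2 : ∀ g : W, mQ A B a b g * φ u - mB A B a b u g * φ g = 0 := by
    by_contra hcon
    push Not at hcon
    obtain ⟨g, hg1, hg2⟩ := PL.exists_two (PL.mul p1 p2) p5 (PL.exists_two p1 p2 f1 f2 |>.imp
      fun g hg => mul_ne_zero hg.1 hg.2) hcon
    have e1 := h1 g (hW g)
    rw [← mul_assoc] at e1
    exact hg2 ((mul_eq_zero.1 e1).resolve_left hg1)
  -- (3)
  have hu0 : φ u = 0 := by
    obtain ⟨g, hg1, hg2, hg3⟩ := fl_aux (n := n) hs hn hab P u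
    have e1 := h2 ⟨g, LinearMap.mem_ker.2 hg1⟩
    have e2 : mQ A B a b g * φ u - mB A B a b u g * φ g = 0 := e1
    rw [hg2, zero_mul, sub_zero] at e2
    exact (mul_eq_zero.1 e2).resolve_left hg3
  have h3 : ∀ g : W, φ g = 0 := by
    by_contra hcon
    push Not at hcon
    obtain ⟨g, hg1, hg2⟩ := PL.exists_two p1 p4 f1 hcon
    have e1 := h2 g
    rw [hu0, mul_zero, zero_sub, neg_eq_zero] at e1
    exact hg2 ((mul_eq_zero.1 e1).resolve_left hg1)
  exact fl_mul (mBl A B a b P) φ fun y hy => h3 ⟨y, LinearMap.mem_ker.2 hy⟩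

/-- The span of the points of the family has dimension at least `n - 1`. Proof: otherwise there are
two independent functionals which vanish on it, but by `fl` they are multiples of one functional. -/
theorem fl_rank (hs : Sm Ω A B) (hn : 6 ≤ n) {a b : Ω} (hab : a ≠ 0 ∨ b ≠ 0) (hnd : ND A B a b)
    (hH : H = A ∨ H = B) {P u w : Fin n → Ω} (hT : Tg A B a b P u) (hu : qv H u ≠ 0)
    (hw : mB A B a b P w ≠ 0) : n ≤ Module.finrank Ω (Submodule.span Ω
      (Set.range fun z : Fin n → Ω => Wf A B H a b P u w z)) + 1 := by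
  set S : Submodule Ω (Fin n → Ω) := Submodule.span Ω
      (Set.range fun z : Fin n → Ω => Wf A B H a b P u w z) with hS
  have h1 := Subspace.finrank_add_finrank_dualAnnihilator_eq S
  rw [Module.finrank_fin_fun] at h1
  have h2 : S.dualAnnihilator ≤ Submodule.span Ω {mBl A B a b P} := by
    intro φ hφ
    rw [Submodule.mem_dualAnnihilator] at hφ
    obtain ⟨c, hc⟩ := fl hs hn hab hnd hH hT hu hw φ
      (fun z => hφ _ (Submodule.subset_span ⟨z, rfl⟩))
    rw [Submodule.mem_span_singleton]
    refine ⟨c, LinearMap.ext fun y => ?_⟩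
    rw [LinearMap.smul_apply, smul_eq_mul, hc]
    rfl
  have h3 : Module.finrank Ω S.dualAnnihilator ≤ 1 := by
    refine (Submodule.finrank_mono h2).trans ?_
    refine (finrank_span_le_card _).trans ?_
    simp
  omega

end Dp
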