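import Pool.Agent.Lib.MP_f80667_ag.Dp.Fl
import Pool.Agent.Lib.MP_f80667_ag.Dp.GoodU

/-! General points of `X` over a field over which `X` has a point. -/

namespace Dp

open ZC Tq

universe u

section aux

variable {k : Type*} [Field k] {n : ℕ} {A B H : Matrix (Fin n) (Fin n) k} {Ω : Type*} [Field Ω]
  [Algebra k Ω]

/-- The polynomial whose values are the values of a functional on the family `Wf`. -/
noncomputable def gen_poly (A B H : Matrix (Fin n) (Fin n) k) (a b : Ω) (P u w : Fin n → Ω)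
    (φ : (Fin n → Ω) →ₗ[Ω] Ω) : MvPolynomial (Fin n) Ω :=
  ∑ j, MvPolynomial.C (φ (Pi.single j 1)) *
    Wf A B H (MvPolynomial.C a) (MvPolynomial.C b) (fun i => MvPolynomial.C (P i))
      (fun i => MvPolynomial.C (u i)) (fun i => MvPolynomial.C (w i)) MvPolynomial.X j

theorem gen_poly_eval (a b : Ω) (P u w : Fin n → Ω) (φ : (Fin n → Ω) →ₗ[Ω] Ω) (z : Fin n → Ω) :
    MvPolynomial.eval z (gen_poly A B H a b P u w φ) = φ (Wf A B H a b P u w z) := by
  have h1 := Wf_hom (A := A) (B := B) (H := H)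
    ((MvPolynomial.aeval z : MvPolynomial (Fin n) Ω →ₐ[Ω] Ω).restrictScalars k)
    (MvPolynomial.C a) (MvPolynomial.C b) (fun i => MvPolynomial.C (P i))
    (fun i => MvPolynomial.C (u i)) (fun i => MvPolynomial.C (w i)) MvPolynomial.X
  simp only [AlgHom.restrictScalars_apply, MvPolynomial.aeval_C, MvPolynomial.aeval_X,
    Algebra.algebraMap_self, RingHom.id_apply] at h1
  have h2 : φ (Wf A B H a b P u w z) =
      ∑ j, Wf A B H a b P u w z j * φ (Pi.single j 1) := by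
    rw [LinearMap.pi_apply_eq_sum_univ φ (Wf A B H a b P u w z)]
    refine Finset.sum_congr rfl fun j _ => ?_
    rw [smul_eq_mul]
    congr 2
    funext i
    rw [Pi.single_apply]
    by_cases h : i = j
    · rw [if_pos h, if_pos h.symm]
    · rw [if_neg h, if_neg (Ne.symm h)]
  rw [h2, gen_poly, map_sum]
  refine Finset.sum_congr rfl fun j _ => ?_
  rw [map_mul, MvPolynomial.eval_C, mul_comm]
  congr 1
  exact (congrFun h1 j).symm

end aux

variable {k : Type u} [Field k] [CharZero k] {Ω : Type u} [Field Ω] [Algebra k Ω] [IsAlgClosed Ω]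
  {n : ℕ} {A B : Matrix (Fin n) (Fin n) k} {M : Type u} [Field M] [Algebra k M]

omit [CharZero k] [IsAlgClosed Ω] in
theorem gen_ne (σ : M →ₐ[k] Ω) {P : Fin n → M} (hP : P ≠ 0) : (fun j => σ (P j)) ≠ 0 := by
  intro h
  exact hP (funext fun j => (map_eq_zero σ).1 (congrFun h j))

omit [CharZero k] [IsAlgClosed Ω] in
/-- The differentials at a point are independent, over `Ω`. -/
theorem gen_pt (hs : Sm Ω A B) (σ : M →ₐ[k] Ω) {P : Fin n → M} (hP : P ≠ 0)
    (zP : Zer (Pl A B) M P) {c d : Ω}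
    (h : ∀ y : Fin n → Ω, mB A B c d (fun j => σ (P j)) y = 0) : c = 0 ∧ d = 0 := by
  obtain ⟨aP, bP⟩ := (zer_iff A B).1 zP
  exact hs (fun j => σ (P j)) (gen_ne σ hP) (by rw [qv_hom, aP, map_zero])
    (by rw [qv_hom, bP, map_zero]) c d h

theorem gen_zero (hs : Sm Ω A B) (σ : M →ₐ[k] Ω) (hn : 6 ≤ n) {P : Fin n → M} (hP : P ≠ 0)
    (zP : Zer (Pl A B) M P) {ι : Type} [Finite ι] (φ : ι → (Fin n → Ω) →ₗ[Ω] Ω)
    (hφ : ∀ i, φ i ≠ 0) :
    ∃ W : Fin n → M, Zer (Pl A B) M W ∧ ∀ i, φ i (fun j => σ (W j)) ≠ 0 := by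
  classical
  have := Fintype.ofFinite ι
  obtain ⟨c, hc0, hc⟩ : ∃ c : ι → Ω × Ω, (∀ i, (c i).1 ≠ 0 ∨ (c i).2 ≠ 0) ∧
      ∀ i (d : Ω × Ω), (d.1 ≠ 0 ∨ d.2 ≠ 0) →
        (∀ y, φ i y = mB A B d.1 d.2 (fun j => σ (P j)) y) → c i = d := by
    have h1 : ∀ i, ∃ c : Ω × Ω, (c.1 ≠ 0 ∨ c.2 ≠ 0) ∧ ∀ d : Ω × Ω, (d.1 ≠ 0 ∨ d.2 ≠ 0) →
        (∀ y, φ i y = mB A B d.1 d.2 (fun j => σ (P j)) y) → c = d := by
      intro i
      by_cases h : ∃ c : Ω × Ω, (c.1 ≠ 0 ∨ c.2 ≠ 0) ∧
          ∀ y, φ i y = mB A B c.1 c.2 (fun j => σ (P j)) y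
      · obtain ⟨c, hc0, hc⟩ := h
        refine ⟨c, hc0, fun d _ hd => ?_⟩
        have h2 := gen_pt hs σ hP zP (c := c.1 - d.1) (d := c.2 - d.2) (fun y => by
          have e1 := hc y
          have e2 := hd y
          rw [e2] at e1
          rw [mB, mB] at e1
          rw [mB]
          linear_combination -e1)
        exact Prod.ext (sub_eq_zero.1 h2.1) (sub_eq_zero.1 h2.2)
      · refine ⟨(1, 0), Or.inl one_ne_zero, fun d hd0 hd => ?_⟩
        exact absurd ⟨d, hd0, hd⟩ h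
    choose c hc using h1
    exact ⟨c, fun i => (hc i).1, fun i => (hc i).2⟩
  obtain ⟨u, g, hT, hND, -, -, hu⟩ := exists_u hs σ hn hP zP (Finset.univ.image c) (by
    intro d hd
    obtain ⟨i, -, rfl⟩ := Finset.mem_image.1 hd
    exact hc0 i)
  obtain ⟨w, hw⟩ := hND P hP
  have hab : qv B u ≠ 0 ∨ -qv A u ≠ 0 := by
    by_contra h
    rw [not_or, not_not, not_not, neg_eq_zero] at h
    exact hT.nu ⟨h.2, h.1⟩
  obtain ⟨H, hH, hHu⟩ : ∃ H, (H = A ∨ H = B) ∧ qv H u ≠ 0 := by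
    rcases hab with h | h
    · exact ⟨B, Or.inr rfl, h⟩
    · exact ⟨A, Or.inl rfl, fun h1 => h (by rw [h1, neg_zero])⟩
  -- over `Ω`
  have hab' : σ (qv B u) ≠ 0 ∨ σ (-qv A u) ≠ 0 :=
    hab.imp (fun h => (map_ne_zero σ).2 h) (fun h => (map_ne_zero σ).2 h)
  have hND' : ND A B (σ (qv B u)) (σ (-qv A u)) := (ND.hom σ).2 hND
  have hT' : Tg A B (σ (qv B u)) (σ (-qv A u)) (fun j => σ (P j)) (fun j => σ (u j)) :=
    { hP := gen_ne σ hP
      aP := by rw [qv_hom, hT.aP, map_zero]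
      bP := by rw [qv_hom, hT.bP, map_zero]
      aPu := by rw [bv_hom, hT.aPu, map_zero]
      bPu := by rw [bv_hom, hT.bPu, map_zero]
      qu := by rw [mQ_hom, hT.qu, map_zero]
      nu := by
        rintro ⟨h1, h2⟩
        rw [qv_hom, map_eq_zero] at h1 h2
        exact hT.nu ⟨h1, h2⟩ }
  have hHu' : qv H (fun j => σ (u j)) ≠ 0 := by
    rw [qv_hom]
    exact (map_ne_zero σ).2 hHu
  have hw' : mB A B (σ (qv B u)) (σ (-qv A u)) (fun j => σ (P j)) (fun j => σ (w j)) ≠ 0 := by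
    rw [mB_hom]
    exact (map_ne_zero σ).2 hw
  have hz : ∀ i, ∃ z : Fin n → Ω, φ i (Wf A B H (σ (qv B u)) (σ (-qv A u)) (fun j => σ (P j))
      (fun j => σ (u j)) (fun j => σ (w j)) z) ≠ 0 := by
    intro i
    by_contra hcon
    push Not at hcon
    obtain ⟨e, he⟩ := fl hs hn hab' hND' hH hT' hHu' hw' (φ i) hcon
    have he0 : e ≠ 0 := by
      rintro rfl
      apply hφ i
      refine LinearMap.ext fun y => ?_
      rw [he y, zero_mul]
      rfl
    have h1 := hc i (e * σ (qv B u), e * σ (-qv A u))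
      (hab'.imp (fun h => mul_ne_zero he0 h) (fun h => mul_ne_zero he0 h))
      (fun y => by rw [mB_scale]; exact he y)
    apply hu (c i) (Finset.mem_image_of_mem c (Finset.mem_univ i))
    rw [h1]
    simp only [map_neg]
    ring
  have := charZero_of_injective_algebraMap (algebraMap k M).injective
  have hF : ∀ i, gen_poly A B H (σ (qv B u)) (σ (-qv A u)) (fun j => σ (P j))
      (fun j => σ (u j)) (fun j => σ (w j)) (φ i) ≠ 0 := by
    intro i h0
    obtain ⟨z, h1⟩ := hz i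
    apply h1
    rw [← gen_poly_eval, h0, map_zero]
  obtain ⟨z, hz'⟩ := exists_eval_ne (σ : M →+* Ω) (∏ i, gen_poly A B H (σ (qv B u)) (σ (-qv A u))
    (fun j => σ (P j)) (fun j => σ (u j)) (fun j => σ (w j)) (φ i))
    (Finset.prod_ne_zero_iff.2 fun i _ => hF i)
  refine ⟨Wf A B H (qv B u) (-qv A u) P u w z, Wf_zer hab hH hT hHu w z, fun i => ?_⟩
  rw [map_prod, Finset.prod_ne_zero_iff] at hz'
  have h1 := hz' i (Finset.mem_univ i)
  rw [gen_poly_eval] at h1
  have h2 := Wf_hom (A := A) (B := B) (H := H) σ (qv B u) (-qv A u) P u w z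
  rw [← h2]
  exact h1

/-- The points of `X` over `M` are not in a finite union of hyperplanes over `Ω`. Proof: by
`exists_u` there is `u` such that no `φ i` is a multiple of `mB (qv B u) (-qv A u) (σ P)` (if `φ i` is
`c₁ bv A P + c₂ bv B P`, `(c₁, c₂) ≠ 0`, add `(c₁, c₂)` to the finite set `s`: the condition
`c₁ qv A u + c₂ qv B u ≠ 0` says that `(c₁, c₂)` and `(qv B u, - qv A u)` are independent; `bv A P`
and `bv B P` are independent by `sm_pt`). Let `H = A` or `B` with `qv H u ≠ 0`, `w` over `M` with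
`mB P w ≠ 0`. By `fl` for every `i` there is `z` over `Ω` with `φ i (Wf ... z) ≠ 0`, so the polynomial
`∑ j, φ i (e j) (Wf ... X) j` over `Ω` (`Wf_hom` for `MvPolynomial.aeval`) is not zero; the product
over `i` of these polynomials does not vanish at some `z` over `M` (`exists_eval_ne`). `W = Wf ... z`
(`W ≠ 0`: if there is no `i` add one functional). -/
theorem gen1 (hs : Sm Ω A B) (σ : M →ₐ[k] Ω) (hn : 6 ≤ n) {P : Fin n → M} (hP : P ≠ 0)
    (zP : Zer (Pl A B) M P) {ι : Type} [Finite ι] (φ : ι → (Fin n → Ω) →ₗ[Ω] Ω)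
    (hφ : ∀ i, φ i ≠ 0) :
    ∃ W : Fin n → M, W ≠ 0 ∧ Zer (Pl A B) M W ∧ ∀ i, φ i (fun j => σ (W j)) ≠ 0 := by
  obtain ⟨W, zW, hW⟩ := gen_zero hs σ hn hP zP
    (fun i : Option ι => i.elim (LinearMap.proj (⟨0, by omega⟩ : Fin n)) φ) (by
      rintro (_ | i)
      · intro h
        have h1 := LinearMap.congr_fun h (fun _ => (1 : Ω))
        simp at h1
      · exact hφ i)
  refine ⟨W, ?_, zW, fun i => hW (some i)⟩
  rintro rfl
  apply hW none
  simp

/-- A third point. Proof: `gen1` with the functionals `mB c.1 c.2 (σ P)` and `mB c.1 c.2 (σ R)`, `c` in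
the set `s` of `fin_sing` together with `(1, 0)` and `(0, 1)` (`sm_pt`). The member through `P` and
`W` is `(bv B P W, -bv A P W)`; it is different from all `c ∈ s` since `mB c.1 c.2 P W ≠ 0`. -/
theorem exists_third (hs : Sm Ω A B) (σ : M →ₐ[k] Ω) (hn : 6 ≤ n) {P R : Fin n → M} (hP : P ≠ 0)
    (zP : Zer (Pl A B) M P) (hR : R ≠ 0) (zR : Zer (Pl A B) M R) :
    ∃ W : Fin n → M, W ≠ 0 ∧ Zer (Pl A B) M W ∧ ND A B (bv B P W) (-bv A P W) ∧
      ND A B (bv B R W) (-bv A R W) := by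
  obtain ⟨s, hs0, hnd⟩ := fin_sing hs (by omega : 1 ≤ n)
  have hne : ∀ {S : Fin n → M}, S ≠ 0 → Zer (Pl A B) M S → ∀ c ∈ s,
      mBl A B c.1 c.2 (fun j => σ (S j)) ≠ 0 := by
    intro S hS zS c hc h
    have h1 := gen_pt hs σ hS zS (c := c.1) (d := c.2) (fun y => LinearMap.congr_fun h y)
    rcases hs0 c hc with h2 | h2
    · exact h2 h1.1
    · exact h2 h1.2
  have hgo : ∀ {S W : Fin n → M}, (∀ c ∈ s, mB A B c.1 c.2 (fun j => σ (S j))
      (fun j => σ (W j)) ≠ 0) → ND A B (bv B S W) (-bv A S W) := by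
    intro S W h
    rw [← ND.hom σ]
    apply hnd
    intro c hc h1
    apply h c hc
    rw [mB, bv_hom, bv_hom]
    rw [map_neg] at h1
    linear_combination h1
  obtain ⟨W, hW, zW, h⟩ := gen1 hs σ hn hP zP
    (fun i : Fin s.card ⊕ Fin s.card => i.elim
      (fun i => mBl A B (s.equivFin.symm i).1.1 (s.equivFin.symm i).1.2 (fun j => σ (P j)))
      (fun i => mBl A B (s.equivFin.symm i).1.1 (s.equivFin.symm i).1.2 (fun j => σ (R j)))) (by
      rintro (i | i)
      · exact hne hP zP _ (s.equivFin.symm i).2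
      · exact hne hR zR _ (s.equivFin.symm i).2)
  refine ⟨W, hW, zW, hgo fun c hc => ?_, hgo fun c hc => ?_⟩
  · have h1 := h (Sum.inl (s.equivFin ⟨c, hc⟩))
    simp only [Sum.elim_inl, Equiv.symm_apply_apply] at h1
    exact h1
  · have h1 := h (Sum.inr (s.equivFin ⟨c, hc⟩))
    simp only [Sum.elim_inr, Equiv.symm_apply_apply] at h1
    exact h1

end Dp
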