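import Pool.Agent.Lib.MP_f80667_ag.Dp.Gen

/-! General points of `X` over a quadratic extension. -/

namespace Dp

open ZC Tq

universe u

variable {k : Type u} [Field k] [CharZero k] {Ω : Type u} [Field Ω] [Algebra k Ω] [IsAlgClosed Ω]
  {n : ℕ} {A B : Matrix (Fin n) (Fin n) k} {M : Type u} [Field M] [Algebra k M]

omit [CharZero k] [IsAlgClosed Ω] in
/-- The family `Wf` is given by polynomials. -/
theorem wf_poly (H : Matrix (Fin n) (Fin n) k) (a b : Ω) (P u w : Fin n → Ω) :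
    ∃ g : Fin n → MvPolynomial (Fin n) Ω, ∀ z : Fin n → Ω,
      Wf A B H a b P u w z = fun i => MvPolynomial.eval z (g i) := by
  refine ⟨Wf A B H (MvPolynomial.C a) (MvPolynomial.C b) (fun i => MvPolynomial.C (P i))
    (fun i => MvPolynomial.C (u i)) (fun i => MvPolynomial.C (w i)) MvPolynomial.X, fun z => ?_⟩
  have h := Wf_hom (A := A) (B := B) (H := H)
    ((MvPolynomial.aeval z : MvPolynomial (Fin n) Ω →ₐ[Ω] Ω).restrictScalars k)
    (MvPolynomial.C a) (MvPolynomial.C b) (fun i => MvPolynomial.C (P i))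
    (fun i => MvPolynomial.C (u i)) (fun i => MvPolynomial.C (w i)) MvPolynomial.X
  simp only [AlgHom.restrictScalars_apply, MvPolynomial.aeval_C, MvPolynomial.aeval_X,
    Algebra.algebraMap_self, RingHom.id_apply] at h
  exact h

omit [CharZero k] [IsAlgClosed Ω] in
/-- A linear functional on the family is a polynomial. -/
theorem wf_fun (H : Matrix (Fin n) (Fin n) k) (a b : Ω) (P u w : Fin n → Ω)
    (φ : (Fin n → Ω) →ₗ[Ω] Ω) :
    ∃ q : MvPolynomial (Fin n) Ω, ∀ z : Fin n → Ω,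
      φ (Wf A B H a b P u w z) = MvPolynomial.eval z q := by
  obtain ⟨g, hg⟩ := wf_poly (A := A) (B := B) H a b P u w
  refine ⟨∑ i, g i * MvPolynomial.C (φ fun j => if i = j then 1 else 0), fun z => ?_⟩
  rw [LinearMap.pi_apply_eq_sum_univ φ, map_sum]
  refine Finset.sum_congr rfl fun i _ => ?_
  rw [hg z, map_mul, MvPolynomial.eval_C, smul_eq_mul]

omit [CharZero k] [IsAlgClosed Ω] in
/-- The polar form of two members of families is a polynomial. -/
theorem wf_pair (H : Matrix (Fin n) (Fin n) k) (a b : Ω) (P u w : Fin n → Ω)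
    (a' b' : Ω) (P' u' w' : Fin n → Ω) (c d : Ω) :
    ∃ q : MvPolynomial (Fin n ⊕ Fin n) Ω, ∀ z z' : Fin n → Ω,
      mB A B c d (Wf A B H a b P u w z) (Wf A B H a' b' P' u' w' z') =
        MvPolynomial.eval (Sum.elim z z') q := by
  obtain ⟨g, hg⟩ := wf_poly (A := A) (B := B) H a b P u w
  obtain ⟨g', hg'⟩ := wf_poly (A := A) (B := B) H a' b' P' u' w'
  refine ⟨mB A B (MvPolynomial.C c) (MvPolynomial.C d)
    (fun i => MvPolynomial.rename Sum.inl (g i)) (fun i => MvPolynomial.rename Sum.inr (g' i)),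
    fun z z' => ?_⟩
  have h := mB_hom (A := A) (B := B)
    ((MvPolynomial.aeval (Sum.elim z z') :
      MvPolynomial (Fin n ⊕ Fin n) Ω →ₐ[Ω] Ω).restrictScalars k)
    (MvPolynomial.C c) (MvPolynomial.C d)
    (fun i => MvPolynomial.rename Sum.inl (g i)) (fun i => MvPolynomial.rename Sum.inr (g' i))
  simp only [AlgHom.restrictScalars_apply, MvPolynomial.aeval_C, MvPolynomial.aeval_rename,
    Algebra.algebraMap_self, RingHom.id_apply, Sum.elim_comp_inl, Sum.elim_comp_inr] at h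
  rw [hg z, hg' z']
  exact h

/-- The polar form of a member does not vanish at all pairs of points of two families. -/
theorem pair_ne (hs : Sm Ω A B) (hn : 6 ≤ n) {H : Matrix (Fin n) (Fin n) k} (hH : H = A ∨ H = B)
    {a b : Ω} (hab : a ≠ 0 ∨ b ≠ 0) (hnd : ND A B a b) {P u w : Fin n → Ω}
    (hT : Tg A B a b P u) (hu : qv H u ≠ 0) (hw : mB A B a b P w ≠ 0)
    {a' b' : Ω} (hab' : a' ≠ 0 ∨ b' ≠ 0) (hnd' : ND A B a' b') {P' u' w' : Fin n → Ω}
    (hT' : Tg A B a' b' P' u') (hu' : qv H u' ≠ 0) (hw' : mB A B a' b' P' w' ≠ 0)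
    {c d : Ω} (hcd : c ≠ 0 ∨ d ≠ 0) :
    ∃ z z' : Fin n → Ω,
      mB A B c d (Wf A B H a b P u w z) (Wf A B H a' b' P' u' w' z') ≠ 0 := by
  by_contra hcon
  push Not at hcon
  have h1 : ∀ x ∈ Submodule.span Ω (Set.range fun z : Fin n → Ω => Wf A B H a b P u w z),
      ∃ κ : Ω, ∀ y, mB A B c d x y = κ * mB A B a' b' P' y := by
    intro x hx
    induction hx using Submodule.span_induction with
    | mem x hx =>
      obtain ⟨z, rfl⟩ := hx
      exact fl hs hn hab' hnd' hH hT' hu' hw' (mBl A B c d (Wf A B H a b P u w z)) (hcon z)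
    | zero =>
      refine ⟨0, fun y => ?_⟩
      have := mB_smul (A := A) (B := B) c d (0 : Ω) (0 : Fin n → Ω) y
      rw [zero_smul, zero_mul] at this
      rw [this, zero_mul]
    | add x x' _ _ ih ih' =>
      obtain ⟨κ, hκ⟩ := ih
      obtain ⟨κ', hκ'⟩ := ih'
      refine ⟨κ + κ', fun y => ?_⟩
      rw [mB_add, hκ, hκ']
      ring
    | smul t x _ ih =>
      obtain ⟨κ, hκ⟩ := ih
      refine ⟨t * κ, fun y => ?_⟩
      rw [mB_smul, hκ]
      ring
  have hr := fl_rank hs hn hab hnd hH hT hu hw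
  obtain ⟨S, hS⟩ : ∃ S, S = Submodule.span Ω
    (Set.range fun z : Fin n → Ω => Wf A B H a b P u w z) := ⟨_, rfl⟩
  rw [← hS] at h1 hr
  have h2 := LinearMap.finrank_range_add_finrank_ker ((mBl A B c d w').domRestrict S)
  have h3 : Module.finrank Ω (LinearMap.range ((mBl A B c d w').domRestrict S)) ≤ 1 := by
    have := Submodule.finrank_le (LinearMap.range ((mBl A B c d w').domRestrict S))
    rwa [Module.finrank_self] at this
  obtain ⟨T, hTe⟩ : ∃ T : Submodule Ω S, T = LinearMap.ker ((mBl A B c d w').domRestrict S) :=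
    ⟨_, rfl⟩
  rw [← hTe] at h2
  have hTm : ∀ x : S, x ∈ T → mB A B c d w' (x : Fin n → Ω) = 0 := by
    rw [hTe]
    intro x hx
    exact hx
  have h4 : 1 < Module.finrank Ω T := by omega
  have : Nontrivial T := Module.nontrivial_of_finrank_pos (R := Ω) (lt_trans Nat.zero_lt_one h4)
  obtain ⟨x, hx⟩ := exists_ne (0 : T)
  obtain ⟨y, hy⟩ := exists_linearIndependent_pair_of_one_lt_finrank (R := Ω) (M := T) h4 hx
  have hxy := (hy.map' (Submodule.subtype _) (Submodule.ker_subtype _)).map' (Submodule.subtype _)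
    (Submodule.ker_subtype _)
  have e : (Submodule.subtype S) ∘ (Submodule.subtype T) ∘ ![x, y] =
      ![((x : S) : Fin n → Ω), ((y : S) : Fin n → Ω)] := by
    funext i
    fin_cases i <;> rfl
  rw [e] at hxy
  have hrad : ∀ z : T, ∀ v : Fin n → Ω, mB A B c d ((z : S) : Fin n → Ω) v = 0 := by
    intro z v
    obtain ⟨κ, hκ⟩ := h1 _ (z : S).2
    have hz : mB A B c d w' ((z : S) : Fin n → Ω) = 0 := hTm _ z.2
    rw [mB_comm, hκ] at hz
    have hκ0 : κ = 0 := (mul_eq_zero.1 hz).resolve_right hw'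
    rw [hκ, hκ0, zero_mul]
  exact rad_le two_ne_zero hs (AlgHom.id k Ω) hcd hxy (hrad x) (hrad y)

/-- General points over a quadratic extension: the line through `W` and its conjugate is on none of
finitely many given members. Proof: as `gen1` with `exists_eval_conj` for the polynomials in
`z, z'`: `φ i (Wf at σ P, σ u, σ w of z)` and, for `c ∈ s`,
`mB c.1 c.2 (Wf at σ P, ... of z) (Wf at σ τ P, σ τ u, σ τ w of z')`. The latter is not zero: otherwise
for every `z` the functional `mB c.1 c.2 (Wf z)` vanishes at all `Wf z'`, so by `fl` it is a multiple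
of one functional; but the vectors `Wf z` span a space of dimension at least `n - 1` (`fl_rank`), and
`x ↦ mB c.1 c.2 x` has a kernel of dimension at most `1` (`rad_le`), so the image of the span has
dimension at least `n - 2 > 1`. -/
theorem gen2 {M' : Type u} [Field M'] [Algebra k M'] [Algebra M M'] [IsScalarTower k M M']
    (τ : M' ≃ₐ[M] M') (hτ : ∃ d, τ d ≠ d) (hs : Sm Ω A B) (σ : M' →ₐ[k] Ω) (hn : 6 ≤ n)
    {P : Fin n → M'} (hP : P ≠ 0) (zP : Zer (Pl A B) M' P) {ι : Type} [Finite ι]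
    (φ : ι → (Fin n → Ω) →ₗ[Ω] Ω) (hφ : ∀ i, φ i ≠ 0) (s : Finset (Ω × Ω))
    (h0 : ∀ c ∈ s, c.1 ≠ 0 ∨ c.2 ≠ 0) :
    ∃ W : Fin n → M', W ≠ 0 ∧ Zer (Pl A B) M' W ∧ (∀ i, φ i (fun j => σ (W j)) ≠ 0) ∧
      ∀ c ∈ s, mB A B c.1 c.2 (fun j => σ (W j)) (fun j => σ (τ (W j))) ≠ 0 := by
  classical
  have hP' : (fun i => σ (P i)) ≠ 0 := by
    intro h
    apply hP
    funext i
    exact (map_eq_zero σ).1 (congrFun h i)
  obtain ⟨aP, bP⟩ := (zer_iff A B).1 zP
  have haP : qv A (fun i => σ (P i)) = 0 := by rw [qv_hom, aP, map_zero]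
  have hbP : qv B (fun i => σ (P i)) = 0 := by rw [qv_hom, bP, map_zero]
  -- the index set with one more functional
  have hn0 : 0 < n := by omega
  obtain ⟨Φ, hΦ⟩ : ∃ Φ : Option ι → (Fin n → Ω) →ₗ[Ω] Ω,
      Φ = fun o => o.elim (LinearMap.proj ⟨0, hn0⟩) φ := ⟨_, rfl⟩
  have hΦ0 : ∀ o, Φ o ≠ 0 := by
    intro o
    rw [hΦ]
    cases o with
    | none =>
      intro h
      have := LinearMap.congr_fun h (Pi.single ⟨0, hn0⟩ 1)
      simp at this
    | some i => exact hφ i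
  -- the pairs of the functionals which are combinations of the differentials
  have hpair : ∀ o, ∃ c : Ω × Ω, (c.1 ≠ 0 ∨ c.2 ≠ 0) ∧
      ∀ c₁ c₂ : Ω, (∀ y, Φ o y = mB A B c₁ c₂ (fun i => σ (P i)) y) → c = (c₁, c₂) := by
    intro o
    by_cases h : ∃ c₁ c₂ : Ω, ∀ y, Φ o y = mB A B c₁ c₂ (fun i => σ (P i)) y
    · obtain ⟨c₁, c₂, hc⟩ := h
      refine ⟨(c₁, c₂), ?_, fun d₁ d₂ hd => ?_⟩
      · by_contra hcon
        push Not at hcon
        apply hΦ0 o
        refine LinearMap.ext fun y => ?_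
        have z1 : c₁ = 0 := hcon.1
        have z2 : c₂ = 0 := hcon.2
        rw [hc y, mB, z1, z2, zero_mul, zero_mul, add_zero, LinearMap.zero_apply]
      · have h1 := sm_pt (M := Ω) hs (AlgHom.id k Ω) hP' haP hbP (a := c₁ - d₁) (b := c₂ - d₂)
          (fun y => by
            have h2 := (hc y).symm.trans (hd y)
            rw [mB, mB] at h2
            rw [mB]
            linear_combination h2)
        rw [Prod.mk.injEq]
        exact ⟨sub_eq_zero.1 h1.1, sub_eq_zero.1 h1.2⟩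
    · push Not at h
      refine ⟨(1, 0), Or.inl one_ne_zero, fun c₁ c₂ hc => ?_⟩
      obtain ⟨y, hy⟩ := h c₁ c₂
      exact absurd (hc y) hy
  choose pr hpr0 hpr using hpair
  have : Fintype (Option ι) := Fintype.ofFinite _
  obtain ⟨u, g, hT, hnd, -, -, hsu⟩ := exists_u hs σ hn hP zP (Finset.univ.image pr) (by
    intro c hc
    obtain ⟨o, -, rfl⟩ := Finset.mem_image.1 hc
    exact hpr0 o)
  have hsu' : ∀ o, (pr o).1 * σ (qv A u) + (pr o).2 * σ (qv B u) ≠ 0 := fun o =>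
    hsu _ (Finset.mem_image_of_mem _ (Finset.mem_univ o))
  obtain ⟨a, ha⟩ : ∃ a, a = qv B u := ⟨_, rfl⟩
  obtain ⟨b, hb⟩ : ∃ b, b = -qv A u := ⟨_, rfl⟩
  rw [← ha, ← hb] at hT hnd
  have hab : a ≠ 0 ∨ b ≠ 0 := by
    by_contra hcon
    push Not at hcon
    apply hT.nu
    rw [ha, hb, neg_eq_zero] at hcon
    exact ⟨hcon.2, hcon.1⟩
  obtain ⟨H, hH, hu⟩ : ∃ H, (H = A ∨ H = B) ∧ qv H u ≠ 0 := by
    by_contra hcon
    push Not at hcon
    exact hT.nu ⟨hcon A (Or.inl rfl), hcon B (Or.inr rfl)⟩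
  obtain ⟨w, hw⟩ := hnd P hP
  -- the data over `Ω` for an embedding
  have data : ∀ ρ : M' →ₐ[k] Ω, (ρ a ≠ 0 ∨ ρ b ≠ 0) ∧ ND A B (ρ a) (ρ b) ∧
      Tg A B (ρ a) (ρ b) (fun i => ρ (P i)) (fun i => ρ (u i)) ∧ qv H (fun i => ρ (u i)) ≠ 0 ∧
      mB A B (ρ a) (ρ b) (fun i => ρ (P i)) (fun i => ρ (w i)) ≠ 0 := by
    intro ρ
    refine ⟨?_, (ND.hom ρ).2 hnd, ⟨?_, ?_, ?_, ?_, ?_, ?_, ?_⟩, ?_, ?_⟩
    · rcases hab with h | h
      · exact Or.inl ((map_ne_zero ρ).2 h)
      · exact Or.inr ((map_ne_zero ρ).2 h)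
    · intro h
      apply hP
      funext i
      exact (map_eq_zero ρ).1 (congrFun h i)
    · rw [qv_hom, aP, map_zero]
    · rw [qv_hom, bP, map_zero]
    · rw [bv_hom, hT.aPu, map_zero]
    · rw [bv_hom, hT.bPu, map_zero]
    · rw [mQ_hom, hT.qu, map_zero]
    · rw [qv_hom, qv_hom, map_eq_zero, map_eq_zero]
      exact hT.nu
    · rw [qv_hom]
      exact (map_ne_zero ρ).2 hu
    · rw [mB_hom]
      exact (map_ne_zero ρ).2 hw
  obtain ⟨σ', hσ'⟩ : ∃ σ' : M' →ₐ[k] Ω, ∀ x, σ' x = σ (τ x) :=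
    ⟨σ.comp ((τ : M' →ₐ[M] M').restrictScalars k), fun x => rfl⟩
  obtain ⟨d1, d2, d3, d4, d5⟩ := data σ
  obtain ⟨e1, e2, e3, e4, e5⟩ := data σ'
  -- the polynomials
  choose q hq using fun o => wf_fun (A := A) (B := B) H (σ a) (σ b) (fun i => σ (P i))
    (fun i => σ (u i)) (fun i => σ (w i)) (Φ o)
  have hq0 : ∀ o, q o ≠ 0 := by
    intro o h
    obtain ⟨c, hc⟩ := fl hs hn d1 d2 hH d3 d4 d5 (Φ o) (fun z => by rw [hq o z, h, map_zero])
    have h1 := hpr o (c * σ a) (c * σ b) (fun y => by rw [hc y, mB_scale])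
    apply hsu' o
    rw [h1, ha, hb, map_neg]
    ring
  choose r hr using fun c : Ω × Ω => wf_pair (A := A) (B := B) H (σ a) (σ b) (fun i => σ (P i))
    (fun i => σ (u i)) (fun i => σ (w i)) (σ' a) (σ' b) (fun i => σ' (P i))
    (fun i => σ' (u i)) (fun i => σ' (w i)) c.1 c.2
  have hr0 : ∀ c ∈ s, r c ≠ 0 := by
    intro c hc h
    obtain ⟨z, z', hz⟩ := pair_ne hs hn hH d1 d2 d3 d4 d5 e1 e2 e3 e4 e5 (h0 c hc)
    apply hz
    rw [hr c z z', h, map_zero]
  have hF : (∏ o, MvPolynomial.rename Sum.inl (q o)) * ∏ c ∈ s, r c ≠ 0 := by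
    refine mul_ne_zero ?_ ?_
    · rw [Finset.prod_ne_zero_iff]
      intro o _ h
      apply hq0 o
      exact MvPolynomial.rename_injective _ Sum.inl_injective (by rw [h, map_zero])
    · rw [Finset.prod_ne_zero_iff]
      exact hr0
  have : CharZero M' := charZero_of_injective_algebraMap (algebraMap k M').injective
  have : CharZero M := by
    refine ⟨fun x y hxy => ?_⟩
    have h := congrArg (algebraMap M M') hxy
    rw [map_natCast, map_natCast] at h
    exact Nat.cast_injective h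
  obtain ⟨x, hx⟩ := exists_eval_conj (Ω := Ω) τ hτ (σ : M' →+* Ω) _ hF
  rw [map_mul, map_prod, map_prod] at hx
  have hx1 := Finset.prod_ne_zero_iff.1 (left_ne_zero_of_mul hx)
  have hx2 := Finset.prod_ne_zero_iff.1 (right_ne_zero_of_mul hx)
  have hWσ := Wf_hom (A := A) (B := B) (H := H) σ a b P u w x
  have hWσ' := Wf_hom (A := A) (B := B) (H := H) σ' a b P u w x
  have hne : ∀ o, Φ o (fun j => σ (Wf A B H a b P u w x j)) ≠ 0 := by
    intro o
    have h1 := hx1 o (Finset.mem_univ o)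
    rw [MvPolynomial.eval_rename, Sum.elim_comp_inl] at h1
    rw [← hWσ, hq o]
    exact h1
  refine ⟨Wf A B H a b P u w x, ?_, Wf_zer hab hH hT hu w x, fun i => ?_, fun c hc => ?_⟩
  · intro h
    apply hne none
    have h1 : (fun j => σ (Wf A B H a b P u w x j)) = 0 := by
      funext j
      rw [h, Pi.zero_apply, map_zero]
      rfl
    rw [h1, map_zero]
  · have h1 := hne (some i)
    rw [hΦ] at h1
    exact h1
  · have h1 : (fun j => σ (τ (Wf A B H a b P u w x j))) =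
        fun j => σ' (Wf A B H a b P u w x j) := by
      funext j
      rw [hσ']
    rw [h1, ← hWσ, ← hWσ', hr c]
    have h2 := hx2 c hc
    have h3 : (fun i => σ' (x i)) = fun i => (σ : M' →+* Ω) (τ (x i)) := by
      funext i
      rw [hσ']
      rfl
    rw [h3]
    exact h2

/-- The same over a quadratic extension. -/
theorem exists_third2 {M' : Type u} [Field M'] [Algebra k M'] [Algebra M M'] [IsScalarTower k M M']
    (τ : M' ≃ₐ[M] M') (hτ : ∃ d, τ d ≠ d) (hs : Sm Ω A B) (σ : M' →ₐ[k] Ω) (hn : 6 ≤ n)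
    {P : Fin n → M'} (hP : P ≠ 0) (zP : Zer (Pl A B) M' P) :
    ∃ W : Fin n → M', W ≠ 0 ∧ Zer (Pl A B) M' W ∧ ND A B (bv B P W) (-bv A P W) ∧
      ND A B (bv B W (fun j => τ (W j))) (-bv A W (fun j => τ (W j))) := by
  obtain ⟨aP, bP⟩ := (zer_iff A B).1 zP
  have hP' : (fun i => σ (P i)) ≠ 0 := by
    intro h
    apply hP
    funext i
    exact (map_eq_zero σ).1 (congrFun h i)
  have haP : qv A (fun i => σ (P i)) = 0 := by rw [qv_hom, aP, map_zero]
  have hbP : qv B (fun i => σ (P i)) = 0 := by rw [qv_hom, bP, map_zero]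
  obtain ⟨s, h0, hnd⟩ := fin_sing hs (by omega : 1 ≤ n)
  obtain ⟨W, hW, zW, h1, h2⟩ := gen2 τ hτ hs σ hn hP zP
    (fun i : Fin s.card => mBl A B (s.equivFin.symm i : Ω × Ω).1 (s.equivFin.symm i : Ω × Ω).2
      (fun i => σ (P i))) (by
      intro i h
      obtain ⟨z1, z2⟩ := sm_pt (M := Ω) hs (AlgHom.id k Ω) hP' haP hbP
        (fun y => LinearMap.congr_fun h y)
      rcases h0 _ (s.equivFin.symm i).2 with h3 | h3
      · exact h3 z1
      · exact h3 z2) s h0
  refine ⟨W, hW, zW, ?_, ?_⟩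
  · rw [← ND.hom σ, map_neg, ← bv_hom, ← bv_hom]
    refine hnd _ _ fun c hc => ?_
    have h3 := h1 (s.equivFin ⟨c, hc⟩)
    rw [Equiv.symm_apply_apply] at h3
    intro h4
    apply h3
    rw [mBl_apply, mB]
    linear_combination h4
  · rw [← ND.hom σ, map_neg, ← bv_hom, ← bv_hom]
    refine hnd _ _ fun c hc => ?_
    intro h4
    apply h2 c hc
    rw [mB]
    linear_combination h4

end Dp
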