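import Pool.Agent.Lib.MP_f80667_ag.Dp.Gen2
import Pool.Agent.Lib.MP_f80667_ag.Dp.Tang
import Pool.Agent.Lib.MP_f80667_ag.Dp.Conj

/-! The classes of lines on nondegenerate members: points over one field and over a quadratic
extension. -/

open scoped LinearAlgebra.Projectivization

namespace Dp

open ZC Tq

universe u

/-- The group generated by the classes of the lines on nondegenerate members over finite extensions,
and by the divisors. -/
noncomputable def GG (k Ω : Type u) [Field k] [Field Ω] [Algebra k Ω] {n : ℕ} (A B : Matrix (Fin n) (Fin n) k) :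
    AddSubgroup (ℙ Ω (Fin n → Ω) →₀ ℤ) :=
  AddSubgroup.closure {z | ∃ (M : Type u) (_ : Field M) (_ : Algebra k M)
    (_ : FiniteDimensional k M) (a b : M) (t : ℙ M (Fin (n * n) → M)), IsM A B a b t ∧
    ND A B a b ∧ z = PhL (trPt k Ω t)} ⊔ ratEq Ω (Pl A B)

variable {k : Type u} [Field k] [CharZero k] {Ω : Type u} [Field Ω] [Algebra k Ω] [IsAlgClosed Ω]
  {n : ℕ} {A B : Matrix (Fin n) (Fin n) k} {M : Type u} [Field M] [Algebra k M]
  [FiniteDimensional k M]

omit [CharZero k] [IsAlgClosed Ω] in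
theorem GenrA_mem {a b : M} {t : ℙ M (Fin (n * n) → M)} (h : IsM A B a b t)
    (h' : ND A B a b) : PhL (trPt k Ω t) ∈ GG k Ω A B := by
  refine (le_sup_left : _ ≤ GG k Ω A B) (AddSubgroup.subset_closure ?_)
  exact ⟨M, inferInstance, inferInstance, inferInstance, a, b, t, h, h', rfl⟩

omit [CharZero k] [FiniteDimensional k M] in
theorem GenrA_nd_ne {P x y : Fin n → M} (hP : P ≠ 0) (h : ND A B (bv B x y) (-bv A x y)) :
    bv A x y ≠ 0 ∨ bv B x y ≠ 0 := by
  by_contra hcon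
  push Not at hcon
  obtain ⟨z, hz⟩ := h P hP
  apply hz
  rw [mB, hcon.1, hcon.2]
  ring

/-- Proof: `exists_u`, `Tg.lm`, `phl_sq`. -/
theorem g1 (hs : Sm Ω A B) (hn : 6 ≤ n) {P : Fin n → M} (hP : P ≠ 0) (zP : Zer (Pl A B) M P) :
    (2 : ℤ) • trPt k Ω (Projectivization.mk M P hP) ∈ GG k Ω A B := by
  have : CharZero M := charZero_of_injective_algebraMap (algebraMap k M).injective
  obtain ⟨u, g, hT, hND, -⟩ := exists_u hs (IsAlgClosed.lift : M →ₐ[k] Ω) hn hP zP ∅
    fun c hc => absurd hc (Finset.notMem_empty c)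
  obtain ⟨hsq, hL⟩ := hT.lm
  have h1 := GenrA_mem (Ω := Ω) ⟨P, u, hL⟩ hND
  rw [phl_sq hP hP hsq] at h1
  rwa [two_zsmul]

/-- Proof: `Lm.pt`, `phl_sq` (`ND A B 0 0` is false since `n > 0`). -/
theorem g2_nd (hn : 6 ≤ n) {P R : Fin n → M} (hP : P ≠ 0) (hR : R ≠ 0) (zP : Zer (Pl A B) M P)
    (zR : Zer (Pl A B) M R) (h : ND A B (bv B P R) (-bv A P R)) :
    trPt k Ω (Projectivization.mk M P hP) + trPt k Ω (Projectivization.mk M R hR) ∈
      GG k Ω A B := by
  have : CharZero M := charZero_of_injective_algebraMap (algebraMap k M).injective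
  rw [zer_iff] at zP zR
  obtain ⟨hsq, hL⟩ := Lm.pt zP.1 zP.2 zR.1 zR.2 (GenrA_nd_ne hP h)
  have h1 := GenrA_mem (Ω := Ω) ⟨P, R, hL⟩ h
  rwa [phl_sq hP hR hsq] at h1

/-- Proof: `exists_third`: `P - R = (P + W) - (R + W)`. -/
theorem g2 (hs : Sm Ω A B) (hn : 6 ≤ n) {P R : Fin n → M} (hP : P ≠ 0) (hR : R ≠ 0)
    (zP : Zer (Pl A B) M P) (zR : Zer (Pl A B) M R) :
    trPt k Ω (Projectivization.mk M P hP) - trPt k Ω (Projectivization.mk M R hR) ∈
      GG k Ω A B := by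
  obtain ⟨W, hW, zW, h1, h2⟩ := exists_third hs (IsAlgClosed.lift : M →ₐ[k] Ω) hn hP zP hR zR
  have h3 := AddSubgroup.sub_mem _ (g2_nd (Ω := Ω) hn hP hW zP zW h1)
    (g2_nd (Ω := Ω) hn hR hW zR zW h2)
  rwa [add_sub_add_right_eq_sub] at h3

/-- Proof: `exists_third2`: `P = (P + W) - W`, `P + W` by `g2_nd` over `M'`, `W` by `conj_line` (the
member of `conj_line` is nondegenerate over `M'`, so over `M`: `ND.hom`). -/
theorem g3 {M' : Type u} [Field M'] [Algebra k M'] [Algebra M M'] [IsScalarTower k M M']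
    [FiniteDimensional k M'] (h2 : Module.finrank M M' = 2) (hs : Sm Ω A B) (hn : 6 ≤ n)
    {P : Fin n → M'} (hP : P ≠ 0) (zP : Zer (Pl A B) M' P) :
    trPt k Ω (Projectivization.mk M' P hP) ∈ GG k Ω A B := by
  have : CharZero M' := charZero_of_injective_algebraMap (algebraMap k M').injective
  have : CharZero M := charZero_of_injective_algebraMap (algebraMap k M).injective
  obtain ⟨τ, δ, -, -, hδ, hτδ⟩ := exists_tau h2
  have hτ : ∃ d, τ d ≠ d := by
    refine ⟨δ, ?_⟩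
    rw [hτδ]
    intro h
    exact hδ (self_eq_neg.1 h.symm)
  obtain ⟨W, hW, zW, h3, h4⟩ := exists_third2 τ hτ hs (IsAlgClosed.lift : M' →ₐ[k] Ω) hn hP zP
  obtain ⟨a, b, t, ha, hb, ht, hPh⟩ := conj_line (k := k) (Ω := Ω) h2 τ hτ hW zW
    (GenrA_nd_ne hW h4)
  have h5 : ND A B a b := by
    rw [← ND.hom (IsScalarTower.toAlgHom k M M')]
    change ND A B (algebraMap M M' a) (algebraMap M M' b)
    rw [ha, hb]
    exact h4
  have h6 := GenrA_mem (Ω := Ω) ht h5
  rw [hPh] at h6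
  have h7 := AddSubgroup.sub_mem _ (g2_nd (Ω := Ω) hn hP hW zP zW h3) h6
  rwa [add_sub_cancel_right] at h7

end Dp
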