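import Pool.Agent.Lib.MP_f80667_ag.Dp.FfN
import Pool.Agent.Lib.MP_f80667_ag.Hens
import Pool.Agent.Lib.MP_f80667_ag.HensQ

/-! Lifting of tangent lines from the residue field. -/

open IsLocalRing

namespace Dp

open ZC Tq

universe u

/-- The Jacobian matrix of the equations of the tangent lines has full rank. Proof: second block:
`γ bv A P + δ bv B P + ε mB u = 0`; first block: `α bv A P + β bv B P + γ bv A u + δ bv B u = 0`. The
first block at `u`: `2 (γ qv A u + δ qv B u) = 0` (`u ∈ TP P`). If `(γ, δ) ≠ 0` then, as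
`a qv A u + b qv B u = 0` and `u` is not on `X`, `(γ, δ) = c (a, b)`, `c ≠ 0`, and the second block says
`mB (c P + ε u) = 0`, so `c = 0` by `nr`, contradiction. So `γ = δ = 0`, `ε mB u = 0`, `ε = 0` by `nr`,
and `α = β = 0` by smoothness at `P` (`sm_pt`). -/
theorem jac_tg {k : Type u} [Field k] (h2 : (2 : k) ≠ 0) {n : ℕ} {A B : Matrix (Fin n) (Fin n) k}
    (hs : Sm (AlgebraicClosure k) A B) {a b : k} {P u : Fin n → k} (hT : TgR A B a b P u)
    {α β γ δ ε : k} (h₁ : ∀ y : Fin n → k, α * bv A P y + β * bv B P y + γ * bv A u y +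
      δ * bv B u y = 0) (h₂ : ∀ y : Fin n → k, γ * bv A P y + δ * bv B P y +
      ε * mB A B a b u y = 0) : α = 0 ∧ β = 0 ∧ γ = 0 ∧ δ = 0 ∧ ε = 0 := by
  have hu := h₁ u
  rw [hT.tg.aPu, hT.tg.bPu, bv_self, bv_self] at hu
  have hu2 : γ * qv A u + δ * qv B u = 0 := by
    have : 2 * (γ * qv A u + δ * qv B u) = 0 := by linear_combination hu
    exact (mul_eq_zero.1 this).resolve_left h2
  have hq : a * qv A u + b * qv B u = 0 := hT.tg.qu
  have hab : a ≠ 0 ∨ b ≠ 0 := by
    by_contra hcon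
    push Not at hcon
    have := hT.nr 0 1 (fun y => by rw [mB, hcon.1, hcon.2, zero_mul, zero_mul, add_zero])
    exact one_ne_zero this.2
  have hdet : a * δ - b * γ = 0 := by
    by_contra hcon
    apply hT.tg.nu
    constructor
    · have : (a * δ - b * γ) * qv A u = 0 := by linear_combination δ * hq - b * hu2
      exact (mul_eq_zero.1 this).resolve_left hcon
    · have : (a * δ - b * γ) * qv B u = 0 := by linear_combination a * hu2 - γ * hq
      exact (mul_eq_zero.1 this).resolve_left hcon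
  obtain ⟨c, hc1, hc2⟩ : ∃ c : k, γ = c * a ∧ δ = c * b := by
    rcases hab with h | h
    · refine ⟨γ / a, by rw [div_mul_cancel₀ _ h], ?_⟩
      rw [div_mul_eq_mul_div, eq_div_iff h]
      linear_combination hdet
    · refine ⟨δ / b, ?_, by rw [div_mul_cancel₀ _ h]⟩
      rw [div_mul_eq_mul_div, eq_div_iff h]
      linear_combination -hdet
  have h3 := hT.nr c ε (fun y => by
    have := h₂ y
    rw [hc1, hc2] at this
    rw [mB_add, mB_smul, mB_smul]
    rw [mB] at this ⊢
    rw [mB]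
    linear_combination this)
  have hγ : γ = 0 := by rw [hc1, h3.1, zero_mul]
  have hδ : δ = 0 := by rw [hc2, h3.1, zero_mul]
  have h4 := sm_pt (Ω := AlgebraicClosure k) hs (Algebra.ofId k (AlgebraicClosure k)) hT.tg.hP
    hT.tg.aP hT.tg.bP (a := α) (b := β) (fun y => by
      have := h₁ y
      rw [hγ, hδ] at this
      rw [mB]
      linear_combination this)
  exact ⟨h4.1, h4.2, hγ, hδ, h3.2⟩

section vec

open Matrix

theorem ht_qv {F : Type*} [Field F] {n : ℕ} (M : Matrix (Fin n) (Fin n) F) (x : Fin n → F) :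
    x ⬝ᵥ (M *ᵥ x) = qv M x := by
  simp only [dotProduct, mulVec, qv, Finset.mul_sum, Algebra.algebraMap_self, RingHom.id_apply]
  exact Finset.sum_congr rfl fun _ _ => Finset.sum_congr rfl fun _ _ => by ring

theorem ht_bv {F : Type*} [Field F] {n : ℕ} (M : Matrix (Fin n) (Fin n) F) (x y : Fin n → F) :
    y ⬝ᵥ (M *ᵥ x) + x ⬝ᵥ (M *ᵥ y) = bv M x y := by
  simp only [dotProduct, mulVec, bv, Finset.mul_sum, Algebra.algebraMap_self, RingHom.id_apply]
  rw [← Finset.sum_add_distrib]
  refine Finset.sum_congr rfl fun i _ => ?_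
  rw [← Finset.sum_add_distrib]
  refine Finset.sum_congr rfl fun j _ => ?_
  ring

theorem ht_hom {S T : Type*} [CommRing S] [CommRing T] (f : S →+* T) {ι : Type*} [Fintype ι]
    (M : Matrix ι ι S) (x y : ι → S) :
    (fun i => f (x i)) ⬝ᵥ (M.map f *ᵥ (fun i => f (y i))) = f (x ⬝ᵥ (M *ᵥ y)) := by
  simp only [dotProduct, mulVec, map_sum, map_mul, Matrix.map_apply]

variable {S : Type*} [CommRing S] {n : ℕ}

/-- The matrices of the five equations. -/
def htM (A B : Matrix (Fin n) (Fin n) S) (a b : S) :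
    Fin 5 → Matrix (Fin n ⊕ Fin n) (Fin n ⊕ Fin n) S :=
  ![fromBlocks A 0 0 0, fromBlocks B 0 0 0, fromBlocks 0 A A 0, fromBlocks 0 B B 0,
    fromBlocks 0 0 0 (a • A + b • B)]

/-- The same matrices, with the index set `Fin (n + n)`. -/
def htN (A B : Matrix (Fin n) (Fin n) S) (a b : S) (i : Fin 5) :
    Matrix (Fin (n + n)) (Fin (n + n)) S :=
  (htM A B a b i).submatrix finSumFinEquiv.symm finSumFinEquiv.symm

theorem ht_bil (A B : Matrix (Fin n) (Fin n) S) (a b : S) (i : Fin 5) (x y : Fin n ⊕ Fin n → S) :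
    (x ∘ finSumFinEquiv.symm) ⬝ᵥ (htN A B a b i *ᵥ (y ∘ finSumFinEquiv.symm)) =
      x ⬝ᵥ (htM A B a b i *ᵥ y) := by
  rw [htN, submatrix_mulVec_equiv]
  simp only [Equiv.symm_symm]
  have : (y ∘ ⇑finSumFinEquiv.symm) ∘ ⇑finSumFinEquiv = y := by
    funext i
    simp
  rw [this, comp_equiv_dotProduct_comp_equiv]

theorem htM_map {T : Type*} [CommRing T] (f : S →+* T) (A B : Matrix (Fin n) (Fin n) S) (a b : S)
    (i : Fin 5) : (htM A B a b i).map f = htM (A.map f) (B.map f) (f a) (f b) i := by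
  have h : (a • A + b • B).map f = f a • A.map f + f b • B.map f := by
    ext i j
    simp
  have h0 : (0 : Matrix (Fin n) (Fin n) S).map f = 0 := by
    ext i j
    simp
  fin_cases i <;> simp [htM, fromBlocks_map, h, h0]

theorem htN_map {T : Type*} [CommRing T] (f : S →+* T) (A B : Matrix (Fin n) (Fin n) S) (a b : S)
    (i : Fin 5) : (htN A B a b i).map f = htN (A.map f) (B.map f) (f a) (f b) i := by
  rw [htN, ← submatrix_map, htM_map, htN]

/-- The values of the five bilinear forms. -/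
theorem ht_val (A B : Matrix (Fin n) (Fin n) S) (a b : S) (P u P' u' : Fin n → S) :
    (fun i => Sum.elim P u ⬝ᵥ (htM A B a b i *ᵥ Sum.elim P' u')) =
      ![P ⬝ᵥ (A *ᵥ P'), P ⬝ᵥ (B *ᵥ P'), P ⬝ᵥ (A *ᵥ u') + u ⬝ᵥ (A *ᵥ P'),
        P ⬝ᵥ (B *ᵥ u') + u ⬝ᵥ (B *ᵥ P'), a * (u ⬝ᵥ (A *ᵥ u')) + b * (u ⬝ᵥ (B *ᵥ u'))] := by
  funext i
  fin_cases i <;>
    simp [htM, fromBlocks_mulVec, Function.comp_def, sumElim_dotProduct_sumElim, add_mulVec,
      smul_mulVec]

/-- The linear independence of the differentials. -/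
theorem ht_lin {k : Type u} [Field k] (h2 : (2 : k) ≠ 0) {n : ℕ} {A B : Matrix (Fin n) (Fin n) k}
    (hs : Sm (AlgebraicClosure k) A B) {a b : k} {P u : Fin n → k} (hT : TgR A B a b P u) :
    LinearIndependent k (fun i : Fin 5 => (htN A B a b i + (htN A B a b i)ᵀ) *ᵥ
      (Sum.elim P u ∘ finSumFinEquiv.symm)) := by
  rw [Fintype.linearIndependent_iff]
  intro g hg
  have key : ∀ w : Fin n ⊕ Fin n → k, ∑ i : Fin 5, g i *
      (w ⬝ᵥ (htM A B a b i *ᵥ Sum.elim P u) + Sum.elim P u ⬝ᵥ (htM A B a b i *ᵥ w)) = 0 := by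
    intro w
    have h1 : (w ∘ finSumFinEquiv.symm) ⬝ᵥ (∑ i : Fin 5, g i • ((htN A B a b i +
        (htN A B a b i)ᵀ) *ᵥ (Sum.elim P u ∘ finSumFinEquiv.symm))) = 0 := by
      rw [hg, dotProduct_zero]
    rw [dotProduct_sum] at h1
    rw [← h1]
    refine Finset.sum_congr rfl fun i _ => ?_
    rw [dotProduct_smul, smul_eq_mul, add_mulVec, dotProduct_add, ht_bil]
    congr 2
    rw [dotProduct_mulVec (w ∘ _), vecMul_transpose, dotProduct_comm (htN A B a b i *ᵥ _), ht_bil]
  have k1 : ∀ y : Fin n → k, g 0 * bv A P y + g 1 * bv B P y + g 2 * bv A u y +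
      g 3 * bv B u y = 0 := by
    intro y
    have h1 := key (Sum.elim y 0)
    have v1 := ht_val A B a b y 0 P u
    have v2 := ht_val A B a b P u y 0
    simp only [funext_iff] at v1 v2
    simp only [v1, v2, Fin.sum_univ_five, cons_val, zero_dotProduct, mulVec_zero,
      dotProduct_zero] at h1
    rw [← ht_bv, ← ht_bv, ← ht_bv, ← ht_bv]
    linear_combination h1
  have k2 : ∀ y : Fin n → k, g 2 * bv A P y + g 3 * bv B P y + g 4 * mB A B a b u y = 0 := by
    intro y
    have h1 := key (Sum.elim 0 y)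
    have v1 := ht_val A B a b 0 y P u
    have v2 := ht_val A B a b P u 0 y
    simp only [funext_iff] at v1 v2
    simp only [v1, v2, Fin.sum_univ_five, cons_val, zero_dotProduct, mulVec_zero,
      dotProduct_zero] at h1
    rw [mB, ← ht_bv, ← ht_bv, ← ht_bv, ← ht_bv]
    linear_combination h1
  obtain ⟨e0, e1, e2, e3, e4⟩ := jac_tg h2 hs hT k1 k2
  intro i
  fin_cases i
  · exact e0
  · exact e1
  · exact e2
  · exact e3
  · exact e4

end vec

open Matrix in
/-- **Lifting.** Proof: `hensel` (`Hens.lean`) for the five polynomials `A(P)`, `B(P)`, `A(P, u)`,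
`B(P, u)`, `a A(u) + b B(u)` in the `2 n` variables `(P, u)` over `R`, with the right inverse of the
Jacobian matrix from `jac_tg` (`exists_right_inverse_of_row` in `HensQ.lean`; lift its entries). The
solution reduces to `(P, u)`, so `P ≠ 0` and `u` is not on `X`. -/
theorem tg_lift {R K : Type u} [CommRing R] [IsDomain R] [IsLocalRing R]
    [IsAdicComplete (maximalIdeal R) R] [Field K] [Algebra R K] [IsFractionRing R K] {n : ℕ}
    (h2 : (2 : ResidueField R) ≠ 0) (A B : Matrix (Fin n) (Fin n) R) (a b : R)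
    (hs : Sm (AlgebraicClosure (ResidueField R)) (A.map (residue R)) (B.map (residue R)))
    {P u : Fin n → ResidueField R}
    (hT : TgR (A.map (residue R)) (B.map (residue R)) (residue R a) (residue R b) P u) :
    ∃ P' u' : Fin n → K, Tg (A.map (algebraMap R K)) (B.map (algebraMap R K)) (algebraMap R K a)
      (algebraMap R K b) P' u' := by
  have hlin := ht_lin h2 hs hT
  obtain ⟨y, hy1, hy2⟩ := Pool.Agent.Lib.MP_f80667_ag.hensel_quad (fun i => htN A B a b i)
    (Sum.elim P u ∘ finSumFinEquiv.symm) (fun i => by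
      rw [htN_map, ht_bil]
      have v := ht_val (A.map (residue R)) (B.map (residue R)) (residue R a) (residue R b) P u P u
      simp only [funext_iff] at v
      rw [v]
      have e1 := ht_bv (A.map (residue R)) P u
      have e2 := ht_bv (B.map (residue R)) P u
      have e3 := hT.tg.aPu
      have e4 := hT.tg.bPu
      have e5 := hT.tg.qu
      rw [mQ, ← ht_qv, ← ht_qv] at e5
      have e6 := hT.tg.aP
      have e7 := hT.tg.bP
      rw [← ht_qv] at e6 e7
      fin_cases i
      · exact e6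
      · exact e7
      · show P ⬝ᵥ _ + u ⬝ᵥ _ = 0
        rw [← e3, ← e1, add_comm]
      · show P ⬝ᵥ _ + u ⬝ᵥ _ = 0
        rw [← e4, ← e2, add_comm]
      · exact e5) (by
      simp only [htN_map]
      exact hlin)
  obtain ⟨P0, hP0⟩ : ∃ P0 : Fin n → R, P0 = fun i => y (finSumFinEquiv (Sum.inl i)) := ⟨_, rfl⟩
  obtain ⟨u0, hu0⟩ : ∃ u0 : Fin n → R, u0 = fun i => y (finSumFinEquiv (Sum.inr i)) := ⟨_, rfl⟩
  have hy : y = Sum.elim P0 u0 ∘ finSumFinEquiv.symm := by
    funext i
    obtain ⟨j, rfl⟩ := finSumFinEquiv.surjective i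
    rcases j with j | j <;>
      simp only [hP0, hu0, Function.comp_apply, Equiv.symm_apply_apply, Sum.elim_inl, Sum.elim_inr]
  have hrP : ∀ i, residue R (P0 i) = P i := by
    intro i
    rw [hP0]
    simp only [hy1, Function.comp_apply, Equiv.symm_apply_apply, Sum.elim_inl]
  have hru : ∀ i, residue R (u0 i) = u i := by
    intro i
    rw [hu0]
    simp only [hy1, Function.comp_apply, Equiv.symm_apply_apply, Sum.elim_inr]
  have hv : ∀ i, Sum.elim P0 u0 ⬝ᵥ (htM A B a b i *ᵥ Sum.elim P0 u0) = 0 := by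
    intro i
    have := hy2 i
    rwa [hy, ht_bil] at this
  have v := ht_val A B a b P0 u0 P0 u0
  simp only [funext_iff] at v
  have f0 := (v 0).symm.trans (hv 0)
  have f1 := (v 1).symm.trans (hv 1)
  have f2 := (v 2).symm.trans (hv 2)
  have f3 := (v 3).symm.trans (hv 3)
  have f4 := (v 4).symm.trans (hv 4)
  simp only [Matrix.cons_val] at f0 f1 f2 f3 f4
  have hinj : Function.Injective (algebraMap R K) := IsFractionRing.injective R K
  -- values over `K`
  have hA : ∀ M : Matrix (Fin n) (Fin n) R, ∀ x : Fin n → R,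
      qv (M.map (algebraMap R K)) (fun i => algebraMap R K (x i)) =
        algebraMap R K (x ⬝ᵥ (M *ᵥ x)) := by
    intro M x
    rw [← ht_qv, ht_hom]
  have hAb : ∀ M : Matrix (Fin n) (Fin n) R, ∀ x y : Fin n → R,
      bv (M.map (algebraMap R K)) (fun i => algebraMap R K (x i)) (fun i => algebraMap R K (y i)) =
        algebraMap R K (x ⬝ᵥ (M *ᵥ y) + y ⬝ᵥ (M *ᵥ x)) := by
    intro M x y
    rw [← ht_bv, ht_hom, ht_hom, ← map_add, add_comm]
  have hres : ∀ M : Matrix (Fin n) (Fin n) R, residue R (u0 ⬝ᵥ (M *ᵥ u0)) =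
      qv (M.map (residue R)) u := by
    intro M
    rw [← ht_hom, ← ht_qv]
    simp only [hru]
  refine ⟨fun i => algebraMap R K (P0 i), fun i => algebraMap R K (u0 i), ?_, ?_, ?_, ?_, ?_, ?_, ?_⟩
  · intro h0
    apply hT.tg.hP
    funext i
    have h1 : P0 i = 0 := by
      have := congrFun h0 i
      simp only [Pi.zero_apply] at this
      exact hinj (by rw [this, map_zero])
    rw [← hrP, h1, map_zero, Pi.zero_apply]
  · rw [hA, f0, map_zero]
  · rw [hA, f1, map_zero]
  · rw [hAb, f2, map_zero]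
  · rw [hAb, f3, map_zero]
  · rw [mQ, hA, hA, ← map_mul, ← map_mul, ← map_add, f4, map_zero]
  · rintro ⟨h1, h3⟩
    apply hT.tg.nu
    rw [hA] at h1 h3
    have h4 : u0 ⬝ᵥ (A *ᵥ u0) = 0 := hinj (by rw [h1, map_zero])
    have h5 : u0 ⬝ᵥ (B *ᵥ u0) = 0 := hinj (by rw [h3, map_zero])
    exact ⟨by rw [← hres, h4, map_zero], by rw [← hres, h5, map_zero]⟩

theorem tg_scale {k : Type*} [Field k] {n : ℕ} {A B : Matrix (Fin n) (Fin n) k} {c a b : k}
    (hc : c ≠ 0) {P u : Fin n → k} (h : Tg A B (c * a) (c * b) P u) : Tg A B a b P u := by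
  obtain ⟨h1, h2, h3, h4, h5, h6, h7⟩ := h
  rw [mQ_scale] at h6
  exact ⟨h1, h2, h3, h4, h5, (mul_eq_zero.1 h6).resolve_left hc, h7⟩

/-- All members over the fraction field of a complete discrete valuation ring contain tangent lines,
if the reduction is smooth. Proof: scale `(a, b)` such that both are in `R` and one is a unit;
`ff_tg`, `tg_lift`. -/
theorem tg_dvr {R K : Type u} [CommRing R] [IsDomain R] [IsDiscreteValuationRing R]
    [IsAdicComplete (maximalIdeal R) R] [Finite (ResidueField R)] [Field K] [Algebra R K]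
    [IsFractionRing R K] {n : ℕ} (hn : 6 ≤ n) (h6 : (6 : ResidueField R) ≠ 0)
    (A B : Matrix (Fin n) (Fin n) R)
    (hs : Sm (AlgebraicClosure (ResidueField R)) (A.map (residue R)) (B.map (residue R))) {a b : K}
    (hab : a ≠ 0 ∨ b ≠ 0) : ∃ P u : Fin n → K,
      Tg (A.map (algebraMap R K)) (B.map (algebraMap R K)) a b P u := by
  have h2 : (2 : ResidueField R) ≠ 0 := by
    intro h
    apply h6
    have : (6 : ResidueField R) = 2 * 3 := by norm_num
    rw [this, h, zero_mul]
  obtain ⟨c, a', b', hc, ha, hb, hab'⟩ : ∃ (c : K) (a' b' : R), c ≠ 0 ∧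
      c * a = algebraMap R K a' ∧ c * b = algebraMap R K b' ∧ (a' = 1 ∨ b' = 1) := by
    by_cases h0 : b = 0
    · have h1 : a ≠ 0 := hab.resolve_right (not_not.2 h0)
      exact ⟨a⁻¹, 1, 0, inv_ne_zero h1, by rw [inv_mul_cancel₀ h1, map_one],
        by rw [h0, mul_zero, map_zero], Or.inl rfl⟩
    by_cases h1 : a = 0
    · exact ⟨b⁻¹, 0, 1, inv_ne_zero h0, by rw [h1, mul_zero, map_zero],
        by rw [inv_mul_cancel₀ h0, map_one], Or.inr rfl⟩
    rcases ValuationRing.isInteger_or_isInteger R (a / b) with ⟨x, hx⟩ | ⟨x, hx⟩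
    · exact ⟨b⁻¹, x, 1, inv_ne_zero h0, by rw [hx, div_eq_inv_mul],
        by rw [inv_mul_cancel₀ h0, map_one], Or.inr rfl⟩
    · exact ⟨a⁻¹, 1, x, inv_ne_zero h1, by rw [inv_mul_cancel₀ h1, map_one],
        by rw [hx, inv_div, div_eq_inv_mul], Or.inl rfl⟩
  have hr : residue R a' ≠ 0 ∨ residue R b' ≠ 0 := by
    rcases hab' with h | h
    · left
      rw [h, map_one]
      exact one_ne_zero
    · right
      rw [h, map_one]
      exact one_ne_zero
  obtain ⟨P, u, hT⟩ := ff_tg h6 hs hn hr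
  obtain ⟨P', u', h⟩ := tg_lift (K := K) h2 A B a' b' hs hT
  rw [← ha, ← hb] at h
  exact ⟨P', u', tg_scale hc h⟩

end Dp
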