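import Pool.Agent.Lib.MP_f80667_ag.Dp.SprG
import Pool.Agent.Lib.MP_f80667_ag.Dp.HensT
import Pool.Agent.Lib.MP_f80667_ag.Dp.Dbl
import Pool.Agent.Lib.MP_f80667_ag.LF.Adic
import Pool.Agent.Lib.MP_f80667_ag.LF.GoodN
import Pool.Agent.Lib.MP_f80667_ag.Fa.Dfs
import Pool.Agent.Lib.MP_f80667_ag.Hm.GenS

/-! The places of good reduction. -/

open IsDedekindDomain NumberField
open scoped LinearAlgebra.Projectivization

namespace Dp

open ZC Tq

/-- All members over all finite extensions of the completion contain tangent lines. -/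
def TgAll (F : Type) [Field F] [NumberField F] {n : ℕ} (A B : Matrix (Fin n) (Fin n) F)
    (v : HeightOneSpectrum (𝓞 F)) : Prop :=
  ∀ (L : Type) [Field L] [Algebra (FK F v) L] [FiniteDimensional (FK F v) L] (a b : L),
    a ≠ 0 ∨ b ≠ 0 → ∃ P u : Fin n → L,
      Tg (A.map (algebraMap F (FK F v))) (B.map (algebraMap F (FK F v))) a b P u

/-- Tangent lines, change of the base field of the matrices. -/
theorem Tg_of_mat {F E : Type*} [Field F] [Field E] [Algebra F E] {n : ℕ}
    {A B : Matrix (Fin n) (Fin n) F} {a b : E} {P u : Fin n → E}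
    (h : Tg (A.map (algebraMap F E)) (B.map (algebraMap F E)) a b P u) : Tg A B a b P u := by
  obtain ⟨h1, h2, h3, h4, h5, h6, h7⟩ := h
  rw [finb_qv] at h2 h3
  rw [finb_bv] at h4 h5
  rw [mQ, finb_qv, finb_qv] at h6
  rw [finb_qv, finb_qv] at h7
  exact ⟨h1, h2, h3, h4, h5, h6, h7⟩

open IsLocalRing Pool.Agent.Lib.MP_f80667_ag in
/-- A nonarchimedean local field with a smooth reduction. Proof: for `L / k` finite let `R = LF.O k L`
(a complete discrete valuation ring with finite residue field, `LF/Basic.lean`); the ring of integers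
`O` of `k` maps to `R` (an element of norm at most `1` has spectral norm at most `1`; the ring
homomorphism is local, but this is not needed: `SmR.map` along `O → R → ResidueField R`, `SmR.sm` for
its algebraic closure, and `6` is a unit of `O`, so of `R`); `tg_dvr`. The matrices: `A' : O`-matrix with
image `A₀` over `k`. `Tg` over the base field `k` and over the base field `L` (for the matrices mapped
to `L`): the same by `qv`, `bv` of mapped matrices (`mQ_mat`, `Tq.finb_qv`, `Tq.finb_bv`). -/
theorem tg_local (k : Type) [NontriviallyNormedField k] [IsUltrametricDist k] [ProperSpace k]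
    {n : ℕ} (hn : 6 ≤ n) {A₀ B₀ : Matrix (Fin n) (Fin n) k} {O : Type} [CommRing O] [Algebra O k]
    (hO : ∀ x : O, ‖algebraMap O k x‖ ≤ 1) (h6 : IsUnit (6 : O)) {A' B' : Matrix (Fin n) (Fin n) O}
    (hA : A'.map (algebraMap O k) = A₀) (hB : B'.map (algebraMap O k) = B₀) (hS : SmR A' B')
    (L : Type) [Field L] [Algebra k L] [FiniteDimensional k L] (a b : L) (hab : a ≠ 0 ∨ b ≠ 0) :
    ∃ P u : Fin n → L, Tg A₀ B₀ a b P u := by
  have hmem : ∀ x : O, algebraMap k L (algebraMap O k x) ∈ LF.O k L := by
    intro x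
    rw [LF.mem_O, spectralNorm_extends]
    exact hO x
  let g : O →+* LF.O k L := ((algebraMap k L).comp (algebraMap O k)).codRestrict
    (LF.O k L).toSubring hmem
  have hg : ∀ x : O, algebraMap (LF.O k L) L (g x) = algebraMap k L (algebraMap O k x) :=
    fun _ => rfl
  have e : ∀ H : Matrix (Fin n) (Fin n) O, (H.map g).map (algebraMap (LF.O k L) L) =
      (H.map (algebraMap O k)).map (algebraMap k L) := by
    intro H
    ext i j
    exact hg (H i j)
  have hS2 : SmR ((A'.map g).map (residue (LF.O k L))) ((B'.map g).map (residue (LF.O k L))) :=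
    (hS.map g).map (residue (LF.O k L))
  have h6' : (6 : ResidueField (LF.O k L)) ≠ 0 := by
    have h1 := h6.map ((residue (LF.O k L)).comp g)
    rw [map_ofNat] at h1
    exact h1.ne_zero
  obtain ⟨P, u, h⟩ := tg_dvr (R := LF.O k L) (K := L) hn h6' (A'.map g) (B'.map g)
    (fun x hx ha hb a b hy => hS2.sm x hx ha hb a b hy) hab
  refine ⟨P, u, ?_⟩
  rw [e, e, hA, hB] at h
  exact Tg_of_mat h

open scoped Valued in
/-- Proof: `exists_good` and the places where `6` is a unit (`Hm.finite_val_ne_one`); `tg_local` for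
`k = v.adicCompletion F` with the norm instances used in `LF.good_adic` (`LF/GoodN.lean`), and
`O = v.adicCompletionIntegers F`. -/
theorem exists_S (F : Type) [Field F] [NumberField F] {n : ℕ} (hn : 6 ≤ n)
    {A B : Matrix (Fin n) (Fin n) F} (hs : Sm (AlgebraicClosure F) A B) :
    ∃ S : Finset (HeightOneSpectrum (𝓞 F)), ∀ v ∉ S, TgAll F A B v := by
  classical
  obtain ⟨S, hS⟩ := exists_good F (smR_of hs)
  have h6 : (6 : F) ≠ 0 := by norm_num
  refine ⟨S ∪ (Hm.finite_val_ne_one (Units.mk0 (6 : F) h6)).toFinset, fun v hv => ?_⟩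
  rw [Finset.mem_union, not_or] at hv
  obtain ⟨A', B', hA, hB, hAB⟩ := hS v hv.1
  have hv6 : v.valuation F (6 : F) = 1 := by
    by_contra hcon
    exact hv.2 ((Set.Finite.mem_toFinset _).2 hcon)
  have hu : IsUnit (6 : v.adicCompletionIntegers F) := by
    rw [HeightOneSpectrum.adicCompletionIntegers.isUnit_iff_valued_eq_one]
    have h2 := HeightOneSpectrum.valuedAdicCompletion_eq_valuation' v (6 : F)
    rw [hv6] at h2
    rw [← h2]
    exact congrArg _ (map_ofNat (algebraMap F (v.adicCompletion F)) 6).symm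
  intro L iL iA iF a b hab
  have hf : Finite ((𝓞 F) ⧸ v.asIdeal) := Pool.Agent.Lib.MP_f80667_ag.LF.finite_quot F v
  let i1 : NontriviallyNormedField (v.adicCompletion F) :=
    Valued.toNontriviallyNormedField (v.adicCompletion F) (WithZero (Multiplicative ℤ))
  have h1 : @ProperSpace (v.adicCompletion F) i1.toNormedField.toMetricSpace.toPseudoMetricSpace := by
    refine Valued.integer.properSpace_iff_completeSpace_and_isDiscreteValuationRing_integer_and_finite_residueField.mpr ?_
    exact ⟨inferInstance, (inferInstance : IsDiscreteValuationRing (v.adicCompletionIntegers F)),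
      Pool.Agent.Lib.MP_f80667_ag.LF.finite_residueField F v⟩
  have hO : ∀ x : v.adicCompletionIntegers F,
      ‖algebraMap (v.adicCompletionIntegers F) (v.adicCompletion F) x‖ ≤ 1 := by
    intro x
    rw [Valued.toNormedField.norm_le_one_iff]
    exact x.2
  exact @tg_local (v.adicCompletion F) i1 _ h1 n hn (A.map (algebraMap F (v.adicCompletion F)))
    (B.map (algebraMap F (v.adicCompletion F))) (v.adicCompletionIntegers F) _ _ hO hu A' B' hA hB
    hAB L iL iA iF a b hab

/-- `F^1` is zero at the places of good reduction. Proof: `F1_of_tg`, `Ts.hE_Pl`; smoothness over the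
completion (`Ts.sm_ext` or `Tq.sm_transfer`). -/
theorem TgAll.G1 {F : Type} [Field F] [NumberField F] {n : ℕ} (hn : 6 ≤ n)
    {A B : Matrix (Fin n) (Fin n) F}
    (hs : ∀ x : Fin n → AlgebraicClosure F, x ≠ 0 → Zer (Pl A B) (AlgebraicClosure F) x →
      LinearIndependent (AlgebraicClosure F) fun (i : Fin 2) (j : Fin n) =>
        MvPolynomial.aeval x (MvPolynomial.pderiv j (Pl A B i)))
    {v : HeightOneSpectrum (𝓞 F)} (h : TgAll F A B v) :
    Subsingleton (G1 (FK F v) (hE (FK F v) (Pl A B))) := by
  have hc : CharZero (FK F v) := charZero_of_injective_algebraMap (algebraMap F (FK F v)).injective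
  have hsm : Sm (AlgebraicClosure (FK F v)) (A.map (algebraMap F (FK F v)))
      (B.map (algebraMap F (FK F v))) := by
    intro x hx hA hB a b h
    exact Tq.sm_transfer (k := FK F v) A B hs x hx hA hB a b h
  have h1 := F1_of_tg (Ω := AlgebraicClosure (FK F v)) hsm hn h
  rw [← Ts.hE_Pl] at h1
  refine ⟨fun x y => ?_⟩
  induction x using QuotientAddGroup.induction_on with
  | H x =>
    induction y using QuotientAddGroup.induction_on with
    | H y =>
      refine QuotientAddGroup.eq.2 ?_
      rw [AddSubgroup.mem_addSubgroupOf]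
      exact h1 _ (-x + y).2

end Dp
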