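import Pool.Agent.Lib.MP_f80667_ag.Dp.Hm6

/-! Hasse principle for totally isotropic planes. -/

open NumberField IsDedekindDomain

namespace Dp

open ZC



/-- A real diagonal form with a zero is indefinite. -/
private theorem hm6_indef {b : Fin 4 → ℝ} (hb : ∀ i, b i ≠ 0) {v : Fin 4 → ℝ} (hv : v ≠ 0)
    (h : ∑ j, b j * v j ^ 2 = 0) : (∃ i, 0 < b i) ∧ ∃ i, b i < 0 := by
  constructor
  · by_contra hcon
    push Not at hcon
    apply hv
    funext i
    have h1 := (Finset.sum_eq_zero_iff_of_nonpos (fun j _ =>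
      mul_nonpos_of_nonpos_of_nonneg (hcon j) (sq_nonneg (v j)))).1 h i (Finset.mem_univ i)
    exact pow_eq_zero_iff (two_ne_zero) |>.1 ((mul_eq_zero.1 h1).resolve_left (hb i))
  · by_contra hcon
    push Not at hcon
    apply hv
    funext i
    have h1 := (Finset.sum_eq_zero_iff_of_nonneg (fun j _ =>
      mul_nonneg (hcon j) (sq_nonneg (v j)))).1 h i (Finset.mem_univ i)
    exact pow_eq_zero_iff (two_ne_zero) |>.1 ((mul_eq_zero.1 h1).resolve_left (hb i))

/-- **Hasse principle for totally isotropic planes in six variables.** Proof: a zero `p` by `Hm.isoM`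
(`qv` and `dotProduct`: `ZC.qv_eq_dot`); `perp_diag`; the diagonal form in four variables has zeros at
all places (`zero_of_ti2`), so it is near isotropic at the finite places (`Hm.near_of_zeroC` gives
`Hm.NI`) and indefinite at the real ones; `Hm.iso4_of` with `Hm.norm_thm` (see `Hm/Frm5.lean`, `four`). -/
theorem ti2_global {K : Type} [Field K] [NumberField K] (G : Matrix (Fin 6) (Fin 6) K)
    (hnd : ∀ y : Fin 6 → K, y ≠ 0 → ∃ y' : Fin 6 → K, bv G y y' ≠ 0)
    (hw : ∀ w : HeightOneSpectrum (𝓞 K), TI2 (G.map (algebraMap K (w.adicCompletion K))))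
    (hR : ∀ φ : K →+* ℝ, TI2 (G.map φ)) : TI2 G := by
  obtain ⟨p, hp, hp0'⟩ := Hm.isoM (m := 6) (by norm_num) G (fun φ => by
    obtain ⟨x, y, hxy, hx, -, -⟩ := hR φ
    refine ⟨x, hxy.ne_zero 0, ?_⟩
    have h1 := qv_eq_dot (G.map φ) x
    rw [hx] at h1
    exact h1.symm)
  have hp0 : qv G p = 0 := (qv_eq_dot G p).trans hp0'
  obtain ⟨a, C, hE⟩ := perp_diag G hnd hp hp0
  have hNI : ∀ w : HeightOneSpectrum (𝓞 K), Hm.NI w a := by
    intro w ε
    obtain ⟨h1, h2, -, h3⟩ := hE (w.adicCompletion K)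
    obtain ⟨v, hv, h0⟩ := zero_of_ti2 hp hp0 h1 h2 h3 (hw w)
    exact Hm.near_of_zeroC w a v hv h0 ε
  have hRe : ∀ φ : K →+* ℝ, (∃ i, 0 < φ (a i)) ∧ ∃ i, φ (a i) < 0 := by
    intro φ
    let _ : Algebra K ℝ := φ.toAlgebra
    obtain ⟨h1, h2, -, h3⟩ := hE ℝ
    obtain ⟨v, hv, h0⟩ := zero_of_ti2 hp hp0 h1 h2 h3 (hR φ)
    exact hm6_indef (b := fun i => φ (a i)) (fun i => (map_ne_zero φ).2 (a i).ne_zero) hv h0
  obtain ⟨x, hx, hx0⟩ := Hm.iso4_of (fun _ _ _ => Hm.norm_thm) a hNI hRe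
  obtain ⟨h1, h2, h3, -⟩ := hE K
  exact ⟨p, fun i => ∑ j, C i j * x j, h3 x hx, hp0, (h1 x).trans hx0, h2 x⟩

end Dp
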