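import Pool.Agent.Lib.MP_f80667_ag.Fa.Dfs
import Pool.Agent.Lib.MP_f80667_ag.Hm.Rl

/-! The places of a finite extension and the embeddings in the algebraic closures of the completions. -/

open NumberField IsDedekindDomain

namespace Dp

open ZC

variable (F M : Type) [Field F] [NumberField F] [Field M] [NumberField M] [Algebra F M]

/-- The statement for the completions themselves. -/
private theorem exists_embP0 (w : HeightOneSpectrum (𝓞 M)) :
    ∃ (v : HeightOneSpectrum (𝓞 F)) (e : w.adicCompletion M →+* AlgebraicClosure (v.adicCompletion F)),
      (∀ x : F, e (algebraMap M (w.adicCompletion M) (algebraMap F M x)) =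
        algebraMap (v.adicCompletion F) _ (algebraMap F (v.adicCompletion F) x)) ∧
      ∀ y : v.adicCompletion F, ∃ z, e z = algebraMap (v.adicCompletion F) _ y := by
  classical
  let v : HeightOneSpectrum (𝓞 F) := w.under (𝓞 F)
  have hlo : w.asIdeal.LiesOver v.asIdeal := ⟨rfl⟩
  have huc := HeightOneSpectrum.uniformContinuous_algebraMap_liesOver (A := 𝓞 F) (K := F) M v w
  let e1 : (v.valuation F).Completion →+* (w.valuation M).Completion :=
    UniformSpace.Completion.mapRingHom _ huc.continuous
  let e0 : v.adicCompletion F →+* w.adicCompletion M :=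
    ((HeightOneSpectrum.adicCompletion.equiv M w).symm.toRingHom.comp e1).comp
      (HeightOneSpectrum.adicCompletion.equiv F v).toRingHom
  have hcont : Continuous e0 :=
    (HeightOneSpectrum.adicCompletion.continuous_ofCompletion M w).comp
      (UniformSpace.Completion.continuous_map.comp
        (HeightOneSpectrum.adicCompletion.continuous_toCompletion F v))
  have he0 : ∀ x : F, e0 (algebraMap F (v.adicCompletion F) x) =
      algebraMap M (w.adicCompletion M) (algebraMap F M x) := by
    intro x
    apply HeightOneSpectrum.adicCompletion.ext
    change e1 _ = _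
    exact UniformSpace.Completion.mapRingHom_coe huc.continuous _
  let _ : Algebra (v.adicCompletion F) (w.adicCompletion M) := e0.toAlgebra
  have : IsScalarTower F (v.adicCompletion F) (w.adicCompletion M) :=
    .of_algebraMap_eq fun x => (he0 x).symm
  have : ContinuousSMul (v.adicCompletion F) (w.adicCompletion M) :=
    ⟨(hcont.comp continuous_fst).mul continuous_snd⟩
  have : Module.Finite (v.adicCompletion F) (w.adicCompletion M) := inferInstance
  have : Algebra.IsAlgebraic (v.adicCompletion F) (w.adicCompletion M) := inferInstance
  let e : w.adicCompletion M →ₐ[v.adicCompletion F] AlgebraicClosure (v.adicCompletion F) :=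
    IsAlgClosed.lift
  refine ⟨v, e.toRingHom, fun x => ?_, fun y => ⟨e0 y, ?_⟩⟩
  · rw [← he0]
    exact e.commutes _
  · exact e.commutes y

/-- The completion of `M` at a finite place embeds in the algebraic closure of the completion of `F` at
the place below, and the image contains this completion. Proof: `v` is the place below `w`
(`w.asIdeal.under (𝓞 F)` or `comap`); the ring homomorphism `F_v → M_w` by
`IsDedekindDomain.HeightOneSpectrum.uniformContinuous_algebraMap_liesOver`
(`Mathlib/NumberTheory/RamificationInertia/Valuation.lean`) and the functoriality of completions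
(`UniformSpace.Completion.mapRingHom`); it is a continuous algebra structure, so `M_w` is finite over
`F_v` (the instance at the end of `Mathlib/NumberTheory/NumberField/Completion/FinitePlace.lean`), and
`IsAlgClosed.lift`. -/
theorem exists_embP (w : HeightOneSpectrum (𝓞 M)) :
    ∃ (v : HeightOneSpectrum (𝓞 F)) (e : w.adicCompletion M →+* AlgebraicClosure (FK F v)),
      (∀ x : F, e (algebraMap M (w.adicCompletion M) (algebraMap F M x)) =
        algebraMap (FK F v) _ (algebraMap F (FK F v) x)) ∧
      ∀ y : FK F v, ∃ z, e z = algebraMap (FK F v) _ y :=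
  exists_embP0 F M w

/-- The same at the real places. Proof: `Hm.exists_real`. -/
theorem exists_embR (φ : M →+* ℝ) :
    ∃ (v : InfinitePlace F) (_ : v.IsReal) (e : ℝ →+* AlgebraicClosure (IK F v)),
      (∀ x : F, e (φ (algebraMap F M x)) = algebraMap (IK F v) _ (algebraMap F (IK F v) x)) ∧
      ∀ y : IK F v, ∃ z, e z = algebraMap (IK F v) _ y := by
  obtain ⟨v, hv, e, he⟩ := Hm.exists_real F M φ
  refine ⟨v, hv, (algebraMap (IK F v) (AlgebraicClosure (IK F v))).comp e.toRingHom,
    fun x => ?_, fun y => ⟨e.symm y, ?_⟩⟩
  · exact congrArg (algebraMap (IK F v) (AlgebraicClosure (IK F v))) (he x)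
  · exact congrArg (algebraMap (IK F v) (AlgebraicClosure (IK F v))) (e.apply_symm_apply y)

end Dp
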