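import Pool.Agent.Lib.MP_f80667_ag.Dp.WaQ
import Pool.Agent.Lib.MP_f80667_ag.Dp.PlcF
import Pool.Agent.Lib.MP_f80667_ag.Dp.Hm6B
import Pool.Agent.Lib.MP_f80667_ag.Dp.GoodV

/-! Lines over number fields with given classes at finitely many places. -/

open NumberField IsDedekindDomain Polynomial IntermediateField
open scoped LinearAlgebra.Projectivization

namespace Dp

open ZC Tq

variable {F : Type} [Field F] [NumberField F] {A B : Matrix (Fin 6) (Fin 6) F}

/-- The form `A - α B` over `M`, on vectors over `M`. -/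
theorem glob_bv {F M : Type*} [Field F] [Field M] [Algebra F M] {n : ℕ}
    (A B : Matrix (Fin n) (Fin n) F) (α : M) (x y : Fin n → M) :
    bv (A.map (algebraMap F M) + (-α) • B.map (algebraMap F M)) x y = mB A B 1 (-α) x y := by
  simp only [mB, bv, Matrix.add_apply, Matrix.smul_apply, Matrix.map_apply, smul_eq_mul,
    Algebra.algebraMap_self, RingHom.id_apply, one_mul, Finset.mul_sum, ← Finset.sum_add_distrib]
  refine Finset.sum_congr rfl fun i _ => Finset.sum_congr rfl fun j _ => ?_
  ring

/-- The form `A - α B` over `M`, on vectors over `M`. -/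
theorem glob_qv {F M : Type*} [Field F] [Field M] [Algebra F M] {n : ℕ}
    (A B : Matrix (Fin n) (Fin n) F) (α : M) (x : Fin n → M) :
    qv (A.map (algebraMap F M) + (-α) • B.map (algebraMap F M)) x = mQ A B 1 (-α) x := by
  simp only [mQ, qv, Matrix.add_apply, Matrix.smul_apply, Matrix.map_apply, smul_eq_mul,
    Algebra.algebraMap_self, RingHom.id_apply, one_mul, Finset.mul_sum, ← Finset.sum_add_distrib]
  refine Finset.sum_congr rfl fun i _ => Finset.sum_congr rfl fun j _ => ?_
  ring

section emb

variable {F K Ω M E : Type} [Field F] [Field K] [Field Ω] [Field M] [Field E]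
    [Algebra F K] [Algebra K Ω] [Algebra F M] {n : ℕ} {A B : Matrix (Fin n) (Fin n) F}
    (α : M) (ι : M →+* E) (e : E →+* Ω)

/-- The form `A - α B` over `E`, seen in `Ω`. -/
theorem glob_emb_qv
    (he : ∀ x : F, e (ι (algebraMap F M x)) = algebraMap K Ω (algebraMap F K x)) (x : Fin n → E) :
    e (qv ((A.map (algebraMap F M) + (-α) • B.map (algebraMap F M)).map ι) x) =
      mQ (A.map (algebraMap F K)) (B.map (algebraMap F K)) 1 (-(e (ι α))) (fun i => e (x i)) := by
  simp only [mQ, qv, Matrix.add_apply, Matrix.smul_apply, Matrix.map_apply, smul_eq_mul,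
    Algebra.algebraMap_self, RingHom.id_apply, one_mul, Finset.mul_sum, ← Finset.sum_add_distrib,
    map_sum, map_add, map_mul, map_neg, he]
  refine Finset.sum_congr rfl fun i _ => Finset.sum_congr rfl fun j _ => ?_
  ring

/-- The form `A - α B` over `E`, seen in `Ω`. -/
theorem glob_emb_bv
    (he : ∀ x : F, e (ι (algebraMap F M x)) = algebraMap K Ω (algebraMap F K x))
    (x y : Fin n → E) :
    e (bv ((A.map (algebraMap F M) + (-α) • B.map (algebraMap F M)).map ι) x y) =
      mB (A.map (algebraMap F K)) (B.map (algebraMap F K)) 1 (-(e (ι α))) (fun i => e (x i))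
        (fun i => e (y i)) := by
  simp only [mB, bv, Matrix.add_apply, Matrix.smul_apply, Matrix.map_apply, smul_eq_mul,
    Algebra.algebraMap_self, RingHom.id_apply, one_mul, Finset.mul_sum, ← Finset.sum_add_distrib,
    map_sum, map_add, map_mul, map_neg, he]
  refine Finset.sum_congr rfl fun i _ => Finset.sum_congr rfl fun j _ => ?_
  ring

end emb

/-- A totally isotropic plane over `K⟮y⟯ ⊆ Ω` gives one over every field `E` which is embedded in `Ω`
with image containing `K` and `y`. Here `E` is an extension of `M`, `α : M` maps to `y`. Proof: the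
image of `e` is a subfield which contains the image of `K` and `y = e α`, so it contains `K⟮y⟯`; take
preimages of the coordinates; `e` is injective. -/
theorem ti2_of_root {F K Ω M E : Type} [Field F] [Field K] [Field Ω] [Field M] [Field E]
    [Algebra F K] [Algebra K Ω] [Algebra F Ω] [IsScalarTower F K Ω] [IsAlgClosure K Ω]
    [Algebra F M] {n : ℕ} {A B : Matrix (Fin n) (Fin n) F} (α : M) (ι : M →+* E) (e : E →+* Ω)
    (he : ∀ x : F, e (ι (algebraMap F M x)) = algebraMap K Ω (algebraMap F K x))
    (hK : ∀ y : K, ∃ z, e z = algebraMap K Ω y) {p x : Fin n → K⟮e (ι α)⟯}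
    (hi : LinearIndependent K⟮e (ι α)⟯ ![p, x])
    (hp : mQ (A.map (algebraMap F K)) (B.map (algebraMap F K)) 1 (-AdjoinSimple.gen K (e (ι α))) p = 0)
    (hx : mQ (A.map (algebraMap F K)) (B.map (algebraMap F K)) 1 (-AdjoinSimple.gen K (e (ι α))) x = 0)
    (hpx : mB (A.map (algebraMap F K)) (B.map (algebraMap F K)) 1 (-AdjoinSimple.gen K (e (ι α))) p x = 0) :
    TI2 (((A.map (algebraMap F M)) + (-α) • (B.map (algebraMap F M))).map ι) := by
  have hg : ∀ z : K⟮e (ι α)⟯, ∃ z' : E, e z' = (z : Ω) := by
    intro z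
    let S : IntermediateField K Ω := Subfield.toIntermediateField e.fieldRange (by
      intro y
      obtain ⟨z, hz⟩ := hK y
      exact ⟨z, hz⟩)
    have hle : K⟮e (ι α)⟯ ≤ S := by
      rw [IntermediateField.adjoin_simple_le_iff]
      exact ⟨ι α, rfl⟩
    exact hle z.2
  choose g hg using hg
  have hgen : ((AdjoinSimple.gen K (e (ι α)) : K⟮e (ι α)⟯) : Ω) = e (ι α) :=
    AdjoinSimple.coe_gen K _
  have hv : ∀ z : K⟮e (ι α)⟯, (K⟮e (ι α)⟯).val z = (z : Ω) := fun z => rfl
  refine ⟨fun i => g (p i), fun i => g (x i), ?_, ?_, ?_, ?_⟩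
  · obtain ⟨i, j, hij⟩ := exists_minor hi
    refine ind_of_minor (i := i) (j := j) ?_
    intro h0
    apply hij
    apply Subtype.val_injective
    have h1 := congrArg e h0
    simp only [map_mul, hg] at h1
    simpa only [MulMemClass.coe_mul] using h1
  · apply e.injective
    rw [glob_emb_qv (K := K) α ι e he, map_zero]
    simp only [hg]
    have h1 := mQ_hom (A := A.map (algebraMap F K)) (B := B.map (algebraMap F K))
      (K⟮e (ι α)⟯).val 1 (-AdjoinSimple.gen K (e (ι α))) p
    rw [hp, map_zero, map_one, map_neg] at h1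
    simpa only [hv, hgen] using h1
  · apply e.injective
    rw [glob_emb_qv (K := K) α ι e he, map_zero]
    simp only [hg]
    have h1 := mQ_hom (A := A.map (algebraMap F K)) (B := B.map (algebraMap F K))
      (K⟮e (ι α)⟯).val 1 (-AdjoinSimple.gen K (e (ι α))) x
    rw [hx, map_zero, map_one, map_neg] at h1
    simpa only [hv, hgen] using h1
  · apply e.injective
    rw [glob_emb_bv (K := K) α ι e he, map_zero]
    simp only [hg]
    have h1 := mB_hom (A := A.map (algebraMap F K)) (B := B.map (algebraMap F K))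
      (K⟮e (ι α)⟯).val 1 (-AdjoinSimple.gen K (e (ι α))) p x
    rw [hpx, map_zero, map_one, map_neg] at h1
    simpa only [hv, hgen] using h1

/-- A tangent line spans a plane. Proof: if `c P + d u = 0` then `d u` is on `X`, so `d = 0`. -/
theorem Tg.indep {k : Type*} [Field k] {n : ℕ} {A B : Matrix (Fin n) (Fin n) k} {E : Type*}
    [Field E] [Algebra k E] {a b : E} {P u : Fin n → E} (h : Tg A B a b P u) :
    LinearIndependent E ![P, u] ∧ mQ A B a b P = 0 ∧ mQ A B a b u = 0 ∧ mB A B a b P u = 0 := by
  refine ⟨?_, ?_, h.qu, ?_⟩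
  · rw [LinearIndependent.pair_iff]
    intro c d hcd
    have hd : d = 0 := by
      by_contra hd
      apply h.nu
      have hu : u = (-(d⁻¹ * c)) • P := by
        have h1 : d • u = (-c) • P := by
          rw [neg_smul]
          exact eq_neg_of_add_eq_zero_right hcd
        calc u = d⁻¹ • (d • u) := by rw [smul_smul, inv_mul_cancel₀ hd, one_smul]
          _ = _ := by rw [h1, smul_smul, mul_neg]
      rw [hu, qv_smul, qv_smul, h.aP, h.bP, mul_zero]
      exact ⟨rfl, rfl⟩
    refine ⟨?_, hd⟩
    rw [hd, zero_smul, add_zero] at hcd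
    exact (smul_eq_zero.1 hcd).resolve_right h.hP
  · rw [mQ, h.aP, h.bP, mul_zero, mul_zero, add_zero]
  · rw [mB, h.aPu, h.bPu, mul_zero, mul_zero, add_zero]

/-- **Existence of a line over `M`.** Proof. `ND` over `M` from `ND` at one place of `S` (`ND.hom`,
`ND_mat`). Let `G = A + (-α) B` over `M`. At a finite place `w` of `M`: `exists_embP`, `v`, `e`, and
`s = e ∘ algebraMap : M →ₐ[F] Ω`. If `v ∈ S`: `hfin`; otherwise `TgAll` for `L = F_v⟮s α⟯`,
`(1, -gen)`, `Tg.indep`. `ti2_of_root`. At a real embedding: `exists_embR`, `hreal`. `ti2_global`, and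
`exists_line` (with `k = F`, `Ω = AlgebraicClosure F`). -/
theorem exists_line_glob (hs : Sm (AlgebraicClosure F) A B) (S : Finset (HeightOneSpectrum (𝓞 F)))
    (hne : S.Nonempty) (hS : ∀ v ∉ S, TgAll F A B v) (M : Type) [Field M] [Algebra F M]
    [FiniteDimensional F M] (α : M)
    (hfin : ∀ v ∈ S, ∀ s : M →ₐ[F] AlgebraicClosure (FK F v), ∃ t,
      Root (A.map (algebraMap F (FK F v))) (B.map (algebraMap F (FK F v))) (s α) t)
    (hreal : ∀ v : InfinitePlace F, v.IsReal → ∀ s : M →ₐ[F] AlgebraicClosure (IK F v), ∃ t,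
      Root (A.map (algebraMap F (IK F v))) (B.map (algebraMap F (IK F v))) (s α) t) :
    ∃ t : ℙ M (Fin (6 * 6) → M), IsM A B 1 (-α) t := by
  have : NumberField M := NumberField.of_module_finite F M
  have : Algebra.IsAlgebraic F M := Algebra.IsAlgebraic.of_finite F M
  -- nondegeneracy over `M`
  have hnd : ND A B (1 : M) (-α) := by
    obtain ⟨v, hv⟩ := hne
    let s : M →ₐ[F] AlgebraicClosure (FK F v) := IsAlgClosed.lift
    obtain ⟨t, -, h1⟩ := hfin v hv s
    have h2 := (ND.hom (A := A.map (algebraMap F (FK F v))) (B := B.map (algebraMap F (FK F v)))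
      ((FK F v)⟮s α⟯).val (a := 1) (b := -AdjoinSimple.gen (FK F v) (s α))).2 h1
    rw [map_one, map_neg] at h2
    have h3 : ND (A.map (algebraMap F (FK F v))) (B.map (algebraMap F (FK F v))) (s 1) (s (-α)) := by
      rw [map_one, map_neg]
      exact h2
    rw [ND_mat] at h3
    exact (ND.hom (A := A) (B := B) s).1 h3
  have hG : TI2 (A.map (algebraMap F M) + (-α) • B.map (algebraMap F M)) := by
    refine ti2_global _ ?_ ?_ ?_
    · intro y hy
      obtain ⟨y', hy'⟩ := hnd y hy
      exact ⟨y', by rwa [glob_bv]⟩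
    · intro w
      obtain ⟨v, e, he, hK⟩ := exists_embP F M w
      let s : M →ₐ[F] AlgebraicClosure (FK F v) :=
        { e.comp (algebraMap M (w.adicCompletion M)) with
          commutes' := fun x => by
            change e (algebraMap M (w.adicCompletion M) (algebraMap F M x)) = _
            rw [he x, ← IsScalarTower.algebraMap_apply F (FK F v)] }
      by_cases hv : v ∈ S
      · obtain ⟨t, ⟨p, x, h⟩, -⟩ := hfin v hv s
        exact ti2_of_root (K := FK F v) (Ω := AlgebraicClosure (FK F v)) α
          (algebraMap M (w.adicCompletion M)) e he hK (p := p) (x := x) h.ind h.qp h.qx h.b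
      · have hint : IsIntegral (FK F v) (s α) := by
          have h1 : IsIntegral F (s α) := (Algebra.IsIntegral.isIntegral (R := F) α).map s
          exact h1.tower_top
        have : FiniteDimensional (FK F v) (FK F v)⟮s α⟯ :=
          IntermediateField.adjoin.finiteDimensional hint
        obtain ⟨P, u, h⟩ := hS v hv (FK F v)⟮s α⟯ 1 (-AdjoinSimple.gen (FK F v) (s α))
          (Or.inl one_ne_zero)
        obtain ⟨h1, h2, h3, h4⟩ := h.indep
        exact ti2_of_root (K := FK F v) (Ω := AlgebraicClosure (FK F v)) α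
          (algebraMap M (w.adicCompletion M)) e he hK (p := P) (x := u) h1 h2 h3 h4
    · intro φ
      obtain ⟨v, hv, e, he, hK⟩ := exists_embR F M φ
      let s : M →ₐ[F] AlgebraicClosure (IK F v) :=
        { e.comp φ with
          commutes' := fun x => by
            change e (φ (algebraMap F M x)) = _
            rw [he x, ← IsScalarTower.algebraMap_apply F (IK F v)] }
      obtain ⟨t, ⟨p, x, h⟩, -⟩ := hreal v hv s
      exact ti2_of_root (K := IK F v) (Ω := AlgebraicClosure (IK F v)) α φ e he hK
        (p := p) (x := x) h.ind h.qp h.qx h.b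
  obtain ⟨p, x, hi, hp, hx, hpx⟩ := hG
  rw [glob_qv] at hp hx
  rw [glob_bv] at hpx
  exact exists_line hs (IsAlgClosed.lift : M →ₐ[F] AlgebraicClosure F) le_rfl hnd hi hp hx hpx

end Dp
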