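import Pool.Agent.Lib.MP_f80667_ag.Dp.Glob

/-! Lines over number fields with given classes at finitely many places. -/

open NumberField IsDedekindDomain Polynomial IntermediateField
open scoped LinearAlgebra.Projectivization

namespace Dp

open ZC Tq

variable {F : Type} [Field F] [NumberField F] {A B : Matrix (Fin 6) (Fin 6) F}

omit [NumberField F] in
/-- Smoothness over an extension of the base field. -/
theorem glob_sm {K Ω : Type} [Field K] [Field Ω] [Algebra F K] [Algebra K Ω] [Algebra F Ω]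
    [IsScalarTower F K Ω] (hs : Sm (AlgebraicClosure F) A B) :
    Sm Ω (A.map (algebraMap F K)) (B.map (algebraMap F K)) := by
  intro x hx hA hB a b h
  refine sm_transfer (E := AlgebraicClosure F) A B (fun y hy0 hy => ?_) x hx hA hB a b h
  rw [Fintype.linearIndependent_iff]
  intro g hg
  obtain ⟨yA, yB⟩ := (zer_iff A B).1 hy
  have h1 := hs y hy0 yA yB (g 0) (g 1) (fun w => by
    rw [bv_eq_grad, bv_eq_grad, Finset.mul_sum, Finset.mul_sum, ← Finset.sum_add_distrib]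
    refine Finset.sum_eq_zero fun j _ => ?_
    have h2 := congrFun hg j
    rw [Finset.sum_apply, Fin.sum_univ_two, Pi.zero_apply, Pi.smul_apply, Pi.smul_apply,
      smul_eq_mul, smul_eq_mul] at h2
    change g 0 * MvPolynomial.aeval y (MvPolynomial.pderiv j (ml A)) +
      g 1 * MvPolynomial.aeval y (MvPolynomial.pderiv j (ml B)) = 0 at h2
    linear_combination w j * h2)
  intro i
  fin_cases i
  · exact h1.1
  · exact h1.2

/-- A common bound for a finite set. -/
theorem glob_min {ι : Type*} (s : Set ι) (hs : s.Finite) (p : ι → ℝ → Prop)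
    (h : ∀ i ∈ s, ∃ δ > 0, ∀ δ', 0 < δ' → δ' ≤ δ → p i δ') :
    ∃ δ > 0, ∀ i ∈ s, p i δ := by
  classical
  obtain ⟨t, rfl⟩ := hs.exists_finset_coe
  have key : ∃ δ > 0, ∀ i ∈ t, ∀ δ', 0 < δ' → δ' ≤ δ → p i δ' := by
    induction t using Finset.induction_on with
    | empty => exact ⟨1, one_pos, fun i hi => absurd hi (Finset.notMem_empty i)⟩
    | insert a t ha ih =>
      obtain ⟨δ, hδ, h1⟩ := ih (Finset.finite_toSet t) fun i hi =>
        h i (Finset.mem_coe.2 (Finset.mem_insert_of_mem (Finset.mem_coe.1 hi)))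
      obtain ⟨δ₂, hδ₂, h2⟩ := h a (Finset.mem_coe.2 (Finset.mem_insert_self a t))
      refine ⟨min δ δ₂, lt_min hδ hδ₂, fun i hi δ' h0 h3 => ?_⟩
      rcases Finset.mem_insert.1 hi with rfl | hi
      · exact h2 δ' h0 (h3.trans (min_le_right _ _))
      · exact h1 i hi δ' h0 (h3.trans (min_le_left _ _))
  obtain ⟨δ, hδ, h1⟩ := key
  exact ⟨δ, hδ, fun i hi => h1 i (Finset.mem_coe.1 hi) δ hδ le_rfl⟩

/-- The local constants. -/
theorem glob_loc {K : Type} [Field K] [CharZero K] {Ω : Type} [Field Ω] [Algebra K Ω]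
    [IsAlgClosure K Ω] {ν : AbsoluteValue Ω ℝ} (h : LcV K Ω ν) {A B : Matrix (Fin 6) (Fin 6) K}
    (hs : Sm Ω A B) {P₀ : K[X]} {z : ℙ Ω (Fin 6 → Ω) →₀ ℤ} (hD : Dat A B P₀ z) :
    ∃ δ > 0, ∀ δ', 0 < δ' → δ' ≤ δ → ∀ P : K[X], P.Monic → P.natDegree = P₀.natDegree →
      (∀ i, ν (algebraMap K Ω (P.coeff i - P₀.coeff i)) < δ') →
      (∀ y : Ω, aeval y P = 0 → ∃ t, Root A B y t) ∧
      ∀ (F : Type) [Field F] [Algebra F K] [Algebra F Ω] [IsScalarTower F K Ω] (M : Type)
        [Field M] [Algebra F M] [FiniteDimensional F M] (α : M), F⟮α⟯ = ⊤ →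
        (minpoly F α).map (algebraMap F K) = P → ∀ (A₀ B₀ : Matrix (Fin 6) (Fin 6) F),
        A = A₀.map (algebraMap F K) → B = B₀.map (algebraMap F K) →
        ∀ t : ℙ M (Fin (6 * 6) → M), IsM A₀ B₀ 1 (-α) t →
          ∑ s : M →ₐ[F] Ω, Ph (mapPt (s : M →+* Ω) t) - z ∈ ratEq Ω (Pl A B) := by
  obtain ⟨δ₁, h1, h2⟩ := h.dat_lines hs le_rfl hD
  obtain ⟨δ₂, h3, h4⟩ := h.dat_class hs le_rfl hD
  refine ⟨min δ₁ δ₂, lt_min h1 h3, fun δ' _ h5 P hP hd hc => ⟨?_, ?_⟩⟩
  · exact h2 P hP hd fun i => (hc i).trans_le (h5.trans (min_le_left _ _))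
  · exact h4 P hP hd fun i => (hc i).trans_le (h5.trans (min_le_right _ _))

/-- **Lines over number fields with given classes.** Proof: `δ` smaller than the constants of
`LcV.dat_lines` and `LcV.dat_class` at all `v ∈ S` and at the real places; `exists_poly`;
`M = AdjoinRoot P`, `α` the root, `minpoly F α = P`; for `s : M →ₐ[F] Ω`, `s α` is a root of `P`
mapped to the completion; `exists_line_glob`, `LcV.dat_class`. -/
theorem exists_glob (hs : Sm (AlgebraicClosure F) A B) (S : Finset (HeightOneSpectrum (𝓞 F)))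
    (hne : S.Nonempty) (hS : ∀ v ∉ S, TgAll F A B v) {N : ℕ} (hN : 1 ≤ N)
    (hfin : ∀ v : HeightOneSpectrum (𝓞 F), ∃ ν, NuP F v ν)
    (hinf : ∀ v : InfinitePlace F, v.IsReal → ∃ ν, NuR F v ν)
    (P₀ : ∀ v : HeightOneSpectrum (𝓞 F), (FK F v)[X])
    (R₀ : ∀ v : InfinitePlace F, (IK F v)[X])
    (z : ∀ v : HeightOneSpectrum (𝓞 F), ℙ (AlgebraicClosure (FK F v))
      (Fin 6 → AlgebraicClosure (FK F v)) →₀ ℤ)
    (z' : ∀ v : InfinitePlace F, ℙ (AlgebraicClosure (IK F v))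
      (Fin 6 → AlgebraicClosure (IK F v)) →₀ ℤ)
    (hP : ∀ v ∈ S, (P₀ v).natDegree = N ∧
      Dat (A.map (algebraMap F (FK F v))) (B.map (algebraMap F (FK F v))) (P₀ v) (z v))
    (hR : ∀ v, v.IsReal → (R₀ v).natDegree = N ∧
      Dat (A.map (algebraMap F (IK F v))) (B.map (algebraMap F (IK F v))) (R₀ v) (z' v)) :
    ∃ (M : Type) (_ : Field M) (_ : Algebra F M) (_ : FiniteDimensional F M) (α : M)
      (t : ℙ M (Fin (6 * 6) → M)), Module.finrank F M = N ∧ IsM A B 1 (-α) t ∧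
      (∀ v ∈ S, ∑ s : M →ₐ[F] AlgebraicClosure (FK F v), Ph (mapPt (s : M →+* _) t) - z v ∈
        ratEq _ (Pl (A.map (algebraMap F (FK F v))) (B.map (algebraMap F (FK F v))))) ∧
      ∀ v, v.IsReal → ∑ s : M →ₐ[F] AlgebraicClosure (IK F v), Ph (mapPt (s : M →+* _) t) - z' v ∈
        ratEq _ (Pl (A.map (algebraMap F (IK F v))) (B.map (algebraMap F (IK F v)))) := by
  classical
  choose ν hν using hfin
  obtain ⟨ν', hν'⟩ : ∃ ν' : ∀ v : InfinitePlace F, AbsoluteValue (AlgebraicClosure (IK F v)) ℝ,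
      ∀ v, v.IsReal → NuR F v (ν' v) := by
    refine ⟨fun v => if h : v.IsReal then (hinf v h).choose else AbsoluteValue.trivial,
      fun v hv => ?_⟩
    change NuR F v (if h : v.IsReal then (hinf v h).choose else AbsoluteValue.trivial)
    rw [dif_pos hv]
    exact (hinf v hv).choose_spec
  have c1 : ∀ v : HeightOneSpectrum (𝓞 F), CharZero (FK F v) := fun v =>
    charZero_of_injective_algebraMap (algebraMap F (FK F v)).injective
  have c2 : ∀ v : InfinitePlace F, CharZero (IK F v) := fun v =>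
    charZero_of_injective_algebraMap (algebraMap F (IK F v)).injective
  obtain ⟨δ₁, hδ₁, k1⟩ := glob_min (S : Set (HeightOneSpectrum (𝓞 F))) S.finite_toSet _
    fun v hv => glob_loc (hν v).lc (glob_sm hs) (hP v (Finset.mem_coe.1 hv)).2
  obtain ⟨δ₂, hδ₂, k2⟩ := glob_min {v : InfinitePlace F | v.IsReal} (Set.toFinite _) _
    fun v hv => glob_loc (hν' v hv).lc (glob_sm hs) (hR v hv).2
  obtain ⟨P, Pm, Pd, Pi, p1, p2⟩ := exists_poly F ν hν ν' hν' S hN P₀ R₀
    (fun v hv => ⟨(hP v hv).2.monic, (hP v hv).1⟩) (fun v hv => ⟨(hR v hv).2.monic, (hR v hv).1⟩)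
    (lt_min hδ₁ hδ₂)
  have : Fact (Irreducible P) := ⟨Pi⟩
  have hfd : FiniteDimensional F (AdjoinRoot P) := Pm.finite_adjoinRoot
  have hmin : minpoly F (AdjoinRoot.root P) = P := by
    rw [AdjoinRoot.minpoly_root Pi.ne_zero, Pm.leadingCoeff, inv_one, C_1, mul_one]
  have htop : F⟮AdjoinRoot.root P⟯ = ⊤ := by
    rw [← IntermediateField.toSubalgebra_injective.eq_iff,
      IntermediateField.adjoin_simple_toSubalgebra_of_isAlgebraic
        (Algebra.IsAlgebraic.isAlgebraic _), IntermediateField.top_toSubalgebra]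
    exact AdjoinRoot.adjoinRoot_eq_top
  have hroot : ∀ {Ω : Type} [Field Ω] [Algebra F Ω] (s : AdjoinRoot P →ₐ[F] Ω),
      aeval (s (AdjoinRoot.root P)) P = 0 := fun s => by
    rw [aeval_algHom_apply, AdjoinRoot.aeval_eq, AdjoinRoot.mk_self, map_zero]
  have q1 := fun v (hv : v ∈ S) => k1 v (Finset.mem_coe.2 hv) (P.map (algebraMap F (FK F v)))
    (Pm.map _) (by rw [Pm.natDegree_map, Pd, (hP v hv).1])
    fun i => (p1 v hv i).trans_le (min_le_left _ _)
  have q2 := fun v (hv : InfinitePlace.IsReal v) => k2 v hv (P.map (algebraMap F (IK F v)))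
    (Pm.map _) (by rw [Pm.natDegree_map, Pd, (hR v hv).1])
    fun i => (p2 v hv i).trans_le (min_le_right _ _)
  obtain ⟨t, ht⟩ := exists_line_glob hs S hne hS (AdjoinRoot P) (AdjoinRoot.root P)
    (fun v hv s => (q1 v hv).1 _ (by rw [aeval_map_algebraMap]; exact hroot s))
    (fun v hv s => (q2 v hv).1 _ (by rw [aeval_map_algebraMap]; exact hroot s))
  refine ⟨AdjoinRoot P, inferInstance, inferInstance, hfd, AdjoinRoot.root P, t, ?_, ht,
    fun v hv => ?_, fun v hv => ?_⟩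
  · rw [← Pd]
    exact (AdjoinRoot.powerBasis Pi.ne_zero).finrank
  · exact (q1 v hv).2 F (AdjoinRoot P) (AdjoinRoot.root P) htop (by rw [hmin]) A B rfl rfl t ht
  · exact (q2 v hv).2 F (AdjoinRoot P) (AdjoinRoot.root P) htop (by rw [hmin]) A B rfl rfl t ht

end Dp
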