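import Pool.Agent.Lib.MP_f80667_ag.ZC.Conic
import Pool.Agent.Lib.MP_f80667_ag.Hm.Frm5
import Pool.Agent.Lib.MP_f80667_ag.Hm.U4

/-! Totally isotropic planes of quadratic forms in six variables over number fields. -/

open NumberField IsDedekindDomain

namespace Dp

open ZC

/-- There is a totally isotropic plane. -/
def TI2 {E : Type*} [Field E] {n : ℕ} (G : Matrix (Fin n) (Fin n) E) : Prop :=
  ∃ p x : Fin n → E, LinearIndependent E ![p, x] ∧ qv G p = 0 ∧ qv G x = 0 ∧ bv G p x = 0

section lin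

variable {K : Type*} [Field K] {G : Matrix (Fin 6) (Fin 6) K}

variable (G) in
/-- The polar form. -/
def hm6B : LinearMap.BilinForm K (Fin 6 → K) :=
  LinearMap.mk₂ K (fun x y => bv G x y) (bv_add G) (fun c x y => bv_smul G c x y)
    (bv_add_right G) (fun c x y => bv_smul_right G c x y)

theorem hm6B_apply (x y : Fin 6 → K) : hm6B G x y = bv G x y := rfl

theorem hm6_self {E : Type*} [CommRing E] [Algebra K E] (x : Fin 6 → E) :
    bv G x x = 2 * qv G x := by
  simp only [bv, qv, Finset.mul_sum]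
  apply Finset.sum_congr rfl; intro i _
  apply Finset.sum_congr rfl; intro j _
  ring

theorem hm6_nd (hnd : ∀ y : Fin 6 → K, y ≠ 0 → ∃ y' : Fin 6 → K, bv G y y' ≠ 0) :
    (hm6B G).Nondegenerate := by
  refine ⟨fun x hx => ?_, fun x hx => ?_⟩
  · by_contra h
    obtain ⟨y, hy⟩ := hnd x h
    exact hy (hx y)
  · by_contra h
    obtain ⟨y, hy⟩ := hnd x h
    rw [bv_comm] at hy
    exact hy (hx y)

theorem hm6_symm : (hm6B G).IsSymm := ⟨fun x y => bv_comm G x y⟩

/-- Columns. -/
def hm6M (p g : Fin 6 → K) (w : Fin 4 → Fin 6 → K) : Matrix (Fin 6) (Fin 6) K :=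
  fun i j => (![p, g, w 0, w 1, w 2, w 3] : Fin 6 → Fin 6 → K) j i

/-- The image of a vector. -/
def hm6i (E : Type*) [Field E] [Algebra K E] (p : Fin 6 → K) : Fin 6 → E :=
  fun i => algebraMap K E (p i)

theorem hm6_mulVec {E : Type*} [Field E] [Algebra K E] (p g : Fin 6 → K) (w : Fin 4 → Fin 6 → K)
    (z : Fin 6 → E) : ((hm6M p g w).map (algebraMap K E)).mulVec z = z 0 • hm6i E p +
      z 1 • hm6i E g + z 2 • hm6i E (w 0) + z 3 • hm6i E (w 1) + z 4 • hm6i E (w 2) +
      z 5 • hm6i E (w 3) := by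
  funext i
  simp only [Matrix.mulVec, dotProduct, Fin.sum_univ_six, Matrix.map_apply, hm6M, hm6i,
    Pi.add_apply, Pi.smul_apply, smul_eq_mul]
  simp
  ring

theorem hm6_mulVec' (p g : Fin 6 → K) (w : Fin 4 → Fin 6 → K)
    (z : Fin 6 → K) : (hm6M p g w).mulVec z = z 0 • p + z 1 • g + z 2 • w 0 + z 3 • w 1 +
      z 4 • w 2 + z 5 • w 3 := by
  have h1 : (hm6M p g w).map (algebraMap K K) = hm6M p g w := rfl
  have h2 := hm6_mulVec (E := K) p g w z
  rw [h1] at h2
  exact h2

variable [CharZero K]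

/-- A basis. -/
theorem hm6_exists (hnd : ∀ y : Fin 6 → K, y ≠ 0 → ∃ y' : Fin 6 → K, bv G y y' ≠ 0)
    {p : Fin 6 → K} (hp : p ≠ 0) (hp0 : qv G p = 0) :
    ∃ (g : Fin 6 → K) (w : Fin 4 → Fin 6 → K), bv G p g ≠ 0 ∧ (∀ j, bv G p (w j) = 0) ∧
      (∀ i j, i ≠ j → bv G (w i) (w j) = 0) ∧ (∀ j, qv G (w j) ≠ 0) ∧
      ∃ N : Matrix (Fin 6) (Fin 6) K, hm6M p g w * N = 1 ∧ N * hm6M p g w = 1 := by
  obtain ⟨g, hg⟩ := hnd p hp
  have hpp : bv G p p = 0 := by rw [hm6_self, hp0, mul_zero]
  have hli : LinearIndependent K ![p, g] := by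
    rw [LinearIndependent.pair_iff]
    intro s t hst
    have h1 : bv G p (s • p + t • g) = 0 := by
      rw [hst]
      have h2 := bv_smul_right G (0 : K) p (0 : Fin 6 → K)
      rwa [zero_smul, zero_mul] at h2
    rw [bv_add_right, bv_smul_right, bv_smul_right, hpp, mul_zero, zero_add] at h1
    have ht : t = 0 := (mul_eq_zero.1 h1).resolve_right hg
    refine ⟨?_, ht⟩
    rw [ht, zero_smul, add_zero] at hst
    exact (smul_eq_zero.1 hst).resolve_right hp
  set U := Submodule.span K (Set.range ![p, g]) with hUdef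
  have hU : Module.finrank K U = 2 := by
    rw [hUdef, finrank_span_eq_card hli]
    rfl
  set W := (hm6B G).orthogonal U with hWdef
  have hW : Module.finrank K W = 4 := by
    rw [hWdef, LinearMap.BilinForm.finrank_orthogonal (hm6_nd hnd), hU,
      Module.finrank_fin_fun]
  have hpU : p ∈ U := Submodule.subset_span ⟨0, rfl⟩
  have hgU : g ∈ U := Submodule.subset_span ⟨1, rfl⟩
  have hWp : ∀ y ∈ W, bv G p y = 0 := fun y hy => hy p hpU
  have hWg : ∀ y ∈ W, bv G g y = 0 := fun y hy => hy g hgU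
  have hinv : Invertible (2 : K) := invertibleOfNonzero two_ne_zero
  obtain ⟨v, hv⟩ := LinearMap.BilinForm.exists_orthogonal_basis
    (B := (hm6B G).restrict W)
    (LinearMap.BilinForm.isSymm_iff.1 (hm6_symm.restrict W))
  let w' : Module.Basis (Fin 4) K W := v.reindex (finCongr hW)
  have hw' : ∀ i j, i ≠ j → bv G (w' i : Fin 6 → K) (w' j : Fin 6 → K) = 0 := by
    intro i j hij
    have h1 : (finCongr hW).symm i ≠ (finCongr hW).symm j := fun h =>
      hij ((finCongr hW).symm.injective h)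
    have h2 := hv h1
    have h3 : w' i = v ((finCongr hW).symm i) := Module.Basis.reindex_apply _ _ _
    have h4 : w' j = v ((finCongr hW).symm j) := Module.Basis.reindex_apply _ _ _
    rw [h3, h4]
    exact h2
  set w : Fin 4 → Fin 6 → K := fun j => (w' j : Fin 6 → K) with hwdef
  have hp' : ∀ j, bv G p (w j) = 0 := fun j => hWp _ (w' j).2
  have hg' : ∀ j, bv G g (w j) = 0 := fun j => hWg _ (w' j).2
  have hinj : ∀ z : Fin 6 → K, (hm6M p g w).mulVec z = 0 → z = 0 := by
    intro z hz
    rw [hm6_mulVec'] at hz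
    have h0 : ∀ x : Fin 6 → K, bv G x (0 : Fin 6 → K) = 0 := by
      intro x
      have h2 := bv_smul_right G (0 : K) x (0 : Fin 6 → K)
      rwa [zero_smul, zero_mul] at h2
    have h1 := h0 p
    rw [← hz] at h1
    simp only [bv_add_right, bv_smul_right, hpp, hp', mul_zero, add_zero, zero_add] at h1
    have z1 : z 1 = 0 := (mul_eq_zero.1 h1).resolve_right hg
    have h2 := h0 g
    rw [← hz] at h2
    simp only [bv_add_right, bv_smul_right, hg', mul_zero, add_zero, z1, zero_mul] at h2
    have z0 : z 0 = 0 := (mul_eq_zero.1 h2).resolve_right (by rwa [bv_comm])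
    rw [z0, z1, zero_smul, zero_smul, zero_add, zero_add] at hz
    have h3 : ∑ j, (![z 2, z 3, z 4, z 5] : Fin 4 → K) j • w' j = 0 := by
      apply Subtype.ext
      rw [Fin.sum_univ_four]
      exact hz
    have h4 := Fintype.linearIndependent_iff.1 w'.linearIndependent _ h3
    funext i
    fin_cases i
    · exact z0
    · exact z1
    · exact h4 0
    · exact h4 1
    · exact h4 2
    · exact h4 3
  have hdet : (hm6M p g w).det ≠ 0 := by
    intro h
    obtain ⟨z, hz, hz0⟩ := Matrix.exists_mulVec_eq_zero_iff.2 h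
    exact hz (hinj z hz0)
  have hMN := Matrix.mul_nonsing_inv (hm6M p g w) (isUnit_iff_ne_zero.2 hdet)
  have hNM := Matrix.nonsing_inv_mul (hm6M p g w) (isUnit_iff_ne_zero.2 hdet)
  refine ⟨g, w, hg, hp', hw', fun j hj => ?_, (hm6M p g w)⁻¹, hMN, hNM⟩
  have hwj : w j ≠ 0 := by
    intro h
    exact w'.ne_zero j (Subtype.ext h)
  obtain ⟨y, hy⟩ := hnd (w j) hwj
  apply hy
  have h1 : ∀ i, bv G (w j) (w i) = 0 := by
    intro i
    by_cases hij : j = i
    · rw [← hij, hm6_self, hj, mul_zero]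
    · exact hw' j i hij
  have h2 : y = (hm6M p g w).mulVec ((hm6M p g w)⁻¹.mulVec y) := by
    rw [Matrix.mulVec_mulVec, hMN, Matrix.one_mulVec]
  have h3 : bv G (w j) p = 0 := by rw [bv_comm, hp']
  have h4 : bv G (w j) g = 0 := by rw [bv_comm, hg']
  rw [h2, hm6_mulVec']
  simp only [bv_add_right, bv_smul_right, h1, h3, h4, mul_zero, add_zero]

end lin

/-- The form on `p^⊥ / p` in diagonal form, over all extensions. Proof: `G` is nondegenerate, `p` is a
zero; `g` with `bv G p g ≠ 0`; the space orthogonal to `p` and `g` has dimension `4`, the form on it is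
nondegenerate; an orthogonal basis (`LinearMap.BilinForm.exists_orthogonal_basis` or by hand), the
columns of `C`. -/
theorem perp_diag {K : Type*} [Field K] [CharZero K] (G : Matrix (Fin 6) (Fin 6) K)
    (hnd : ∀ y : Fin 6 → K, y ≠ 0 → ∃ y' : Fin 6 → K, bv G y y' ≠ 0) {p : Fin 6 → K} (hp : p ≠ 0)
    (hp0 : qv G p = 0) : ∃ (a : Fin 4 → Kˣ) (C : Matrix (Fin 6) (Fin 4) K), ∀ (E : Type*)
      [Field E] [Algebra K E],
      (∀ v : Fin 4 → E, qv G (fun i => ∑ j, algebraMap K E (C i j) * v j) =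
        ∑ j, algebraMap K E (a j) * v j ^ 2) ∧
      (∀ v : Fin 4 → E, bv G (fun i => algebraMap K E (p i))
        (fun i => ∑ j, algebraMap K E (C i j) * v j) = 0) ∧
      (∀ v : Fin 4 → E, v ≠ 0 → LinearIndependent E ![fun i => algebraMap K E (p i),
        fun i => ∑ j, algebraMap K E (C i j) * v j]) ∧
      ∀ y : Fin 6 → E, bv G (fun i => algebraMap K E (p i)) y = 0 → ∃ (c : E) (v : Fin 4 → E),
        y = (fun i => c * algebraMap K E (p i) + ∑ j, algebraMap K E (C i j) * v j) := by
  obtain ⟨g, w, hg, hpw, hww, hq, N, hMN, hNM⟩ := hm6_exists hnd hp hp0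
  refine ⟨fun j => Units.mk0 (qv G (w j)) (hq j), fun i j => w j i, fun E _ _ => ?_⟩
  have hC : ∀ v : Fin 4 → E, (fun i => ∑ j, algebraMap K E (w j i) * v j) =
      v 0 • hm6i E (w 0) + v 1 • hm6i E (w 1) + v 2 • hm6i E (w 2) + v 3 • hm6i E (w 3) := by
    intro v
    funext i
    simp only [Fin.sum_univ_four, hm6i, Pi.add_apply, Pi.smul_apply, smul_eq_mul]
    ring
  have hb : ∀ x y : Fin 6 → K, bv G (hm6i E x) (hm6i E y) = algebraMap K E (bv G x y) :=
    fun x y => bv_map G x y
  have hqv : ∀ x : Fin 6 → K, qv G (hm6i E x) = algebraMap K E (qv G x) :=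
    fun x => qv_map G x
  have hp2 : ∀ v : Fin 4 → E, bv G (hm6i E p)
      (v 0 • hm6i E (w 0) + v 1 • hm6i E (w 1) + v 2 • hm6i E (w 2) + v 3 • hm6i E (w 3)) = 0 := by
    intro v
    simp only [bv_add_right, bv_smul_right, hb, hpw, map_zero, mul_zero, add_zero]
  have hME : (hm6M p g w).map (algebraMap K E) * N.map (algebraMap K E) = 1 := by
    rw [← Matrix.map_mul, hMN, Matrix.map_one _ (map_zero _) (map_one _)]
  have hNE : N.map (algebraMap K E) * (hm6M p g w).map (algebraMap K E) = 1 := by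
    rw [← Matrix.map_mul, hNM, Matrix.map_one _ (map_zero _) (map_one _)]
  refine ⟨fun v => ?_, fun v => ?_, fun v hv => ?_, fun y hy => ?_⟩
  · show qv G (fun i => ∑ j, algebraMap K E (w j i) * v j) = _
    rw [hC]
    have h01 := hww 0 1 (by decide)
    have h02 := hww 0 2 (by decide)
    have h03 := hww 0 3 (by decide)
    have h12 := hww 1 2 (by decide)
    have h13 := hww 1 3 (by decide)
    have h23 := hww 2 3 (by decide)
    simp only [qv_add, bv_add, bv_smul, bv_smul_right, qv_smul, hb, hqv, h01, h02, h03, h12, h13,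
      h23, map_zero, mul_zero, add_zero, Fin.sum_univ_four, Units.val_mk0]
    ring
  · show bv G (hm6i E p) (fun i => ∑ j, algebraMap K E (w j i) * v j) = 0
    rw [hC]
    exact hp2 v
  · show LinearIndependent E ![hm6i E p, fun i => ∑ j, algebraMap K E (w j i) * v j]
    rw [hC, LinearIndependent.pair_iff]
    intro s t hst
    have h1 : ((hm6M p g w).map (algebraMap K E)).mulVec
        ![s, 0, t * v 0, t * v 1, t * v 2, t * v 3] = 0 := by
      rw [hm6_mulVec]
      rw [← hst]
      funext i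
      simp
      ring
    have h2 : (![s, 0, t * v 0, t * v 1, t * v 2, t * v 3] : Fin 6 → E) = 0 := by
      have h3 := congrArg (N.map (algebraMap K E)).mulVec h1
      rwa [Matrix.mulVec_mulVec, hNE, Matrix.one_mulVec, Matrix.mulVec_zero] at h3
    refine ⟨congrFun h2 0, ?_⟩
    by_contra ht
    apply hv
    have h3 : t * v 0 = 0 := congrFun h2 2
    have h4 : t * v 1 = 0 := congrFun h2 3
    have h5 : t * v 2 = 0 := congrFun h2 4
    have h6 : t * v 3 = 0 := congrFun h2 5
    funext i
    fin_cases i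
    · exact (mul_eq_zero.1 h3).resolve_left ht
    · exact (mul_eq_zero.1 h4).resolve_left ht
    · exact (mul_eq_zero.1 h5).resolve_left ht
    · exact (mul_eq_zero.1 h6).resolve_left ht
  · set z := (N.map (algebraMap K E)).mulVec y with hz
    have h1 : y = ((hm6M p g w).map (algebraMap K E)).mulVec z := by
      rw [hz, Matrix.mulVec_mulVec, hME, Matrix.one_mulVec]
    rw [hm6_mulVec] at h1
    have hpp : bv G p p = 0 := by rw [hm6_self, hp0, mul_zero]
    have h2 : bv G (hm6i E p) y = 0 := hy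
    rw [h1] at h2
    simp only [bv_add_right, bv_smul_right, hb, hpw, hpp, map_zero, mul_zero, add_zero,
      zero_add] at h2
    have h3 : z 1 = 0 := by
      refine (mul_eq_zero.1 h2).resolve_right fun h6 => hg ?_
      exact (map_eq_zero (algebraMap K E)).1 h6
    refine ⟨z 0, ![z 2, z 3, z 4, z 5], ?_⟩
    have h4 := hC ![z 2, z 3, z 4, z 5]
    funext i
    have h5 := congrFun h4 i
    show y i = z 0 * algebraMap K E (p i) + ∑ j, algebraMap K E (w j i) * _
    rw [h5, h1, h3]
    simp [hm6i]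
    ring

/-- A totally isotropic plane over `E` gives a zero of the diagonal form over `E`. Proof: let `W` be the
plane and `P` the image of `p`; there is `y ∈ W` orthogonal to `P` and not a multiple of `P` (if
`P ∈ W` another vector of `W`; otherwise a nonzero vector of `W` orthogonal to `P`);
`y = c P + C v`, `v ≠ 0`, and `qv G y = ∑ a j v j ^ 2` (`bv G P (C v) = 0`, `qv G P = 0`). -/
theorem zero_of_ti2 {K : Type*} [Field K] [CharZero K] {G : Matrix (Fin 6) (Fin 6) K}
    {p : Fin 6 → K} (hp : p ≠ 0) (hp0 : qv G p = 0) {a : Fin 4 → Kˣ}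
    {C : Matrix (Fin 6) (Fin 4) K} {E : Type*} [Field E] [Algebra K E]
    (h1 : ∀ v : Fin 4 → E, qv G (fun i => ∑ j, algebraMap K E (C i j) * v j) =
        ∑ j, algebraMap K E (a j) * v j ^ 2)
    (h2 : ∀ v : Fin 4 → E, bv G (fun i => algebraMap K E (p i))
        (fun i => ∑ j, algebraMap K E (C i j) * v j) = 0)
    (h3 : ∀ y : Fin 6 → E, bv G (fun i => algebraMap K E (p i)) y = 0 →
      ∃ (c : E) (v : Fin 4 → E),
        y = (fun i => c * algebraMap K E (p i) + ∑ j, algebraMap K E (C i j) * v j))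
    (h : TI2 (G.map (algebraMap K E))) :
    ∃ v : Fin 4 → E, v ≠ 0 ∧ ∑ j, algebraMap K E (a j) * v j ^ 2 = 0 := by
  obtain ⟨s, x, hli, hs, hx, hsx⟩ := h
  have hqG : ∀ y : Fin 6 → E, qv (G.map (algebraMap K E)) y = qv G y := fun y => rfl
  have hbG : ∀ y z : Fin 6 → E, bv (G.map (algebraMap K E)) y z = bv G y z := fun y z => rfl
  rw [hqG] at hs hx
  rw [hbG] at hsx
  set P : Fin 6 → E := fun i => algebraMap K E (p i) with hP
  have hPP : qv G P = 0 := by
    have h4 : qv G P = algebraMap K E (qv G p) := qv_map G p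
    rw [h4, hp0, map_zero]
  have hP0 : P ≠ 0 := by
    intro h4
    apply hp
    funext i
    have h5 := congrFun h4 i
    exact (map_eq_zero (algebraMap K E)).1 h5
  rw [LinearIndependent.pair_iff] at hli
  -- a vector of the plane orthogonal to `P`, not a multiple of `P`
  have hy : ∃ y : Fin 6 → E, qv G y = 0 ∧ bv G P y = 0 ∧ ∀ c : E, y ≠ c • P := by
    by_cases h4 : bv G P s = 0 ∧ bv G P x = 0
    · by_cases h5 : ∃ c : E, s = c • P
      · obtain ⟨c, hc⟩ := h5
        have hc0 : c ≠ 0 := by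
          rintro rfl
          rw [zero_smul] at hc
          have h6 := hli 1 0 (by rw [hc, smul_zero, zero_smul, add_zero])
          exact one_ne_zero h6.1
        refine ⟨x, hx, h4.2, fun d hd => ?_⟩
        have h6 := hli d (-c) (by rw [hc, hd]; module)
        exact hc0 (neg_eq_zero.1 h6.2)
      · push Not at h5
        exact ⟨s, hs, h4.1, h5⟩
    · refine ⟨bv G P x • s + (-bv G P s) • x, ?_, ?_, fun c hc => ?_⟩
      · rw [qv_add, qv_smul, qv_smul, bv_smul, bv_smul_right, hs, hx, hsx]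
        ring
      · rw [bv_add_right, bv_smul_right, bv_smul_right]
        ring
      · by_cases hc0 : c = 0
        · rw [hc0, zero_smul] at hc
          have h6 := hli _ _ hc
          exact h4 ⟨neg_eq_zero.1 h6.2, h6.1⟩
        · apply h4
          have h6 : ∀ y : Fin 6 → E, bv G s y = 0 → bv G x y = 0 → bv G P y = 0 := by
            intro y hy1 hy2
            have h7 : c * bv G P y = 0 := by
              rw [← bv_smul, ← hc, bv_add, bv_smul, bv_smul, hy1, hy2]
              ring
            exact (mul_eq_zero.1 h7).resolve_left hc0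
          have hss : bv G s s = 0 := by rw [hm6_self, hs, mul_zero]
          have hxx : bv G x x = 0 := by rw [hm6_self, hx, mul_zero]
          have hxs : bv G x s = 0 := by rw [bv_comm, hsx]
          exact ⟨h6 s hss hxs, h6 x hsx hxx⟩
  obtain ⟨y, hy1, hy2, hy3⟩ := hy
  obtain ⟨c, v, hcv⟩ := h3 y hy2
  have h4 : y = c • P + (fun i => ∑ j, algebraMap K E (C i j) * v j) := hcv
  refine ⟨v, ?_, ?_⟩
  · rintro rfl
    apply hy3 c
    rw [h4]
    funext i
    simp
  · rw [← h1 v]
    rw [h4, qv_add, qv_smul, bv_smul, h2 v, hPP] at hy1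
    rw [mul_zero, mul_zero, zero_add, zero_add] at hy1
    exact hy1

end Dp
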