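import Pool.Agent.Lib.MP_f80667_ag.Dp.SpN
import Pool.Agent.Lib.MP_f80667_ag.Fa.Dfs
import Pool.Agent.Lib.MP_f80667_ag.LF.Adic
import Pool.Agent.Lib.MP_f80667_ag.LF.GoodN
import Pool.Agent.Lib.MP_f80667_ag.Hm.Loc
import Pool.Agent.Lib.MP_f80667_ag.Hm.U4

/-! The algebraic closures of the completions at the finite places. -/

open NumberField IsDedekindDomain
open scoped WithZero

namespace Dp

open ZC

variable (F : Type) [Field F] [NumberField F]

/-- The absolute value on the algebraic closure of the completion at a finite place, and its relation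
to the valuation of `F`. -/
structure NuP (v : HeightOneSpectrum (𝓞 F)) (ν : AbsoluteValue (AlgebraicClosure (FK F v)) ℝ) :
    Prop where
  lc : LcV (FK F v) (AlgebraicClosure (FK F v)) ν
  small : ∀ ε : ℝ, 0 < ε → ∃ g : ℤᵐ⁰, g ≠ 0 ∧ ∀ x : F, v.valuation F x < g →
    ν (algebraMap (FK F v) _ (algebraMap F (FK F v) x)) < ε
  dense : ∀ (x : FK F v) (ε : ℝ), 0 < ε → ∃ y : F,
    ν (algebraMap (FK F v) _ (algebraMap F (FK F v) y - x)) < ε

/-- Proof: `ν` is the spectral norm of the algebraic closure of `v.adicCompletion F` (a complete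
nonarchimedean field; see `LF/GoodN.lean`, `LF/Basic.lean` for the instances). `inv`:
`spectralNorm` is invariant under automorphisms (same minimal polynomial). `sqrt`: `x` is in a finite
extension `K₀ = k⟮x⟯ ≤ K` of `k`, whose ring of integers `LF.O k K₀` is complete, so by Hensel
(`Hm.exists_sq_of_mem`, `1 + 4 a` is a square for `a` in the maximal ideal; the square root `y` is
`1 + 2 b`, and `(y - 1) (y + 1) = x - 1`: one of `± y` is near `1`, if `‖y - 1‖ ≥ ε` and
`‖y + 1‖ ≥ ε` then `‖x - 1‖ ≥ ε ^ 2`). `small`, `dense`: the norm on the completion extends the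
valuation, `Hm.exists_nearC`. -/
theorem exists_nuP (v : HeightOneSpectrum (𝓞 F)) :
    ∃ ν : AbsoluteValue (AlgebraicClosure (FK F v)) ℝ, NuP F v ν := by
  have hf : Finite ((𝓞 F) ⧸ v.asIdeal) := Pool.Agent.Lib.MP_f80667_ag.LF.finite_quot F v
  let i1 : NontriviallyNormedField (v.adicCompletion F) :=
    Valued.toNontriviallyNormedField (v.adicCompletion F) (WithZero (Multiplicative ℤ))
  have h1 : @ProperSpace (v.adicCompletion F) i1.toNormedField.toMetricSpace.toPseudoMetricSpace := by
    refine Valued.integer.properSpace_iff_completeSpace_and_isDiscreteValuationRing_integer_and_finite_residueField.mpr ?_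
    exact ⟨inferInstance, (inferInstance : IsDiscreteValuationRing (v.adicCompletionIntegers F)),
      Pool.Agent.Lib.MP_f80667_ag.LF.finite_residueField F v⟩
  have h2 : IsUltrametricDist (v.adicCompletion F) := inferInstance
  have hlt : ∀ x y : v.adicCompletion F, Valued.v x < Valued.v y → ‖x‖ < ‖y‖ :=
    fun x y h => Valued.toNormedField.norm_lt_iff.2 h
  let ν : AbsoluteValue (AlgebraicClosure (v.adicCompletion F)) ℝ :=
    spAV (v.adicCompletion F) (AlgebraicClosure (v.adicCompletion F))
  have hν : ∀ x : v.adicCompletion F,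
      ν (algebraMap (v.adicCompletion F) (AlgebraicClosure (v.adicCompletion F)) x) = ‖x‖ :=
    spAV_algebraMap (v.adicCompletion F) (AlgebraicClosure (v.adicCompletion F))
  have hlc : LcV (v.adicCompletion F) (AlgebraicClosure (v.adicCompletion F)) ν :=
    lcV_spAV (v.adicCompletion F) (AlgebraicClosure (v.adicCompletion F))
  have hsm : ∀ ε : ℝ, 0 < ε → ∃ t : v.adicCompletion F, t ≠ 0 ∧ ‖t‖ < ε := by
    intro ε hε
    obtain ⟨x, hx0, hx⟩ := NormedField.exists_norm_lt (v.adicCompletion F) hε
    exact ⟨x, norm_pos_iff.1 hx0, hx⟩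
  refine ⟨ν, ⟨hlc, ?_, ?_⟩⟩
  · intro ε hε
    obtain ⟨t, ht0, ht⟩ := hsm ε hε
    refine ⟨Valued.v t, by rwa [Ne, map_eq_zero], fun x hx => ?_⟩
    have h3 : Valued.v (algebraMap F (v.adicCompletion F) x) < Valued.v t := by
      rw [Hm.valC]
      exact hx
    have h4 := (hν (algebraMap F (v.adicCompletion F) x)).trans_lt ((hlt _ _ h3).trans ht)
    exact h4
  · intro x ε hε
    obtain ⟨t, ht0, ht⟩ := hsm ε hε
    obtain ⟨y, hy⟩ := Hm.exists_nearC v ht0 x
    have h4 := (hν (algebraMap F (v.adicCompletion F) y - (show v.adicCompletion F from x))).trans_lt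
      ((hlt _ _ hy).trans ht)
    exact ⟨y, h4⟩

theorem qv_eq_dot {K : Type*} [Field K] {n : ℕ} (G : Matrix (Fin n) (Fin n) K) (x : Fin n → K) :
    qv G x = dotProduct x (G.mulVec x) := by
  simp only [qv, dotProduct, Matrix.mulVec, Finset.mul_sum]
  refine Finset.sum_congr rfl fun i _ => Finset.sum_congr rfl fun j _ => ?_
  change G i j * (x i * x j) = x i * (G i j * x j)
  ring

/-- Isotropy of forms in five variables and nonsquares. Proof: `Hm.iso_locM`; a nonsquare: an element of
`F` of odd valuation. -/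
theorem iso_FK (v : HeightOneSpectrum (𝓞 F)) :
    (∀ G : Matrix (Fin 5) (Fin 5) (FK F v), ∃ x : Fin 5 → FK F v, x ≠ 0 ∧ qv G x = 0) ∧
      ∃ c : FK F v, ¬ IsSquare c := by
  constructor
  · intro G
    have key : ∃ x : Fin 5 → FK F v, x ≠ 0 ∧ dotProduct x (G.mulVec x) = 0 :=
      Hm.iso_locM v (by norm_num : 4 < 5) G
    obtain ⟨x, hx, h0⟩ := key
    exact ⟨x, hx, (qv_eq_dot G x).trans h0⟩
  · obtain ⟨π, hπ⟩ := v.valuation_exists_uniformizer F
    have key : ¬ IsSquare (algebraMap F (v.adicCompletion F) π) := ?_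
    · exact ⟨algebraMap F (v.adicCompletion F) π, key⟩
    rintro ⟨s, hs⟩
    have h1 : (Valued.v s) * (Valued.v s) = WithZero.exp (-1 : ℤ) := by
      rw [← map_mul, ← hπ, ← Hm.valC]
      exact congrArg Valued.v hs.symm
    have h0 : (Valued.v s) ≠ 0 := by
      intro h
      rw [h, zero_mul] at h1
      exact WithZero.exp_ne_zero h1.symm
    have h2 := congrArg WithZero.log h1
    rw [WithZero.log_mul h0 h0, WithZero.log_exp] at h2
    omega

end Dp
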