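import Pool.Agent.Lib.MP_f80667_ag.Dp.Nu
import Pool.Agent.Lib.MP_f80667_ag.Fa.Dfs

/-! The algebraic closures of the completions at the real places. -/

open NumberField

namespace Dp

open ZC

variable (F : Type) [Field F]

/-- The absolute value on the algebraic closure of the completion at a real place. -/
structure NuR (v : InfinitePlace F) (ν : AbsoluteValue (AlgebraicClosure (IK F v)) ℝ) : Prop where
  lc : LcV (IK F v) (AlgebraicClosure (IK F v)) ν
  real : ∃ e : IK F v ≃+* ℝ, ∀ y : IK F v, ν (algebraMap (IK F v) _ y) = |e y|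

/-- A complex number near `1` has a square root with positive real part. -/
theorem insr_sqrt {z : ℂ} (hz : ‖z - 1‖ < 1) : ∃ w : ℂ, w ^ 2 = z ∧ 0 < w.re := by
  obtain ⟨w, hw⟩ := IsAlgClosed.exists_pow_nat_eq z (n := 2) (by norm_num)
  rcases lt_trichotomy w.re 0 with h | h | h
  · exact ⟨-w, by rw [neg_sq, hw], by simpa using h⟩
  · exfalso
    have h1 : z = ((-(w.im ^ 2) : ℝ) : ℂ) := by
      rw [← hw]
      apply Complex.ext
      · simp [pow_two, h]
      · simp [pow_two, h]
    have h2 : z - 1 = ((-(w.im ^ 2) - 1 : ℝ) : ℂ) := by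
      rw [h1]
      push_cast
      ring
    rw [h2, Complex.norm_real, Real.norm_eq_abs, abs_lt] at hz
    nlinarith [sq_nonneg w.im, hz.1]
  · exact ⟨w, hw, h⟩

/-- The absolute value given by an isomorphism with `ℂ`. -/
noncomputable def insrNu {Ω : Type} [Field Ω] (E : Ω ≃+* ℂ) : AbsoluteValue Ω ℝ where
  toFun x := ‖E x‖
  map_mul' x y := by rw [map_mul, norm_mul]
  nonneg' x := norm_nonneg _
  eq_zero' x := by rw [norm_eq_zero, map_eq_zero_iff E E.injective]
  add_le' x y := by rw [map_add]; exact norm_add_le _ _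

theorem insrNu_apply {Ω : Type} [Field Ω] (E : Ω ≃+* ℂ) (x : Ω) : insrNu E x = ‖E x‖ := rfl

section
variable {k Ω : Type} [Field k] [Field Ω] [Algebra k Ω] (e : k ≃+* ℝ) (E : Ω ≃+* ℂ)
  (h : ∀ y, E (algebraMap k Ω y) = ((e y : ℝ) : ℂ))

include h

theorem insr_symm (r : ℝ) : E.symm (r : ℂ) = algebraMap k Ω (e.symm r) := by
  rw [RingEquiv.symm_apply_eq, h, e.apply_symm_apply]

theorem insr_inv (σ : Ω ≃ₐ[k] Ω) (x : Ω) : ‖E (σ x)‖ = ‖E x‖ := by
  let g : ℂ →ₐ[ℝ] ℂ :=
    { toRingHom := ((E : Ω →+* ℂ).comp (σ : Ω →+* Ω)).comp (E.symm : ℂ →+* Ω)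
      commutes' := fun r => by
        show E (σ (E.symm (algebraMap ℝ ℂ r))) = algebraMap ℝ ℂ r
        rw [Complex.coe_algebraMap, insr_symm e E h, AlgEquiv.commutes, h, e.apply_symm_apply] }
  have hg : ∀ z, g z = E (σ (E.symm z)) := fun z => rfl
  have h1 : E (σ x) = g (E x) := by rw [hg, E.symm_apply_apply]
  rw [h1]
  rcases Complex.real_algHom_eq_id_or_conj g with h2 | h2
  · rw [h2]
    rfl
  · rw [h2]
    exact Complex.norm_conj _

theorem insr_lcv : LcV k Ω (insrNu E) where
  inv σ x := by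
    rw [insrNu_apply, insrNu_apply]
    exact insr_inv e E h σ x
  small ε hε := by
    refine ⟨e.symm (ε / 2), ?_, ?_⟩
    · rw [Ne, map_eq_zero_iff e.symm e.symm.injective]
      linarith
    · rw [insrNu_apply, h, e.apply_symm_apply, Complex.norm_real, Real.norm_eq_abs,
        abs_of_pos (by linarith)]
      linarith
  sqrt ε hε := by
    refine ⟨min ε 1, by positivity, fun K x hx hd => ?_⟩
    rw [insrNu_apply, map_sub, map_one] at hd
    obtain ⟨w, hw, hre⟩ := insr_sqrt (lt_of_lt_of_le hd (min_le_right _ _))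
    have hy : E ((x + algebraMap k Ω (e.symm (Complex.normSq w))) *
        algebraMap k Ω (e.symm (2 * w.re)⁻¹)) = w := by
      rw [map_mul, map_add, h, h, e.apply_symm_apply, e.apply_symm_apply, ← hw]
      have h1 : (w : ℂ) ^ 2 + (Complex.normSq w : ℂ) = w * (2 * w.re : ℝ) := by
        rw [← Complex.mul_conj, pow_two, ← mul_add, Complex.add_conj]
      have h2 : ((2 * w.re : ℝ) : ℂ) ≠ 0 := by
        rw [Ne, Complex.ofReal_eq_zero]
        positivity
      rw [h1, Complex.ofReal_inv, mul_assoc, mul_inv_cancel₀ h2, mul_one]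
    refine ⟨(x + algebraMap k Ω (e.symm (Complex.normSq w))) *
      algebraMap k Ω (e.symm (2 * w.re)⁻¹),
      K.mul_mem (K.add_mem hx (K.algebraMap_mem _)) (K.algebraMap_mem _), ?_, ?_⟩
    · apply E.injective
      rw [map_pow, hy, hw]
    · rw [insrNu_apply, map_sub, map_one, hy]
      have h3 : (w - 1) * (w + 1) = E x - 1 := by rw [← hw]; ring
      have h4 : 1 ≤ ‖w + 1‖ := by
        have h5 := Complex.re_le_norm (w + 1)
        rw [Complex.add_re, Complex.one_re] at h5
        linarith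
      have h6 : ‖w - 1‖ * ‖w + 1‖ = ‖E x - 1‖ := by rw [← norm_mul, h3]
      have h7 : ‖w - 1‖ ≤ ‖E x - 1‖ := by
        rw [← h6]
        exact le_mul_of_one_le_right (norm_nonneg _) h4
      exact lt_of_le_of_lt h7 (lt_of_lt_of_le hd (min_le_left _ _))

end

/-- The completion at a real place is `ℝ`. -/
noncomputable def insrE (v : InfinitePlace F) (hv : v.IsReal) : IK F v ≃+* ℝ :=
  (InfinitePlace.Completion.ringEquivRealOfIsReal hv : v.Completion ≃+* ℝ)

theorem insr_exists (v : InfinitePlace F) (hv : v.IsReal) :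
    ∃ E : AlgebraicClosure (IK F v) ≃+* ℂ,
      ∀ y, E (algebraMap (IK F v) _ y) = ((insrE F v hv y : ℝ) : ℂ) := by
  have : Algebra.IsAlgebraic ℝ ℂ := Algebra.IsAlgebraic.of_finite ℝ ℂ
  have : IsAlgClosure ℝ ℂ := ⟨inferInstance, inferInstance⟩
  exact ⟨IsAlgClosure.equivOfEquiv _ ℂ (insrE F v hv), fun y =>
    IsAlgClosure.equivOfEquiv_algebraMap _ ℂ (insrE F v hv) y⟩

/-- Proof: `IK F v ≃+* ℝ` (`InfinitePlace.Completion.ringEquivRealOfIsReal`), which extends to
`AlgebraicClosure (IK F v) ≃+* ℂ` (both are algebraic closures, `IsAlgClosure.equivOfEquiv` or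
`IsAlgClosure.equiv`); `ν x = ‖x‖` for the image in `ℂ`. Automorphisms over `ℝ` are the identity and the
conjugation (`Complex.real_algHom_eq_id_or_conj` or: `‖s x‖² = s x * conj (s x)` is
`x * conj x` for both). Intermediate fields of `ℂ / ℝ` are `ℝ` and `ℂ`: a real number near `1` is
positive and has the square root `√x`; a complex number near `1` has a square root near `1`
(continuity of `z ↦ z ^ (1/2)` at `1`, or: for any square root `y`, `(y - 1) (y + 1) = x - 1`). -/
theorem exists_nuR (v : InfinitePlace F) (hv : v.IsReal) :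
    ∃ ν : AbsoluteValue (AlgebraicClosure (IK F v)) ℝ, NuR F v ν := by
  obtain ⟨E, hE⟩ := insr_exists F v hv
  exact ⟨insrNu E, insr_lcv (insrE F v hv) E hE, insrE F v hv, fun y => by
    rw [insrNu_apply, hE, Complex.norm_real, Real.norm_eq_abs]⟩

/-- The algebraic closure has degree two. Proof: as above (`ℂ` over `ℝ`). -/
theorem finrank_IK (v : InfinitePlace F) (hv : v.IsReal) :
    Module.finrank (IK F v) (AlgebraicClosure (IK F v)) = 2 := by
  obtain ⟨E, hE⟩ := insr_exists F v hv
  rw [Algebra.finrank_eq_of_equiv_equiv (insrE F v hv) E (RingHom.ext fun y => (hE y).symm),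
    Complex.finrank_real_complex]

end Dp
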