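import Pool.Agent.Lib.MP_f80667_ag.Dp.L1A

/-! All lines on a member of the pencil give the same class. -/

open scoped LinearAlgebra.Projectivization

namespace Dp

open ZC Tq

universe u


section aux

variable {K : Type*} [Field K] {V : Type*} [AddCommGroup V] [Module K V]

/-- A functional which is not a multiple of another one is not zero on its kernel. -/
theorem exists_ker_ne (φ ψ : V →ₗ[K] K) (h : ∀ c : K, ∃ y, ψ y ≠ c * φ y) :
    ∃ g, φ g = 0 ∧ ψ g ≠ 0 := by
  by_contra hcon
  push Not at hcon
  by_cases hφ : ∀ v, φ v = 0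
  · obtain ⟨y, hy⟩ := h 0
    exact hy (by rw [hcon y (hφ y), zero_mul])
  · push Not at hφ
    obtain ⟨v, hv⟩ := hφ
    obtain ⟨y, hy⟩ := h (ψ v / φ v)
    apply hy
    have h1 := hcon (y - (φ y / φ v) • v) (by
      rw [map_sub, map_smul, smul_eq_mul]
      field_simp
      ring)
    rw [map_sub, map_smul, smul_eq_mul, sub_eq_zero] at h1
    rw [h1]
    field_simp

/-- Two functionals which are not multiples of a third one. -/
theorem exists_ker_ne_two (φ ψ χ : V →ₗ[K] K) (h : ∀ c : K, ∃ y, ψ y ≠ c * φ y)
    (h' : ∀ c : K, ∃ y, χ y ≠ c * φ y) : ∃ g, φ g = 0 ∧ ψ g ≠ 0 ∧ χ g ≠ 0 := by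
  obtain ⟨g, hg, hg'⟩ := exists_ker_ne φ ψ h
  obtain ⟨e, he, he'⟩ := exists_ker_ne φ χ h'
  by_cases h1 : χ g = 0
  · by_cases h2 : ψ e = 0
    · refine ⟨g + e, ?_, ?_, ?_⟩
      · rw [map_add, hg, he, add_zero]
      · rw [map_add, h2, add_zero]
        exact hg'
      · rw [map_add, h1, zero_add]
        exact he'
    · exact ⟨e, he, h2, he'⟩
  · exact ⟨g, hg, hg', h1⟩

end aux

variable {k : Type u} [Field k] [CharZero k] {Ω : Type u} [Field Ω] [Algebra k Ω] [IsAlgClosed Ω]
  {n : ℕ} {A B : Matrix (Fin n) (Fin n) k} {M : Type u} [Field M] [Algebra k M]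
  [FiniteDimensional k M]

/-- **All lines on a member give the same class.** Proof. Let `m` be the `2 × 2` matrix of the pairing
of the two lines. If `det m ≠ 0`: `join_nd`. If `m = 0`: `join_line` with `Lm.exists_np`. If `m` has
rank `1`: let `a₀` be the vector of the first line orthogonal to the second line and `b₀` the vector of
the second line orthogonal to the first one. If `a₀` is not on `X`: `join_line` with the basis
`(a₀, *)` of the first line and a basis `(p', *)` of the second line, `p'` not on `X`. Similarly for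
`b₀`. Let `a₀`, `b₀` be on `X`. Then the first line contains no vector of the radical of the member
(such a vector would be `a₀` up to a factor; but a point of `X` is not in the radical: smoothness).
Let `p` be a vector of the first line, not on `X`, not a multiple of `a₀`, and such that `b₀` is not
in the span of `p` and the radical (`Lm.exists_avoid`; the radical is `0` or a line by `Tq.rad_le`; if
`b₀ = c p + r`, `b₀ = c' p₂ + r'` for two independent such `p`, `p₂`, then `c p - c' p₂` is in the
radical and in the first line, so `c = c' = 0` and `b₀` is in the radical, impossible: so at most one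
direction is excluded), `x` another vector of the first line. Then `x` is not in the span of `p` and
the radical, so there is `g` with `mB p g = 0`, `mB x g ≠ 0`, `mB b₀ g ≠ 0` (two functionals which do
not vanish on the orthogonal space of `p`, i.e. are not multiples of `mB p`). Put
`y = g - (mQ g / mB x g) x`. Then `mQ y = 0`, `mB p y = 0`, `mB b₀ y ≠ 0`, so `p`, `y` span a line of
the member through `p`, with the same class as the first line by `Tq.one` (`p` is not on `X`); its
pairing with the second line in the bases `(p, y)`, `(b₀, b₁)` is `(0, ≠ 0; ≠ 0, *)`: `join_nd`.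
(`M` is infinite. `σ : M →ₐ[k] Ω` for `Tq.rad_le` exists: `IsAlgClosed.lift`.) -/
theorem mem_line (hs : Sm Ω A B) (hn : 5 ≤ n) {a b : M} (hab : a ≠ 0 ∨ b ≠ 0)
    {t t' : ℙ M (Fin (n * n) → M)} (h : IsM A B a b t) (h' : IsM A B a b t') :
    PhL (trPt k Ω t) - PhL (trPt k Ω t') ∈ ratEq Ω (Pl A B) := by
  haveI : CharZero M := charZero_of_injective_algebraMap (algebraMap k M).injective
  obtain ⟨p₀, x₀, h₀⟩ := h
  obtain ⟨p, x, hl, hp, hx⟩ := h₀.exists_np
  obtain ⟨p₀', x₀', h₀'⟩ := h'
  obtain ⟨p', x', hl', hp', hx'⟩ := h₀'.exists_np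
  clear h₀ h₀' p₀ x₀ p₀' x₀'
  -- the two lines in the other order
  have swap : ∀ {q y : Fin n → M} {s : ℙ M (Fin (n * n) → M)}, Lm A B a b q y s →
      Lm A B a b y q s := by
    intro q y s hs
    have h1 := hs.lin (α := 0) (β := 1) (γ := 1) (δ := 0) (by norm_num)
    rwa [zero_smul, zero_add, one_smul, one_smul, zero_smul, add_zero] at h1
  by_cases hd : mB A B a b p p' * mB A B a b x x' - mB A B a b p x' * mB A B a b x p' = 0
  swap
  · exact join_nd hn hab hl hl' hd
  by_cases h00 : mB A B a b p p' = 0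
  · exact join_line hn hab hl hl' hp hp' h00
  by_cases h01 : mB A B a b p x' = 0
  · exact join_line hn hab hl (swap hl') hp hx' h01
  by_cases h10 : mB A B a b x p' = 0
  · exact join_line hn hab (swap hl) hl' hx hp' h10
  -- the vector of the first line orthogonal to the second line
  obtain ⟨u, hu⟩ : ∃ u : Fin n → M, u = mB A B a b x p' • p + (-mB A B a b p p') • x := ⟨_, rfl⟩
  obtain ⟨w, hw⟩ : ∃ w : Fin n → M, w = mB A B a b p x' • p' + (-mB A B a b p p') • x' := ⟨_, rfl⟩
  have hum : ∀ y, mB A B a b u y = mB A B a b x p' * mB A B a b p y -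
      mB A B a b p p' * mB A B a b x y := by
    intro y
    rw [hu, mB_add, mB_smul, mB_smul]
    ring
  have hwm : ∀ y, mB A B a b w y = mB A B a b p x' * mB A B a b p' y -
      mB A B a b p p' * mB A B a b x' y := by
    intro y
    rw [hw, mB_add, mB_smul, mB_smul]
    ring
  have hup' : mB A B a b u p' = 0 := by
    rw [hum]
    ring
  have hux' : mB A B a b u x' = 0 := by
    rw [hum]
    linear_combination -hd
  have hwp : mB A B a b w p = 0 := by
    rw [hwm, mB_comm a b p' p, mB_comm a b x' p]
    ring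
  have hwx : mB A B a b w x = 0 := by
    rw [hwm, mB_comm a b p' x, mB_comm a b x' x]
    linear_combination -hd
  have hlu : Lm A B a b u x t := by
    have h1 := hl.lin (α := mB A B a b x p') (β := -mB A B a b p p') (γ := 0) (δ := 1)
      (by simpa using h10)
    rwa [← hu, zero_smul, zero_add, one_smul] at h1
  have hlw : Lm A B a b w p' t' := by
    have h1 := hl'.lin (α := mB A B a b p x') (β := -mB A B a b p p') (γ := 1) (δ := 0)
      (by simpa using h00)
    rwa [← hw, zero_smul, add_zero, one_smul] at h1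
  by_cases hzu : Zer (Pl A B) M u
  swap
  · exact join_line hn hab hlu hl' hzu hp' hup'
  by_cases hzw : Zer (Pl A B) M w
  swap
  · exact join_line hn hab hl hlw hp hzw (by rw [mB_comm, hwp])
  -- points of X are not in the radical
  have halg : Algebra.IsAlgebraic k M := inferInstance
  obtain ⟨σ, -⟩ : ∃ σ : M →ₐ[k] Ω, True := ⟨IsAlgClosed.lift, trivial⟩
  have nrad : ∀ v : Fin n → M, v ≠ 0 → Zer (Pl A B) M v → ¬ ∀ y, mB A B a b v y = 0 := by
    intro v hv hz hr
    rw [zer_iff] at hz
    have h1 := rad_ext σ hr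
    have h2 : (fun i => σ (v i)) ≠ 0 := by
      intro h3
      apply hv
      funext i
      have h4 : σ (v i) = 0 := congrFun h3 i
      exact (map_eq_zero σ).1 h4
    have h3 := hs _ h2 (by rw [qv_hom, hz.1, map_zero]) (by rw [qv_hom, hz.2, map_zero]) _ _ h1
    rcases hab with h4 | h4
    · exact h4 ((map_eq_zero σ).1 h3.1)
    · exact h4 ((map_eq_zero σ).1 h3.2)
  have hu0 : u ≠ 0 := hlu.ind.ne_zero 0
  have hw0 : w ≠ 0 := hlw.ind.ne_zero 0
  have hru := nrad u hu0 hzu
  have hrw := nrad w hw0 hzw
  -- the first line contains no vector of the radical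
  have hrl : ∀ α β : M, (∀ y, mB A B a b (α • p + β • x) y = 0) → α = 0 ∧ β = 0 := by
    intro α β hr
    by_contra hne
    have h1 : α * mB A B a b p p' + β * mB A B a b x p' = 0 := by
      have := hr p'
      rwa [mB_add, mB_smul, mB_smul] at this
    have hβ : β ≠ 0 := by
      rintro rfl
      rw [zero_mul, add_zero] at h1
      exact hne ⟨(mul_eq_zero.1 h1).resolve_right h00, rfl⟩
    apply hru
    intro y
    have h2 := hr y
    rw [mB_add, mB_smul, mB_smul] at h2
    have h3 : β * mB A B a b u y = 0 := by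
      rw [hum]
      linear_combination mB A B a b p y * h1 - mB A B a b p p' * h2
    exact (mul_eq_zero.1 h3).resolve_left hβ
  -- the bad direction
  obtain ⟨c, hc, hbad⟩ : ∃ c : M × M, (c.1 ≠ 0 ∨ c.2 ≠ 0) ∧ ∀ α β r : M,
      (∀ y, mB A B a b w y = r * mB A B a b (α • p + β • x) y) → α * c.2 - β * c.1 = 0 := by
    by_cases hex : ∃ c : M × M, ∀ y, mB A B a b w y = mB A B a b (c.1 • p + c.2 • x) y
    · obtain ⟨c, hc⟩ := hex
      refine ⟨c, ?_, ?_⟩
      · by_contra hne
        push Not at hne
        apply hrw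
        intro y
        rw [hc, hne.1, hne.2, mB_add, mB_smul, mB_smul]
        ring
      · intro α β r hr
        have h1 := hrl (c.1 - r * α) (c.2 - r * β) (by
          intro y
          have h2 := hr y
          rw [hc y] at h2
          rw [mB_add, mB_smul, mB_smul] at h2 ⊢
          rw [mB_add, mB_smul, mB_smul] at h2
          linear_combination h2)
        linear_combination α * h1.2 - β * h1.1
    · refine ⟨(1, 0), Or.inl one_ne_zero, ?_⟩
      intro α β r hr
      exfalso
      apply hex
      refine ⟨(r * α, r * β), fun y => ?_⟩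
      rw [hr y, mB_add, mB_smul, mB_smul, mB_add, mB_smul, mB_smul]
      ring
  obtain ⟨α, β, hp₁, hav⟩ := hl.exists_avoid (m := 2)
    ![(mB A B a b x p', -mB A B a b p p'), c] (by
      intro i
      fin_cases i
      · exact Or.inl h10
      · exact hc)
  have hav0 : α * (-mB A B a b p p') - β * mB A B a b x p' ≠ 0 := hav 0
  have hav1 : α * c.2 - β * c.1 ≠ 0 := hav 1
  obtain ⟨q, hq⟩ : ∃ q : Fin n → M, q = α • p + β • x := ⟨_, rfl⟩
  rw [← hq] at hp₁
  have hlq : Lm A B a b q u t := by
    have h1 := hl.lin (α := α) (β := β) (γ := mB A B a b x p') (δ := -mB A B a b p p') hav0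
    rwa [← hq, ← hu] at h1
  -- the functionals
  have hφψ : ∀ r : M, ∃ y, mBl A B a b u y ≠ r * mBl A B a b q y := by
    intro r
    by_contra hcon
    push Not at hcon
    have h1 := hrl (mB A B a b x p' - r * α) (-mB A B a b p p' - r * β) (by
      intro y
      have h2 := hcon y
      rw [mBl_apply, mBl_apply, hum, hq, mB_add, mB_smul, mB_smul] at h2
      rw [mB_add, mB_smul, mB_smul]
      linear_combination h2)
    apply hav0
    linear_combination α * h1.2 - β * h1.1
  have hφχ : ∀ r : M, ∃ y, mBl A B a b w y ≠ r * mBl A B a b q y := by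
    intro r
    by_contra hcon
    push Not at hcon
    apply hav1
    apply hbad α β r
    intro y
    have h2 := hcon y
    rwa [mBl_apply, mBl_apply, hq] at h2
  obtain ⟨g, hg0, hg1, hg2⟩ := exists_ker_ne_two _ _ _ hφψ hφχ
  rw [mBl_apply] at hg0 hg1 hg2
  obtain ⟨e, he⟩ : ∃ e : M, e = -(mQ A B a b g / mB A B a b u g) := ⟨_, rfl⟩
  have heg : e * mB A B a b u g = -mQ A B a b g := by
    rw [he, neg_mul, div_mul_cancel₀ _ hg1]
  obtain ⟨y, hy⟩ : ∃ y : Fin n → M, y = g + e • u := ⟨_, rfl⟩
  have hqy : mQ A B a b y = 0 := by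
    have h1 := mQ_lin (A := A) (B := B) a b 1 e g u
    rw [one_smul] at h1
    rw [hy, h1, mB_comm, hlu.qp]
    linear_combination heg
  have hby : mB A B a b q y = 0 := by
    rw [hy, mB_add_right, mB_smul_right, hg0, hlq.b]
    ring
  have hwu : mB A B a b w u = 0 := by
    rw [hu, mB_add_right, mB_smul_right, mB_smul_right, hwp, hwx]
    ring
  have hwq : mB A B a b w q = 0 := by
    rw [hq, mB_add_right, mB_smul_right, mB_smul_right, hwp, hwx]
    ring
  have hwy : mB A B a b w y ≠ 0 := by
    rw [hy, mB_add_right, mB_smul_right, hwu, mul_zero, add_zero]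
    exact hg2
  have hq0 : q ≠ 0 := hlq.ind.ne_zero 0
  have hind : LinearIndependent M ![q, y] := by
    rw [LinearIndependent.pair_iff]
    intro r s hrs
    have h1 : mB A B a b w (r • q + s • y) = 0 := by
      rw [hrs]
      have := mB_smul_right (A := A) (B := B) a b (0 : M) w 0
      rwa [zero_smul, zero_mul] at this
    rw [mB_add_right, mB_smul_right, mB_smul_right, hwq, mul_zero, zero_add] at h1
    have hs0 : s = 0 := (mul_eq_zero.1 h1).resolve_right hwy
    refine ⟨?_, hs0⟩
    rw [hs0, zero_smul, add_zero] at hrs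
    exact (smul_eq_zero.1 hrs).resolve_right hq0
  obtain ⟨H, hH, hHq⟩ : ∃ H, (H = A ∨ H = B) ∧ qv H q ≠ 0 := by
    rw [zer_iff] at hp₁
    by_cases h1 : qv A q = 0
    · exact ⟨B, Or.inr rfl, fun h2 => hp₁ ⟨h1, h2⟩⟩
    · exact ⟨A, Or.inl rfl, h1⟩
  have htn : tn H q y ≠ 0 := tn_ne_zero hind hHq
  have hlq' : Lm A B a b q y (Projectivization.mk M (tn H q y) htn) :=
    ⟨hind, hlq.qp, hqy, hby, H, hH, htn, rfl⟩
  have h1 : PhL (trPt k Ω t) - PhL (trPt k Ω (Projectivization.mk M (tn H q y) htn)) ∈
      ratEq Ω (Pl A B) := one hn (hlq.isT hab hp₁) (hlq'.isT hab hp₁)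
  have hqp' : mB A B a b q p' ≠ 0 := by
    rw [hq, mB_add, mB_smul, mB_smul]
    intro h2
    apply hav0
    linear_combination -h2
  have h2 : PhL (trPt k Ω (Projectivization.mk M (tn H q y) htn)) - PhL (trPt k Ω t') ∈
      ratEq Ω (Pl A B) := by
    refine join_nd hn hab hlq' hlw ?_
    rw [mB_comm a b q w, hwq, zero_mul, zero_sub, mB_comm a b y w]
    exact neg_ne_zero.2 (mul_ne_zero hqp' hwy)
  have h3 := (ratEq Ω (Pl A B)).add_mem h1 h2
  rwa [sub_add_sub_cancel] at h3

end Dp
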