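import Pool.Agent.Lib.MP_f80667_ag.Dp.LmA

/-! Two lines on a member of the pencil with orthogonal base points. -/

open scoped LinearAlgebra.Projectivization

namespace Dp

open ZC Tq

universe u

variable {k : Type u} [Field k] [CharZero k] {Ω : Type u} [Field Ω] [Algebra k Ω] [IsAlgClosed Ω]
  {n : ℕ} {A B : Matrix (Fin n) (Fin n) k} {M : Type u} [Field M] [Algebra k M]
  [FiniteDimensional k M]

open Polynomial in
omit [CharZero k] [FiniteDimensional k M] in
theorem l1a_quad_ne {u v w : M} (h : ¬(u = 0 ∧ v = 0 ∧ w = 0)) :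
    (C u + C v * X + C w * X ^ 2 : M[X]) ≠ 0 := by
  intro h0
  apply h
  refine ⟨?_, ?_, ?_⟩
  · have h1 := congrArg (fun f : M[X] => f.coeff 0) h0
    simpa using h1
  · have h1 := congrArg (fun f : M[X] => f.coeff 1) h0
    simpa [coeff_X_pow] using h1
  · have h1 := congrArg (fun f : M[X] => f.coeff 2) h0
    simpa [coeff_X, coeff_C] using h1

open Polynomial in
omit [CharZero k] [Algebra k M] [FiniteDimensional k M] in
theorem l1a_exists [CharZero M] {u v w u' v' w' : M} (h : ¬(u = 0 ∧ v = 0 ∧ w = 0))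
    (h' : ¬(u' = 0 ∧ v' = 0 ∧ w' = 0)) :
    ∃ s : M, u + v * s + w * s ^ 2 ≠ 0 ∧ u' + v' * s + w' * s ^ 2 ≠ 0 := by
  have h1 : (C u + C v * X + C w * X ^ 2 : M[X]) * (C u' + C v' * X + C w' * X ^ 2) ≠ 0 :=
    mul_ne_zero (l1a_quad_ne h) (l1a_quad_ne h')
  have h2 : ∃ s, ((C u + C v * X + C w * X ^ 2 : M[X]) *
      (C u' + C v' * X + C w' * X ^ 2)).eval s ≠ 0 := by
    by_contra hcon
    push Not at hcon
    exact h1 (Polynomial.funext fun s => by rw [hcon s, eval_zero])
  obtain ⟨s, hs⟩ := h2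
  rw [eval_mul] at hs
  simp only [eval_add, eval_mul, eval_C, eval_X, eval_pow] at hs
  exact ⟨s, (mul_ne_zero_iff.1 hs).1, (mul_ne_zero_iff.1 hs).2⟩

omit [CharZero k] [FiniteDimensional k M] in
theorem l1a_not_zer {H : Matrix (Fin n) (Fin n) k} (hH : H = A ∨ H = B) {p : Fin n → M}
    (hp : qv H p ≠ 0) : ¬ Zer (Pl A B) M p := by
  rw [zer_iff]
  rintro ⟨h1, h2⟩
  rcases hH with rfl | rfl
  · exact hp h1
  · exact hp h2

/-- Lines with orthogonal base points outside of `X`. Proof: if `p`, `p'` are independent, they span a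
line on the member; let `t''` be its tensor; `Lm.isT` at `p` for `t`, `t''` and at `p'` for `t''`,
`t'` (the basis `(p', p)`, `Lm.lin`), `Tq.one` twice. If `p'` is a multiple of `p`, `IsT.smul` and
`Tq.one`. (The tensor `t''` exists: `p` is not on `X`, so `qv H p ≠ 0` for `H = A` or `B`,
`tn_ne_zero`.) -/
theorem join_line (hn : 5 ≤ n) {a b : M} (hab : a ≠ 0 ∨ b ≠ 0) {p x p' x' : Fin n → M}
    {t t' : ℙ M (Fin (n * n) → M)} (h : Lm A B a b p x t) (h' : Lm A B a b p' x' t')
    (hp : ¬ Zer (Pl A B) M p) (hp' : ¬ Zer (Pl A B) M p') (hpp : mB A B a b p p' = 0) :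
    PhL (trPt k Ω t) - PhL (trPt k Ω t') ∈ ratEq Ω (Pl A B) := by
  have : CharZero M := charZero_of_injective_algebraMap (algebraMap k M).injective
  by_cases hi : LinearIndependent M ![p, p']
  · have h1 : ∃ H, (H = A ∨ H = B) ∧ qv H p ≠ 0 := by
      by_contra hcon
      push Not at hcon
      exact hp ((zer_iff A B).2 ⟨hcon A (Or.inl rfl), hcon B (Or.inr rfl)⟩)
    obtain ⟨H, hH, hpH⟩ := h1
    have h2 : Lm A B a b p p' (Projectivization.mk M (Tq.tn H p p') (tn_ne_zero hi hpH)) :=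
      ⟨hi, h.qp, h'.qp, hpp, H, hH, tn_ne_zero hi hpH, rfl⟩
    have h3 := one (k := k) (Ω := Ω) hn (h.isT hab hp) (h2.isT hab hp)
    have h4 : Lm A B a b ((0 : M) • p + (1 : M) • p') ((1 : M) • p + (0 : M) • p')
        (Projectivization.mk M (Tq.tn H p p') (tn_ne_zero hi hpH)) :=
      h2.lin (by simp)
    rw [zero_smul, zero_add, one_smul] at h4
    have h5 := one (k := k) (Ω := Ω) hn (h4.isT hab hp') (h'.isT hab hp')
    have h6 := AddSubgroup.add_mem _ h3 h5
    rwa [sub_add_sub_cancel] at h6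
  · have hp0 : p ≠ 0 := h.ind.ne_zero 0
    rw [LinearIndependent.pair_iff' hp0] at hi
    push Not at hi
    obtain ⟨c, hc⟩ := hi
    have hc0 : c ≠ 0 := by
      rintro rfl
      rw [zero_smul] at hc
      exact (h'.ind.ne_zero 0 : p' ≠ 0) hc.symm
    have h1 : IsT A B p' t := by
      rw [← hc]
      exact (h.isT hab hp).smul hc0
    exact one hn h1 (h'.isT hab hp')

/-- The pairing of the two lines is nondegenerate. Proof: the pairing has the matrix `(m i j)`,
`m 0 0 = mB p p'`, ..., of determinant `d ≠ 0`. The vector of the second line orthogonal to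
`α p + β x` is `γ p' + δ x'`, `γ = α m01 + β m11`, `δ = -(α m00 + β m10)`. By `Lm.exists_avoid` (or
directly, as `M` is infinite: three nonzero polynomials in `(α, β)`), there is `(α, β)` with
`α p + β x` and `γ p' + δ x'` not on `X`; `join_line` (with `Lm.lin`). -/
theorem join_nd (hn : 5 ≤ n) {a b : M} (hab : a ≠ 0 ∨ b ≠ 0) {p x p' x' : Fin n → M}
    {t t' : ℙ M (Fin (n * n) → M)} (h : Lm A B a b p x t) (h' : Lm A B a b p' x' t')
    (hd : mB A B a b p p' * mB A B a b x x' - mB A B a b p x' * mB A B a b x p' ≠ 0) :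
    PhL (trPt k Ω t) - PhL (trPt k Ω t') ∈ ratEq Ω (Pl A B) := by
  have : CharZero M := charZero_of_injective_algebraMap (algebraMap k M).injective
  set m00 := mB A B a b p p' with hm00
  set m01 := mB A B a b p x' with hm01
  set m10 := mB A B a b x p' with hm10
  set m11 := mB A B a b x x' with hm11
  obtain ⟨H, hH, hT, -⟩ := h.ten
  obtain ⟨H', hH', hT', -⟩ := h'.ten
  have hf : ¬(qv H p = 0 ∧ bv H p x = 0 ∧ qv H x = 0) := by
    rintro ⟨e1, e2, e3⟩
    apply hT
    rw [Tq.tn, e1, e2, e3, zero_smul, zero_smul, zero_smul, sub_zero, add_zero]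
  have hf' : ¬(qv H' p' = 0 ∧ bv H' p' x' = 0 ∧ qv H' x' = 0) := by
    rintro ⟨e1, e2, e3⟩
    apply hT'
    rw [Tq.tn, e1, e2, e3, zero_smul, zero_smul, zero_smul, sub_zero, add_zero]
  set u := qv H' p' with hu
  set v := bv H' p' x' with hv
  set w := qv H' x' with hw
  have hF : ¬(u * m01 ^ 2 - v * (m01 * m00) + w * m00 ^ 2 = 0 ∧
      2 * u * (m01 * m11) - v * (m01 * m10 + m11 * m00) + 2 * w * (m00 * m10) = 0 ∧
      u * m11 ^ 2 - v * (m11 * m10) + w * m10 ^ 2 = 0) := by
    rintro ⟨e0, e1, e2⟩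
    have hd2 : (m00 * m11 - m01 * m10) ^ 2 ≠ 0 := pow_ne_zero 2 hd
    apply hf'
    refine ⟨(mul_eq_zero.1 (?_ : (m00 * m11 - m01 * m10) ^ 2 * u = 0)).resolve_left hd2,
      (mul_eq_zero.1 (?_ : (m00 * m11 - m01 * m10) ^ 2 * v = 0)).resolve_left hd2,
      (mul_eq_zero.1 (?_ : (m00 * m11 - m01 * m10) ^ 2 * w = 0)).resolve_left hd2⟩
    · linear_combination m10 ^ 2 * e0 - m10 * m00 * e1 + m00 ^ 2 * e2
    · linear_combination 2 * m10 * m11 * e0 - (m10 * m01 + m11 * m00) * e1 + 2 * m00 * m01 * e2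
    · linear_combination m11 ^ 2 * e0 - m11 * m01 * e1 + m01 ^ 2 * e2
  obtain ⟨s, hs, hs'⟩ := l1a_exists hf hF
  have hL : Lm A B a b ((1 : M) • p + s • x) ((0 : M) • p + (1 : M) • x) t :=
    h.lin (by rw [mul_one, mul_zero, sub_zero]; exact one_ne_zero)
  have hL' : Lm A B a b ((m01 + s * m11) • p' + (-(m00 + s * m10)) • x')
      (m11 • p' + (-m10) • x') t' := by
    refine h'.lin ?_
    have e : (m01 + s * m11) * -m10 - -(m00 + s * m10) * m11 = m00 * m11 - m01 * m10 := by ring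
    rw [e]
    exact hd
  refine join_line hn hab hL hL' (l1a_not_zer hH ?_) (l1a_not_zer hH' ?_) ?_
  · rw [qv_lin]
    intro e
    apply hs
    linear_combination e
  · rw [qv_lin, ← hu, ← hv, ← hw]
    intro e
    apply hs'
    linear_combination e
  · rw [mB_add, mB_smul, mB_smul, mB_add_right, mB_add_right, mB_smul_right, mB_smul_right,
      mB_smul_right, mB_smul_right, ← hm00, ← hm01, ← hm10, ← hm11]
    ring


end Dp
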