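import Mathlib

/-! Normed algebraically closed fields over a local field, in the form which is needed here. -/

open Filter Topology

namespace Dp

universe u

/-- The absolute value of `Ω` is invariant under the automorphisms over `k`, `k` has small nonzero
elements, and an element of an intermediate field which is near `1` has a square root in it near
`1`. -/
structure Lc (k Ω : Type u) [Field k] [NormedField Ω] [Algebra k Ω] : Prop where
  inv : ∀ (σ : Ω ≃ₐ[k] Ω) (x : Ω), ‖σ x‖ = ‖x‖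
  small : ∀ ε : ℝ, 0 < ε → ∃ x : k, x ≠ 0 ∧ ‖algebraMap k Ω x‖ < ε
  sqrt : ∀ ε : ℝ, 0 < ε → ∃ δ > 0, ∀ (K : IntermediateField k Ω) (x : Ω), x ∈ K → ‖x - 1‖ < δ →
    ∃ y ∈ K, y ^ 2 = x ∧ ‖y - 1‖ < ε

variable {k Ω : Type u} [Field k] [NormedField Ω] [Algebra k Ω] {α : Type*} {l : Filter α}

/-- Square roots, for families. -/
theorem Lc.exists_sqrt (h : Lc k Ω) (K : IntermediateField k Ω) {f : α → K}
    (hf : Tendsto (fun q => (f q : Ω)) l (𝓝 1)) :
    ∃ g : α → K, Tendsto (fun q => (g q : Ω)) l (𝓝 1) ∧ ∀ᶠ q in l, g q ^ 2 = f q := by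
  classical
  -- a best square root for every parameter
  have key : ∀ q : α, ∃ g : K, ∀ z ∈ K, z ^ 2 = (f q : Ω) → g ^ 2 = f q ∧
      ‖(g : Ω) - 1‖ ≤ ‖z - 1‖ := by
    intro q
    by_cases hq : ∃ y : K, y ^ 2 = f q
    · obtain ⟨y, hy⟩ := hq
      have hz : ∀ z ∈ K, z ^ 2 = (f q : Ω) → z = (y : Ω) ∨ z = ((-y : K) : Ω) := by
        intro z _ hz
        have h1 : z ^ 2 = (y : Ω) ^ 2 := by
          rw [hz, ← hy]
          push_cast
          rfl
        rcases sq_eq_sq_iff_eq_or_eq_neg.1 h1 with h2 | h2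
        · exact Or.inl h2
        · refine Or.inr ?_
          rw [h2]
          push_cast
          rfl
      rcases le_total ‖(y : Ω) - 1‖ ‖((-y : K) : Ω) - 1‖ with hle | hle
      · refine ⟨y, fun z hzK hz2 => ⟨hy, ?_⟩⟩
        rcases hz z hzK hz2 with h | h
        · rw [h]
        · rw [h]
          exact hle
      · refine ⟨-y, fun z hzK hz2 => ⟨by rw [neg_sq, hy], ?_⟩⟩
        rcases hz z hzK hz2 with h | h
        · rw [h]
          exact hle
        · rw [h]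
    · refine ⟨1, fun z hzK hz2 => ?_⟩
      exfalso
      exact hq ⟨⟨z, hzK⟩, Subtype.ext hz2⟩
  choose g hg using key
  have hev : ∀ ε : ℝ, 0 < ε → ∀ᶠ q in l, g q ^ 2 = f q ∧ ‖(g q : Ω) - 1‖ < ε := by
    intro ε hε
    obtain ⟨δ, hδ, hδ'⟩ := h.sqrt ε hε
    have h1 : ∀ᶠ q in l, ‖(f q : Ω) - 1‖ < δ := by
      have := (Metric.tendsto_nhds.1 hf) δ hδ
      simpa only [dist_eq_norm] using this
    filter_upwards [h1] with q hq
    obtain ⟨y, hyK, hy1, hy2⟩ := hδ' K (f q) (f q).2 hq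
    obtain ⟨h2, h3⟩ := hg q y hyK hy1
    exact ⟨h2, h3.trans_lt hy2⟩
  refine ⟨g, ?_, (hev 1 one_pos).mono fun q hq => hq.1⟩
  rw [Metric.tendsto_nhds]
  intro ε hε
  filter_upwards [hev ε hε] with q hq
  rw [dist_eq_norm]
  exact hq.2

/-- Small solutions of quadratic equations. Proof: `y ^ 2 = 1 - 4 c₀ c₂ / c₁ ^ 2` (`exists_sqrt`),
`s = - 2 c₀ / (c₁ (1 + y))`. (`(2 : Ω) ≠ 0`.) -/
theorem Lc.solve [CharZero k] (h : Lc k Ω) (K : IntermediateField k Ω) {c₀ c₁ c₂ : α → K}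
    {e d : Ω} (h0 : Tendsto (fun q => (c₀ q : Ω)) l (𝓝 0))
    (h1 : Tendsto (fun q => (c₁ q : Ω)) l (𝓝 e)) (he : e ≠ 0)
    (h2 : Tendsto (fun q => (c₂ q : Ω)) l (𝓝 d)) :
    ∃ s : α → K, Tendsto (fun q => (s q : Ω)) l (𝓝 0) ∧
      ∀ᶠ q in l, c₀ q + c₁ q * s q + c₂ q * s q ^ 2 = 0 := by
  have hchar : CharZero Ω :=
    charZero_of_injective_algebraMap (FaithfulSMul.algebraMap_injective k Ω)
  have h2' : (2 : Ω) ≠ 0 := two_ne_zero
  have hT : Tendsto (fun q => ((1 - 4 * c₀ q * c₂ q / c₁ q ^ 2 : K) : Ω)) l (𝓝 1) := by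
    have h3 : Tendsto (fun q => (1 : Ω) - 4 * (c₀ q : Ω) * (c₂ q : Ω) / (c₁ q : Ω) ^ 2) l
        (𝓝 (1 - 4 * 0 * d / e ^ 2)) :=
      tendsto_const_nhds.sub
        (((tendsto_const_nhds.mul h0).mul h2).div (h1.pow 2) (pow_ne_zero 2 he))
    have h4 : (1 : Ω) - 4 * 0 * d / e ^ 2 = 1 := by
      rw [mul_zero, zero_mul, zero_div, sub_zero]
    rw [h4] at h3
    refine h3.congr fun q => ?_
    push_cast
    rfl
  obtain ⟨y, hy1, hy2⟩ := h.exists_sqrt K hT
  have hy3 : Tendsto (fun q => (1 : Ω) + (y q : Ω)) l (𝓝 2) := by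
    have := (tendsto_const_nhds (x := (1 : Ω))).add hy1
    rwa [one_add_one_eq_two] at this
  have hev1 : ∀ᶠ q in l, (c₁ q : Ω) ≠ 0 := h1.eventually_ne he
  have hev2 : ∀ᶠ q in l, (1 : Ω) + (y q : Ω) ≠ 0 := hy3.eventually_ne h2'
  refine ⟨fun q => - (2 * c₀ q) / (c₁ q * (1 + y q)), ?_, ?_⟩
  · have h3 : Tendsto (fun q => - (2 * (c₀ q : Ω)) / ((c₁ q : Ω) * (1 + (y q : Ω)))) l
        (𝓝 (- (2 * 0) / (e * 2))) :=
      ((tendsto_const_nhds.mul h0).neg).div (h1.mul hy3) (mul_ne_zero he h2')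
    have h4 : - (2 * (0 : Ω)) / (e * 2) = 0 := by
      rw [mul_zero, neg_zero, zero_div]
    rw [h4] at h3
    refine h3.congr fun q => ?_
    push_cast
    rfl
  · filter_upwards [hy2, hev1, hev2] with q hq1 hq2 hq3
    have hc : c₁ q ≠ 0 := by
      intro h
      apply hq2
      rw [h]
      rfl
    have hy : 1 + y q ≠ 0 := by
      intro h
      apply hq3
      have := congrArg (fun z : K => (z : Ω)) h
      push_cast at this
      exact this
    have h5 : 4 * c₀ q * c₂ q = (1 - y q ^ 2) * c₁ q ^ 2 := by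
      rw [hq1]
      field_simp
      ring
    have h6 : c₀ q + c₁ q * (-(2 * c₀ q) / (c₁ q * (1 + y q))) +
        c₂ q * (-(2 * c₀ q) / (c₁ q * (1 + y q))) ^ 2 =
        c₀ q * ((y q ^ 2 - 1) * c₁ q ^ 2 + 4 * c₀ q * c₂ q) / (c₁ q * (1 + y q)) ^ 2 := by
      field_simp
      ring
    rw [h6, h5]
    have h7 : (y q ^ 2 - 1) * c₁ q ^ 2 + (1 - y q ^ 2) * c₁ q ^ 2 = 0 := by ring
    rw [h7, mul_zero, zero_div]

/-- `k` is infinite, and there are infinitely many small elements. Proof: powers of an element `x`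
with `0 < ‖x‖ < min ε 1`. -/
theorem Lc.infinite_small (h : Lc k Ω) {ε : ℝ} (hε : 0 < ε) :
    {x : k | ‖algebraMap k Ω x‖ < ε}.Infinite := by
  obtain ⟨x, hx0, hx⟩ := h.small (min ε 1) (lt_min hε one_pos)
  have h1 : ‖algebraMap k Ω x‖ < 1 := hx.trans_le (min_le_right _ _)
  have h2 : ‖algebraMap k Ω x‖ < ε := hx.trans_le (min_le_left _ _)
  have h3 : 0 < ‖algebraMap k Ω x‖ := by
    rw [norm_pos_iff]
    exact (map_ne_zero (algebraMap k Ω)).2 hx0
  refine Set.infinite_of_injective_forall_mem (f := fun m : ℕ => x ^ (m + 1)) ?_ ?_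
  · intro a b hab
    have h4 := congrArg (fun z => ‖algebraMap k Ω z‖) hab
    simp only [map_pow, norm_pow] at h4
    have h5 := (pow_right_injective₀ h3 h1.ne) h4
    omega
  · intro m
    simp only [Set.mem_ofPred_eq, map_pow, norm_pow]
    calc ‖algebraMap k Ω x‖ ^ (m + 1) ≤ ‖algebraMap k Ω x‖ ^ 1 :=
          pow_le_pow_of_le_one h3.le h1.le (by omega)
      _ < ε := by rwa [pow_one]

end Dp
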