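import Pool.Agent.Lib.MP_f80667_ag.Dp.Defs

/-! Quadratic forms which vanish at the zeros of a quadratic form. -/

namespace Dp

private theorem lemZ_map {K : Type*} [Field K] {V : Type*} [AddCommGroup V] [Module K V]
    (F : QuadraticMap K V K) (a b : K) (x y z : V) :
    F (a • x + b • y + z) = a ^ 2 * F x + b ^ 2 * F y + F z + a * b * QuadraticMap.polar F x y +
      a * QuadraticMap.polar F x z + b * QuadraticMap.polar F y z := by
  rw [QuadraticMap.map_add F (a • x + b • y) z, QuadraticMap.map_add F (a • x) (b • y),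
    QuadraticMap.map_smul, QuadraticMap.map_smul, QuadraticMap.polar_add_left,
    QuadraticMap.polar_smul_left, QuadraticMap.polar_smul_left, QuadraticMap.polar_smul_left,
    QuadraticMap.polar_smul_right]
  simp only [smul_eq_mul]
  ring

/-- one half of the argument -/
private theorem lemZ_half {K : Type*} [Field K] (h2 : (2 : K) ≠ 0) {s₀ : K} (h0 : s₀ ≠ 0)
    (h1 : s₀ ≠ 1) (h1' : s₀ ≠ -1) {V : Type*} [AddCommGroup V] [Module K V] (U : Submodule K V)
    (Q F : QuadraticMap K V K) {e f z : V} (he : e ∈ U) (hf : f ∈ U) (hz : z ∈ U)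
    (hQe : Q e = 0) (hQf : Q f = 0) (hef : QuadraticMap.polar Q e f = 1)
    (hez : QuadraticMap.polar Q e z = 0) (hfz : QuadraticMap.polar Q f z = 0)
    (h : ∀ u ∈ U, Q u = 0 → F u = 0) :
    F z = Q z * QuadraticMap.polar F e f ∧ QuadraticMap.polar F e z = 0 := by
  have key : ∀ s : K, s ≠ 0 → s * (F z - Q z * QuadraticMap.polar F e f) +
      s ^ 2 * QuadraticMap.polar F e z - Q z * QuadraticMap.polar F f z = 0 := by
    intro s hs
    have hw : F (s • e + (-(Q z / s)) • f + z) = 0 := by
      refine h _ (U.add_mem (U.add_mem (U.smul_mem _ he) (U.smul_mem _ hf)) hz) ?_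
      rw [lemZ_map, hQe, hQf, hef, hez, hfz]
      field_simp
      ring
    rw [lemZ_map, h e he hQe, h f hf hQf] at hw
    have h3 : s * (s ^ 2 * 0 + (-(Q z / s)) ^ 2 * 0 + F z +
        s * (-(Q z / s)) * QuadraticMap.polar F e f + s * QuadraticMap.polar F e z +
        (-(Q z / s)) * QuadraticMap.polar F f z) = s * (F z - Q z * QuadraticMap.polar F e f) +
      s ^ 2 * QuadraticMap.polar F e z - Q z * QuadraticMap.polar F f z := by
      field_simp
      ring
    rw [← h3, hw, mul_zero]
  have k1 := key 1 one_ne_zero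
  have k2 := key (-1) (neg_ne_zero.2 one_ne_zero)
  have k3 := key s₀ h0
  have e1 : F z - Q z * QuadraticMap.polar F e f = 0 := by
    have : (2 : K) * (F z - Q z * QuadraticMap.polar F e f) = 0 := by
      linear_combination k1 - k2
    exact (mul_eq_zero.1 this).resolve_left h2
  have e2 : QuadraticMap.polar F e z - Q z * QuadraticMap.polar F f z = 0 := by
    rw [e1] at k1
    linear_combination k1
  have e3 : (s₀ - 1) * ((s₀ + 1) * QuadraticMap.polar F e z) = 0 := by
    rw [e1] at k3
    linear_combination k3 - e2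
  refine ⟨sub_eq_zero.1 e1, ?_⟩
  have e4 := (mul_eq_zero.1 e3).resolve_left (sub_ne_zero.2 h1)
  refine (mul_eq_zero.1 e4).resolve_left fun h5 => h1' ?_
  linear_combination h5

/-- A quadratic form `F` on `U` which vanishes at all zeros of the quadratic form `Q` on `U` is a
multiple of `Q`, if `Q` has a zero `e` in `U` which is not in the radical. Proof: replace `g` by
`f = (g - (Q g / polar Q e g) e) / polar Q e g`: `Q f = 0`, `polar Q e f = 1`. For `z` in `U` with
`polar Q e z = polar Q f z = 0` and `s ≠ 0` the vector `w = s e - (Q z / s) f + z` is a zero of `Q`, so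
`0 = F w = F z - Q z polar F e f + s polar F e z - (Q z / s) polar F f z` (`F e = F f = 0`). Multiply
by `s`: a polynomial of degree `2` in `s` with the zeros `1`, `-1`, `s₀` is zero; so
`F z = Q z polar F e f` and `polar F e z = 0`, and with `e` and `f` exchanged `polar F f z = 0`. Every
`u` of `U` is `α e + β f + z`, `F u = α β polar F e f + F z = polar F e f * Q u`. -/
theorem lemZ {K : Type*} [Field K] (h2 : (2 : K) ≠ 0) {s₀ : K} (h0 : s₀ ≠ 0) (h1 : s₀ ≠ 1)
    (h1' : s₀ ≠ -1) {V : Type*} [AddCommGroup V] [Module K V] (U : Submodule K V)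
    (Q F : QuadraticMap K V K) {e g : V} (he : e ∈ U) (hg : g ∈ U) (hQe : Q e = 0)
    (heg : QuadraticMap.polar Q e g ≠ 0) (h : ∀ u ∈ U, Q u = 0 → F u = 0) :
    ∃ c : K, ∀ u ∈ U, F u = c * Q u := by
  set π : K := QuadraticMap.polar Q e g with hπ
  obtain ⟨f, hf, hQf, hef⟩ : ∃ f ∈ U, Q f = 0 ∧ QuadraticMap.polar Q e f = 1 := by
    refine ⟨π⁻¹ • (g + (-(Q g / π)) • e), U.smul_mem _ (U.add_mem hg (U.smul_mem _ he)), ?_, ?_⟩
    · rw [QuadraticMap.map_smul, QuadraticMap.map_add Q, QuadraticMap.map_smul, hQe,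
        QuadraticMap.polar_smul_right, QuadraticMap.polar_comm Q g e, ← hπ]
      simp only [smul_eq_mul]
      field_simp
      ring
    · rw [QuadraticMap.polar_smul_right, QuadraticMap.polar_add_right,
        QuadraticMap.polar_smul_right, QuadraticMap.polar_self, hQe, ← hπ]
      simp only [smul_eq_mul, mul_zero, add_zero, smul_zero]
      exact inv_mul_cancel₀ heg
  refine ⟨QuadraticMap.polar F e f, fun u hu => ?_⟩
  have hee : QuadraticMap.polar Q e e = 0 := by
    rw [QuadraticMap.polar_self, hQe, smul_zero]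
  have hff : QuadraticMap.polar Q f f = 0 := by
    rw [QuadraticMap.polar_self, hQf, smul_zero]
  have hfe : QuadraticMap.polar Q f e = 1 := by rw [QuadraticMap.polar_comm, hef]
  set a : K := QuadraticMap.polar Q f u with ha
  set b : K := QuadraticMap.polar Q e u with hb
  obtain ⟨z, hzU, hu', hez, hfz⟩ : ∃ z ∈ U, u = a • e + b • f + z ∧
      QuadraticMap.polar Q e z = 0 ∧ QuadraticMap.polar Q f z = 0 := by
    refine ⟨u + ((-a) • e + (-b) • f), U.add_mem hu (U.add_mem (U.smul_mem _ he)
      (U.smul_mem _ hf)), ?_, ?_, ?_⟩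
    · module
    · rw [QuadraticMap.polar_add_right, QuadraticMap.polar_add_right,
        QuadraticMap.polar_smul_right, QuadraticMap.polar_smul_right, hee, hef, ← hb]
      simp
    · rw [QuadraticMap.polar_add_right, QuadraticMap.polar_add_right,
        QuadraticMap.polar_smul_right, QuadraticMap.polar_smul_right, hff, hfe, ← ha]
      simp
  obtain ⟨k1, k2⟩ := lemZ_half h2 h0 h1 h1' U Q F he hf hzU hQe hQf hef hez hfz h
  obtain ⟨-, k3⟩ := lemZ_half h2 h0 h1 h1' U Q F hf he hzU hQf hQe hfe hfz hez h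
  rw [hu', lemZ_map, lemZ_map, h e he hQe, h f hf hQf, hQe, hQf, hef, hez, hfz, k1, k2, k3]
  ring

end Dp
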