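import Pool.Agent.Lib.MP_f80667_ag.Dp.LemZ
import Pool.Agent.Lib.MP_f80667_ag.Dp.GoodU
import Pool.Agent.Lib.MP_f80667_ag.Dp.LmA

/-! Lines on a nondegenerate member which is known to contain a plane of zeros. -/

open scoped LinearAlgebra.Projectivization

namespace Dp

open ZC Tq

universe u

section aux

variable {k : Type*} [Field k] {n : ℕ} {A B : Matrix (Fin n) (Fin n) k} {M : Type*} [Field M]
  [Algebra k M]

/-- The orthogonal space of a vector is large. -/
theorem lna_rank (a b : M) (p : Fin n → M) :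
    n ≤ Module.finrank M (LinearMap.ker (mBl A B a b p)) + 1 := by
  have h1 := LinearMap.finrank_range_add_finrank_ker (mBl A B a b p)
  have h2 : Module.finrank M (LinearMap.range (mBl A B a b p)) ≤ 1 := by
    have := Submodule.finrank_le (LinearMap.range (mBl A B a b p))
    rwa [Module.finrank_self] at this
  rw [Module.finrank_fin_fun] at h1
  omega

/-- A vector which is orthogonal to `p` and not to `x`. -/
theorem lna_g {a b : M} (hnd : ND A B a b) {p x : Fin n → M}
    (hi : LinearIndependent M ![p, x]) :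
    ∃ g ∈ LinearMap.ker (mBl A B a b p), mB A B a b x g ≠ 0 := by
  by_contra hcon
  push Not at hcon
  have h1 : mBl A B a b x ∈ Submodule.span M (Set.range ![mBl A B a b p]) := by
    apply mem_span_of_iInf_ker_le_ker
    intro u hu
    rw [Submodule.mem_iInf] at hu
    exact hcon u (hu 0)
  rw [Matrix.range_cons, Matrix.range_empty, Set.union_empty, Submodule.mem_span_singleton] at h1
  obtain ⟨c, hc⟩ := h1
  rw [LinearIndependent.pair_iff] at hi
  have h3 : x + (-c) • p ≠ 0 := by
    intro h0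
    have h4 := hi (-c) 1 (by rw [one_smul, add_comm]; exact h0)
    exact one_ne_zero h4.2
  obtain ⟨y, hy⟩ := hnd _ h3
  apply hy
  have h5 : c * mB A B a b p y = mB A B a b x y := LinearMap.congr_fun hc y
  rw [mB_add, mB_smul, ← h5]
  ring

/-- Two vectors with different values of a function of degree two which vanishes at `p`. -/
theorem lna_ind {p y : Fin n → M} (hp : p ≠ 0) (F : QuadraticMap M (Fin n → M) M) (hF : F p = 0)
    (hy : F y ≠ 0) : LinearIndependent M ![p, y] := by
  rw [LinearIndependent.pair_iff]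
  intro s t hst
  have ht : t = 0 := by
    by_contra ht
    apply hy
    have h1 : y = (-(t⁻¹ * s)) • p := by
      have h2 : t⁻¹ • (s • p + t • y) = 0 := by rw [hst, smul_zero]
      rw [smul_add, smul_smul, smul_smul, inv_mul_cancel₀ ht, one_smul] at h2
      rw [neg_smul]
      exact eq_neg_of_add_eq_zero_right h2
    rw [h1, QuadraticMap.map_smul, hF, smul_zero]
  refine ⟨?_, ht⟩
  rw [ht, zero_smul, add_zero] at hst
  exact (smul_eq_zero.1 hst).resolve_right hp

end aux

variable {k : Type u} [Field k] [CharZero k] {Ω : Type u} [Field Ω] [Algebra k Ω] [IsAlgClosed Ω]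
  {n : ℕ} {A B : Matrix (Fin n) (Fin n) k} {M : Type u} [Field M] [Algebra k M]

/-- A totally isotropic plane gives a line which is not contained in `X`. Proof: if `p` and `x` span a
line in `X`: `Q = mQ a b` on the orthogonal space `U` of `p` (dimension `n - 1`) has the zero `x`, which
is not orthogonal to `U` (`ND`: `x` is not a multiple of `p`). If the other form `H` (`A` or `B` with
`(a, b)`, `H` independent) vanishes at all zeros of `Q` in `U` then `H = c Q` on `U` by `lemZ`, against
`no_sub`. So there is `y ∈ U` with `Q y = 0`, `qv H y ≠ 0`, and `p`, `y` span a line. -/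
theorem exists_line (hs : Sm Ω A B) (σ : M →ₐ[k] Ω) (hn : 6 ≤ n) {a b : M} (hnd : ND A B a b)
    {p x : Fin n → M} (hi : LinearIndependent M ![p, x]) (hp : mQ A B a b p = 0)
    (hx : mQ A B a b x = 0) (hpx : mB A B a b p x = 0) : ∃ t, IsM A B a b t := by
  have : CharZero M := charZero_of_injective_algebraMap (algebraMap k M).injective
  have hp0 : p ≠ 0 := hi.ne_zero 0
  have hx0 : x ≠ 0 := hi.ne_zero 1
  have hi' : LinearIndependent M ![x, p] := by
    rw [LinearIndependent.pair_iff] at hi ⊢
    intro s t hst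
    exact (hi t s (by rw [add_comm]; exact hst)).symm
  by_cases h1 : ∃ H, (H = A ∨ H = B) ∧ qv H p ≠ 0
  · obtain ⟨H, hH, h2⟩ := h1
    exact ⟨_, p, x, hi, hp, hx, hpx, H, hH, tn_ne_zero hi h2, rfl⟩
  push Not at h1
  have hab : a ≠ 0 ∨ b ≠ 0 := by
    obtain ⟨y, hy⟩ := hnd p hp0
    by_contra hcon
    push Not at hcon
    apply hy
    rw [mB, hcon.1, hcon.2]
    ring
  obtain ⟨H, hH, hdet⟩ : ∃ H, (H = A ∨ H = B) ∧ (H = A ∧ b ≠ 0 ∨ H = B ∧ a ≠ 0) := by
    rcases hab with h | h
    · exact ⟨B, Or.inr rfl, Or.inr ⟨rfl, h⟩⟩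
    · exact ⟨A, Or.inl rfl, Or.inl ⟨rfl, h⟩⟩
  obtain ⟨g, hg, hxg⟩ := lna_g hnd hi
  obtain ⟨c, d, hcd, hHm⟩ : ∃ c d : M, (∀ e : M, c - e * a ≠ 0 ∨ d - e * b ≠ 0) ∧
      ∀ y : Fin n → M, qv H y = mQ A B c d y := by
    rcases hdet with ⟨rfl, hb⟩ | ⟨rfl, ha⟩
    · refine ⟨1, 0, fun e => ?_, fun y => by rw [mQ]; ring⟩
      by_cases he : e = 0
      · left
        rw [he]
        simp
      · right
        rw [zero_sub]
        exact neg_ne_zero.2 (mul_ne_zero he hb)
    · refine ⟨0, 1, fun e => ?_, fun y => by rw [mQ]; ring⟩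
      by_cases he : e = 0
      · right
        rw [he]
        simp
      · left
        rw [zero_sub]
        exact neg_ne_zero.2 (mul_ne_zero he ha)
  obtain ⟨y, hyU, hQy, hHy⟩ : ∃ y ∈ LinearMap.ker (mBl A B a b p), mQ A B a b y = 0 ∧
      qv H y ≠ 0 := by
    by_contra hcon
    push Not at hcon
    obtain ⟨e, he⟩ := lemZ (K := M) two_ne_zero (s₀ := 2) two_ne_zero (by norm_num) (by norm_num)
      (LinearMap.ker (mBl A B a b p)) (mqf A B a b) (mqf A B c d) (e := x) (g := g) hpx hg hx
      (by rw [mqf_polar]; exact hxg) (fun u hu hQu => by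
        rw [mqf_apply, ← hHm]
        exact hcon u hu hQu)
    obtain ⟨z, hz, hz'⟩ := no_sub two_ne_zero hs σ hn (LinearMap.ker (mBl A B a b p))
      (by have := lna_rank (A := A) (B := B) a b p; omega) (hcd e)
    apply hz'
    have h3 := he z hz
    rw [mqf_apply, mqf_apply, mQ, mQ] at h3
    rw [mQ]
    linear_combination h3
  have hpy : LinearIndependent M ![y, p] := by
    have h4 : LinearIndependent M ![p, y] := lna_ind hp0 (mqf A B c d)
      (by rw [mqf_apply, ← hHm]; exact h1 H hH) (by rw [mqf_apply, ← hHm]; exact hHy)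
    rw [LinearIndependent.pair_iff] at h4 ⊢
    intro s t hst
    exact (h4 t s (by rw [add_comm]; exact hst)).symm
  exact ⟨_, y, p, hpy, hQy, hp, by rw [mB_comm]; exact hyU, H, hH, tn_ne_zero hpy hHy, rfl⟩

/-- A line on the member which meets `X` in two different points (over the algebraic closure). Proof:
let `Lm a b p x t` with `p` not on `X` (`Lm.exists_np`), `H` with `qv H p ≠ 0`. The orthogonal space
`U` of `p` has dimension `n - 1`; `F y = bv H p y ^ 2 - 4 qv H p qv H y` is a quadratic form on it. If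
`F` vanishes at all zeros of `Q = mQ a b` in `U` then `F = c Q` on `U` by `lemZ` (with the zero `x`),
so a member agrees with the square of a linear form on `U`, against `no_sq`
(`4 qv H p * qv H y + c * Q y = bv H p y ^ 2`, and `(a, b)`, `H` are independent). So there is `y ∈ U`
with `Q y = 0`, `F y ≠ 0`; `y` is not a multiple of `p` since `F p = 0`. -/
theorem exists_split (hs : Sm Ω A B) (σ : M →ₐ[k] Ω) (hn : 6 ≤ n) {a b : M} (hnd : ND A B a b)
    {t : ℙ M (Fin (n * n) → M)} (h : IsM A B a b t) :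
    ∃ (p x : Fin n → M) (t' : ℙ M (Fin (n * n) → M)) (H : Matrix (Fin n) (Fin n) k),
      Lm A B a b p x t' ∧ (H = A ∨ H = B) ∧ qv H p ≠ 0 ∧
      bv H p x ^ 2 - 4 * qv H p * qv H x ≠ 0 := by
  have : CharZero M := charZero_of_injective_algebraMap (algebraMap k M).injective
  obtain ⟨p₀, x₀, h₀⟩ := h
  obtain ⟨p, x, hL, hpn, -⟩ := h₀.exists_np
  have hp0 : p ≠ 0 := hL.ind.ne_zero 0
  have hab : a ≠ 0 ∨ b ≠ 0 := by
    obtain ⟨y, hy⟩ := hnd p hp0
    by_contra hcon
    push Not at hcon
    apply hy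
    rw [mB, hcon.1, hcon.2]
    ring
  obtain ⟨H, hH, hHp⟩ : ∃ H, (H = A ∨ H = B) ∧ qv H p ≠ 0 := by
    by_contra hcon
    push Not at hcon
    exact hpn ((zer_iff A B).2 ⟨hcon A (Or.inl rfl), hcon B (Or.inr rfl)⟩)
  obtain ⟨g, hg, hxg⟩ := lna_g hnd hL.ind
  obtain ⟨c, d, hcd, hHm⟩ : ∃ c d : M,
      (∀ e : M, 4 * qv H p * c + e * a ≠ 0 ∨ 4 * qv H p * d + e * b ≠ 0) ∧
      ∀ y : Fin n → M, qv H y = mQ A B c d y := by
    have hq : a * qv A p + b * qv B p = 0 := hL.qp
    have h4 : (4 : M) * qv H p ≠ 0 := mul_ne_zero (by norm_num) hHp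
    rcases hH with rfl | rfl
    · refine ⟨1, 0, fun e => ?_, fun y => by rw [mQ]; ring⟩
      have hb : b ≠ 0 := by
        rintro rfl
        rw [zero_mul, add_zero] at hq
        rcases hab with h5 | h5
        · exact (mul_ne_zero h5 hHp) hq
        · exact h5 rfl
      by_cases he : e = 0
      · left
        rw [he, zero_mul, add_zero, mul_one]
        exact h4
      · right
        rw [mul_zero, zero_add]
        exact mul_ne_zero he hb
    · refine ⟨0, 1, fun e => ?_, fun y => by rw [mQ]; ring⟩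
      have ha : a ≠ 0 := by
        rintro rfl
        rw [zero_mul, zero_add] at hq
        rcases hab with h5 | h5
        · exact h5 rfl
        · exact (mul_ne_zero h5 hHp) hq
      by_cases he : e = 0
      · right
        rw [he, zero_mul, add_zero, mul_one]
        exact h4
      · left
        rw [mul_zero, zero_add]
        exact mul_ne_zero he ha
  obtain ⟨F, hF⟩ : ∃ F : QuadraticMap M (Fin n → M) M, ∀ y, F y =
      bv H p y ^ 2 - 4 * qv H p * qv H y := by
    refine ⟨(QuadraticMap.sq (R := M)).comp (bvl H p) - (4 * qv H p) • mqf A B c d, fun y => ?_⟩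
    have e1 : bvl H p y = bv H p y := rfl
    rw [sub_apply, QuadraticMap.comp_apply, QuadraticMap.sq_apply,
      smul_apply, mqf_apply, ← hHm, e1, smul_eq_mul]
    ring
  obtain ⟨y, hyU, hQy, hFy⟩ : ∃ y ∈ LinearMap.ker (mBl A B a b p), mQ A B a b y = 0 ∧
      F y ≠ 0 := by
    by_contra hcon
    push Not at hcon
    obtain ⟨e, he⟩ := lemZ (K := M) two_ne_zero (s₀ := 2) two_ne_zero (by norm_num) (by norm_num)
      (LinearMap.ker (mBl A B a b p)) (mqf A B a b) F (e := x) (g := g) hL.b hg hL.qx
      (by rw [mqf_polar]; exact hxg) (fun u hu hQu => hcon u hu hQu)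
    obtain ⟨z, hz, hz'⟩ := no_sq two_ne_zero hs σ hn (LinearMap.ker (mBl A B a b p))
      (lna_rank (A := A) (B := B) a b p) (hcd e) (bvl H p)
    apply hz'
    have h3 := he z hz
    have e1 : bvl H p z = bv H p z := rfl
    have h6 : qv H z = c * qv A z + d * qv B z := hHm z
    rw [hF, mqf_apply, mQ] at h3
    rw [mQ, e1]
    linear_combination -(4 * qv H p) * h6 - h3
  have hpy : LinearIndependent M ![p, y] := lna_ind hp0 F (by
    rw [hF, bv_self]
    ring) hFy
  refine ⟨p, y, Projectivization.mk M (tn H p y) (tn_ne_zero hpy hHp), H,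
    ⟨hpy, hL.qp, hQy, hyU, H, hH, tn_ne_zero hpy hHp, rfl⟩, hH, hHp, ?_⟩
  rw [← hF]
  exact hFy

end Dp
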