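import Pool.Agent.Lib.MP_f80667_ag.Dp.Conj

/-! The two points of `X` on a line. -/

open scoped LinearAlgebra.Projectivization

namespace Dp

open ZC Tq

universe u

variable {k : Type u} [Field k] [CharZero k] {Ω : Type u} [Field Ω] [Algebra k Ω] [IsAlgClosed Ω]
  {n : ℕ} {A B : Matrix (Fin n) (Fin n) k} {M : Type u} [Field M] [Algebra k M]
  [FiniteDimensional k M]

omit [CharZero k] [IsAlgClosed Ω] in
/-- The two points of `X` on a line over a field which contains the square root of the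
discriminant. -/
theorem Roots_aux {E : Type*} [Field E] [Algebra k E] [CharZero E] {a b : E}
    (hab : a ≠ 0 ∨ b ≠ 0) {p x : Fin n → E} {t : ℙ E (Fin (n * n) → E)}
    (h : Lm A B a b p x t) {H : Matrix (Fin n) (Fin n) k} (hH : H = A ∨ H = B) (hp : qv H p ≠ 0)
    {d : E} (hd0 : d ≠ 0) (hd : d ^ 2 = bv H p x ^ 2 - 4 * qv H p * qv H x) :
    ((-bv H p x + d) • p + (2 * qv H p) • x) ≠ 0 ∧
    ((-bv H p x - d) • p + (2 * qv H p) • x) ≠ 0 ∧
      Zer (Pl A B) E ((-bv H p x + d) • p + (2 * qv H p) • x) ∧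
      Zer (Pl A B) E ((-bv H p x - d) • p + (2 * qv H p) • x) ∧
      ∃ hs : sq ((-bv H p x + d) • p + (2 * qv H p) • x)
        ((-bv H p x - d) • p + (2 * qv H p) • x) ≠ 0,
        t = Projectivization.mk E (sq ((-bv H p x + d) • p + (2 * qv H p) • x)
          ((-bv H p x - d) • p + (2 * qv H p) • x)) hs := by
  have h2 : (2 : E) ≠ 0 := two_ne_zero
  have h4 : (4 : E) ≠ 0 := by
    have : (4 : E) = 2 * 2 := by norm_num
    rw [this]
    exact mul_ne_zero h2 h2
  have hdet : (-bv H p x + d) * (2 * qv H p) - (2 * qv H p) * (-bv H p x - d) ≠ 0 := by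
    have e : (-bv H p x + d) * (2 * qv H p) - (2 * qv H p) * (-bv H p x - d) =
        4 * qv H p * d := by ring
    rw [e]
    exact mul_ne_zero (mul_ne_zero h4 hp) hd0
  have hL := h.lin hdet
  have hq1 : qv H ((-bv H p x + d) • p + (2 * qv H p) • x) = 0 := by
    rw [qv_lin]
    linear_combination (qv H p) * hd
  have hq2 : qv H ((-bv H p x - d) • p + (2 * qv H p) • x) = 0 := by
    rw [qv_lin]
    linear_combination (qv H p) * hd
  have hb : bv H ((-bv H p x + d) • p + (2 * qv H p) • x)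
      ((-bv H p x - d) • p + (2 * qv H p) • x) = -(4 * qv H p * d ^ 2) := by
    rw [LmA_bv_lin]
    linear_combination (2 * qv H p) * hd
  -- a form of the pencil different from the member vanishes on both
  have zer : ∀ y : Fin n → E, mQ A B a b y = 0 → qv H y = 0 → Zer (Pl A B) E y := by
    intro y hy1 hy2
    rw [zer_iff]
    have e1 : a * qv A y + b * qv B y = 0 := hy1
    have e2 : a * qv A p + b * qv B p = 0 := h.qp
    rcases hH with rfl | rfl
    · refine ⟨hy2, ?_⟩
      have hb0 : b ≠ 0 := by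
        rintro rfl
        rw [zero_mul, add_zero] at e2
        rcases hab with h5 | h5
        · exact mul_ne_zero h5 hp e2
        · exact h5 rfl
      rw [hy2, mul_zero, zero_add] at e1
      exact (mul_eq_zero.1 e1).resolve_left hb0
    · refine ⟨?_, hy2⟩
      have ha0 : a ≠ 0 := by
        rintro rfl
        rw [zero_mul, zero_add] at e2
        rcases hab with h5 | h5
        · exact h5 rfl
        · exact mul_ne_zero h5 hp e2
      rw [hy2, mul_zero, add_zero] at e1
      exact (mul_eq_zero.1 e1).resolve_left ha0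
  have hn1 : ((-bv H p x + d) • p + (2 * qv H p) • x) ≠ 0 := hL.ind.ne_zero 0
  have hn2 : ((-bv H p x - d) • p + (2 * qv H p) • x) ≠ 0 := hL.ind.ne_zero 1
  have hs := sq_ne_zero hn1 hn2
  have ht : tn H ((-bv H p x + d) • p + (2 * qv H p) • x)
      ((-bv H p x - d) • p + (2 * qv H p) • x) = (4 * qv H p * d ^ 2) •
        sq ((-bv H p x + d) • p + (2 * qv H p) • x)
          ((-bv H p x - d) • p + (2 * qv H p) • x) := by
    rw [Tq.tn, hq1, hq2, hb, zero_smul, zero_smul, zero_sub, add_zero, neg_smul, neg_neg]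
  have hc : 4 * qv H p * d ^ 2 ≠ 0 := mul_ne_zero (mul_ne_zero h4 hp) (pow_ne_zero 2 hd0)
  refine ⟨hn1, hn2, zer _ hL.qp hq1, zer _ hL.qx hq2, hs, ?_⟩
  refine Lm.uniq hab hL ⟨hL.ind, hL.qp, hL.qx, hL.b, H, hH, ?_, ?_⟩
  · rw [ht]
    exact smul_ne_zero hc hs
  · rw [Projectivization.mk_eq_mk_iff']
    refine ⟨(4 * qv H p * d ^ 2)⁻¹, ?_⟩
    rw [ht, smul_smul, inv_mul_cancel₀ hc, one_smul]

omit [IsAlgClosed Ω] in
/-- The two points of `X` on a line, if they are over `M`. Proof: `P₊`, `P₋` are on the line and `H` is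
`0` there; `(a, b)` and `H` are independent (`qv H p ≠ 0`, `mQ p = 0`), so they are on `X`;
`sq P₊ P₋` is a multiple of `tn H p x` (`tn_det`, `Lm.pt`); `phl_sq`. -/
theorem roots_cls {a b : M} (hab : a ≠ 0 ∨ b ≠ 0) {p x : Fin n → M} {t : ℙ M (Fin (n * n) → M)}
    (h : Lm A B a b p x t) {H : Matrix (Fin n) (Fin n) k} (hH : H = A ∨ H = B) (hp : qv H p ≠ 0)
    {d : M} (hd0 : d ≠ 0) (hd : d ^ 2 = bv H p x ^ 2 - 4 * qv H p * qv H x) :
    ∃ (h₁ : ((-bv H p x + d) • p + (2 * qv H p) • x) ≠ 0)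
      (h₂ : ((-bv H p x - d) • p + (2 * qv H p) • x) ≠ 0),
      Zer (Pl A B) M ((-bv H p x + d) • p + (2 * qv H p) • x) ∧
      Zer (Pl A B) M ((-bv H p x - d) • p + (2 * qv H p) • x) ∧
      PhL (trPt k Ω t) = trPt k Ω (Projectivization.mk M _ h₁) +
        trPt k Ω (Projectivization.mk M _ h₂) := by
  have : CharZero M := charZero_of_injective_algebraMap (algebraMap k M).injective
  obtain ⟨h₁, h₂, z₁, z₂, hs, ht⟩ := Roots_aux hab h hH hp hd0 hd
  refine ⟨h₁, h₂, z₁, z₂, ?_⟩
  rw [ht]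
  exact phl_sq h₁ h₂ hs

/-- The two points of `X` on a line, if they are conjugate over `M`. Proof: as before over `M'`
(`Lm.hom`), `τ d = -d`; `conj_cls`. -/
theorem roots_cls2 {M' : Type u} [Field M'] [Algebra k M'] [Algebra M M'] [IsScalarTower k M M']
    [FiniteDimensional k M'] (h2 : Module.finrank M M' = 2) {a b : M} (hab : a ≠ 0 ∨ b ≠ 0)
    {p x : Fin n → M} {t : ℙ M (Fin (n * n) → M)} (h : Lm A B a b p x t)
    {H : Matrix (Fin n) (Fin n) k} (hH : H = A ∨ H = B) (hp : qv H p ≠ 0) {d : M'}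
    (hdM : ∀ c : M, algebraMap M M' c ≠ d)
    (hd : d ^ 2 = algebraMap M M' (bv H p x ^ 2 - 4 * qv H p * qv H x)) :
    ∃ h₁ : ((-algebraMap M M' (bv H p x) + d) • (fun i => algebraMap M M' (p i)) +
        (2 * algebraMap M M' (qv H p)) • (fun i => algebraMap M M' (x i))) ≠ 0,
      Zer (Pl A B) M' ((-algebraMap M M' (bv H p x) + d) • (fun i => algebraMap M M' (p i)) +
        (2 * algebraMap M M' (qv H p)) • (fun i => algebraMap M M' (x i))) ∧
      PhL (trPt k Ω t) = trPt k Ω (Projectivization.mk M' _ h₁) := by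
  have : CharZero M' := charZero_of_injective_algebraMap (algebraMap k M').injective
  have : CharZero M := charZero_of_injective_algebraMap (algebraMap k M).injective
  obtain ⟨τ, -, hττ, hfix, -, -⟩ := exists_tau (M := M) h2
  have hτd : τ d = -d := by
    have h5 : τ d ^ 2 = d ^ 2 := by
      rw [← map_pow, hd, τ.commutes]
    have h6 : (τ d - d) * (τ d + d) = 0 := by linear_combination h5
    rcases mul_eq_zero.1 h6 with h7 | h7
    · obtain ⟨y, hy⟩ := hfix d (sub_eq_zero.1 h7)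
      exact absurd hy (hdM y)
    · exact eq_neg_of_add_eq_zero_left h7
  have hd0 : d ≠ 0 := fun h0 => hdM 0 (by rw [map_zero, h0])
  let f : M →ₐ[k] M' := IsScalarTower.toAlgHom k M M'
  have hf : ∀ c, f c = algebraMap M M' c := fun c => rfl
  have hL := h.hom f
  have eq1 : qv H (fun i => f (p i)) = algebraMap M M' (qv H p) := qv_hom f p
  have eq2 : qv H (fun i => f (x i)) = algebraMap M M' (qv H x) := qv_hom f x
  have eq3 : bv H (fun i => f (p i)) (fun i => f (x i)) = algebraMap M M' (bv H p x) :=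
    bv_hom f p x
  have hab' : f a ≠ 0 ∨ f b ≠ 0 := by
    rcases hab with h5 | h5
    · exact Or.inl ((map_ne_zero f).2 h5)
    · exact Or.inr ((map_ne_zero f).2 h5)
  have hp' : qv H (fun i => f (p i)) ≠ 0 := by
    rw [eq1]
    exact (map_ne_zero _).2 hp
  have key := Roots_aux hab' hL hH hp' hd0 (by
    rw [eq1, eq2, eq3, hd, map_sub, map_mul, map_mul, map_pow, map_ofNat])
  rw [eq1, eq3] at key
  obtain ⟨h₁, -, z₁, -, hs, ht⟩ := key
  refine ⟨h₁, z₁, ?_⟩
  obtain ⟨P, hP⟩ : ∃ P, P = (-algebraMap M M' (bv H p x) + d) • (fun i => algebraMap M M' (p i)) +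
        (2 * algebraMap M M' (qv H p)) • (fun i => algebraMap M M' (x i)) := ⟨_, rfl⟩
  have hR : (-algebraMap M M' (bv H p x) - d) • (fun i => algebraMap M M' (p i)) +
        (2 * algebraMap M M' (qv H p)) • (fun i => algebraMap M M' (x i)) =
      fun i => τ (P i) := by
    funext i
    rw [hP]
    simp only [Pi.add_apply, Pi.smul_apply, smul_eq_mul, map_add, map_mul, map_neg, hτd,
      AlgEquiv.commutes, map_ofNat]
    ring
  have ht' : ∃ hs' : sq P (fun i => τ (P i)) ≠ 0, mapPt (algebraMap M M') t =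
      Projectivization.mk M' (sq P (fun i => τ (P i))) hs' := by
    rw [← hR, hP]
    exact ⟨hs, ht⟩
  obtain ⟨hs', ht'⟩ := ht'
  have hP0 : P ≠ 0 := by
    rw [hP]
    exact h₁
  have hfin := conj_cls (k := k) (Ω := Ω) h2 τ hP0 hs' ht'
  rw [hfin]
  congr 2

end Dp
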