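import Pool.Agent.Lib.MP_f80667_ag.Dp.PtCls
import Pool.Agent.Lib.MP_f80667_ag.Dp.LineA
import Pool.Agent.Lib.MP_f80667_ag.Dp.Roots

/-! Lines on near members of the pencil: existence and class. -/

open Filter Topology
open scoped LinearAlgebra.Projectivization

namespace Dp

open ZC Tq

universe u

variable {k : Type u} [Field k] [CharZero k] {Ω : Type u} [NormedField Ω] [Algebra k Ω]
  [IsAlgClosed Ω] {n : ℕ} {A B : Matrix (Fin n) (Fin n) k} {α : Type*} {l : Filter α}

/-- Nondegeneracy is an open condition. Proof: `nd_iff`, `ND.hom`, continuity of the determinant. -/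
theorem nd_near (K : IntermediateField k Ω) {a b : K} (hnd : ND A B a b) {a' b' : α → K}
    (ha : Tendsto (fun q => (a' q : Ω)) l (𝓝 (a : Ω)))
    (hb : Tendsto (fun q => (b' q : Ω)) l (𝓝 (b : Ω))) : ∀ᶠ q in l, ND A B (a' q) (b' q) := by
  have e : ∀ c d : K, ND A B c d ↔ ((c : Ω) • (A + A.transpose).map (algebraMap k Ω) +
      (d : Ω) • (B + B.transpose).map (algebraMap k Ω)).det ≠ 0 := by
    intro c d
    rw [← ND.hom K.val, nd_iff]
    rfl
  have hc : Continuous fun z : Ω × Ω => (z.1 • (A + A.transpose).map (algebraMap k Ω) +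
      z.2 • (B + B.transpose).map (algebraMap k Ω)).det := by
    refine Continuous.matrix_det ?_
    exact (continuous_fst.smul continuous_const).add (continuous_snd.smul continuous_const)
  have h1 := (hc.tendsto ((a : Ω), (b : Ω))).comp (ha.prodMk_nhds hb)
  have h2 := h1.eventually_ne ((e a b).1 hnd)
  filter_upwards [h2] with q hq
  exact (e _ _).2 hq

section

variable {K : IntermediateField k Ω} {a b : K} {a' b' : α → K}

/-- The polar form of a near member at near vectors. -/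
theorem lb_mB (ha : Tendsto (fun q => (a' q : Ω)) l (𝓝 (a : Ω)))
    (hb : Tendsto (fun q => (b' q : Ω)) l (𝓝 (b : Ω))) {p x : α → Fin n → K} {P X : Fin n → K}
    (h : ∀ i, Tendsto (fun q => (p q i : Ω)) l (𝓝 (P i : Ω)))
    (h' : ∀ i, Tendsto (fun q => (x q i : Ω)) l (𝓝 (X i : Ω))) :
    Tendsto (fun q => ((mB A B (a' q) (b' q) (p q) (x q) : K) : Ω)) l
      (𝓝 ((mB A B a b P X : K) : Ω)) :=
  (ha.mul (tendsto_bv A h h')).add (hb.mul (tendsto_bv B h h'))

/-- A near member at near vectors. -/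
theorem lb_mQ (ha : Tendsto (fun q => (a' q : Ω)) l (𝓝 (a : Ω)))
    (hb : Tendsto (fun q => (b' q : Ω)) l (𝓝 (b : Ω))) {p : α → Fin n → K} {P : Fin n → K}
    (h : ∀ i, Tendsto (fun q => (p q i : Ω)) l (𝓝 (P i : Ω))) :
    Tendsto (fun q => ((mQ A B (a' q) (b' q) (p q) : K) : Ω)) l
      (𝓝 ((mQ A B a b P : K) : Ω)) :=
  (ha.mul (tendsto_qv A h)).add (hb.mul (tendsto_qv B h))

omit [CharZero k] [IsAlgClosed Ω] in
/-- A combination of near vectors with a near coefficient. -/
theorem lb_comb {p x : α → Fin n → K} {P X : Fin n → K} {s : α → K} {c : K}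
    (h : ∀ i, Tendsto (fun q => (p q i : Ω)) l (𝓝 (P i : Ω)))
    (h' : ∀ i, Tendsto (fun q => (x q i : Ω)) l (𝓝 (X i : Ω)))
    (hs : Tendsto (fun q => (s q : Ω)) l (𝓝 (c : Ω))) (i : Fin n) :
    Tendsto (fun q => ((p q + s q • x q) i : Ω)) l (𝓝 (((P + c • X) i : K) : Ω)) :=
  (h i).add (hs.mul (h' i))

omit [CharZero k] [IsAlgClosed Ω] in
/-- A combination of near vectors with a small coefficient. -/
theorem lb_comb0 {p x : α → Fin n → K} {P X : Fin n → K} {s : α → K}
    (h : ∀ i, Tendsto (fun q => (p q i : Ω)) l (𝓝 (P i : Ω)))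
    (h' : ∀ i, Tendsto (fun q => (x q i : Ω)) l (𝓝 (X i : Ω)))
    (hs : Tendsto (fun q => (s q : Ω)) l (𝓝 0)) (i : Fin n) :
    Tendsto (fun q => ((p q + s q • x q) i : Ω)) l (𝓝 (P i : Ω)) := by
  have h1 := lb_comb h h' (c := 0) (by simpa using hs) i
  simpa using h1

omit [CharZero k] [IsAlgClosed Ω] in
/-- A constant family. -/
theorem lb_const (P : Fin n → K) (i : Fin n) :
    Tendsto (fun _ : α => (P i : Ω)) l (𝓝 (P i : Ω)) := tendsto_const_nhds

end

/-- A nonzero minor. -/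
theorem lb_ind {E : Type*} [Field E] {p x : Fin n → E} {i j : Fin n}
    (h : p i * x j - p j * x i ≠ 0) : LinearIndependent E ![p, x] := by
  rw [LinearIndependent.pair_iff]
  intro s t hst
  have h1 := congrFun hst i
  have h2 := congrFun hst j
  simp only [Pi.add_apply, Pi.smul_apply, smul_eq_mul, Pi.zero_apply] at h1 h2
  constructor
  · refine (mul_eq_zero.1 (?_ : s * (p i * x j - p j * x i) = 0)).resolve_right h
    linear_combination x j * h1 - x i * h2
  · refine (mul_eq_zero.1 (?_ : t * (p i * x j - p j * x i) = 0)).resolve_right h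
    linear_combination p i * h2 - p j * h1

/-- A vector orthogonal to the first vector of a line, and not to the second one. -/
theorem lb_third {E : Type*} [Field E] [Algebra k E] {a b : E} (hnd : ND A B a b)
    {p x g : Fin n → E} (hi : LinearIndependent E ![p, x]) (hg : mB A B a b p g ≠ 0) :
    ∃ y : Fin n → E, mB A B a b p y = 0 ∧ mB A B a b x y ≠ 0 := by
  have hv : x + (-(mB A B a b x g / mB A B a b p g)) • p ≠ 0 := by
    intro h0
    rw [LinearIndependent.pair_iff] at hi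
    have h1 := hi (-(mB A B a b x g / mB A B a b p g)) 1 (by
      rw [one_smul, add_comm]
      exact h0)
    exact one_ne_zero h1.2
  obtain ⟨y, hy⟩ := hnd _ hv
  refine ⟨y + (-(mB A B a b p y / mB A B a b p g)) • g, ?_, ?_⟩
  · rw [mB_add_right, mB_smul_right]
    field_simp
    ring
  · rw [mB_add, mB_smul] at hy
    rw [mB_add_right, mB_smul_right]
    intro h1
    apply hy
    rw [← h1]
    field_simp

/-- A near line on a near member. Proof: let `g` with `mB a b p g ≠ 0`. (1) `Lc.solve` for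
`mQ a' b' (p + s g) = 0`: `c₀ = mQ a' b' p` tends to `0`, `c₁ = mB a' b' p g` to `mB a b p g ≠ 0`. So
`p' = p + s g`. (2) `x'' = x - (mB a' b' p' x / mB a' b' p' g) g` is orthogonal to `p'` and tends to
`x`. Let `g₃` with `mB a b p g₃ = 0`, `mB a b x g₃ ≠ 0` (`ND`, `p`, `x` independent), and
`g'' = g₃ - (mB a' b' p' g₃ / mB a' b' p' g) g`, orthogonal to `p'`, tends to `g₃`. `Lc.solve` for
`mQ a' b' (x'' + s g'') = 0`; `x' = x'' + s g''`. (3) Independence is an open condition (a minor). The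
tensor `tn H p' x'` is not `0`: `qv H p' ≠ 0`, `tn_ne_zero`. -/
theorem line_near_aux (h : Lc k Ω) (K : IntermediateField k Ω) {a b : K} (hnd : ND A B a b)
    {p x : Fin n → K} {t : ℙ K (Fin (n * n) → K)} (hL : Lm A B a b p x t)
    {H : Matrix (Fin n) (Fin n) k} (hH : H = A ∨ H = B) (hp : qv H p ≠ 0) {a' b' : α → K}
    (ha : Tendsto (fun q => (a' q : Ω)) l (𝓝 (a : Ω)))
    (hb : Tendsto (fun q => (b' q : Ω)) l (𝓝 (b : Ω))) :
    ∃ p' x' : α → Fin n → K, (∀ i, Tendsto (fun q => (p' q i : Ω)) l (𝓝 (p i : Ω))) ∧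
      (∀ i, Tendsto (fun q => (x' q i : Ω)) l (𝓝 (x i : Ω))) ∧
      ∀ᶠ q in l, ∃ t', Lm A B (a' q) (b' q) (p' q) (x' q) t' ∧ qv H (p' q) ≠ 0 := by
  have coe0 : ∀ {c : K}, c ≠ 0 → (c : Ω) ≠ 0 := fun hc h0 => hc (Subtype.ext h0)
  obtain ⟨g, hg⟩ := hnd p (hL.ind.ne_zero 0)
  obtain ⟨g₃, hg3, hg3'⟩ := lb_third hnd hL.ind hg
  -- (1) the first vector
  obtain ⟨s, hs, hs'⟩ := h.solve K (c₀ := fun q => mQ A B (a' q) (b' q) p)
    (c₁ := fun q => mB A B (a' q) (b' q) p g) (c₂ := fun q => mQ A B (a' q) (b' q) g)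
    (by
      have h1 := lb_mQ (A := A) (B := B) ha hb (lb_const (l := l) p)
      rwa [hL.qp] at h1)
    (lb_mB (A := A) (B := B) ha hb (lb_const p) (lb_const g)) (coe0 hg)
    (lb_mQ (A := A) (B := B) ha hb (lb_const g))
  have tp : ∀ i, Tendsto (fun q => ((p + s q • g) i : Ω)) l (𝓝 (p i : Ω)) :=
    lb_comb0 (lb_const p) (lb_const g) hs
  have hqp : ∀ᶠ q in l, mQ A B (a' q) (b' q) (p + s q • g) = 0 := by
    filter_upwards [hs'] with q hq
    rw [mQ_add, mB_smul_right, mQ_smul]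
    linear_combination hq
  -- (2) the denominator
  have tpg := lb_mB (A := A) (B := B) ha hb tp (lb_const (l := l) g)
  have hpg : ∀ᶠ q in l, mB A B (a' q) (b' q) (p + s q • g) g ≠ 0 := by
    filter_upwards [tpg.eventually_ne (coe0 hg)] with q hq h0
    apply hq
    rw [h0]
    rfl
  -- the corrections
  have corr : ∀ y : Fin n → K, mB A B a b p y = 0 →
      (∀ i, Tendsto (fun q => ((y + (-(mB A B (a' q) (b' q) (p + s q • g) y /
        mB A B (a' q) (b' q) (p + s q • g) g)) • g) i : Ω)) l (𝓝 (y i : Ω))) ∧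
      ∀ᶠ q in l, mB A B (a' q) (b' q) (p + s q • g) (y + (-(mB A B (a' q) (b' q) (p + s q • g) y /
        mB A B (a' q) (b' q) (p + s q • g) g)) • g) = 0 := by
    intro y hy
    constructor
    · refine lb_comb0 (lb_const y) (lb_const g) ?_
      have h1 := ((lb_mB (A := A) (B := B) ha hb tp (lb_const (l := l) y)).div tpg (coe0 hg)).neg
      rw [hy] at h1
      have h2 : -(((0 : K) : Ω) / ((mB A B a b p g : K) : Ω)) = 0 := by
        rw [ZeroMemClass.coe_zero, zero_div, neg_zero]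
      rw [h2] at h1
      exact h1
    · filter_upwards [hpg] with q hq
      rw [mB_add_right, mB_smul_right]
      field_simp
      ring
  obtain ⟨tx, hx⟩ := corr x hL.b
  obtain ⟨tg, hg''⟩ := corr g₃ hg3
  set x'' : α → Fin n → K := fun q => x + (-(mB A B (a' q) (b' q) (p + s q • g) x /
    mB A B (a' q) (b' q) (p + s q • g) g)) • g with hx''
  set g' : α → Fin n → K := fun q => g₃ + (-(mB A B (a' q) (b' q) (p + s q • g) g₃ /
    mB A B (a' q) (b' q) (p + s q • g) g)) • g with hg'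
  -- the second vector
  obtain ⟨r, hr, hr'⟩ := h.solve K (c₀ := fun q => mQ A B (a' q) (b' q) (x'' q))
    (c₁ := fun q => mB A B (a' q) (b' q) (x'' q) (g' q))
    (c₂ := fun q => mQ A B (a' q) (b' q) (g' q))
    (by
      have h1 := lb_mQ (A := A) (B := B) ha hb tx
      rwa [hL.qx] at h1)
    (lb_mB (A := A) (B := B) ha hb tx tg) (coe0 hg3')
    (lb_mQ (A := A) (B := B) ha hb tg)
  have tx' : ∀ i, Tendsto (fun q => ((x'' q + r q • g' q) i : Ω)) l (𝓝 (x i : Ω)) :=
    lb_comb0 tx tg hr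
  have hqx : ∀ᶠ q in l, mQ A B (a' q) (b' q) (x'' q + r q • g' q) = 0 := by
    filter_upwards [hr'] with q hq
    rw [mQ_add, mB_smul_right, mQ_smul]
    linear_combination hq
  have hpx : ∀ᶠ q in l, mB A B (a' q) (b' q) (p + s q • g) (x'' q + r q • g' q) = 0 := by
    filter_upwards [hx, hg''] with q h1 h2
    have h1' : mB A B (a' q) (b' q) (p + s q • g) (x'' q) = 0 := h1
    have h2' : mB A B (a' q) (b' q) (p + s q • g) (g' q) = 0 := h2
    rw [mB_add_right, mB_smul_right, h1', h2', mul_zero, add_zero]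
  -- (3) independence and the form
  obtain ⟨i, j, hij⟩ := exists_minor hL.ind
  have hmin : ∀ᶠ q in l, (p + s q • g) i * (x'' q + r q • g' q) j -
      (p + s q • g) j * (x'' q + r q • g' q) i ≠ 0 := by
    have h1 := ((tp i).mul (tx' j)).sub ((tp j).mul (tx' i))
    have h2 : ((p i : Ω) * (x j : Ω) - (p j : Ω) * (x i : Ω)) ≠ 0 :=
      coe0 (c := p i * x j - p j * x i) (sub_ne_zero.2 hij)
    filter_upwards [h1.eventually_ne h2] with q hq h0
    apply hq
    have h3 := congrArg (fun z : K => (z : Ω)) h0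
    exact h3
  have hqH : ∀ᶠ q in l, qv H (p + s q • g) ≠ 0 := by
    filter_upwards [(tendsto_qv H tp).eventually_ne (coe0 hp)] with q hq h0
    apply hq
    rw [h0]
    rfl
  refine ⟨fun q => p + s q • g, fun q => x'' q + r q • g' q, tp, tx', ?_⟩
  filter_upwards [hqp, hqx, hpx, hmin, hqH] with q h1 h2 h3 h4 h5
  exact ⟨_, ⟨lb_ind h4, h1, h2, h3, H, hH, tn_ne_zero (lb_ind h4) h5, rfl⟩, h5⟩

end Dp
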