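import Pool.Agent.Lib.MP_f80667_ag.Dp.NearP

/-! The class for near polynomials. -/

open Polynomial IntermediateField Filter Topology
open scoped LinearAlgebra.Projectivization

namespace Dp

open ZC Tq

universe u

variable {k : Type u} [Field k] [CharZero k] {Ω : Type u} [NormedField Ω] [Algebra k Ω]
  [IsAlgClosure k Ω] {n : ℕ} {A B : Matrix (Fin n) (Fin n) k}

section aux

/-- A lower bound of finitely many positive numbers. -/
theorem nearQ_pos {ι : Type*} [Finite ι] (f : ι → ℝ) (hf : ∀ i, 0 < f i) :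
    ∃ ε > 0, ∀ i, ε ≤ f i := by
  have h1 : ∀ᶠ ε in 𝓝[>] (0 : ℝ), ∀ i, ε ≤ f i :=
    eventually_all.2 fun i => by
      filter_upwards [Ioc_mem_nhdsGT (hf i)] with ε hε using hε.2
  have h2 : ∀ᶠ ε in 𝓝[>] (0 : ℝ), 0 < ε := self_mem_nhdsWithin
  obtain ⟨ε, hε, hε'⟩ := (h2.and h1).exists
  exact ⟨ε, hε, hε'⟩

/-- The embedding of a simple extension given by a root. -/
theorem nearQ_emb {F M L : Type*} [Field F] [Field M] [Algebra F M] [FiniteDimensional F M]
    [Field L] [Algebra F L] {α : M} (hα : F⟮α⟯ = ⊤) {β : L} (hβ : aeval β (minpoly F α) = 0) :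
    ∃ s : M →ₐ[F] L, s α = β := by
  have hint : IsIntegral F α := Algebra.IsIntegral.isIntegral α
  have h0 : minpoly F α ≠ 0 := minpoly.ne_zero hint
  let e : F⟮α⟯ ≃ₐ[F] M := (IntermediateField.equivOfEq hα).trans IntermediateField.topEquiv
  let σ : F⟮α⟯ →ₐ[F] L := (IntermediateField.algHomAdjoinIntegralEquiv F hint).symm
    ⟨β, by rw [Polynomial.mem_aroots]; exact ⟨h0, hβ⟩⟩
  have hσ : σ (AdjoinSimple.gen F α) = β :=
    IntermediateField.algHomAdjoinIntegralEquiv_symm_apply_gen F hint _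
  have he : e (AdjoinSimple.gen F α) = α := rfl
  refine ⟨σ.comp (e.symm : M →ₐ[F] F⟮α⟯), ?_⟩
  have h1 : e.symm α = AdjoinSimple.gen F α := by
    rw [AlgEquiv.symm_apply_eq, he]
  show σ (e.symm α) = β
  rw [h1, hσ]

end aux

omit [CharZero k] in
/-- Embeddings preserve the norm. -/
theorem nearQ_norm (h : Lc k Ω) {K : IntermediateField k Ω} (τ : K →ₐ[k] Ω) (z : K) :
    ‖τ z‖ = ‖(z : Ω)‖ := by
  have : Algebra.IsAlgebraic k Ω := IsAlgClosure.isAlgebraic
  have : IsAlgClosed Ω := IsAlgClosure.isAlgClosed k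
  have : Normal k Ω := IsAlgClosure.normal k Ω
  have h1 : minpoly k (τ z) = minpoly k (z : Ω) := by
    rw [minpoly.algHom_eq τ τ.toRingHom.injective]
    exact (minpoly.algHom_eq K.val K.val.toRingHom.injective z).symm
  obtain ⟨σ, hσ⟩ := (Normal.minpoly_eq_iff_mem_orbit Ω).1 h1
  have h2 : σ (z : Ω) = τ z := hσ
  rw [← h2, h.inv]

omit [CharZero k] [IsAlgClosure k Ω] in
theorem nearQ_sum {M' : Type u} [Field M'] [Algebra k M'] [FiniteDimensional k M'] {m : ℕ}
    (t : ℙ M' (Fin (m * m) → M')) :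
    PhL (trPt k Ω t) = ∑ τ : M' →ₐ[k] Ω, Ph (mapPt (τ : M' →+* Ω) t) := by
  rw [trPt, map_sum]
  refine Finset.sum_congr rfl fun τ _ => ?_
  rw [PhL_single, one_smul]

/-- **The class for near polynomials.** Here `F` is a subfield of `k`, `M = F(α)` a finite extension,
`P` the minimal polynomial of `α` over `F`, considered over `k`. Proof: for every `j` let `y j` be the
root of `P` in `k⟮x j⟯` near `x j` and `s j : M →ₐ[F] k⟮x j⟯` the embedding with `α ↦ y j`. The
embeddings `M →ₐ[F] Ω` are the `τ ∘ s j`, `τ : k⟮x j⟯ →ₐ[k] Ω`, all different: if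
`τ (y j) = τ' (y i)` then `τ (x j)`, `τ' (x i)` are near the same root (`τ` extends to an automorphism
of `Ω`, so it preserves the norm), so they are equal, `x i` and `x j` are conjugate, `i = j`, and
`τ = τ'` (`k⟮x j⟯` is generated by `x j`); their number is `∑ [k⟮x j⟯ : k] = N = [M : F]`, the number of
embeddings of `M`. So the sum over the embeddings of `M` is `∑ j, PhL (trPt k Ω (mapPt (s j) t))`, and
`mapPt (s j) t` is the tensor of a line on the member `(1, -y j)` over `k⟮x j⟯` (`IsM.hom`, `Lm_mat`);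
`one_near`. -/
theorem dat_class (h : Lc k Ω) (hs : Sm Ω A B) (hn : 6 ≤ n) {P₀ : k[X]}
    {z : ℙ Ω (Fin n → Ω) →₀ ℤ} (hD : Dat A B P₀ z) : ∃ δ > 0, ∀ P : k[X], P.Monic →
      P.natDegree = P₀.natDegree →
      (∀ i, ‖algebraMap k Ω (P.coeff i - P₀.coeff i)‖ < δ) →
      ∀ (F : Type u) [Field F] [Algebra F k] [Algebra F Ω] [IsScalarTower F k Ω] (M : Type u)
        [Field M] [Algebra F M] [FiniteDimensional F M] (α : M), F⟮α⟯ = ⊤ →
        (minpoly F α).map (algebraMap F k) = P → ∀ (A₀ B₀ : Matrix (Fin n) (Fin n) F),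
        A = A₀.map (algebraMap F k) → B = B₀.map (algebraMap F k) →
        ∀ t : ℙ M (Fin (n * n) → M), IsM A₀ B₀ 1 (-α) t →
          ∑ s : M →ₐ[F] Ω, Ph (mapPt (s : M →+* Ω) t) - z ∈ ratEq Ω (Pl A B) := by
  have : Algebra.IsAlgebraic k Ω := IsAlgClosure.isAlgebraic
  have : IsAlgClosed Ω := IsAlgClosure.isAlgClosed k
  have hmon := hD.monic
  have hsep := hD.separable
  obtain ⟨m, x, t, hinj, hP₀, hR, hz⟩ := hD
  have hroot : ∀ j, aeval (x j) P₀ = 0 := by
    intro j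
    rw [hP₀, map_prod]
    exact Finset.prod_eq_zero (Finset.mem_univ j) (minpoly.aeval k (x j))
  have hgen : ∀ j, aeval (AdjoinSimple.gen k (x j)) P₀ = 0 := by
    intro j
    apply (algebraMap k⟮x j⟯ Ω).injective
    rw [← aeval_algebraMap_apply, map_zero, AdjoinSimple.algebraMap_gen]
    exact hroot j
  choose ε hε hnear using fun j => one_near h hs hn (hR j)
  -- the distances of the roots
  have hRfin : Finite (P₀.rootSet Ω) := (Polynomial.rootSet_finite P₀ Ω).to_subtype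
  obtain ⟨ρ, hρ, hρ'⟩ := nearQ_pos (ι := {p : P₀.rootSet Ω × P₀.rootSet Ω // p.1 ≠ p.2})
    (fun p => ‖((p.1.1 : Ω) - (p.1.2 : Ω))‖)
    (fun p => norm_pos_iff.2 (sub_ne_zero.2 fun h0 => p.2 (Subtype.ext h0)))
  have hρ2 : ∀ a b : Ω, aeval a P₀ = 0 → aeval b P₀ = 0 → ‖a - b‖ < ρ → a = b := by
    intro a b ha hb hab
    by_contra hne
    have ha' : a ∈ P₀.rootSet Ω := (mem_rootSet_of_ne hmon.ne_zero).2 ha
    have hb' : b ∈ P₀.rootSet Ω := (mem_rootSet_of_ne hmon.ne_zero).2 hb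
    exact absurd (hρ' ⟨(⟨a, ha'⟩, ⟨b, hb'⟩), fun h0 => hne (congrArg Subtype.val h0)⟩)
      (not_le.2 hab)
  obtain ⟨ε₁, hε₁, hε₁'⟩ := nearQ_pos ε hε
  have hε₀ : 0 < min ε₁ (ρ / 2) := lt_min hε₁ (half_pos hρ)
  choose δ hδ hδ' using fun j => root_near h P₀ hmon rfl hsep (hroot j) hε₀
  obtain ⟨δ₀, hδ₀, hδ₀'⟩ := nearQ_pos δ hδ
  refine ⟨δ₀, hδ₀, fun P hP hdeg hPP F _ _ _ _ M _ _ _ α hα hmin A₀ B₀ hA hB t' ht' => ?_⟩
  have hy : ∀ j, ∃ y : k⟮x j⟯, aeval y P = 0 ∧ ‖(y : Ω) - x j‖ < min ε₁ (ρ / 2) := by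
    intro j
    obtain ⟨x', hx', h1, h2⟩ := hδ' j P hP hdeg (fun i => (hPP i).trans_le (hδ₀' j))
    refine ⟨⟨x', hx'⟩, ?_, h2⟩
    apply (algebraMap k⟮x j⟯ Ω).injective
    rw [← aeval_algebraMap_apply, map_zero]
    exact h1
  choose y hy1 hy2 using hy
  have hya : ∀ j, aeval (y j) (minpoly F α) = 0 := by
    intro j
    have h1 := hy1 j
    rw [← hmin, aeval_map_algebraMap] at h1
    exact h1
  choose s hs' using fun j => nearQ_emb hα (hya j)
  have : CharZero F := (algebraMap F k).charZero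
  have hnorm : ∀ (j : Fin m) (τ : k⟮x j⟯ →ₐ[k] Ω),
      ‖τ (y j) - τ (AdjoinSimple.gen k (x j))‖ < ρ / 2 := by
    intro j τ
    rw [← map_sub, nearQ_norm h]
    exact (hy2 j).trans_le (min_le_right _ _)
  have hgroot : ∀ (j : Fin m) (τ : k⟮x j⟯ →ₐ[k] Ω),
      aeval (τ (AdjoinSimple.gen k (x j))) P₀ = 0 := by
    intro j τ
    rw [aeval_algHom_apply, hgen, map_zero]
  have hmp : ∀ (j : Fin m) (τ : k⟮x j⟯ →ₐ[k] Ω),
      minpoly k (τ (AdjoinSimple.gen k (x j))) = minpoly k (x j) := by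
    intro j τ
    rw [minpoly.algHom_eq τ τ.toRingHom.injective]
    exact minpoly_gen k (x j)
  -- the embeddings of `M`
  let Φ : (Σ j, (k⟮x j⟯ →ₐ[k] Ω)) → (M →ₐ[F] Ω) :=
    fun p => (p.2.restrictScalars F).comp (s p.1)
  have hΦ : Function.Bijective Φ := by
    rw [Fintype.bijective_iff_injective_and_card]
    constructor
    · rintro ⟨i, τ⟩ ⟨j, τ'⟩ hij
      have h1 : τ (y i) = τ' (y j) := by
        have h2 : τ (s i α) = τ' (s j α) := DFunLike.congr_fun hij α
        rwa [hs', hs'] at h2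
      have h3 : τ (AdjoinSimple.gen k (x i)) = τ' (AdjoinSimple.gen k (x j)) := by
        refine hρ2 _ _ (hgroot i τ) (hgroot j τ') ?_
        have n1 := hnorm i τ
        have n2 := hnorm j τ'
        have n3 : τ (AdjoinSimple.gen k (x i)) - τ' (AdjoinSimple.gen k (x j)) =
            (τ' (y j) - τ' (AdjoinSimple.gen k (x j))) -
              (τ (y i) - τ (AdjoinSimple.gen k (x i))) := by
          rw [h1]
          ring
        rw [n3]
        exact (norm_sub_le _ _).trans_lt (by linarith)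
      have h4 : i = j := by
        apply hinj
        rw [← hmp i τ, ← hmp j τ', h3]
      subst h4
      have h5 : τ = τ' := by
        refine IntermediateField.adjoin_algHom_ext k fun z hz' => ?_
        rw [Set.mem_singleton_iff] at hz'
        subst hz'
        exact h3
      rw [h5]
    · rw [Fintype.card_sigma, AlgHom.card F M Ω]
      have h1 : ∀ j, Fintype.card (k⟮x j⟯ →ₐ[k] Ω) = (minpoly k (x j)).natDegree := by
        intro j
        rw [AlgHom.card k k⟮x j⟯ Ω]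
        exact adjoin.finrank (Algebra.IsIntegral.isIntegral (x j))
      rw [Finset.sum_congr rfl fun j _ => h1 j, ← natDegree_prod_of_monic _ _
        (fun j _ => minpoly.monic (Algebra.IsIntegral.isIntegral (x j))), ← hP₀, ← hdeg, ← hmin,
        natDegree_map]
      exact (Field.primitive_element_iff_minpoly_natDegree_eq F α).1 hα
  have hsum : ∑ u : M →ₐ[F] Ω, Ph (mapPt (u : M →+* Ω) t') =
      ∑ j, PhL (trPt k Ω (mapPt (s j : M →+* k⟮x j⟯) t')) := by
    rw [← hΦ.sum_comp (fun u : M →ₐ[F] Ω => Ph (mapPt (u : M →+* Ω) t')), Fintype.sum_sigma]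
    refine Finset.sum_congr rfl fun j _ => ?_
    rw [nearQ_sum]
    refine Finset.sum_congr rfl fun τ _ => ?_
    rw [mapPt_comp]
    rfl
  have hM : ∀ j, IsM A B 1 (-(y j)) (mapPt (s j : M →+* k⟮x j⟯) t') := by
    intro j
    have h1 := ht'.hom (s j)
    rw [map_one, map_neg, hs' j] at h1
    obtain ⟨p, q, hL⟩ := h1
    refine ⟨p, q, ?_⟩
    rw [hA, hB]
    exact Lm_mat.2 hL
  have hcls : ∀ j, PhL (trPt k Ω (mapPt (s j : M →+* k⟮x j⟯) t')) - PhL (trPt k Ω (t j)) ∈
      ratEq Ω (Pl A B) := fun j =>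
    (hnear j (y j) ((hy2 j).trans_le ((min_le_left _ _).trans (hε₁' j)))).2.2 _ (hM j)
  rw [hsum]
  have h3 := (ratEq Ω (Pl A B)).sub_mem (sum_mem fun j (_ : j ∈ Finset.univ) => hcls j) hz
  convert h3 using 1
  rw [Finset.sum_sub_distrib]
  abel

end Dp
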