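import Pool.Agent.Lib.MP_f80667_ag.Dp.NearQ
import Pool.Agent.Lib.MP_f80667_ag.Dp.RepA

/-! The local theorems in terms of an absolute value. -/

open Polynomial IntermediateField
open scoped LinearAlgebra.Projectivization

namespace Dp

open ZC Tq

universe u

/-- `Lc` for an absolute value. -/
structure LcV (k Ω : Type u) [Field k] [Field Ω] [Algebra k Ω] (ν : AbsoluteValue Ω ℝ) : Prop where
  inv : ∀ (σ : Ω ≃ₐ[k] Ω) (x : Ω), ν (σ x) = ν x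
  small : ∀ ε : ℝ, 0 < ε → ∃ x : k, x ≠ 0 ∧ ν (algebraMap k Ω x) < ε
  sqrt : ∀ ε : ℝ, 0 < ε → ∃ δ > 0, ∀ (K : IntermediateField k Ω) (x : Ω), x ∈ K → ν (x - 1) < δ →
    ∃ y ∈ K, y ^ 2 = x ∧ ν (y - 1) < ε

variable {k : Type u} [Field k] {Ω : Type u} [Field Ω] [Algebra k Ω] {ν : AbsoluteValue Ω ℝ}

theorem LcV.lc (h : LcV k Ω ν) :
    letI : NormedField Ω := ν.toNormedField
    Lc k Ω :=
  letI : NormedField Ω := ν.toNormedField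
  { inv := h.inv
    small := h.small
    sqrt := h.sqrt }

variable [CharZero k] [IsAlgClosure k Ω] {n : ℕ} {A B : Matrix (Fin n) (Fin n) k}

theorem LcV.exists_rep (h : LcV k Ω ν) (hs : Sm Ω A B) (hn : 6 ≤ n)
    {z₀ : ℙ Ω (Fin n → Ω) →₀ ℤ} (h2 : Atom A B 2 z₀) (z : ℙ Ω (Fin n → Ω) →₀ ℤ)
    (hz : z ∈ cyc0 Ω (Pl A B)) :
    ∃ N₀ : ℕ, ∀ N, N₀ ≤ N → Even N → ∃ (P₁ P₂ : k[X]) (z₁ z₂ : ℙ Ω (Fin n → Ω) →₀ ℤ),
      P₁.natDegree = N ∧ P₂.natDegree = N ∧ Dat A B P₁ z₁ ∧ Dat A B P₂ z₂ ∧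
      z - (z₁ - z₂) ∈ ratEq Ω (Pl A B) :=
  letI : NormedField Ω := ν.toNormedField
  Dp.exists_rep h.lc hs hn h2 z hz

theorem LcV.atom_of (h : LcV k Ω ν) (hs : Sm Ω A B) (hn : 6 ≤ n) {M : Type u} [Field M]
    [Algebra k M] [FiniteDimensional k M] {a b : M} (hnd : ND A B a b)
    {t : ℙ M (Fin (n * n) → M)} (ht : IsM A B a b t) :
    Atom A B (Module.finrank k M) (PhL (trPt k Ω t)) :=
  letI : NormedField Ω := ν.toNormedField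
  Dp.atom_of h.lc hs hn hnd ht

theorem LcV.dat_lines (h : LcV k Ω ν) (hs : Sm Ω A B) (hn : 6 ≤ n) {P₀ : k[X]}
    {z : ℙ Ω (Fin n → Ω) →₀ ℤ} (hD : Dat A B P₀ z) : ∃ δ > 0, ∀ P : k[X], P.Monic →
      P.natDegree = P₀.natDegree →
      (∀ i, ν (algebraMap k Ω (P.coeff i - P₀.coeff i)) < δ) →
      ∀ y : Ω, aeval y P = 0 → ∃ t, Root A B y t :=
  letI : NormedField Ω := ν.toNormedField
  Dp.dat_lines h.lc hs hn hD

theorem LcV.dat_class (h : LcV k Ω ν) (hs : Sm Ω A B) (hn : 6 ≤ n) {P₀ : k[X]}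
    {z : ℙ Ω (Fin n → Ω) →₀ ℤ} (hD : Dat A B P₀ z) : ∃ δ > 0, ∀ P : k[X], P.Monic →
      P.natDegree = P₀.natDegree →
      (∀ i, ν (algebraMap k Ω (P.coeff i - P₀.coeff i)) < δ) →
      ∀ (F : Type u) [Field F] [Algebra F k] [Algebra F Ω] [IsScalarTower F k Ω] (M : Type u)
        [Field M] [Algebra F M] [FiniteDimensional F M] (α : M), F⟮α⟯ = ⊤ →
        (minpoly F α).map (algebraMap F k) = P → ∀ (A₀ B₀ : Matrix (Fin n) (Fin n) F),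
        A = A₀.map (algebraMap F k) → B = B₀.map (algebraMap F k) →
        ∀ t : ℙ M (Fin (n * n) → M), IsM A₀ B₀ 1 (-α) t →
          ∑ s : M →ₐ[F] Ω, Ph (mapPt (s : M →+* Ω) t) - z ∈ ratEq Ω (Pl A B) :=
  letI : NormedField Ω := ν.toNormedField
  Dp.dat_class h.lc hs hn hD

end Dp
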