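import Pool.Agent.Lib.MP_f80667_ag.Dp.PtNear

/-! The class of a point of `X` is locally constant. -/

open Filter Topology
open scoped LinearAlgebra.Projectivization

namespace Dp

open ZC Tq

universe u

/-- Two functionals which do not vanish are both nonzero at a common vector. -/
theorem ptc_two {E V : Type*} [Field E] [AddCommGroup V] [Module E V] (f g : V →ₗ[E] E)
    (hf : ∃ x, f x ≠ 0) (hg : ∃ x, g x ≠ 0) : ∃ x, f x ≠ 0 ∧ g x ≠ 0 := by
  obtain ⟨x, hx⟩ := hf
  obtain ⟨y, hy⟩ := hg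
  by_cases h1 : g x = 0
  · by_cases h2 : f y = 0
    · refine ⟨x + y, ?_, ?_⟩
      · rw [map_add, h2, add_zero]
        exact hx
      · rw [map_add, h1, zero_add]
        exact hy
    · exact ⟨y, h2, hy⟩
  · exact ⟨x, hx, h1⟩

/-- A functional which vanishes on the kernel of another one is a multiple of it. -/
theorem ptc_mul {E V : Type*} [Field E] [AddCommGroup V] [Module E V] (f g : V →ₗ[E] E)
    (h : ∀ x, f x = 0 → g x = 0) : ∃ c : E, ∀ x, g x = c * f x := by
  by_cases hf : ∃ x, f x ≠ 0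
  · obtain ⟨x, hx⟩ := hf
    refine ⟨g x / f x, fun y => ?_⟩
    have h1 := h (y - (f y / f x) • x) (by
      rw [map_sub, map_smul, smul_eq_mul, div_mul_cancel₀ _ hx, sub_self])
    rw [map_sub, map_smul, smul_eq_mul, sub_eq_zero] at h1
    rw [h1]
    ring
  · push Not at hf
    exact ⟨0, fun y => by rw [zero_mul]; exact h y (hf y)⟩

section field

variable {k : Type u} [Field k] [CharZero k] {Ω : Type u} [Field Ω] [Algebra k Ω]
  [IsAlgClosed Ω] {n : ℕ} {A B : Matrix (Fin n) (Fin n) k} {M : Type u} [Field M] [Algebra k M]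

/-- A second point on the member which contains a tangent line. -/
theorem ptc_exists (hs : Sm Ω A B) (σ : M →ₐ[k] Ω) {a b : M} (hab : a ≠ 0 ∨ b ≠ 0)
    (hnd : ND A B a b) {P u : Fin n → M} (hT : Tg A B a b P u) :
    ∃ R : Fin n → M, Zer (Pl A B) M R ∧ (bv A P R ≠ 0 ∨ bv B P R ≠ 0) ∧ mB A B a b P R = 0 := by
  -- the matrix `H`
  obtain ⟨H, hH, hu, hHP, hHu⟩ : ∃ H, (H = A ∨ H = B) ∧ qv H u ≠ 0 ∧ qv H P = 0 ∧
      bv H P u = 0 := by
    by_cases hA : qv A u = 0
    · exact ⟨B, Or.inr rfl, fun hB => hT.nu ⟨hA, hB⟩, hT.bP, hT.bPu⟩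
    · exact ⟨A, Or.inl rfl, hA, hT.aP, hT.aPu⟩
  have hqu : a * qv A u + b * qv B u = 0 := hT.qu
  -- the two functionals do not vanish on the orthogonal space of `P`
  obtain ⟨y, hy1, hy2⟩ := ptc_two
    ((mBl A B a b u).comp (LinearMap.ker (mBl A B a b P)).subtype)
    ((bvl H P).comp (LinearMap.ker (mBl A B a b P)).subtype) (by
      by_contra hcon
      push Not at hcon
      obtain ⟨c, hc⟩ := ptc_mul (mBl A B a b P) (mBl A B a b u) (fun x hx => hcon ⟨x, hx⟩)
      have h1 : u + (-c) • P = 0 := by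
        by_contra h2
        obtain ⟨y, hy⟩ := hnd _ h2
        apply hy
        rw [mB_add, mB_smul]
        have h3 := hc y
        rw [mBl_apply, mBl_apply] at h3
        rw [h3]
        ring
      have h2 : u = c • P := by
        rw [neg_smul, ← sub_eq_add_neg, sub_eq_zero] at h1
        exact h1
      apply hu
      rw [h2, qv_smul, hHP, mul_zero]) (by
      by_contra hcon
      push Not at hcon
      obtain ⟨c, hc⟩ := ptc_mul (mBl A B a b P) (bvl H P) (fun x hx => hcon ⟨x, hx⟩)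
      have hc' : ∀ y, bv H P y = c * (a * bv A P y + b * bv B P y) := hc
      rcases hH with rfl | rfl
      · obtain ⟨z1, z2⟩ := sm_pt hs σ hT.hP hT.aP hT.bP (a := 1 - c * a) (b := -(c * b))
          (fun y => by
            rw [mB]
            linear_combination hc' y)
        have h1 : c * a = 1 := by linear_combination -z1
        have h2 : c * b = 0 := by linear_combination -z2
        have h3 : c ≠ 0 := by
          rintro rfl
          rw [zero_mul] at h1
          exact zero_ne_one h1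
        have h4 := (mul_eq_zero.1 h2).resolve_left h3
        have h5 : a ≠ 0 := by
          rintro rfl
          rw [mul_zero] at h1
          exact zero_ne_one h1
        rw [h4, zero_mul, add_zero] at hqu
        exact hu ((mul_eq_zero.1 hqu).resolve_left h5)
      · obtain ⟨z1, z2⟩ := sm_pt hs σ hT.hP hT.aP hT.bP (a := -(c * a)) (b := 1 - c * b)
          (fun y => by
            rw [mB]
            linear_combination hc' y)
        have h1 : c * b = 1 := by linear_combination -z2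
        have h2 : c * a = 0 := by linear_combination -z1
        have h3 : c ≠ 0 := by
          rintro rfl
          rw [zero_mul] at h1
          exact zero_ne_one h1
        have h4 := (mul_eq_zero.1 h2).resolve_left h3
        have h5 : b ≠ 0 := by
          rintro rfl
          rw [mul_zero] at h1
          exact zero_ne_one h1
        rw [h4, zero_mul, zero_add] at hqu
        exact hu ((mul_eq_zero.1 hqu).resolve_left h5))
  obtain ⟨y, hyP⟩ := y
  change mB A B a b u y ≠ 0 at hy1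
  change bv H P y ≠ 0 at hy2
  change mB A B a b P y = 0 at hyP
  have hPu : mB A B a b P u = 0 := by
    rw [mB, hT.aPu, hT.bPu]
    ring
  have hx0 : mQ A B a b (px A B a b u y) = 0 := px_zero hT.qu y
  have hxP : mB A B a b P (px A B a b u y) = 0 := px_perp hPu hyP
  refine ⟨pW H P (px A B a b u y), pW_zer hab hH hT hu hx0 hxP, ?_, ?_⟩
  · have h1 : bv H P (pW H P (px A B a b u y)) = -(mB A B a b u y * bv H P y) ^ 2 := by
      rw [pW, sub_eq_add_neg, ← neg_smul, bv_add_right, bv_smul_right, bv_smul_right, bv_self, hHP,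
        px, sub_eq_add_neg, ← neg_smul, bv_add_right, bv_smul_right, bv_smul_right, hHu]
      ring
    have h2 : bv H P (pW H P (px A B a b u y)) ≠ 0 := by
      rw [h1]
      exact neg_ne_zero.2 (pow_ne_zero 2 (mul_ne_zero hy1 hy2))
    rcases hH with rfl | rfl
    · exact Or.inl h2
    · exact Or.inr h2
  · rw [pW, sub_eq_add_neg, ← neg_smul, mB_add_right, mB_smul_right, mB_smul_right, hxP, mB_self,
      mQ, hT.aP, hT.bP]
    ring

end field

section near

variable {k : Type u} [Field k] {Ω : Type u} [NormedField Ω] [Algebra k Ω] {n : ℕ}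
  {A B : Matrix (Fin n) (Fin n) k} {α : Type*} {l : Filter α}

/-- The members are continuous. -/
theorem ptc_mul_tendsto {K : IntermediateField k Ω} {f g : α → K} {x y : K}
    (hf : Tendsto (fun q => (f q : Ω)) l (𝓝 (x : Ω)))
    (hg : Tendsto (fun q => (g q : Ω)) l (𝓝 (y : Ω))) :
    Tendsto (fun q => ((f q * g q : K) : Ω)) l (𝓝 ((x * y : K) : Ω)) := by
  simpa only [IntermediateField.coe_mul] using hf.mul hg

theorem ptc_add_tendsto {K : IntermediateField k Ω} {f g : α → K} {x y : K}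
    (hf : Tendsto (fun q => (f q : Ω)) l (𝓝 (x : Ω)))
    (hg : Tendsto (fun q => (g q : Ω)) l (𝓝 (y : Ω))) :
    Tendsto (fun q => ((f q + g q : K) : Ω)) l (𝓝 ((x + y : K) : Ω)) := by
  simpa only [IntermediateField.coe_add] using hf.add hg

theorem ptc_neg_tendsto {K : IntermediateField k Ω} {f : α → K} {x : K}
    (hf : Tendsto (fun q => (f q : Ω)) l (𝓝 (x : Ω))) :
    Tendsto (fun q => ((-f q : K) : Ω)) l (𝓝 ((-x : K) : Ω)) := by
  simpa only [IntermediateField.coe_neg] using hf.neg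

theorem ptc_ne {K : IntermediateField k Ω} {f : α → K} {x : K}
    (hf : Tendsto (fun q => (f q : Ω)) l (𝓝 (x : Ω))) (hx : x ≠ 0) : ∀ᶠ q in l, f q ≠ 0 := by
  have h1 : (x : Ω) ≠ 0 := by
    intro h
    exact hx (by exact_mod_cast h)
  filter_upwards [hf.eventually_ne h1] with q hq h
  apply hq
  rw [h]
  rfl

end near

variable {k : Type u} [Field k] [CharZero k] {Ω : Type u} [NormedField Ω] [Algebra k Ω]
  [IsAlgClosed Ω] {n : ℕ} {A B : Matrix (Fin n) (Fin n) k} {α : Type*} {l : Filter α}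

theorem tendsto_mQ {K : IntermediateField k Ω} {a b : α → K} {a₀ b₀ : K} {p : α → Fin n → K}
    {P : Fin n → K} (ha : Tendsto (fun q => (a q : Ω)) l (𝓝 (a₀ : Ω)))
    (hb : Tendsto (fun q => (b q : Ω)) l (𝓝 (b₀ : Ω)))
    (h : ∀ i, Tendsto (fun q => (p q i : Ω)) l (𝓝 (P i : Ω))) :
    Tendsto (fun q => ((mQ A B (a q) (b q) (p q) : K) : Ω)) l (𝓝 ((mQ A B a₀ b₀ P : K) : Ω)) :=
  ptc_add_tendsto (ptc_mul_tendsto ha (tendsto_qv A h)) (ptc_mul_tendsto hb (tendsto_qv B h))

theorem tendsto_mB {K : IntermediateField k Ω} {a b : α → K} {a₀ b₀ : K} {p x : α → Fin n → K}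
    {P X : Fin n → K} (ha : Tendsto (fun q => (a q : Ω)) l (𝓝 (a₀ : Ω)))
    (hb : Tendsto (fun q => (b q : Ω)) l (𝓝 (b₀ : Ω)))
    (h : ∀ i, Tendsto (fun q => (p q i : Ω)) l (𝓝 (P i : Ω)))
    (h' : ∀ i, Tendsto (fun q => (x q i : Ω)) l (𝓝 (X i : Ω))) :
    Tendsto (fun q => ((mB A B (a q) (b q) (p q) (x q) : K) : Ω)) l
      (𝓝 ((mB A B a₀ b₀ P X : K) : Ω)) :=
  ptc_add_tendsto (ptc_mul_tendsto ha (tendsto_bv A h h')) (ptc_mul_tendsto hb (tendsto_bv B h h'))

/-- **The class of a point is locally constant.** Proof. By `exists_u` (with the empty set) there are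
`u`, `g`; let `(a, b) = (qv B u, -qv A u)`. There is `R` on `X` with `mB a b P R = 0`,
`bv A P R ≠ 0 ∨ bv B P R ≠ 0`: `R = pW H P (px u y)` for `H = A` or `B` with `qv H u ≠ 0` and `y` with
`mB a b P y = 0`, `mB a b u y ≠ 0`, `bv H P y ≠ 0` (two functionals which are not multiples of
`mB a b P`: `ND`, `sm_pt`); `bv H P R = - bv H P x ^ 2`, `bv H P x = mB u y * bv H P y`, `x = px u y`.
So `(a, b)` is a multiple of `(bv B P R, -bv A P R)` and `[P] = [R]` by `propT` (with the tangent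
vector `u`). For `P'` near `P` let `(a', b') = (bv B P' R, -bv A P' R)`, near `c (a, b)`, `c ≠ 0`, and
by `near_TP` `u''`, `g''` in `TP (P' q)` near `u`, `g`. `Lc.solve` for `mQ a' b' (u'' + s g'') = 0`
(`c₁ = mB a' b' u'' g''` tends to `c mB a b u g ≠ 0`). `u' = u'' + s g''` is a tangent vector at `P'`
near `u`, on the member `(a', b')`, not on `X`: `[P'] = [R]` by `propT`. -/
theorem pt_near (h : Lc k Ω) (hs : Sm Ω A B) (hn : 6 ≤ n) (K : IntermediateField k Ω)
    [FiniteDimensional k K] {P : Fin n → K} (hP : P ≠ 0) (zP : Zer (Pl A B) K P)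
    {P' : α → Fin n → K} (hl : ∀ i, Tendsto (fun q => (P' q i : Ω)) l (𝓝 (P i : Ω)))
    (hz : ∀ᶠ q in l, Zer (Pl A B) K (P' q)) :
    ∀ᶠ q in l, ∀ hq : P' q ≠ 0, trPt k Ω (Projectivization.mk K (P' q) hq) -
      trPt k Ω (Projectivization.mk K P hP) ∈ ratEq Ω (Pl A B) := by
  obtain ⟨u, g, hT, hnd, hg, hug, -⟩ := exists_u hs K.val hn hP zP ∅ (by simp)
  obtain ⟨a, ha⟩ : ∃ a : K, a = qv B u := ⟨_, rfl⟩
  obtain ⟨b, hb⟩ : ∃ b : K, b = -qv A u := ⟨_, rfl⟩
  rw [← ha, ← hb] at hT hnd hug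
  have hab : a ≠ 0 ∨ b ≠ 0 := by
    rw [ha, hb]
    by_cases hA : qv A u = 0
    · exact Or.inl fun hB => hT.nu ⟨hA, hB⟩
    · exact Or.inr (neg_ne_zero.2 hA)
  obtain ⟨R, zR, hPR, hPR0⟩ := ptc_exists hs K.val hab hnd hT
  obtain ⟨c, hc, hca, hcb⟩ := prop_of_mB hab hPR hPR0
  have hR : R ≠ 0 := by
    rintro rfl
    have hz : ∀ G : Matrix (Fin n) (Fin n) k, bv G P (0 : Fin n → K) = 0 := fun G => by
      have h1 := bv_smul_right (A := G) (0 : K) P (0 : Fin n → K)
      rwa [zero_smul, zero_mul] at h1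
    rcases hPR with h1 | h1
    · exact h1 (hz A)
    · exact h1 (hz B)
  have hQu : mQ A B (bv B P R) (-bv A P R) u = 0 := by
    have h1 := hT.qu
    rw [hca, hcb, mQ_scale] at h1
    exact (mul_eq_zero.1 h1).resolve_left hc
  have hBug : mB A B (bv B P R) (-bv A P R) u g ≠ 0 := by
    intro h1
    apply hug
    rw [hca, hcb, mB_scale, h1, mul_zero]
  have hPcl := propT (k := k) (Ω := Ω) hs (by omega : 5 ≤ n) hR zR hPR
    (u := u) ⟨hP, hT.aP, hT.bP, hT.aPu, hT.bPu, hQu, hT.nu⟩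
  -- the near points
  have tR : ∀ i, Tendsto (fun _ : α => (R i : Ω)) l (𝓝 (R i : Ω)) := fun i => tendsto_const_nhds
  have tA := tendsto_bv (l := l) A hl tR
  have tB := tendsto_bv (l := l) B hl tR
  have tA' := ptc_neg_tendsto tA
  obtain ⟨u₁, tu₁, hu₁⟩ := near_TP hs K hP zP hl (u := u) ⟨hT.aPu, hT.bPu⟩
  obtain ⟨g₁, tg₁, hg₁⟩ := near_TP hs K hP zP hl hg
  have t0 := tendsto_mQ (A := A) (B := B) tB tA' tu₁
  have t1 := tendsto_mB (A := A) (B := B) tB tA' tu₁ tg₁
  have t2 := tendsto_mQ (A := A) (B := B) tB tA' tg₁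
  rw [hQu] at t0
  have hBug' : ((mB A B (bv B P R) (-bv A P R) u g : K) : Ω) ≠ 0 := by
    intro h1
    exact hBug (by exact_mod_cast h1)
  obtain ⟨s, ts, hs'⟩ := h.solve K (by simpa using t0) t1 hBug' t2
  -- the tangent vector
  obtain ⟨w, hw⟩ : ∃ w : α → Fin n → K, w = fun q => u₁ q + s q • g₁ q := ⟨_, rfl⟩
  have tw : ∀ i, Tendsto (fun q => (w q i : Ω)) l (𝓝 (u i : Ω)) := by
    intro i
    have h1 : Tendsto (fun q => (s q : Ω)) l (𝓝 ((0 : K) : Ω)) := by simpa using ts
    have h2 := ptc_add_tendsto (tu₁ i) (ptc_mul_tendsto h1 (tg₁ i))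
    rw [zero_mul, add_zero] at h2
    rw [hw]
    exact h2
  have hwX : ∀ᶠ q in l, ¬ (qv A (w q) = 0 ∧ qv B (w q) = 0) := by
    by_cases hA : qv A u = 0
    · filter_upwards [ptc_ne (tendsto_qv B tw) fun hB => hT.nu ⟨hA, hB⟩] with q hq h1
      exact hq h1.2
    · filter_upwards [ptc_ne (tendsto_qv A tw) hA] with q hq h1
      exact hq h1.1
  have hPR' : ∀ᶠ q in l, bv A (P' q) R ≠ 0 ∨ bv B (P' q) R ≠ 0 := by
    rcases hPR with h1 | h1
    · filter_upwards [ptc_ne tA h1] with q hq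
      exact Or.inl hq
    · filter_upwards [ptc_ne tB h1] with q hq
      exact Or.inr hq
  filter_upwards [hz, hu₁, hg₁, hs', hwX, hPR'] with q zq huq hgq hsq hwq hRq hq
  obtain ⟨aq, bq⟩ := (zer_iff A B).1 zq
  have hwT : w q ∈ TP A B (P' q) := by
    rw [hw]
    exact Submodule.add_mem _ huq (Submodule.smul_mem _ _ hgq)
  have hwQ : mQ A B (bv B (P' q) R) (-bv A (P' q) R) (w q) = 0 := by
    have h1 : w q = (1 : K) • u₁ q + s q • g₁ q := by
      rw [hw, one_smul]
    rw [h1, mQ_lin]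
    linear_combination hsq
  have h2 := propT (k := k) (Ω := Ω) hs (by omega : 5 ≤ n) hR zR hRq
    (u := w q) ⟨hq, aq, bq, hwT.1, hwT.2, hwQ, hwq⟩
  have h3 := AddSubgroup.sub_mem _ hPcl h2
  have e : ∀ x y z : ℙ Ω (Fin n → Ω) →₀ ℤ, x - y - (x - z) = z - y := by
    intro x y z
    abel
  rwa [e] at h3

end Dp
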