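import Pool.Agent.Lib.MP_f80667_ag.Dp.Lc
import Pool.Agent.Lib.MP_f80667_ag.Dp.Tang
import Pool.Agent.Lib.MP_f80667_ag.Dp.Gen

/-! Continuity of the forms, tangent vectors at near points. -/

open Filter Topology
open scoped LinearAlgebra.Projectivization

namespace Dp

open ZC Tq

universe u

variable {k : Type u} [Field k] [CharZero k] {Ω : Type u} [NormedField Ω] [Algebra k Ω]
  [IsAlgClosed Ω] {n : ℕ} {A B : Matrix (Fin n) (Fin n) k} {α : Type*} {l : Filter α}

/-- The values of the forms are continuous. -/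
theorem tendsto_qv (H : Matrix (Fin n) (Fin n) k) {K : IntermediateField k Ω} {p : α → Fin n → K}
    {P : Fin n → K} (h : ∀ i, Tendsto (fun q => (p q i : Ω)) l (𝓝 (P i : Ω))) :
    Tendsto (fun q => ((qv H (p q) : K) : Ω)) l (𝓝 ((qv H P : K) : Ω)) := by
  have h1 : ∀ x : Fin n → K, ((qv H x : K) : Ω) = qv H (fun i => (x i : Ω)) := fun x =>
    (qv_hom K.val x).symm
  rw [h1 P]
  refine Tendsto.congr (fun q => (h1 (p q)).symm) ?_
  unfold qv
  exact tendsto_finsetSum _ fun i _ => tendsto_finsetSum _ fun j _ =>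
    tendsto_const_nhds.mul ((h i).mul (h j))

theorem tendsto_bv (H : Matrix (Fin n) (Fin n) k) {K : IntermediateField k Ω}
    {p x : α → Fin n → K} {P X : Fin n → K}
    (h : ∀ i, Tendsto (fun q => (p q i : Ω)) l (𝓝 (P i : Ω)))
    (h' : ∀ i, Tendsto (fun q => (x q i : Ω)) l (𝓝 (X i : Ω))) :
    Tendsto (fun q => ((bv H (p q) (x q) : K) : Ω)) l (𝓝 ((bv H P X : K) : Ω)) := by
  have h1 : ∀ x y : Fin n → K, ((bv H x y : K) : Ω) =
      bv H (fun i => (x i : Ω)) (fun i => (y i : Ω)) := fun x y => (bv_hom K.val x y).symm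
  rw [h1 P X]
  refine Tendsto.congr (fun q => (h1 (p q) (x q)).symm) ?_
  unfold bv
  exact tendsto_finsetSum _ fun i _ => tendsto_finsetSum _ fun j _ =>
    tendsto_const_nhds.mul (((h i).mul (h' j)).add ((h' i).mul (h j)))

/-- A tangent vector at a near point. Proof: `w₁`, `w₂` with `bv A P w₁ = 1`, `bv B P w₁ = 0`,
`bv A P w₂ = 0`, `bv B P w₂ = 1` (`TP_surj`). For `q` near the limit the matrix of `bv A (P' q)`,
`bv B (P' q)` on `w₁`, `w₂` is invertible; subtract from the vector `u` a combination of `w₁`, `w₂`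
with small coefficients. -/
theorem near_TP (hs : Sm Ω A B) (K : IntermediateField k Ω) {P : Fin n → K} (hP : P ≠ 0)
    (zP : Zer (Pl A B) K P) {P' : α → Fin n → K}
    (hl : ∀ i, Tendsto (fun q => (P' q i : Ω)) l (𝓝 (P i : Ω))) {u : Fin n → K}
    (hu : u ∈ TP A B P) : ∃ u' : α → Fin n → K,
      (∀ i, Tendsto (fun q => (u' q i : Ω)) l (𝓝 (u i : Ω))) ∧
      ∀ᶠ q in l, u' q ∈ TP A B (P' q) := by
  obtain ⟨aP, bP⟩ := (zer_iff A B).1 zP
  obtain ⟨w₁, hA1, hB1⟩ := TP_surj hs K.val hP aP bP 1 0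
  obtain ⟨w₂, hA2, hB2⟩ := TP_surj hs K.val hP aP bP 0 1
  have hcst : ∀ (w : Fin n → K) (i : Fin n), Tendsto (fun _ : α => (w i : Ω)) l (𝓝 (w i : Ω)) :=
    fun w i => tendsto_const_nhds
  have tA : ∀ w : Fin n → K, Tendsto (fun q => ((bv A (P' q) w : K) : Ω)) l
      (𝓝 ((bv A P w : K) : Ω)) := fun w => tendsto_bv A hl (hcst w)
  have tB : ∀ w : Fin n → K, Tendsto (fun q => ((bv B (P' q) w : K) : Ω)) l
      (𝓝 ((bv B P w : K) : Ω)) := fun w => tendsto_bv B hl (hcst w)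
  have tA1 := tA w₁
  have tA2 := tA w₂
  have tB1 := tB w₁
  have tB2 := tB w₂
  have tAu := tA u
  have tBu := tB u
  rw [hA1] at tA1
  rw [hA2] at tA2
  rw [hB1] at tB1
  rw [hB2] at tB2
  rw [hu.1] at tAu
  rw [hu.2] at tBu
  obtain ⟨D, hD⟩ : ∃ D : α → K, ∀ q, D q = bv A (P' q) w₁ * bv B (P' q) w₂ -
      bv A (P' q) w₂ * bv B (P' q) w₁ := ⟨_, fun _ => rfl⟩
  obtain ⟨c₁, hc₁⟩ : ∃ c : α → K, ∀ q, c q = (bv A (P' q) u * bv B (P' q) w₂ -
      bv A (P' q) w₂ * bv B (P' q) u) / D q := ⟨_, fun _ => rfl⟩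
  obtain ⟨c₂, hc₂⟩ : ∃ c : α → K, ∀ q, c q = (bv A (P' q) w₁ * bv B (P' q) u -
      bv A (P' q) u * bv B (P' q) w₁) / D q := ⟨_, fun _ => rfl⟩
  have tD : Tendsto (fun q => ((D q : K) : Ω)) l (𝓝 1) := by
    have h1 := (tA1.mul tB2).sub (tA2.mul tB1)
    simp only [ZeroMemClass.coe_zero, OneMemClass.coe_one, mul_one, mul_zero, sub_zero] at h1
    refine h1.congr fun q => ?_
    rw [hD]
    push_cast
    ring
  have t1 : Tendsto (fun q => ((c₁ q : K) : Ω)) l (𝓝 0) := by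
    have h1 := ((tAu.mul tB2).sub (tA2.mul tBu)).div tD one_ne_zero
    simp only [ZeroMemClass.coe_zero, OneMemClass.coe_one, mul_one, mul_zero, sub_zero,
      zero_div] at h1
    refine h1.congr fun q => ?_
    rw [hc₁]
    push_cast
    rfl
  have t2 : Tendsto (fun q => ((c₂ q : K) : Ω)) l (𝓝 0) := by
    have h1 := ((tA1.mul tBu).sub (tAu.mul tB1)).div tD one_ne_zero
    simp only [ZeroMemClass.coe_zero, OneMemClass.coe_one, mul_one, mul_zero, sub_zero,
      zero_div] at h1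
    refine h1.congr fun q => ?_
    rw [hc₂]
    push_cast
    rfl
  refine ⟨fun q => u + (-c₁ q) • w₁ + (-c₂ q) • w₂, fun i => ?_, ?_⟩
  · have h1 := ((tendsto_const_nhds (x := (u i : Ω))).add
      (t1.neg.mul (hcst w₁ i))).add (t2.neg.mul (hcst w₂ i))
    simp only [neg_zero, zero_mul, add_zero] at h1
    refine h1.congr fun q => ?_
    simp only [Pi.add_apply, Pi.smul_apply, smul_eq_mul]
    push_cast
    rfl
  · have h1 := tD.eventually_ne (one_ne_zero : (1 : Ω) ≠ 0)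
    filter_upwards [h1] with q hq
    have hq' : D q ≠ 0 := by
      intro h
      apply hq
      rw [h]
      rfl
    rw [mem_TP]
    simp only [bv_add_right, bv_smul_right]
    have e1 : c₁ q * D q = bv A (P' q) u * bv B (P' q) w₂ - bv A (P' q) w₂ * bv B (P' q) u := by
      rw [hc₁, div_mul_cancel₀ _ hq']
    have e2 : c₂ q * D q = bv A (P' q) w₁ * bv B (P' q) u - bv A (P' q) u * bv B (P' q) w₁ := by
      rw [hc₂, div_mul_cancel₀ _ hq']
    constructor
    · refine (mul_eq_zero.1 (?_ : D q * (bv A (P' q) u + -c₁ q * bv A (P' q) w₁ +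
        -c₂ q * bv A (P' q) w₂) = 0)).resolve_left hq'
      linear_combination (bv A (P' q) u) * (hD q) - bv A (P' q) w₁ * e1 - bv A (P' q) w₂ * e2
    · refine (mul_eq_zero.1 (?_ : D q * (bv B (P' q) u + -c₁ q * bv B (P' q) w₁ +
        -c₂ q * bv B (P' q) w₂) = 0)).resolve_left hq'
      linear_combination (bv B (P' q) u) * (hD q) - bv B (P' q) w₁ * e1 - bv B (P' q) w₂ * e2

end Dp
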