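import Pool.Agent.Lib.MP_f80667_ag.Dp.Lc

/-! Roots of near polynomials. -/

open Polynomial

namespace Dp

universe u

variable {k Ω : Type u} [Field k] [CharZero k] [NormedField Ω] [Algebra k Ω] [IsAlgClosure k Ω]

private theorem exists_pos_le {ι : Type*} (T : Finset ι) (f : ι → ℝ) (hf : ∀ t ∈ T, 0 < f t) :
    ∃ ρ > 0, ∀ t ∈ T, ρ ≤ f t := by
  classical
  induction T using Finset.induction_on with
  | empty => exact ⟨1, one_pos, by simp⟩
  | insert a T ha ih =>
    obtain ⟨ρ, h1, h2⟩ := ih (fun t ht => hf t (Finset.mem_insert_of_mem ht))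
    refine ⟨min ρ (f a), lt_min h1 (hf a (Finset.mem_insert_self _ _)), fun t ht => ?_⟩
    rcases Finset.mem_insert.1 ht with rfl | ht
    · exact min_le_right _ _
    · exact (min_le_left _ _).trans (h2 t ht)

private theorem le_norm_prod {E : Type*} [NormedField E] (m : Multiset E) (x : E) {ε : ℝ}
    (hε : 0 < ε) (h : ∀ y ∈ m, ε ≤ ‖x - y‖) : ε ^ Multiset.card m ≤ ‖(m.map (x - ·)).prod‖ := by
  induction m using Multiset.induction_on with
  | empty => simp
  | cons a m ih =>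
    rw [Multiset.map_cons, Multiset.prod_cons, norm_mul, Multiset.card_cons, pow_succ, mul_comm]
    exact mul_le_mul (h a (Multiset.mem_cons_self _ _))
      (ih (fun y hy => h y (Multiset.mem_cons_of_mem hy))) (pow_nonneg hε.le _) (norm_nonneg _)

/-- A root of a monic polynomial is near a root of a near polynomial of the same degree. Proof:
`∏ (x - x' j) = aeval x P = aeval x P - aeval x P₀` is small, so one factor is small. -/
theorem root_near_aux {N : ℕ} (P₀ : k[X]) (h0 : P₀.Monic) (hN : P₀.natDegree = N) {x : Ω}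
    (hx : aeval x P₀ = 0) {ε : ℝ} (hε : 0 < ε) : ∃ δ > 0, ∀ P : k[X], P.Monic → P.natDegree = N →
      (∀ i, ‖algebraMap k Ω (P.coeff i - P₀.coeff i)‖ < δ) →
      ∃ x' : Ω, aeval x' P = 0 ∧ ‖x' - x‖ < ε := by
  have : IsAlgClosed Ω := IsAlgClosure.isAlgClosed k
  set M : ℝ := ∑ i ∈ Finset.range (N + 1), ‖x‖ ^ i with hM
  have hM0 : 0 ≤ M := Finset.sum_nonneg (fun i _ => pow_nonneg (norm_nonneg _) _)
  refine ⟨ε ^ N / (M + 1), by positivity, fun P hP hPN hco => ?_⟩
  by_contra hcon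
  push Not at hcon
  have hsp : (P.map (algebraMap k Ω)).Splits := IsAlgClosed.splits _
  have h1 := hsp.aeval_eq_prod_aroots_of_monic hP x
  have hcard : Multiset.card (P.aroots Ω) = N := by
    rw [← hPN, ← hP.natDegree_map (algebraMap k Ω)]
    exact hsp.natDegree_eq_card_roots.symm
  have h2 : ε ^ N ≤ ‖aeval x P‖ := by
    rw [h1, ← hcard]
    refine le_norm_prod _ _ hε (fun y hy => ?_)
    have h3 := hcon y ((mem_aroots.1 hy).2)
    rwa [norm_sub_rev]
  have h3 : aeval x P = ∑ i ∈ Finset.range (N + 1),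
      algebraMap k Ω (P.coeff i - P₀.coeff i) * x ^ i := by
    have e1 : aeval x P = aeval x (P - P₀) := by rw [map_sub, hx, sub_zero]
    rw [e1, aeval_eq_sum_range' (n := N + 1)]
    · refine Finset.sum_congr rfl (fun i _ => ?_)
      rw [coeff_sub, Algebra.smul_def]
    · refine lt_of_le_of_lt (natDegree_sub_le _ _) ?_
      rw [hPN, hN, max_self]
      exact Nat.lt_succ_self _
  have h4 : ‖aeval x P‖ ≤ ε ^ N / (M + 1) * M := by
    rw [h3, hM, Finset.mul_sum]
    refine norm_sum_le_of_le _ (fun i _ => ?_)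
    rw [norm_mul, norm_pow]
    exact mul_le_mul_of_nonneg_right (hco i).le (pow_nonneg (norm_nonneg _) _)
  have h5 : ε ^ N / (M + 1) * M < ε ^ N := by
    have hp : 0 < ε ^ N := pow_pos hε _
    rw [div_mul_eq_mul_div, div_lt_iff₀ (by linarith)]
    nlinarith
  linarith

/-- The combinatorial core: for `P` near `P₀`, the roots of `P` correspond to those of `P₀`. -/
private theorem core {N : ℕ} (P₀ : k[X]) (h0 : P₀.Monic) (hN : P₀.natDegree = N)
    (hsep : P₀.Separable) {ε : ℝ} (hε : 0 < ε) : ∃ ε' > 0, ε' ≤ ε ∧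
    (∀ y z : Ω, aeval y P₀ = 0 → aeval z P₀ = 0 → ‖y - z‖ < 2 * ε' → y = z) ∧
    ∃ δ > 0, ∀ P : k[X], P.Monic → P.natDegree = N →
      (∀ i, ‖algebraMap k Ω (P.coeff i - P₀.coeff i)‖ < δ) →
      ∃ r : Ω → Ω, (∀ y, aeval y P₀ = 0 → aeval (r y) P = 0 ∧ ‖r y - y‖ < ε') ∧
        ∀ x', aeval x' P = 0 → ∃ y, aeval y P₀ = 0 ∧ r y = x' := by
  classical
  have : IsAlgClosed Ω := IsAlgClosure.isAlgClosed k
  have hne0 : P₀ ≠ 0 := h0.ne_zero
  set R : Finset Ω := (P₀.aroots Ω).toFinset with hR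
  have hmem : ∀ y, y ∈ R ↔ aeval y P₀ = 0 := by
    intro y
    rw [hR, Multiset.mem_toFinset, mem_aroots]
    exact ⟨fun h => h.2, fun h => ⟨hne0, h⟩⟩
  have hcardR : R.card = N := by
    have hnd : (P₀.aroots Ω).Nodup := nodup_roots (hsep.map)
    rw [hR, Multiset.toFinset_card_of_nodup hnd, ← hN, ← h0.natDegree_map (algebraMap k Ω)]
    exact (IsAlgClosed.splits (P₀.map (algebraMap k Ω))).natDegree_eq_card_roots.symm
  obtain ⟨ρ, hρ, hρle⟩ := exists_pos_le R.offDiag (fun t => ‖t.1 - t.2‖) (by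
    rintro ⟨a, b⟩ hab
    rw [Finset.mem_offDiag] at hab
    exact norm_pos_iff.2 (sub_ne_zero.2 hab.2.2))
  set ε' : ℝ := min ε (ρ / 2) with hε'
  have hε'0 : 0 < ε' := lt_min hε (by linarith)
  have hsepR : ∀ y z : Ω, aeval y P₀ = 0 → aeval z P₀ = 0 → ‖y - z‖ < 2 * ε' → y = z := by
    intro y z hy hz hyz
    by_contra hne
    have h1 := hρle (y, z) (Finset.mem_offDiag.2 ⟨(hmem y).2 hy, (hmem z).2 hz, hne⟩)
    have h2 : ε' ≤ ρ / 2 := min_le_right _ _
    simp only at h1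
    linarith
  refine ⟨ε', hε'0, min_le_left _ _, hsepR, ?_⟩
  have hch : ∀ y : Ω, ∃ δ > 0, aeval y P₀ = 0 → ∀ P : k[X], P.Monic → P.natDegree = N →
      (∀ i, ‖algebraMap k Ω (P.coeff i - P₀.coeff i)‖ < δ) →
      ∃ x' : Ω, aeval x' P = 0 ∧ ‖x' - y‖ < ε' := by
    intro y
    by_cases hy : aeval y P₀ = 0
    · obtain ⟨δ, h1, h2⟩ := root_near_aux P₀ h0 hN hy hε'0
      exact ⟨δ, h1, fun _ => h2⟩
    · exact ⟨1, one_pos, fun h => absurd h hy⟩
  choose D hD hD2 using hch
  obtain ⟨δ, hδ, hδle⟩ := exists_pos_le R D (fun t _ => hD t)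
  refine ⟨δ, hδ, fun P hP hPN hco => ?_⟩
  have hr : ∀ y : Ω, ∃ x' : Ω, aeval y P₀ = 0 → aeval x' P = 0 ∧ ‖x' - y‖ < ε' := by
    intro y
    by_cases hy : aeval y P₀ = 0
    · obtain ⟨x', h1, h2⟩ := hD2 y hy P hP hPN
        (fun i => lt_of_lt_of_le (hco i) (hδle y ((hmem y).2 hy)))
      exact ⟨x', fun _ => ⟨h1, h2⟩⟩
    · exact ⟨0, fun h => absurd h hy⟩
  choose r hr using hr
  refine ⟨r, hr, fun x' hx' => ?_⟩
  have hinj : Set.InjOn r R := by
    intro y hy z hz hyz
    have hy' := hr y ((hmem y).1 hy)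
    have hz' := hr z ((hmem z).1 hz)
    refine hsepR y z ((hmem y).1 hy) ((hmem z).1 hz) ?_
    rw [← hyz] at hz'
    have h1 : ‖y - z‖ ≤ ‖r y - y‖ + ‖r y - z‖ := by
      rw [norm_sub_rev (r y) y]
      have := norm_add_le (y - r y) (r y - z)
      simpa using this
    linarith [hy'.2, hz'.2]
  have hsub : R.image r ⊆ (P.aroots Ω).toFinset := by
    intro w hw
    obtain ⟨y, hy, rfl⟩ := Finset.mem_image.1 hw
    rw [Multiset.mem_toFinset, mem_aroots]
    exact ⟨hP.ne_zero, (hr y ((hmem y).1 hy)).1⟩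
  have hcard : (P.aroots Ω).toFinset.card ≤ (R.image r).card := by
    rw [Finset.card_image_of_injOn hinj, hcardR]
    refine (Multiset.toFinset_card_le _).trans ?_
    rw [← hPN, ← hP.natDegree_map (algebraMap k Ω)]
    exact card_roots' _
  have heq := Finset.eq_of_subset_of_card_le hsub hcard
  have hxm : x' ∈ R.image r := by
    rw [heq, Multiset.mem_toFinset, mem_aroots]
    exact ⟨hP.ne_zero, hx'⟩
  obtain ⟨y, hy, hyx⟩ := Finset.mem_image.1 hxm
  exact ⟨y, (hmem y).1 hy, hyx⟩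

/-- **Roots of near polynomials are in the same field.** Proof (Krasner). Let `ρ` be the minimal
distance of two different roots of `P₀`, and `ε ≤ ρ / 3`. For `P` near `P₀` every one of the `N`
different roots `y` of `P₀` has a root of `P` at distance `< ε` (`root_near_aux` for all roots, minimum
of the `δ`); the balls are disjoint and `P` has at most `N` roots, so there is exactly one root of `P`
in each ball. Let `x'` be the one near `x`. For every automorphism `s` of `Ω` over `k` with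
`s x = x` the root `s x'` is near `s x = x` (`h.inv`), so `s x' = x'`. So `x'` is in the fixed field
of the automorphisms which fix `k⟮x⟯`, which is `k⟮x⟯` (`Ω` is Galois over `k`,
`InfiniteGalois.fixedField_fixingSubgroup`). -/
theorem root_near (h : Lc k Ω) {N : ℕ} (P₀ : k[X]) (h0 : P₀.Monic) (hN : P₀.natDegree = N)
    (hsep : P₀.Separable) {x : Ω} (hx : aeval x P₀ = 0) {ε : ℝ} (hε : 0 < ε) :
    ∃ δ > 0, ∀ P : k[X], P.Monic → P.natDegree = N →
      (∀ i, ‖algebraMap k Ω (P.coeff i - P₀.coeff i)‖ < δ) →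
      ∃ x' ∈ IntermediateField.adjoin k {x}, aeval x' P = 0 ∧ ‖x' - x‖ < ε := by
  obtain ⟨ε', hε', hle, hsepR, δ, hδ, hall⟩ := core (Ω := Ω) P₀ h0 hN hsep hε
  refine ⟨δ, hδ, fun P hP hPN hco => ?_⟩
  obtain ⟨r, hr, hsur⟩ := hall P hP hPN hco
  refine ⟨r x, ?_, (hr x hx).1, lt_of_lt_of_le (hr x hx).2 hle⟩
  have : Normal k Ω := IsAlgClosure.normal k Ω
  have : Algebra.IsAlgebraic k Ω := IsAlgClosure.isAlgebraic
  have : IsGalois k Ω := IsGalois.mk
  rw [← InfiniteGalois.fixedField_fixingSubgroup (IntermediateField.adjoin k {x})]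
  rw [IntermediateField.mem_fixedField_iff]
  intro s hs
  have hsx : s x = x := by
    rw [IntermediateField.mem_fixingSubgroup_iff] at hs
    exact hs x (IntermediateField.mem_adjoin_simple_self k x)
  have h1 : aeval (s (r x)) P = 0 := by
    have h7 := aeval_algHom_apply s.toAlgHom (r x) P
    rw [(hr x hx).1, map_zero] at h7
    exact h7
  obtain ⟨y, hy, hyx⟩ := hsur _ h1
  have h2 : ‖s (r x) - x‖ < ε' := by
    have h3 : s (r x) - x = s (r x - x) := by rw [map_sub, hsx]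
    rw [h3, h.inv]
    exact (hr x hx).2
  have h4 : ‖s (r x) - y‖ < ε' := by
    rw [← hyx]
    exact (hr y hy).2
  have h5 : y = x := by
    refine hsepR y x hy hx ?_
    have h6 : y - x = (s (r x) - x) - (s (r x) - y) := by ring
    rw [h6]
    exact lt_of_le_of_lt (norm_sub_le _ _) (by linarith)
  rw [← hyx, h5]

/-- The conjugates of a root: in the situation of `root_near`, every root of `P` is near a root of
`P₀`. Proof: as before, the `N` balls contain `N` different roots of `P`. -/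
theorem root_near' {N : ℕ} (P₀ : k[X]) (h0 : P₀.Monic) (hN : P₀.natDegree = N)
    (hsep : P₀.Separable) {ε : ℝ} (hε : 0 < ε) : ∃ δ > 0, ∀ P : k[X], P.Monic → P.natDegree = N →
      (∀ i, ‖algebraMap k Ω (P.coeff i - P₀.coeff i)‖ < δ) →
      ∀ x' : Ω, aeval x' P = 0 → ∃ x : Ω, aeval x P₀ = 0 ∧ ‖x' - x‖ < ε := by
  obtain ⟨ε', hε', hle, hsepR, δ, hδ, hall⟩ := core (Ω := Ω) P₀ h0 hN hsep hε
  refine ⟨δ, hδ, fun P hP hPN hco x' hx' => ?_⟩
  obtain ⟨r, hr, hsur⟩ := hall P hP hPN hco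
  obtain ⟨y, hy, hyx⟩ := hsur x' hx'
  refine ⟨y, hy, ?_⟩
  rw [← hyx]
  exact lt_of_lt_of_le (hr y hy).2 hle

end Dp
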