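import Pool.Agent.Lib.MP_f80667_ag.Dp.Rad
import Pool.Agent.Lib.MP_f80667_ag.Dp.Dens
import Pool.Agent.Lib.MP_f80667_ag.Ts.ND

/-! The degenerate members of the pencil, and good tangent vectors. -/

namespace Dp

open ZC Tq

universe u

variable {k : Type u} [Field k] [CharZero k] {Ω : Type u} [Field Ω] [Algebra k Ω] [IsAlgClosed Ω]
  {n : ℕ} {A B : Matrix (Fin n) (Fin n) k} {M : Type u} [Field M] [Algebra k M]

omit [CharZero k] in
/-- Nondegeneracy is the nonvanishing of a determinant. Proof: `Ts.nd_bv_dot`, `Ts.nd_mulVec`,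
`Ts.nd_of_mulVec`, `Matrix.exists_mulVec_eq_zero_iff`. -/
theorem nd_iff {E : Type*} [Field E] [Algebra k E] {a b : E} : ND A B a b ↔
    (a • (A + A.transpose).map (algebraMap k E) +
      b • (B + B.transpose).map (algebraMap k E)).det ≠ 0 := by
  constructor
  · intro h h0
    rw [← Matrix.exists_mulVec_eq_zero_iff] at h0
    obtain ⟨x, hx, h1⟩ := h0
    obtain ⟨y, hy⟩ := h x hx
    exact hy (Ts.nd_of_mulVec h1 y)
  · intro h x hx
    by_contra hcon
    push Not at hcon
    apply h
    rw [← Matrix.exists_mulVec_eq_zero_iff]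
    exact ⟨x, hx, Ts.nd_mulVec hcon⟩

omit [CharZero k] in
theorem ND.hom {E E' : Type*} [Field E] [Algebra k E] [Field E'] [Algebra k E'] (f : E →ₐ[k] E')
    {a b : E} : ND A B (f a) (f b) ↔ ND A B a b := by
  rw [nd_iff, nd_iff]
  have h1 : f a • (A + A.transpose).map (algebraMap k E') +
      f b • (B + B.transpose).map (algebraMap k E') =
      (f : E →+* E').mapMatrix (a • (A + A.transpose).map (algebraMap k E) +
        b • (B + B.transpose).map (algebraMap k E)) := by
    ext i j
    simp only [Matrix.add_apply, Matrix.smul_apply, Matrix.map_apply, RingHom.mapMatrix_apply,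
      smul_eq_mul, map_add, map_mul, RingHom.coe_coe, AlgHom.commutes]
  rw [h1, ← RingHom.map_det]
  exact (map_ne_zero (f : E →+* E'))

omit [CharZero k] in
theorem ND.scale {E : Type*} [Field E] [Algebra k E] {a b c : E} (hc : c ≠ 0) :
    ND A B (c * a) (c * b) ↔ ND A B a b := by
  rw [nd_iff, nd_iff]
  have h1 : (c * a) • (A + A.transpose).map (algebraMap k E) +
      (c * b) • (B + B.transpose).map (algebraMap k E) =
      c • (a • (A + A.transpose).map (algebraMap k E) +
        b • (B + B.transpose).map (algebraMap k E)) := by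
    rw [smul_add, smul_smul, smul_smul]
  rw [h1, Matrix.det_smul]
  constructor
  · exact fun h => right_ne_zero_of_mul h
  · exact fun h => mul_ne_zero (pow_ne_zero _ hc) h

/-- There are finitely many degenerate members. Proof: the polynomial
`det (A + Aᵀ + T (B + Bᵀ))` over `Ω` is not zero (`Ts.nd_exists_det` or `Ts.exists_nd1`), let the `t i`
be its zeros; take the pairs `(1, t i)` and `(0, 1)`. -/
theorem fin_sing (hs : Sm Ω A B) (hn : 1 ≤ n) : ∃ s : Finset (Ω × Ω), (∀ c ∈ s, c.1 ≠ 0 ∨ c.2 ≠ 0) ∧
    ∀ a b : Ω, (∀ c ∈ s, a * c.2 - b * c.1 ≠ 0) → ND A B a b := by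
  classical
  obtain ⟨t, ht⟩ := Ts.nd_exists_det hs
  obtain ⟨P, hP⟩ : ∃ P : Polynomial Ω, P = ((Polynomial.X : Polynomial Ω) •
      ((B + B.transpose).map (algebraMap k Ω)).map Polynomial.C +
      ((A + A.transpose).map (algebraMap k Ω)).map Polynomial.C).det := ⟨_, rfl⟩
  have hev : ∀ τ : Ω, P.eval τ = ((1 : Ω) • (A + A.transpose).map (algebraMap k Ω) +
      τ • (B + B.transpose).map (algebraMap k Ω)).det := by
    intro τ
    rw [← Polynomial.coe_evalRingHom, hP, RingHom.map_det]
    congr 1
    ext i j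
    simp
    ring
  have hP0 : P ≠ 0 := by
    intro h0
    apply ht
    have h1 := hev (algebraMap k Ω t)
    rw [h0, Polynomial.eval_zero] at h1
    have h2 : (1 : Ω) • (A + A.transpose).map (algebraMap k Ω) +
        algebraMap k Ω t • (B + B.transpose).map (algebraMap k Ω) =
        (algebraMap k Ω).mapMatrix ((1 : k) • (A + A.transpose) + t • (B + B.transpose)) := by
      ext i j
      simp only [Matrix.add_apply, Matrix.smul_apply, Matrix.map_apply, RingHom.mapMatrix_apply,
        smul_eq_mul, map_add, map_mul, map_one]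
    rw [h2, ← RingHom.map_det] at h1
    exact (map_eq_zero (algebraMap k Ω)).1 h1.symm
  refine ⟨P.roots.toFinset.image (fun τ => ((1 : Ω), τ)) ∪ {((0 : Ω), (1 : Ω))}, ?_, ?_⟩
  · intro c hc
    rcases Finset.mem_union.1 hc with h1 | h1
    · obtain ⟨τ, _, rfl⟩ := Finset.mem_image.1 h1
      exact Or.inl one_ne_zero
    · rw [Finset.mem_singleton.1 h1]
      exact Or.inr one_ne_zero
  · intro a b h
    have ha : a ≠ 0 := by
      have h1 := h (0, 1) (Finset.mem_union_right _ (Finset.mem_singleton_self _))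
      simpa using h1
    have h2 : ND A B a b ↔ ND A B (1 : Ω) (b / a) := by
      have h3 := ND.scale (A := A) (B := B) (a := (1 : Ω)) (b := b / a) ha
      rwa [mul_one, mul_div_cancel₀ b ha] at h3
    rw [h2, nd_iff, ← hev]
    intro h0
    have h4 : b / a ∈ P.roots.toFinset := by
      rw [Multiset.mem_toFinset, Polynomial.mem_roots hP0]
      exact h0
    apply h (1, b / a) (Finset.mem_union_left _ (Finset.mem_image_of_mem _ h4))
    dsimp only
    rw [mul_div_cancel₀ b ha, mul_one, sub_self]

end Dp
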