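import Pool.Agent.Lib.MP_f80667_ag.Dp.Nu
import Pool.Agent.Lib.MP_f80667_ag.LF.Basic
import Pool.Agent.Lib.MP_f80667_ag.Hm.LocA

/-! The spectral norm on the algebraic closure of a locally compact nonarchimedean field satisfies
`LcV`. -/

open IsLocalRing IntermediateField
open Pool.Agent.Lib.MP_f80667_ag

namespace Dp

universe u

section spn

variable (k : Type u) [NontriviallyNormedField k] [IsUltrametricDist k] [CompleteSpace k]
  (Ω : Type u) [Field Ω] [Algebra k Ω] [Algebra.IsAlgebraic k Ω]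

/-- The spectral norm as an absolute value. -/
noncomputable def spAV : AbsoluteValue Ω ℝ :=
  letI := spectralNorm.normedField k Ω
  NormedField.toAbsoluteValue Ω

theorem spAV_apply (x : Ω) : spAV k Ω x = spectralNorm k Ω x := rfl

theorem spAV_algebraMap (x : k) : spAV k Ω (algebraMap k Ω x) = ‖x‖ :=
  spectralNorm_extends x

theorem spAV_inv (σ : Ω ≃ₐ[k] Ω) (x : Ω) : spAV k Ω (σ x) = spAV k Ω x := by
  rw [spAV_apply, spAV_apply]
  unfold spectralNorm
  rw [minpoly.algEquiv_eq σ x]

theorem spAV_coe (K : IntermediateField k Ω) (x : K) :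
    spectralNorm k K x = spAV k Ω (x : Ω) := by
  rw [spAV_apply]
  unfold spectralNorm
  rw [← minpoly.algHom_eq K.val K.val.injective x]
  rfl

end spn

section sqrt

variable (k : Type u) [NontriviallyNormedField k] [IsUltrametricDist k] [ProperSpace k] [CharZero k]
  (Ω : Type u) [Field Ω] [Algebra k Ω] [Algebra.IsAlgebraic k Ω]

theorem four_ne' (R : Type u) [Field R] [CharZero R] : (4 : R) ≠ 0 := by
  exact_mod_cast (by norm_num : (4 : ℕ) ≠ 0)

/-- Square roots in a finite extension. -/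
theorem exists_sq_fin (K : IntermediateField k Ω) [FiniteDimensional k K] (x : K)
    (hx : spAV k Ω ((x : Ω) - 1) < spAV k Ω 4) : ∃ y : K, y ^ 2 = x := by
  have hc : CharZero Ω := charZero_of_injective_algebraMap (algebraMap k Ω).injective
  have hcK : CharZero K := charZero_of_injective_algebraMap (algebraMap k K).injective
  have h4 : (4 : Ω) ≠ 0 := four_ne' Ω
  have h4K : (4 : K) ≠ 0 := four_ne' K
  have hlt : spAV k Ω (((x : Ω) - 1) / 4) < 1 := by
    rw [map_div₀]
    exact (div_lt_one ((spAV k Ω).pos h4)).2 hx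
  have hc1 : spectralNorm k K ((x - 1) / 4) = spAV k Ω (((x : Ω) - 1) / 4) := by
    rw [spAV_coe]
    rfl
  have hmem : (x - 1) / 4 ∈ LF.O k K := by
    rw [LF.mem_O, hc1]
    exact hlt.le
  have hmax : (⟨(x - 1) / 4, hmem⟩ : LF.O k K) ∈ maximalIdeal (LF.O k K) := by
    rw [mem_maximalIdeal, mem_nonunits_iff, LF.isUnit_iff]
    intro h
    rw [← hc1] at hlt
    exact hlt.ne h
  have hh : HenselianLocalRing (LF.O k K) :=
    { is_henselian := fun f hf a₀ h₁ h₂ => by
        refine HenselianRing.is_henselian (I := maximalIdeal (LF.O k K)) f hf a₀ h₁ ?_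
        exact h₂.map _ }
  obtain ⟨y, hy⟩ := Hm.exists_sq_of_mem hmax
  refine ⟨((y : LF.O k K) : K), ?_⟩
  have h5 := congrArg (fun t : LF.O k K => (t : K)) hy
  have h6 : ((y : LF.O k K) : K) ^ 2 = 1 + 4 * ((x - 1) / 4) := h5
  rw [h6]
  field_simp
  ring

theorem lcV_spAV : LcV k Ω (spAV k Ω) where
  inv := spAV_inv k Ω
  small ε hε := by
    obtain ⟨x, hx0, hx⟩ := NormedField.exists_norm_lt k hε
    refine ⟨x, norm_pos_iff.1 hx0, ?_⟩
    rwa [spAV_algebraMap]
  sqrt ε hε := by
    have hc : CharZero Ω := charZero_of_injective_algebraMap (algebraMap k Ω).injective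
    have h4 : (4 : Ω) ≠ 0 := four_ne' Ω
    refine ⟨min (spAV k Ω 4) (ε ^ 2), lt_min ((spAV k Ω).pos h4) (by positivity), ?_⟩
    intro K x hxK hx
    have hint : IsIntegral k x := Algebra.IsIntegral.isIntegral x
    have hfd : FiniteDimensional k k⟮x⟯ := adjoin.finiteDimensional hint
    have hle : k⟮x⟯ ≤ K := by
      rw [adjoin_simple_le_iff]
      exact hxK
    obtain ⟨y, hy⟩ := exists_sq_fin k Ω k⟮x⟯ ⟨x, mem_adjoin_simple_self k x⟩
      (lt_of_lt_of_le hx (min_le_left _ _))
    have hy2 : (y : Ω) ^ 2 = x := congrArg Subtype.val hy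
    have hyK : (y : Ω) ∈ K := hle y.2
    have hprod : spAV k Ω ((y : Ω) - 1) * spAV k Ω (-(y : Ω) - 1) < ε ^ 2 := by
      have h1 : ((y : Ω) - 1) * (-(y : Ω) - 1) = -(x - 1) := by
        linear_combination -hy2
      rw [← map_mul, h1, map_neg_eq_map]
      exact lt_of_lt_of_le hx (min_le_right _ _)
    by_cases h : spAV k Ω ((y : Ω) - 1) < ε
    · exact ⟨y, hyK, hy2, h⟩
    · refine ⟨-y, neg_mem hyK, by rw [neg_sq, hy2], ?_⟩
      by_contra h2
      push Not at h h2
      have := mul_le_mul h h2 hε.le (AbsoluteValue.nonneg _ _)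
      nlinarith

end sqrt

end Dp
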