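import Pool.Agent.Lib.MP_f80667_ag.Dp.Spread
import Pool.Agent.Lib.MP_f80667_ag.Hm.GenS

/-! Smooth reduction at almost all places. -/

open MvPolynomial IsDedekindDomain NumberField

namespace Dp

open ZC Tq

variable {n : ℕ}

/-- A certificate: the coefficients of a power in the ideal. -/
theorem SmR.cert {R : Type*} [CommRing R] {A B : Matrix (Fin n) (Fin n) R} (h : SmR A B)
    (i : Fin n) (c : Fin 2) : ∃ (N : ℕ) (U : Fin 2 ⊕ Fin n → MvPolynomial (Fin n ⊕ Fin 2) R),
      ∑ m, U m * eqs A B m = (X (Sum.inl i) * X (Sum.inr c)) ^ N := by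
  obtain ⟨N, hN⟩ := h i c
  obtain ⟨U, hU⟩ := Ideal.mem_span_range_iff_exists_fun.1 hN
  exact ⟨N, U, hU⟩

/-- Descent of the certificates along an injective homomorphism. -/
theorem smR_descend {R S T : Type*} [CommRing R] [CommRing S] [CommRing T] (f : S →+* T)
    (hf : Function.Injective f) (g : R →+* T) {A B : Matrix (Fin n) (Fin n) R}
    {A' B' : Matrix (Fin n) (Fin n) S} (hA : A'.map f = A.map g) (hB : B'.map f = B.map g)
    (N : Fin n → Fin 2 → ℕ)
    (U : Fin n → Fin 2 → Fin 2 ⊕ Fin n → MvPolynomial (Fin n ⊕ Fin 2) R)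
    (hU : ∀ i c, ∑ m, U i c m * eqs A B m = (X (Sum.inl i) * X (Sum.inr c)) ^ N i c)
    (hc : ∀ i c m, ∀ x ∈ (U i c m).coeffs, g x ∈ Set.range f) : SmR A' B' := by
  intro i c
  have h1 : ∀ m, ∃ V : MvPolynomial (Fin n ⊕ Fin 2) S, MvPolynomial.map f V =
      MvPolynomial.map g (U i c m) := by
    intro m
    have h2 : MvPolynomial.map g (U i c m) ∈ Set.range (MvPolynomial.map f) := by
      rw [MvPolynomial.mem_range_map_iff_coeffs_subset]
      intro y hy
      obtain ⟨κ, hκ, rfl⟩ := MvPolynomial.mem_coeffs_iff.1 hy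
      rw [MvPolynomial.coeff_map]
      refine hc i c m _ (MvPolynomial.coeff_mem_coeffs κ ?_)
      intro h0
      rw [MvPolynomial.mem_support_iff, MvPolynomial.coeff_map, h0, map_zero] at hκ
      exact hκ rfl
    exact h2
  choose V hV using h1
  refine ⟨N i c, ?_⟩
  have h2 : (X (Sum.inl i) * X (Sum.inr c) : MvPolynomial (Fin n ⊕ Fin 2) S) ^ N i c =
      ∑ m, V m * eqs A' B' m := by
    apply MvPolynomial.map_injective f hf
    rw [map_sum, map_pow, map_mul, MvPolynomial.map_X, MvPolynomial.map_X]
    have h3 := congrArg (MvPolynomial.map g) (hU i c)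
    rw [map_sum, map_pow, map_mul, MvPolynomial.map_X, MvPolynomial.map_X] at h3
    rw [← h3]
    refine Finset.sum_congr rfl fun m _ => ?_
    rw [map_mul, map_mul, map_eqs, map_eqs, hA, hB, hV]
  rw [h2]
  exact Ideal.sum_mem _ fun m _ => Ideal.mul_mem_left _ _ (Ideal.subset_span ⟨m, rfl⟩)

/-- **Smooth reduction at almost all places.** Proof: finitely many elements of `F` (the entries of `A`,
`B` and the coefficients of a certificate `(x_i a_c)^N = ∑ U_j * eqs j`) are integral at almost all
places (`Hm.finite_val_ne_one` for the nonzero ones), and then the identity is an identity over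
`v.adicCompletionIntegers F` (injectivity of the map to `v.adicCompletion F`; `MvPolynomial.map`). -/
theorem exists_good (F : Type) [Field F] [NumberField F] {A B : Matrix (Fin n) (Fin n) F}
    (h : SmR A B) : ∃ S : Finset (HeightOneSpectrum (𝓞 F)), ∀ v ∉ S,
      ∃ A' B' : Matrix (Fin n) (Fin n) (v.adicCompletionIntegers F),
        A'.map (algebraMap _ (v.adicCompletion F)) = A.map (algebraMap F (v.adicCompletion F)) ∧
        B'.map (algebraMap _ (v.adicCompletion F)) = B.map (algebraMap F (v.adicCompletion F)) ∧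
        SmR A' B' := by
  classical
  choose N U hU using fun i c => h.cert i c
  -- the finitely many elements which have to be integral
  set T : Finset F := (Finset.univ.image fun q : Fin n × Fin n => A q.1 q.2) ∪
    (Finset.univ.image fun q : Fin n × Fin n => B q.1 q.2) ∪
    (Finset.univ.biUnion fun q : (Fin n × Fin 2) × (Fin 2 ⊕ Fin n) =>
      (U q.1.1 q.1.2 q.2).coeffs) with hT
  have hfin : ∀ t : F, {v : HeightOneSpectrum (𝓞 F) | 1 < v.valuation F t}.Finite := by
    intro t
    by_cases h0 : t = 0
    · refine Set.Finite.subset Set.finite_empty ?_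
      intro v hv
      rw [Set.mem_ofPred_eq, h0, map_zero] at hv
      exact absurd hv (by simp)
    · refine (Hm.finite_val_ne_one (Units.mk0 t h0)).subset ?_
      intro v hv
      exact ne_of_gt hv
  refine ⟨T.biUnion fun t => (hfin t).toFinset, fun v hv => ?_⟩
  have hint : ∀ t ∈ T, algebraMap F (v.adicCompletion F) t ∈
      Set.range (algebraMap (v.adicCompletionIntegers F) (v.adicCompletion F)) := by
    intro t ht
    have h1 : v.valuation F t ≤ 1 := by
      by_contra hc
      apply hv
      rw [Finset.mem_biUnion]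
      exact ⟨t, ht, (hfin t).mem_toFinset.2 (not_le.1 hc)⟩
    have h2 : algebraMap F (v.adicCompletion F) t ∈ v.adicCompletionIntegers F := by
      rw [HeightOneSpectrum.mem_adicCompletionIntegers]
      have h3 := HeightOneSpectrum.valuedAdicCompletion_eq_valuation' v t
      exact h3.le.trans h1
    exact ⟨⟨_, h2⟩, rfl⟩
  have hA : ∀ i j, ∃ x : v.adicCompletionIntegers F,
      algebraMap _ (v.adicCompletion F) x = algebraMap F (v.adicCompletion F) (A i j) := by
    intro i j
    refine hint _ (Finset.mem_union_left _ (Finset.mem_union_left _ ?_))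
    exact Finset.mem_image.2 ⟨(i, j), Finset.mem_univ _, rfl⟩
  have hB : ∀ i j, ∃ x : v.adicCompletionIntegers F,
      algebraMap _ (v.adicCompletion F) x = algebraMap F (v.adicCompletion F) (B i j) := by
    intro i j
    refine hint _ (Finset.mem_union_left _ (Finset.mem_union_right _ ?_))
    exact Finset.mem_image.2 ⟨(i, j), Finset.mem_univ _, rfl⟩
  choose A' hA' using hA
  choose B' hB' using hB
  have e1 : Matrix.map (Matrix.of A') (algebraMap _ (v.adicCompletion F)) =
      A.map (algebraMap F (v.adicCompletion F)) :=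
    Matrix.ext fun i j => hA' i j
  have e2 : Matrix.map (Matrix.of B') (algebraMap _ (v.adicCompletion F)) =
      B.map (algebraMap F (v.adicCompletion F)) :=
    Matrix.ext fun i j => hB' i j
  refine ⟨Matrix.of A', Matrix.of B', e1, e2, ?_⟩
  refine smR_descend (algebraMap (v.adicCompletionIntegers F) (v.adicCompletion F))
    (IsFractionRing.injective _ _) (algebraMap F (v.adicCompletion F)) e1 e2 N U hU ?_
  intro i c m x hx
  refine hint x (Finset.mem_union_right _ ?_)
  exact Finset.mem_biUnion.2 ⟨((i, c), m), Finset.mem_univ _, hx⟩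

end Dp
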