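import Pool.Agent.Lib.MP_f80667_ag.Dp.Defs
import Pool.Agent.Lib.MP_f80667_ag.Tq.FinA
import Pool.Agent.Lib.MP_f80667_ag.LF.Adic

/-! Smoothness over rings by a certificate, and smooth reduction at almost all places. -/

open MvPolynomial IsDedekindDomain NumberField

namespace Dp

open ZC Tq

section defs

variable {R : Type*} [CommRing R] {n : ℕ}

/-- The equations in the coordinates of a point and the coefficients `(a, b)` of a member. -/
noncomputable def eqs (A B : Matrix (Fin n) (Fin n) R) : Fin 2 ⊕ Fin n →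
    MvPolynomial (Fin n ⊕ Fin 2) R :=
  Sum.elim
    ![∑ i, ∑ j, C (A i j) * (X (Sum.inl i) * X (Sum.inl j)),
      ∑ i, ∑ j, C (B i j) * (X (Sum.inl i) * X (Sum.inl j))]
    (fun j => X (Sum.inr 0) * (∑ i, C (A i j + A j i) * X (Sum.inl i)) +
      X (Sum.inr 1) * (∑ i, C (B i j + B j i) * X (Sum.inl i)))

/-- The intersection of the two quadrics is smooth of codimension two over all fields over `R`: the
products of a coordinate and a coefficient are in the radical of the ideal of the equations. -/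
def SmR (A B : Matrix (Fin n) (Fin n) R) : Prop :=
  ∀ (i : Fin n) (c : Fin 2),
    (X (Sum.inl i) * X (Sum.inr c) : MvPolynomial (Fin n ⊕ Fin 2) R) ∈
      (Ideal.span (Set.range (eqs A B))).radical

end defs

variable {n : ℕ}

theorem map_eqs {R S : Type*} [CommRing R] [CommRing S] (f : R →+* S)
    (A B : Matrix (Fin n) (Fin n) R) (k : Fin 2 ⊕ Fin n) :
    MvPolynomial.map f (eqs A B k) = eqs (A.map f) (B.map f) k := by
  rcases k with k | j
  · fin_cases k
    · show MvPolynomial.map f (∑ i, ∑ j, C (A i j) * (X (Sum.inl i) * X (Sum.inl j))) =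
        ∑ i, ∑ j, C (f (A i j)) * (X (Sum.inl i) * X (Sum.inl j))
      simp only [map_sum, map_mul, MvPolynomial.map_C, MvPolynomial.map_X]
    · show MvPolynomial.map f (∑ i, ∑ j, C (B i j) * (X (Sum.inl i) * X (Sum.inl j))) =
        ∑ i, ∑ j, C (f (B i j)) * (X (Sum.inl i) * X (Sum.inl j))
      simp only [map_sum, map_mul, MvPolynomial.map_C, MvPolynomial.map_X]
  · show MvPolynomial.map f (X (Sum.inr 0) * (∑ i, C (A i j + A j i) * X (Sum.inl i)) +
        X (Sum.inr 1) * (∑ i, C (B i j + B j i) * X (Sum.inl i))) =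
      X (Sum.inr 0) * (∑ i, C (f (A i j) + f (A j i)) * X (Sum.inl i)) +
        X (Sum.inr 1) * (∑ i, C (f (B i j) + f (B j i)) * X (Sum.inl i))
    simp only [map_add, map_sum, map_mul, MvPolynomial.map_C, MvPolynomial.map_X]

theorem radical_map {P Q : Type*} [CommRing P] [CommRing Q] {ι : Type*} (φ : P →+* Q) (p : ι → P)
    (q : ι → Q) (h : ∀ i, φ (p i) = q i) {x : P} (hx : x ∈ (Ideal.span (Set.range p)).radical) :
    φ x ∈ (Ideal.span (Set.range q)).radical := by
  obtain ⟨N, hN⟩ := hx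
  refine ⟨N, ?_⟩
  rw [← map_pow]
  have h1 : Ideal.span (Set.range p) ≤ (Ideal.span (Set.range q)).comap φ := by
    rw [Ideal.span_le]
    rintro _ ⟨i, rfl⟩
    rw [SetLike.mem_coe, Ideal.mem_comap, h i]
    exact Ideal.subset_span ⟨i, rfl⟩
  exact h1 hN

/-- Proof: the map `MvPolynomial.map f` maps the equations to the equations, and `x ^ N` in the span
to the span. -/
theorem SmR.map {R S : Type*} [CommRing R] [CommRing S] (f : R →+* S)
    {A B : Matrix (Fin n) (Fin n) R} (h : SmR A B) : SmR (A.map f) (B.map f) := by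
  intro i c
  have h1 := radical_map (MvPolynomial.map f) (eqs A B) (eqs (A.map f) (B.map f))
    (map_eqs f A B) (h i c)
  rwa [map_mul, MvPolynomial.map_X, MvPolynomial.map_X] at h1

/-- The polar form as a linear form. -/
theorem bv_sum {k Ω : Type*} [Field k] [CommRing Ω] [Algebra k Ω] (A : Matrix (Fin n) (Fin n) k)
    (x y : Fin n → Ω) :
    bv A x y = ∑ j, y j * ∑ i, algebraMap k Ω (A i j + A j i) * x i := by
  have h1 : bv A x y = (∑ i, ∑ j, algebraMap k Ω (A i j) * (x i * y j)) +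
      ∑ i, ∑ j, algebraMap k Ω (A i j) * (y i * x j) := by
    rw [bv, ← Finset.sum_add_distrib]
    refine Finset.sum_congr rfl fun i _ => ?_
    rw [← Finset.sum_add_distrib]
    refine Finset.sum_congr rfl fun j _ => ?_
    ring
  rw [h1, Finset.sum_comm, ← Finset.sum_add_distrib]
  refine Finset.sum_congr rfl fun j _ => ?_
  rw [← Finset.sum_add_distrib, Finset.mul_sum]
  refine Finset.sum_congr rfl fun i _ => ?_
  rw [map_add]
  ring

theorem bv_single {k Ω : Type*} [Field k] [CommRing Ω] [Algebra k Ω]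
    (A : Matrix (Fin n) (Fin n) k) (x : Fin n → Ω) (j : Fin n) :
    bv A x (Pi.single j 1) = ∑ i, algebraMap k Ω (A i j + A j i) * x i := by
  classical
  rw [bv_sum, Finset.sum_eq_single j]
  · rw [Pi.single_eq_same, one_mul]
  · intro m _ hm
    rw [Pi.single_eq_of_ne hm, zero_mul]
  · intro hm
    exact absurd (Finset.mem_univ j) hm

theorem aeval_eqs_inl0 {k Ω : Type*} [Field k] [CommRing Ω] [Algebra k Ω]
    (A B : Matrix (Fin n) (Fin n) k) (y : Fin n ⊕ Fin 2 → Ω) :
    MvPolynomial.aeval y (eqs A B (Sum.inl 0)) = qv A (fun i => y (Sum.inl i)) := by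
  show MvPolynomial.aeval y (∑ i, ∑ j, C (A i j) * (X (Sum.inl i) * X (Sum.inl j))) = _
  simp only [map_sum, map_mul, MvPolynomial.aeval_C, MvPolynomial.aeval_X]
  rfl

theorem aeval_eqs_inl1 {k Ω : Type*} [Field k] [CommRing Ω] [Algebra k Ω]
    (A B : Matrix (Fin n) (Fin n) k) (y : Fin n ⊕ Fin 2 → Ω) :
    MvPolynomial.aeval y (eqs A B (Sum.inl 1)) = qv B (fun i => y (Sum.inl i)) := by
  show MvPolynomial.aeval y (∑ i, ∑ j, C (B i j) * (X (Sum.inl i) * X (Sum.inl j))) = _
  simp only [map_sum, map_mul, MvPolynomial.aeval_C, MvPolynomial.aeval_X]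
  rfl

theorem aeval_eqs_inr {k Ω : Type*} [Field k] [CommRing Ω] [Algebra k Ω]
    (A B : Matrix (Fin n) (Fin n) k) (y : Fin n ⊕ Fin 2 → Ω) (j : Fin n) :
    MvPolynomial.aeval y (eqs A B (Sum.inr j)) =
      y (Sum.inr 0) * (∑ i, algebraMap k Ω (A i j + A j i) * y (Sum.inl i)) +
      y (Sum.inr 1) * (∑ i, algebraMap k Ω (B i j + B j i) * y (Sum.inl i)) := by
  show MvPolynomial.aeval y (X (Sum.inr 0) * (∑ i, C (A i j + A j i) * X (Sum.inl i)) +
        X (Sum.inr 1) * (∑ i, C (B i j + B j i) * X (Sum.inl i))) = _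
  simp only [map_add, map_sum, map_mul, MvPolynomial.aeval_C, MvPolynomial.aeval_X]

/-- Proof: the evaluation at `(x, a, b)` over `Ω` kills the equations, so `x i * a = x i * b = 0` for
all `i` (`qv`, `bv` unfold to the values of the equations; `bv A x (e j) = ∑ i, (A i j + A j i) x i`). -/
theorem SmR.sm {k Ω : Type*} [Field k] [Field Ω] [Algebra k Ω] {A B : Matrix (Fin n) (Fin n) k}
    (h : SmR A B) (x : Fin n → Ω) (hx : x ≠ 0) (ha : qv A x = 0) (hb : qv B x = 0) (a b : Ω)
    (hy : ∀ y : Fin n → Ω, a * bv A x y + b * bv B x y = 0) : a = 0 ∧ b = 0 := by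
  classical
  obtain ⟨i, hi⟩ : ∃ i, x i ≠ 0 := by
    by_contra hc
    push Not at hc
    exact hx (funext hc)
  set y : Fin n ⊕ Fin 2 → Ω := Sum.elim x ![a, b] with hydef
  have h0 : ∀ m, MvPolynomial.aeval y (eqs A B m) = 0 := by
    rintro (m | j)
    · fin_cases m
      · exact (aeval_eqs_inl0 A B y).trans ha
      · exact (aeval_eqs_inl1 A B y).trans hb
    · rw [aeval_eqs_inr]
      have h1 := hy (Pi.single j 1)
      rw [bv_single, bv_single] at h1
      exact h1
  have h2 : ∀ c : Fin 2, x i * ![a, b] c = 0 := by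
    intro c
    obtain ⟨N, hN⟩ := h i c
    have h3 : Ideal.span (Set.range (eqs A B)) ≤
        RingHom.ker (MvPolynomial.aeval (R := k) y).toRingHom := by
      rw [Ideal.span_le]
      rintro _ ⟨m, rfl⟩
      exact h0 m
    have h4 : MvPolynomial.aeval y ((X (Sum.inl i) * X (Sum.inr c) :
      MvPolynomial (Fin n ⊕ Fin 2) k) ^ N) = 0 := h3 hN
    rw [map_pow, map_mul, MvPolynomial.aeval_X, MvPolynomial.aeval_X] at h4
    exact eq_zero_of_pow_eq_zero h4
  exact ⟨(mul_eq_zero.1 (h2 0)).resolve_left hi, (mul_eq_zero.1 (h2 1)).resolve_left hi⟩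

/-- The Nullstellensatz (as in `Tq/FinA.lean`, `transfer`). -/
theorem smR_of {F E : Type*} [Field F] [Field E] [Algebra F E] [IsAlgClosed E]
    {A B : Matrix (Fin n) (Fin n) F}
    (hs : ∀ x : Fin n → E, x ≠ 0 → qv A x = 0 → qv B x = 0 → ∀ a b : E,
      (∀ y : Fin n → E, a * bv A x y + b * bv B x y = 0) → a = 0 ∧ b = 0) : SmR A B := by
  intro i c
  have h1 : (X (Sum.inl i) * X (Sum.inr c) : MvPolynomial (Fin n ⊕ Fin 2) F) ∈
      MvPolynomial.vanishingIdeal F
      (MvPolynomial.zeroLocus E (Ideal.span (Set.range (eqs A B)))) := by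
    rw [MvPolynomial.mem_vanishingIdeal_iff]
    intro y hy
    rw [MvPolynomial.zeroLocus_span] at hy
    have h0 : ∀ m, MvPolynomial.aeval y (eqs A B m) = 0 := fun m => hy (eqs A B m) ⟨m, rfl⟩
    rw [map_mul, MvPolynomial.aeval_X, MvPolynomial.aeval_X]
    by_cases hx : (fun i => y (Sum.inl i)) = 0
    · have h2 : y (Sum.inl i) = 0 := congrFun hx i
      rw [h2, zero_mul]
    · have h2 := hs _ hx ((aeval_eqs_inl0 A B y).symm.trans (h0 _))
        ((aeval_eqs_inl1 A B y).symm.trans (h0 _)) (y (Sum.inr 0)) (y (Sum.inr 1)) (fun z => by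
          rw [bv_sum, bv_sum, Finset.mul_sum, Finset.mul_sum, ← Finset.sum_add_distrib]
          refine Finset.sum_eq_zero fun j _ => ?_
          have h3 := h0 (Sum.inr j)
          rw [aeval_eqs_inr] at h3
          linear_combination z j * h3)
      have h3 : y (Sum.inr c) = 0 := by
        fin_cases c
        · exact h2.1
        · exact h2.2
      rw [h3, mul_zero]
  rwa [MvPolynomial.vanishingIdeal_zeroLocus_eq_radical] at h1

end Dp
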