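import Pool.Agent.Lib.MP_f80667_ag.Dp.GlobB
import Pool.Agent.Lib.MP_f80667_ag.Dp.Pad
import Pool.Agent.Lib.MP_f80667_ag.Ts.Top

/-! The diagonal map is surjective for smooth intersections of two quadrics in six variables. -/

open NumberField IsDedekindDomain
open scoped LinearAlgebra.Projectivization

namespace Dp

open ZC Tq

section aux

variable {K : Type} [Field K] {m : ℕ} {κ : Type} {h : κ → MvPolynomial (Fin m) K}

theorem surj6_eq {x y : Z1 K h} (H : x.1 - y.1 ∈ ratEq (AlgebraicClosure K) h) :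
    G1.cls x = G1.cls y := by
  refine QuotientAddGroup.eq.2 ?_
  rw [AddSubgroup.mem_addSubgroupOf]
  have h1 := AddSubgroup.neg_mem _ H
  rw [neg_sub, sub_eq_neg_add] at h1
  exact h1

theorem surj6_eqb {x y : Z1 K h} (H : x.1 - y.1 ∈ ratEq (AlgebraicClosure K) h) :
    G1b.cls x = G1b.cls y := by
  refine QuotientAddGroup.eq.2 ?_
  rw [AddSubgroup.mem_addSubgroupOf]
  have h1 := AddSubgroup.neg_mem _ H
  rw [neg_sub, sub_eq_neg_add] at h1
  exact AddSubgroup.mem_sup_left h1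

end aux

variable {F : Type} [Field F] [NumberField F] {A B : Matrix (Fin 6) (Fin 6) F}

omit [NumberField F] in
theorem surj6_rat {E : Type} [Field E] [Algebra F E]
    {c : ℙ (AlgebraicClosure E) (Fin 6 → AlgebraicClosure E) →₀ ℤ} :
    c ∈ ratEq (AlgebraicClosure E) (hE E (Pl A B)) ↔
      c ∈ ratEq (AlgebraicClosure E) (Pl (A.map (algebraMap F E)) (B.map (algebraMap F E))) := by
  rw [Ts.hE_Pl]

omit [NumberField F] in
theorem surj6_cyc {E : Type} [Field E] [Algebra F E]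
    {c : ℙ (AlgebraicClosure E) (Fin 6 → AlgebraicClosure E) →₀ ℤ} :
    c ∈ cyc0 (AlgebraicClosure E) (hE E (Pl A B)) ↔
      c ∈ cyc0 (AlgebraicClosure E) (Pl (A.map (algebraMap F E)) (B.map (algebraMap F E))) := by
  rw [Ts.hE_Pl]

/-- Two tensors over different fields of the same degree give a zero-cycle of degree `0` over `F`.
Proof: as `Ts.exists_cyc` (`Ts/Conc.lean`). -/
theorem exists_cyc2 (hh : ∀ j, ∃ d, (Pl A B j).IsHomogeneous d) {M M' : Type} [Field M]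
    [Algebra F M] [FiniteDimensional F M] [Field M'] [Algebra F M'] [FiniteDimensional F M']
    (hd : Module.finrank F M = Module.finrank F M') {a b : M} (hab : a ≠ 0 ∨ b ≠ 0) {a' b' : M'}
    (hab' : a' ≠ 0 ∨ b' ≠ 0) {t : ℙ M (Fin (6 * 6) → M)} {t' : ℙ M' (Fin (6 * 6) → M')}
    (ht : IsM A B a b t) (ht' : IsM A B a' b' t') :
    ∃ c : Z1 F (Pl A B), ∀ (E : Type) [Field E] [Algebra F E],
      (bcZ E hh c).1 = ∑ σ : M →ₐ[F] AlgebraicClosure E, Ph (mapPt (σ : M →+* _) t) -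
        ∑ σ : M' →ₐ[F] AlgebraicClosure E, Ph (mapPt (σ : M' →+* _) t') := by
  have : CharZero M := charZero_of_injective_algebraMap (algebraMap F M).injective
  have : CharZero M' := charZero_of_injective_algebraMap (algebraMap F M').injective
  obtain ⟨q, y, hL⟩ := ht
  obtain ⟨p, x, hL1, hp, -⟩ := hL.exists_np
  have hT := hL1.isT hab hp
  obtain ⟨q', y', hL'⟩ := ht'
  obtain ⟨p', x', hL1', hp', -⟩ := hL'.exists_np
  have hT' := hL1'.isT hab' hp'
  have h1 := Ts.PhL_mem (F := F) (Ω := AlgebraicClosure F) hT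
  have h2 := Ts.PhL_mem (F := F) (Ω := AlgebraicClosure F) hT'
  have h3 : PhL (trPt F (AlgebraicClosure F) t) - PhL (trPt F (AlgebraicClosure F) t') ∈
      D0 F (Pl A B) := by
    refine AddSubgroup.mem_inf.2 ⟨sub_mem h1.1 h2.1, ?_⟩
    rw [AddMonoidHom.mem_ker, map_sub, h1.2, h2.2, hd, sub_self]
  refine ⟨⟨_, h3⟩, fun E _ _ => ?_⟩
  have h4 := Ts.bc_PhL (emb' F E) hT
  have h5 := Ts.bc_PhL (emb' F E) hT'
  have h6 := map_sub (bc (N := 6) (emb' F E)) (PhL (trPt F (AlgebraicClosure F) t))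
    (PhL (trPt F (AlgebraicClosure F) t'))
  rw [h4, h5] at h6
  exact h6

/-- The local data at one finite place: a class of degree `0` is a difference of two data of every large
even degree. Proof: `exists_nuP`, `pad_iso` with `iso_FK`, `LcV.atom_of`, `LcV.exists_rep`; smoothness
over the completion by `Ts.sm_ext`. -/
theorem rep_FK (hs : ∀ x : Fin 6 → AlgebraicClosure F, x ≠ 0 → Zer (Pl A B) (AlgebraicClosure F) x →
      LinearIndependent (AlgebraicClosure F) fun (i : Fin 2) (j : Fin 6) =>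
        MvPolynomial.aeval x (MvPolynomial.pderiv j (Pl A B i)))
    (v : HeightOneSpectrum (𝓞 F)) (z : Z1 (FK F v) (hE (FK F v) (Pl A B))) :
    ∃ N₀ : ℕ, ∀ N, N₀ ≤ N → Even N → ∃ (P₁ P₂ : Polynomial (FK F v))
      (z₁ z₂ : ℙ (AlgebraicClosure (FK F v)) (Fin 6 → AlgebraicClosure (FK F v)) →₀ ℤ),
      P₁.natDegree = N ∧ P₂.natDegree = N ∧
      Dat (A.map (algebraMap F (FK F v))) (B.map (algebraMap F (FK F v))) P₁ z₁ ∧
      Dat (A.map (algebraMap F (FK F v))) (B.map (algebraMap F (FK F v))) P₂ z₂ ∧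
      z.1 - (z₁ - z₂) ∈ ratEq (AlgebraicClosure (FK F v)) (hE (FK F v) (Pl A B)) := by
  have : CharZero (FK F v) :=
    charZero_of_injective_algebraMap (algebraMap F (FK F v)).injective
  have hsK : Sm (AlgebraicClosure (FK F v)) (A.map (algebraMap F (FK F v)))
      (B.map (algebraMap F (FK F v))) :=
    Ts.sm_ext A B hs (FK F v) (AlgebraicClosure (FK F v)) (algebraMap F (FK F v))
  obtain ⟨ν, hν⟩ := exists_nuP F v
  obtain ⟨M, _, _, _, a, b, t, h2, hnd, ht⟩ := pad_iso hsK le_rfl (iso_FK F v).1 (iso_FK F v).2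
  have hat := hν.lc.atom_of hsK le_rfl hnd ht
  rw [h2] at hat
  have hz : z.1 ∈ cyc0 (AlgebraicClosure (FK F v)) (Pl (A.map (algebraMap F (FK F v)))
      (B.map (algebraMap F (FK F v)))) := surj6_cyc.1 z.2
  obtain ⟨N₀, hN₀⟩ := hν.lc.exists_rep hsK le_rfl hat z.1 hz
  refine ⟨N₀, fun N hN hev => ?_⟩
  obtain ⟨P₁, P₂, z₁, z₂, e1, e2, e3, e4, e5⟩ := hN₀ N hN hev
  exact ⟨P₁, P₂, z₁, z₂, e1, e2, e3, e4, surj6_rat.2 e5⟩

/-- The same at a real place. Proof: `exists_nuR`, `finrank_IK`, `pad_closed`, `LcV.atom_of`,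
`LcV.exists_rep`. -/
theorem rep_IK (hs : ∀ x : Fin 6 → AlgebraicClosure F, x ≠ 0 → Zer (Pl A B) (AlgebraicClosure F) x →
      LinearIndependent (AlgebraicClosure F) fun (i : Fin 2) (j : Fin 6) =>
        MvPolynomial.aeval x (MvPolynomial.pderiv j (Pl A B i)))
    (v : InfinitePlace F) (hv : v.IsReal) (z : Z1 (IK F v) (hE (IK F v) (Pl A B))) :
    ∃ N₀ : ℕ, ∀ N, N₀ ≤ N → Even N → ∃ (P₁ P₂ : Polynomial (IK F v))
      (z₁ z₂ : ℙ (AlgebraicClosure (IK F v)) (Fin 6 → AlgebraicClosure (IK F v)) →₀ ℤ),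
      P₁.natDegree = N ∧ P₂.natDegree = N ∧
      Dat (A.map (algebraMap F (IK F v))) (B.map (algebraMap F (IK F v))) P₁ z₁ ∧
      Dat (A.map (algebraMap F (IK F v))) (B.map (algebraMap F (IK F v))) P₂ z₂ ∧
      z.1 - (z₁ - z₂) ∈ ratEq (AlgebraicClosure (IK F v)) (hE (IK F v) (Pl A B)) := by
  have : CharZero (IK F v) :=
    charZero_of_injective_algebraMap (algebraMap F (IK F v)).injective
  have hsK : Sm (AlgebraicClosure (IK F v)) (A.map (algebraMap F (IK F v)))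
      (B.map (algebraMap F (IK F v))) :=
    Ts.sm_ext A B hs (IK F v) (AlgebraicClosure (IK F v)) (algebraMap F (IK F v))
  obtain ⟨ν, hν⟩ := exists_nuR F v hv
  have h2 := finrank_IK F v hv
  have hfd : FiniteDimensional (IK F v) (AlgebraicClosure (IK F v)) :=
    Module.finite_of_finrank_pos (by rw [h2]; exact Nat.zero_lt_two)
  obtain ⟨a, b, t, hnd, ht⟩ := pad_closed hsK le_rfl (AlgebraicClosure (IK F v))
  have hat := hν.lc.atom_of hsK le_rfl hnd ht
  rw [h2] at hat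
  have hz : z.1 ∈ cyc0 (AlgebraicClosure (IK F v)) (Pl (A.map (algebraMap F (IK F v)))
      (B.map (algebraMap F (IK F v)))) := surj6_cyc.1 z.2
  obtain ⟨N₀, hN₀⟩ := hν.lc.exists_rep hsK le_rfl hat z.1 hz
  refine ⟨N₀, fun N hN hev => ?_⟩
  obtain ⟨P₁, P₂, z₁, z₂, e1, e2, e3, e4, e5⟩ := hN₀ N hN hev
  exact ⟨P₁, P₂, z₁, z₂, e1, e2, e3, e4, surj6_rat.2 e5⟩

/-- **Surjectivity.** Proof. `S` from `exists_S`, enlarged to be nonempty. Representatives of the classes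
at `v ∈ S` and at the real places, `rep_FK`, `rep_IK`; a common even `N ≥ 1`; `exists_glob` for the `P₁`
and for the `P₂`; `exists_cyc2`. At `v ∈ S` the class of the cycle is the given one; at `v ∉ S` the group
is trivial (`TgAll.G1`); at the complex places too (`sub_G1b`, see `Ts.exists_one`). -/
theorem dl_surj (hs : ∀ x : Fin 6 → AlgebraicClosure F, x ≠ 0 →
      Zer (Pl A B) (AlgebraicClosure F) x →
      LinearIndependent (AlgebraicClosure F) fun (i : Fin 2) (j : Fin 6) =>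
        MvPolynomial.aeval x (MvPolynomial.pderiv j (Pl A B i)))
    (hh : ∀ j, ∃ d, (Pl A B j).IsHomogeneous d) :
    Function.Surjective (dl (h := Pl A B) hh) := by
  classical
  rintro ⟨y₁, y₂⟩
  have hsF : Sm (AlgebraicClosure F) A B := by
    have h := Ts.sm_ext A B hs F (AlgebraicClosure F) (RingHom.id F)
    have e : ∀ H : Matrix (Fin 6) (Fin 6) F, H.map (RingHom.id F) = H := fun H => rfl
    rwa [e, e] at h
  obtain ⟨v₀⟩ : Nonempty (HeightOneSpectrum (𝓞 F)) := by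
    obtain ⟨I, hI⟩ := Ideal.exists_maximal (𝓞 F)
    exact ⟨⟨I, hI.isPrime, Ring.ne_bot_of_isMaximal_of_not_isField hI
      (RingOfIntegers.not_isField F)⟩⟩
  obtain ⟨S₀, hS₀⟩ := exists_S F le_rfl hsF
  obtain ⟨S, hSne, hS⟩ : ∃ S : Finset (HeightOneSpectrum (𝓞 F)), S.Nonempty ∧
      ∀ v ∉ S, TgAll F A B v :=
    ⟨insert v₀ S₀, Finset.insert_nonempty _ _, fun v hv =>
      hS₀ v fun h => hv (Finset.mem_insert_of_mem h)⟩
  have hz1 : ∀ v, ∃ z : Z1 (FK F v) (hE (FK F v) (Pl A B)), G1.cls z = y₁ v := fun v =>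
    Quotient.exists_rep _
  have hz2 : ∀ v, ∃ z : Z1 (IK F v) (hE (IK F v) (Pl A B)), G1b.cls z = y₂ v := fun v =>
    Quotient.exists_rep _
  choose z1 hz1 using hz1
  choose z2 hz2 using hz2
  choose N1 hN1 using fun v => rep_FK hs v (z1 v)
  have hN2 : ∀ v : InfinitePlace F, ∃ N₀ : ℕ, v.IsReal → ∀ N, N₀ ≤ N → Even N →
      ∃ (P₁ P₂ : Polynomial (IK F v))
      (w₁ w₂ : ℙ (AlgebraicClosure (IK F v)) (Fin 6 → AlgebraicClosure (IK F v)) →₀ ℤ),
      P₁.natDegree = N ∧ P₂.natDegree = N ∧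
      Dat (A.map (algebraMap F (IK F v))) (B.map (algebraMap F (IK F v))) P₁ w₁ ∧
      Dat (A.map (algebraMap F (IK F v))) (B.map (algebraMap F (IK F v))) P₂ w₂ ∧
      (z2 v).1 - (w₁ - w₂) ∈ ratEq (AlgebraicClosure (IK F v)) (hE (IK F v) (Pl A B)) := by
    intro v
    by_cases hv : v.IsReal
    · obtain ⟨N₀, h⟩ := rep_IK hs v hv (z2 v)
      exact ⟨N₀, fun _ => h⟩
    · exact ⟨0, fun h => absurd h hv⟩
  choose N2 hN2 using hN2
  obtain ⟨N, hN0, hNev, hNS, hNR⟩ : ∃ N : ℕ, 1 ≤ N ∧ Even N ∧ (∀ v ∈ S, N1 v ≤ N) ∧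
      ∀ v, N2 v ≤ N := by
    refine ⟨2 * (∑ v ∈ S, N1 v + ∑ v, N2 v + 1), by omega, even_two_mul _, fun v hv => ?_,
      fun v => ?_⟩
    · have h1 : N1 v ≤ ∑ v ∈ S, N1 v := Finset.single_le_sum (fun _ _ => Nat.zero_le _) hv
      omega
    · have h1 : N2 v ≤ ∑ v, N2 v :=
        Finset.single_le_sum (fun _ _ => Nat.zero_le _) (Finset.mem_univ v)
      omega
  have hfam1 : ∀ v : HeightOneSpectrum (𝓞 F), ∃ (P₁ P₂ : Polynomial (FK F v))
      (w₁ w₂ : ℙ (AlgebraicClosure (FK F v)) (Fin 6 → AlgebraicClosure (FK F v)) →₀ ℤ), v ∈ S →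
      P₁.natDegree = N ∧ P₂.natDegree = N ∧
      Dat (A.map (algebraMap F (FK F v))) (B.map (algebraMap F (FK F v))) P₁ w₁ ∧
      Dat (A.map (algebraMap F (FK F v))) (B.map (algebraMap F (FK F v))) P₂ w₂ ∧
      (z1 v).1 - (w₁ - w₂) ∈ ratEq (AlgebraicClosure (FK F v)) (hE (FK F v) (Pl A B)) := by
    intro v
    by_cases hv : v ∈ S
    · obtain ⟨P₁, P₂, w₁, w₂, h⟩ := hN1 v N (hNS v hv) hNev
      exact ⟨P₁, P₂, w₁, w₂, fun _ => h⟩
    · exact ⟨0, 0, 0, 0, fun h => absurd h hv⟩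
  have hfam2 : ∀ v : InfinitePlace F, ∃ (P₁ P₂ : Polynomial (IK F v))
      (w₁ w₂ : ℙ (AlgebraicClosure (IK F v)) (Fin 6 → AlgebraicClosure (IK F v)) →₀ ℤ),
      v.IsReal → P₁.natDegree = N ∧ P₂.natDegree = N ∧
      Dat (A.map (algebraMap F (IK F v))) (B.map (algebraMap F (IK F v))) P₁ w₁ ∧
      Dat (A.map (algebraMap F (IK F v))) (B.map (algebraMap F (IK F v))) P₂ w₂ ∧
      (z2 v).1 - (w₁ - w₂) ∈ ratEq (AlgebraicClosure (IK F v)) (hE (IK F v) (Pl A B)) := by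
    intro v
    by_cases hv : v.IsReal
    · obtain ⟨P₁, P₂, w₁, w₂, h⟩ := hN2 v hv N (hNR v) hNev
      exact ⟨P₁, P₂, w₁, w₂, fun _ => h⟩
    · exact ⟨0, 0, 0, 0, fun h => absurd h hv⟩
  choose P1 P2 u1 u2 hP using hfam1
  choose Q1 Q2 w1 w2 hQ using hfam2
  obtain ⟨M, _, _, _, α, t, hM, ht, ht1, ht2⟩ := exists_glob hsF S hSne hS hN0 (exists_nuP F)
    (exists_nuR F) P1 Q1 u1 w1 (fun v hv => ⟨(hP v hv).1, (hP v hv).2.2.1⟩)
    (fun v hv => ⟨(hQ v hv).1, (hQ v hv).2.2.1⟩)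
  obtain ⟨M', _, _, _, α', t', hM', ht', ht1', ht2'⟩ := exists_glob hsF S hSne hS hN0
    (exists_nuP F) (exists_nuR F) P2 Q2 u2 w2 (fun v hv => ⟨(hP v hv).2.1, (hP v hv).2.2.2.1⟩)
    (fun v hv => ⟨(hQ v hv).2.1, (hQ v hv).2.2.2.1⟩)
  obtain ⟨c, hc⟩ := exists_cyc2 hh (hM.trans hM'.symm) (Or.inl one_ne_zero) (Or.inl one_ne_zero)
    ht ht'
  refine ⟨G1.cls c, Prod.ext (funext fun v => ?_) (funext fun v => ?_)⟩
  · change dl1 (FK F v) hh (G1.cls c) = y₁ v
    by_cases hv : v ∈ S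
    · rw [dl1_cls, ← hz1 v]
      refine surj6_eq ?_
      have h1 := sub_mem (sub_mem (ht1 v hv) (ht1' v hv)) (surj6_rat.1 (hP v hv).2.2.2.2)
      rw [hc]
      refine surj6_rat.2 ?_
      convert h1 using 1
      abel
    · have h1 : Subsingleton (G1 (FK F v) (hE (FK F v) (Pl A B))) := (hS v hv).G1 le_rfl hs
      exact Subsingleton.elim _ _
  · change dl1b (IK F v) hh (G1.cls c) = y₂ v
    by_cases hv : v.IsReal
    · rw [dl1b_cls, ← hz2 v]
      refine surj6_eqb ?_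
      have h1 := sub_mem (sub_mem (ht2 v hv) (ht2' v hv)) (surj6_rat.1 (hQ v hv).2.2.2.2)
      rw [hc]
      refine surj6_rat.2 ?_
      convert h1 using 1
      abel
    · have h1 := (sub_G1b (A := fun i : Fin 0 => (i.elim0 : Matrix (Fin 0) (Fin 0)
        (MvPolynomial (Fin 6) F))) hh v (Or.inl (InfinitePlace.not_isReal_iff_isComplex.1 hv))).1
      exact Subsingleton.elim _ _

end Dp
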