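import Pool.Agent.Lib.MP_f80667_ag.Dp.Surj

/-! Smooth intersections of two quadrics in at least `6` variables over number fields. -/

open scoped LinearAlgebra.Projectivization
open NumberField IsDedekindDomain

namespace Dp

open ZC Tq

/-- Smoothness over the algebraic closure, in terms of the matrices. -/
theorem sm_closure {F : Type} [Field F] [NumberField F] {n : ℕ} (A B : Matrix (Fin n) (Fin n) F)
    (hs : ∀ x : Fin n → AlgebraicClosure F, x ≠ 0 → Zer (Pl A B) (AlgebraicClosure F) x →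
      LinearIndependent (AlgebraicClosure F) fun (i : Fin 2) (j : Fin n) =>
        MvPolynomial.aeval x (MvPolynomial.pderiv j (Pl A B i))) :
    Sm (AlgebraicClosure F) A B := by
  have h := Ts.sm_ext A B hs F (AlgebraicClosure F) (RingHom.id F)
  have e : ∀ H : Matrix (Fin n) (Fin n) F, H.map (RingHom.id F) = H := fun H => rfl
  rwa [e, e] at h

/-- Proof: `Ts.q1` for `n ≥ 7`; for `n = 6` `exists_mat`, `dl_surj`, `Ts.imD_of_surj`, and for the finite
places outside of a finite set `exists_S`, `TgAll.G1`. -/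
theorem q1 (F : Type) [Field F] [NumberField F] {n : ℕ} (hn : 6 ≤ n)
    (f : Fin 2 → MvPolynomial (Fin n) F) (hf : ∀ i, (f i).IsHomogeneous 2)
    (hs : ∀ x : Fin n → AlgebraicClosure F, x ≠ 0 → Zer f (AlgebraicClosure F) x →
      LinearIndependent (AlgebraicClosure F)
        fun (i : Fin 2) (j : Fin n) => MvPolynomial.aeval x (MvPolynomial.pderiv j (f i)))
    (hh : ∀ j, ∃ d, (f j).IsHomogeneous d) :
    Function.Surjective (dl (h := f) hh) ∧
    (∃ S : Finset (HeightOneSpectrum (𝓞 F)), (7 ≤ n → S = ∅) ∧ ∀ v ∉ S,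
      Subsingleton (G1 (FK F v) (hE (FK F v) f))) ∧ ∀ z : LHat (FA f), ImD hh z := by
  obtain ⟨A, hA⟩ := exists_mat (f 0) (hf 0)
  obtain ⟨B, hB⟩ := exists_mat (f 1) (hf 1)
  have hfP : f = Pl A B := by
    funext i
    fin_cases i
    · exact hA
    · exact hB
  subst hfP
  rcases Nat.lt_or_ge 6 n with h7 | h6
  · have hd := Ts.dl_surj (A := A) (B := B) h7 hs hh
    exact ⟨hd, ⟨∅, fun _ => rfl, fun v _ => F1_adic F v (Pl A B) hf h7 hs⟩,
      Ts.imD_of_surj hh hd⟩
  · obtain rfl : n = 6 := le_antisymm h6 hn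
    have hd := dl_surj (A := A) (B := B) hs hh
    obtain ⟨S, hS⟩ := exists_S F le_rfl (sm_closure A B hs)
    exact ⟨hd, ⟨S, fun h => absurd h (by norm_num), fun v hv => (hS v hv).G1 le_rfl hs⟩,
      Ts.imD_of_surj hh hd⟩

end Dp
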