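import Pool.Agent.Lib.MP_f80667_ag.Dp.InsP
import Pool.Agent.Lib.MP_f80667_ag.Dp.InsR
import Pool.Agent.Lib.MP_f80667_ag.Hm.WA

/-! Irreducible polynomials over a number field near given local polynomials. -/

open NumberField IsDedekindDomain Polynomial

namespace Dp

open ZC

variable (F : Type) [Field F] [NumberField F]

/-- The value group is discrete. -/
private theorem wap_le {x : WithZero (Multiplicative ℤ)} (h : x < 1) :
    x ≤ WithZero.exp (-1 : ℤ) := by
  rcases eq_or_ne x 0 with rfl | hx
  · exact bot_le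
  · obtain ⟨a, rfl⟩ : ∃ a : ℤ, x = WithZero.exp a := ⟨WithZero.log x, (WithZero.exp_log hx).symm⟩
    rw [← WithZero.exp_zero, WithZero.exp_lt_exp] at h
    rw [WithZero.exp_le_exp]
    omega

/-- Eisenstein's criterion at a place. Proof: `P` has coefficients in the valuation ring of `v` in `F`
(a local ring with fraction field `F`; `Polynomial.irreducible_of_eisenstein_criterion`,
`Polynomial.Monic.irreducible_iff_irreducible_map_fraction_map`), or directly over
`v.adicCompletionIntegers F`. -/
theorem irr_of_eis (v : HeightOneSpectrum (𝓞 F)) (P : F[X]) (hP : P.Monic) (hN : 1 ≤ P.natDegree)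
    (h : ∀ i < P.natDegree, v.valuation F (P.coeff i) < 1)
    (h0 : v.valuation F (P.coeff 0) = WithZero.exp (-1 : ℤ)) : Irreducible P := by
  classical
  set A := (v.valuation F).valuationSubring with hA
  have hmem : (↑P.coeffs : Set F) ⊆ A.toSubring := by
    intro c hc
    rw [Finset.mem_coe, Polynomial.mem_coeffs_iff] at hc
    obtain ⟨i, hi, rfl⟩ := hc
    change v.valuation F (P.coeff i) ≤ 1
    rcases lt_or_eq_of_le (le_natDegree_of_mem_supp i hi) with h1 | h1
    · exact (h i h1).le
    · rw [h1, hP.coeff_natDegree, map_one]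
  set Q : A[X] := P.toSubring A.toSubring hmem with hQ
  have hQc : ∀ i, ((Q.coeff i : A) : F) = P.coeff i := fun i =>
    coeff_toSubring P A.toSubring hmem
  have hQd : Q.natDegree = P.natDegree := natDegree_toSubring P A.toSubring hmem
  have hQm : Q.Monic := (monic_toSubring P A.toSubring hmem).2 hP
  have hmax : ∀ a : A, a ∈ IsLocalRing.maximalIdeal A ↔ v.valuation F (a : F) < 1 := fun a =>
    Valuation.mem_maximalIdeal_iff _ _
  have hirr : Irreducible Q := by
    apply irreducible_of_eisenstein_criterion (P := IsLocalRing.maximalIdeal A)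
      (IsLocalRing.maximalIdeal.isMaximal A).isPrime
    · rw [hQm.leadingCoeff, hmax]
      simp
    · intro n hn
      rw [hmax, hQc]
      refine h n ?_
      rw [degree_eq_natDegree hQm.ne_zero, hQd] at hn
      exact_mod_cast hn
    · rw [degree_eq_natDegree hQm.ne_zero, hQd]
      exact_mod_cast hN
    · intro h1
      have h2 : ∀ a ∈ IsLocalRing.maximalIdeal A ^ 2,
          v.valuation F (a : F) ≤ WithZero.exp (-2 : ℤ) := by
        intro a ha
        rw [pow_two] at ha
        refine Submodule.mul_induction_on ha ?_ ?_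
        · intro x hx y hy
          rw [hmax] at hx hy
          have h3 := mul_le_mul' (wap_le hx) (wap_le hy)
          rw [← WithZero.exp_add] at h3
          change v.valuation F ((x : F) * (y : F)) ≤ _
          rw [map_mul]
          exact h3
        · intro x y hx hy
          change v.valuation F ((x : F) + (y : F)) ≤ _
          exact (Valuation.map_add _ _ _).trans (max_le hx hy)
      have h3 := h2 _ h1
      rw [hQc, h0, WithZero.exp_le_exp] at h3
      omega
    · exact hQm.isPrimitive
  have hmap : Q.map (algebraMap A F) = P := by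
    ext i
    rw [coeff_map]
    exact hQc i
  rw [← hmap]
  exact (hQm.irreducible_iff_irreducible_map_fraction_map).1 hirr


/-- A place over a prime number. -/
private theorem wap_prime (p : ℕ) (hpp : p.Prime) :
    ∃ w : HeightOneSpectrum (𝓞 F), (p : 𝓞 F) ∈ w.asIdeal := by
  have hpZ : Prime (p : ℤ) := Nat.prime_iff_prime_int.1 hpp
  have hmax : (Ideal.span {(p : ℤ)}).IsMaximal :=
    PrincipalIdealRing.isMaximal_of_irreducible hpZ.irreducible
  obtain ⟨Q, hQ, e⟩ := Ideal.exists_ideal_over_maximal_of_isIntegral (S := 𝓞 F)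
    (Ideal.span {(p : ℤ)}) (by
      rw [(RingHom.injective_iff_ker_eq_bot _).1
        (FaithfulSMul.algebraMap_injective ℤ (𝓞 F))]
      exact bot_le)
  have hpQ : ((p : ℕ) : 𝓞 F) ∈ Q := by
    have h1 : (p : ℤ) ∈ Q.comap (algebraMap ℤ (𝓞 F)) := by
      rw [e]
      exact Ideal.mem_span_singleton_self _
    rw [Ideal.mem_comap, map_natCast] at h1
    exact h1
  have hQ0 : Q ≠ ⊥ := by
    intro h0
    rw [h0, Ideal.mem_bot] at hpQ
    exact hpp.ne_zero (Nat.cast_eq_zero.1 hpQ)
  exact ⟨⟨Q, hQ.isPrime, hQ0⟩, hpQ⟩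

/-- A prime number larger than the norm of a prime ideal is not in it. -/
private theorem wap_not (p : ℕ) (hpp : p.Prime) (w : HeightOneSpectrum (𝓞 F))
    (h1 : Ideal.absNorm w.asIdeal < p) : (p : 𝓞 F) ∉ w.asIdeal := by
  intro hpQ
  have h3 : Ideal.absNorm w.asIdeal ≠ 0 := fun h => w.ne_bot (Ideal.absNorm_eq_zero_iff.1 h)
  have h4 : Nat.Coprime p (Ideal.absNorm w.asIdeal) :=
    Nat.coprime_of_lt_prime h3 h1 hpp
  have h5 := Ideal.absNorm_mem w.asIdeal
  obtain ⟨a, b, hab⟩ := (Nat.isCoprime_iff_coprime.2 h4)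
  apply w.isPrime.ne_top
  rw [Ideal.eq_top_iff_one]
  have h7 := congrArg (Int.castRingHom (𝓞 F)) hab
  rw [map_add, map_mul, map_mul, map_one, map_natCast, map_natCast] at h7
  rw [← h7]
  exact w.asIdeal.add_mem (w.asIdeal.mul_mem_left _ hpQ) (w.asIdeal.mul_mem_left _ h5)

/-- Infinitely many places. -/
theorem exists_notMem (S : Finset (HeightOneSpectrum (𝓞 F))) :
    ∃ v : HeightOneSpectrum (𝓞 F), v ∉ S := by
  obtain ⟨N, hN⟩ : ∃ N : ℕ, ∀ v ∈ S, Ideal.absNorm v.asIdeal ≤ N :=
    ⟨S.sup fun v => Ideal.absNorm v.asIdeal, fun v hv =>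
      Finset.le_sup (f := fun v : HeightOneSpectrum (𝓞 F) => Ideal.absNorm v.asIdeal) hv⟩
  obtain ⟨p, hp, hpp⟩ := Nat.exists_infinite_primes (N + 1)
  obtain ⟨w, hw⟩ := wap_prime F p hpp
  exact ⟨w, fun hmem => wap_not F p hpp w (lt_of_le_of_lt (hN w hmem) hp) hw⟩

end Dp
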