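import Pool.Agent.Lib.MP_f80667_ag.Dp.WaP
import Pool.Agent.Lib.MP_f80667_ag.Ts.Plc

/-! Irreducible polynomials near given local polynomials. -/

open NumberField IsDedekindDomain Polynomial

namespace Dp

open ZC

variable (F : Type) [Field F] [NumberField F]

/-- The identifications of the completion at a real place with the real numbers agree. -/
private theorem waq_abs (v : InfinitePlace F) (hv : v.IsReal) (e : IK F v ≃+* ℝ) (x : F) :
    |e (algebraMap F (IK F v) x)| = v x := by
  obtain ⟨e', he'⟩ := Ts.exists_e v hv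
  have h1 : ∀ y : IK F v, e y = e' y := by
    intro y
    have h2 : ((e.symm.trans e' : ℝ ≃+* ℝ) : ℝ →+* ℝ) = RingHom.id ℝ := Subsingleton.elim _ _
    have h3 : e' (e.symm (e y)) = e y := RingHom.congr_fun h2 (e y)
    rw [e.symm_apply_apply] at h3
    exact h3.symm
  rw [h1, he']

/-- An element near given local elements. Proof: `NuP.dense`, `NuP.small`, `NuR.real`, `Hm.wapr`: the
real embeddings of `F` correspond to the real places (`e.comp (algebraMap F (IK F v))`; different real
places give different embeddings: `Ts.emb_eq`, `Ts.exists_e` in `Ts/Plc.lean`). -/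
theorem exists_near (ν : ∀ v : HeightOneSpectrum (𝓞 F), AbsoluteValue (AlgebraicClosure (FK F v)) ℝ)
    (hν : ∀ v, NuP F v (ν v))
    (ν' : ∀ v : InfinitePlace F, AbsoluteValue (AlgebraicClosure (IK F v)) ℝ)
    (hν' : ∀ v, v.IsReal → NuR F v (ν' v)) (S : Finset (HeightOneSpectrum (𝓞 F)))
    (v₀ : HeightOneSpectrum (𝓞 F)) (hv₀ : v₀ ∉ S) (a₀ : F) (g₀ : WithZero (Multiplicative ℤ))
    (hg₀ : g₀ ≠ 0) (c : ∀ v : HeightOneSpectrum (𝓞 F), FK F v)
    (c' : ∀ v : InfinitePlace F, IK F v) {ε : ℝ} (hε : 0 < ε) :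
    ∃ x : F, v₀.valuation F (x - a₀) < g₀ ∧
      (∀ v ∈ S, ν v (algebraMap (FK F v) _ (algebraMap F (FK F v) x - c v)) < ε) ∧
      ∀ v, v.IsReal → ν' v (algebraMap (IK F v) _ (algebraMap F (IK F v) x - c' v)) < ε := by
  classical
  have hε2 : 0 < ε / 2 := half_pos hε
  choose y hy using fun v => (hν v).dense (c v) (ε / 2) hε2
  choose g hg0 hg using fun v => (hν v).small (ε / 2) hε2
  choose e he using fun v hv => (hν' v hv).real
  let φ : ∀ v : InfinitePlace F, v.IsReal → (F →+* ℝ) := fun v hv =>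
    ((e v hv : IK F v ≃+* ℝ) : IK F v →+* ℝ).comp (algebraMap F (IK F v))
  have hφ : ∀ v hv (x : F), |φ v hv x| = v x := fun v hv x => waq_abs F v hv (e v hv) x
  let r : (F →+* ℝ) → ℝ := fun ψ => if h : ∃ v : InfinitePlace F, ∃ hv : v.IsReal, φ v hv = ψ then
    e h.choose h.choose_spec.choose (c' h.choose) else 0
  have hr : ∀ v hv, r (φ v hv) = e v hv (c' v) := by
    intro v hv
    have h : ∃ w : InfinitePlace F, ∃ hw : w.IsReal, φ w hw = φ v hv := ⟨v, hv, rfl⟩
    have h1 : h.choose = v := (Ts.emb_eq _ _ _ _ (hφ _ h.choose_spec.choose) (hφ v hv)).1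
      h.choose_spec.choose_spec
    have h2 : ∀ w (hw : w.IsReal), w = v → e w hw (c' w) = e v hv (c' v) := by
      rintro w hw rfl
      rfl
    change (if h : ∃ w : InfinitePlace F, ∃ hw : w.IsReal, φ w hw = φ v hv then
      e h.choose h.choose_spec.choose (c' h.choose) else 0) = _
    rw [dif_pos h]
    exact h2 _ _ h1
  obtain ⟨x, hx1, hx2⟩ := Hm.wapr (insert v₀ S) (fun v => if v = v₀ then a₀ else y v) r
    (fun v => if v = v₀ then g₀ else g v) (fun v => by
      show (if v = v₀ then g₀ else g v) ≠ 0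
      split_ifs
      · exact hg₀
      · exact hg0 v) ε hε
  refine ⟨x, ?_, fun v hv => ?_, fun v hv => ?_⟩
  · have h := hx1 v₀ (Finset.mem_insert_self _ _)
    simpa using h
  · have hne : v ≠ v₀ := fun h => hv₀ (h ▸ hv)
    have h := hx1 v (Finset.mem_insert_of_mem hv)
    simp only [if_neg hne] at h
    have h1 := hg v (x - y v) h
    have h2 := hy v
    have h3 : algebraMap (FK F v) (AlgebraicClosure (FK F v)) (algebraMap F (FK F v) x - c v) =
        algebraMap (FK F v) _ (algebraMap F (FK F v) (x - y v)) +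
        algebraMap (FK F v) _ (algebraMap F (FK F v) (y v) - c v) := by
      rw [← map_add]
      congr 1
      rw [map_sub]
      ring
    rw [h3]
    calc _ ≤ _ + _ := (ν v).add_le _ _
      _ < ε / 2 + ε / 2 := add_lt_add h1 h2
      _ = ε := add_halves ε
  · have h := hx2 (φ v hv)
    rw [hr] at h
    rw [he v hv, map_sub]
    exact h

/-- **Irreducible polynomials near given local polynomials.** Proof: `exists_near` for every
coefficient, with `a₀ = 0`, `g₀ = 1` for the indices `1 ≤ i < N`, and for `i = 0` a uniformiser `a₀` at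
`v₀` and `g₀ = exp (-1)`; `irr_of_eis`. -/
theorem exists_poly
    (ν : ∀ v : HeightOneSpectrum (𝓞 F), AbsoluteValue (AlgebraicClosure (FK F v)) ℝ)
    (hν : ∀ v, NuP F v (ν v))
    (ν' : ∀ v : InfinitePlace F, AbsoluteValue (AlgebraicClosure (IK F v)) ℝ)
    (hν' : ∀ v, v.IsReal → NuR F v (ν' v)) (S : Finset (HeightOneSpectrum (𝓞 F))) {N : ℕ}
    (hN : 1 ≤ N) (P₀ : ∀ v : HeightOneSpectrum (𝓞 F), (FK F v)[X])
    (R₀ : ∀ v : InfinitePlace F, (IK F v)[X]) (hP : ∀ v ∈ S, (P₀ v).Monic ∧ (P₀ v).natDegree = N)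
    (hR : ∀ v, v.IsReal → (R₀ v).Monic ∧ (R₀ v).natDegree = N) {ε : ℝ} (hε : 0 < ε) :
    ∃ P : F[X], P.Monic ∧ P.natDegree = N ∧ Irreducible P ∧
      (∀ v ∈ S, ∀ i, ν v (algebraMap (FK F v) _
        ((P.map (algebraMap F (FK F v))).coeff i - (P₀ v).coeff i)) < ε) ∧
      ∀ v, v.IsReal → ∀ i, ν' v (algebraMap (IK F v) _
        ((P.map (algebraMap F (IK F v))).coeff i - (R₀ v).coeff i)) < ε := by
  classical
  obtain ⟨v₀, hv₀⟩ := exists_notMem F S
  obtain ⟨π, hπ⟩ := v₀.valuation_exists_uniformizer F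
  have hex : ∀ i : ℕ, ∃ x : F, v₀.valuation F (x - (if i = 0 then π else 0)) <
      (if i = 0 then WithZero.exp (-1 : ℤ) else 1) ∧
      (∀ v ∈ S, ν v (algebraMap (FK F v) _ (algebraMap F (FK F v) x - (P₀ v).coeff i)) < ε) ∧
      ∀ v, v.IsReal → ν' v (algebraMap (IK F v) _
        (algebraMap F (IK F v) x - (R₀ v).coeff i)) < ε := by
    intro i
    refine exists_near F ν hν ν' hν' S v₀ hv₀ (if i = 0 then π else 0)
      (if i = 0 then WithZero.exp (-1 : ℤ) else 1) ?_ (fun v => (P₀ v).coeff i)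
      (fun v => (R₀ v).coeff i) hε
    split_ifs
    · exact WithZero.exp_ne_zero
    · exact one_ne_zero
  choose x hx hxS hxR using hex
  set Q : F[X] := ∑ i ∈ Finset.range N, C (x i) * X ^ i with hQ
  have hQc : ∀ i, Q.coeff i = if i < N then x i else 0 := by
    intro i
    rw [hQ, finsetSum_coeff]
    simp only [coeff_C_mul, coeff_X_pow, mul_ite, mul_one, mul_zero]
    rw [Finset.sum_ite_eq]
    simp only [Finset.mem_range]
  have hQd : Q.degree < N := by
    rw [degree_lt_iff_coeff_zero]
    intro i hi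
    rw [hQc, if_neg (not_lt.2 hi)]
  have hPm : (X ^ N + Q).Monic := monic_X_pow_add hQd
  have hPd : (X ^ N + Q).natDegree = N := natDegree_eq_of_degree_eq_some (by
    rw [degree_add_eq_left_of_degree_lt (by rwa [degree_X_pow]), degree_X_pow])
  have hPc : ∀ i, (X ^ N + Q).coeff i = if i < N then x i else if i = N then 1 else 0 := by
    intro i
    rw [coeff_add, coeff_X_pow, hQc]
    split_ifs <;> first | (exfalso; omega) | simp
  refine ⟨X ^ N + Q, hPm, hPd, ?_, fun v hv i => ?_, fun v hv i => ?_⟩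
  · have h0 : v₀.valuation F (x 0) = WithZero.exp (-1 : ℤ) := by
      have h := hx 0
      simp only [if_true] at h
      rw [← hπ]
      rw [← hπ] at h
      exact Valuation.map_eq_of_sub_lt _ h
    have h1 : ∀ i, i ≠ 0 → v₀.valuation F (x i) < 1 := by
      intro i hi
      have h := hx i
      simpa [hi] using h
    refine irr_of_eis F v₀ _ hPm (by rw [hPd]; exact hN) ?_ ?_
    · intro i hi
      rw [hPd] at hi
      rw [hPc, if_pos hi]
      rcases eq_or_ne i 0 with rfl | h2
      · rw [h0, ← WithZero.exp_zero, WithZero.exp_lt_exp]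
        omega
      · exact h1 i h2
    · rw [hPc, if_pos (by omega), h0]
  · rw [coeff_map, hPc]
    obtain ⟨hm, hd⟩ := hP v hv
    rcases lt_trichotomy i N with h | h | h
    · rw [if_pos h]
      exact hxS i v hv
    · rw [if_neg (by omega), if_pos h, map_one, h, ← hd, hm.coeff_natDegree, sub_self, map_zero,
        map_zero]
      exact hε
    · rw [if_neg (by omega), if_neg (by omega), map_zero,
        coeff_eq_zero_of_natDegree_lt (by rw [hd]; exact h), sub_self, map_zero, map_zero]
      exact hε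
  · rw [coeff_map, hPc]
    obtain ⟨hm, hd⟩ := hR v hv
    rcases lt_trichotomy i N with h | h | h
    · rw [if_pos h]
      exact hxR i v hv
    · rw [if_neg (by omega), if_pos h, map_one, h, ← hd, hm.coeff_natDegree, sub_self, map_zero,
        map_zero]
      exact hε
    · rw [if_neg (by omega), if_neg (by omega), map_zero,
        coeff_eq_zero_of_natDegree_lt (by rw [hd]; exact h), sub_self, map_zero, map_zero]
      exact hε

end Dp
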