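import Pool.Agent.Lib.MP_f80667_ag.Dp.Rad
import Pool.Agent.Lib.MP_f80667_ag.Dp.Dens

/-!
A rational parametrisation of points of `X`, from a point `P` of `X` and a line tangent to `X` at `P`
on the member `(a, b)`: `pg` is a vector orthogonal to `P`, `px` a zero of the member orthogonal to
`P`, `pW` the second intersection of `X` and the line through `P` and `x`.
-/

namespace Dp

open ZC Tq

universe u

section alg

variable {k : Type*} [Field k] {n : ℕ} (A B H : Matrix (Fin n) (Fin n) k) {R : Type*} [CommRing R]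
  [Algebra k R]

/-- A vector orthogonal to `P`. -/
def pg (a b : R) (P w z : Fin n → R) : Fin n → R :=
  mB A B a b P w • z - mB A B a b P z • w

/-- A zero of the member. -/
def px (a b : R) (u g : Fin n → R) : Fin n → R :=
  mB A B a b u g • g - mQ A B a b g • u

/-- The second point of `X` on the line through `P` and `x`. -/
def pW (P x : Fin n → R) : Fin n → R := qv H x • P - bv H P x • x

/-- The parametrisation. -/
def Wf (a b : R) (P u w z : Fin n → R) : Fin n → R := pW H P (px A B a b u (pg A B a b P w z))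

variable {A B H}

theorem pg_perp (a b : R) (P w z : Fin n → R) : mB A B a b P (pg A B a b P w z) = 0 := by
  rw [pg, sub_eq_add_neg, ← neg_smul, mB_add_right, mB_smul_right, mB_smul_right]
  ring

/-- `pg` of a vector orthogonal to `P`. -/
theorem pg_of_perp {a b : R} {P w z : Fin n → R} (h : mB A B a b P z = 0) :
    pg A B a b P w z = mB A B a b P w • z := by
  rw [pg, h, zero_smul, sub_zero]

theorem px_zero {a b : R} {u : Fin n → R} (hu : mQ A B a b u = 0) (g : Fin n → R) :
    mQ A B a b (px A B a b u g) = 0 := by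
  rw [px, sub_eq_add_neg, ← neg_smul, mQ_lin, hu, mB_comm a b g u]
  ring

theorem px_perp {a b : R} {P u g : Fin n → R} (hu : mB A B a b P u = 0)
    (hg : mB A B a b P g = 0) : mB A B a b P (px A B a b u g) = 0 := by
  rw [px, sub_eq_add_neg, ← neg_smul, mB_add_right, mB_smul_right, mB_smul_right, hg, hu]
  ring

theorem px_smul (a b c : R) (u g : Fin n → R) :
    px A B a b u (c • g) = c ^ 2 • px A B a b u g := by
  rw [px, px, mB_smul_right, mQ_smul, smul_sub, smul_smul, smul_smul, smul_smul]
  congr 2
  ring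

theorem pW_smul (c : R) (P x : Fin n → R) : pW H P (c • x) = c ^ 2 • pW H P x := by
  rw [pW, pW, qv_smul, bv_smul_right, smul_sub, smul_smul, smul_smul, smul_smul]
  congr 2
  ring

theorem Wf_hom {S : Type*} [CommRing S] [Algebra k S] (f : R →ₐ[k] S) (a b : R)
    (P u w z : Fin n → R) :
    Wf A B H (f a) (f b) (fun i => f (P i)) (fun i => f (u i)) (fun i => f (w i))
      (fun i => f (z i)) = fun i => f (Wf A B H a b P u w z i) := by
  have hpg : pg A B (f a) (f b) (fun i => f (P i)) (fun i => f (w i)) (fun i => f (z i)) =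
      fun i => f (pg A B a b P w z i) := by
    funext i
    simp only [pg, mB_hom, Pi.sub_apply, Pi.smul_apply, smul_eq_mul, map_sub, map_mul]
  have hpx : ∀ g : Fin n → R, px A B (f a) (f b) (fun i => f (u i)) (fun i => f (g i)) =
      fun i => f (px A B a b u g i) := by
    intro g
    funext i
    simp only [px, mB_hom, mQ_hom, Pi.sub_apply, Pi.smul_apply, smul_eq_mul, map_sub, map_mul]
  have hpW : ∀ x : Fin n → R, pW H (fun i => f (P i)) (fun i => f (x i)) =
      fun i => f (pW H P x i) := by
    intro x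
    funext i
    simp only [pW, qv_hom, bv_hom, Pi.sub_apply, Pi.smul_apply, smul_eq_mul, map_sub, map_mul]
  rw [Wf, hpg, hpx, hpW]
  rfl

end alg

section field

variable {k : Type u} [Field k] [CharZero k] {n : ℕ} {A B H : Matrix (Fin n) (Fin n) k}
  {E : Type u} [Field E] [Algebra k E]

/-- The second point is on `X`. Proof: `qv H` and `mQ A B a b` vanish at `pW H P x` (`qv_lin`), and
`(a, b)` and `H` are independent since `mQ A B a b u = 0`, `qv H u ≠ 0`, `(a, b) ≠ 0`. -/
theorem pW_zer {a b : E} (hab : a ≠ 0 ∨ b ≠ 0) (hH : H = A ∨ H = B) {P u x : Fin n → E}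
    (hT : Tg A B a b P u) (hu : qv H u ≠ 0) (hx : mQ A B a b x = 0) (hPx : mB A B a b P x = 0) :
    Zer (Pl A B) E (pW H P x) := by
  have hq : ∀ G : Matrix (Fin n) (Fin n) k, qv G P = 0 → qv G (pW H P x) =
      -(qv H x * bv H P x * bv G P x) + bv H P x ^ 2 * qv G x := by
    intro G hG
    rw [pW, sub_eq_add_neg, ← neg_smul, qv_lin, hG]
    ring
  have hA := hq A hT.aP
  have hB := hq B hT.bP
  rw [zer_iff]
  have hsum : a * qv A (pW H P x) + b * qv B (pW H P x) = 0 := by
    rw [hA, hB]
    rw [mQ] at hx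
    rw [mB] at hPx
    linear_combination (-(qv H x * bv H P x)) * hPx + bv H P x ^ 2 * hx
  have hqu : a * qv A u + b * qv B u = 0 := hT.qu
  rcases hH with rfl | rfl
  · have h1 : qv H (pW H P x) = 0 := by
      rw [hA]
      ring
    refine ⟨h1, ?_⟩
    rw [h1, mul_zero, zero_add] at hsum
    refine (mul_eq_zero.1 hsum).resolve_left fun hb => ?_
    rw [hb, zero_mul, add_zero] at hqu
    rcases hab with ha | hb'
    · exact hu ((mul_eq_zero.1 hqu).resolve_left ha)
    · exact hb' hb
  · have h1 : qv H (pW H P x) = 0 := by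
      rw [hB]
      ring
    refine ⟨?_, h1⟩
    rw [h1, mul_zero, add_zero] at hsum
    refine (mul_eq_zero.1 hsum).resolve_left fun ha => ?_
    rw [ha, zero_mul, zero_add] at hqu
    rcases hab with ha' | hb
    · exact ha' ha
    · exact hu ((mul_eq_zero.1 hqu).resolve_left hb)

theorem Wf_zer {a b : E} (hab : a ≠ 0 ∨ b ≠ 0) (hH : H = A ∨ H = B) {P u : Fin n → E}
    (hT : Tg A B a b P u) (hu : qv H u ≠ 0) (w z : Fin n → E) :
    Zer (Pl A B) E (Wf A B H a b P u w z) := by
  refine pW_zer hab hH hT hu (px_zero hT.qu _) (px_perp ?_ (pg_perp _ _ _ _ _))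
  rw [mB, hT.aPu, hT.bPu]
  ring

end field

section fl

variable {k : Type u} [Field k] [CharZero k] {Ω : Type u} [Field Ω] [Algebra k Ω] [IsAlgClosed Ω]
  {n : ℕ} {A B H : Matrix (Fin n) (Fin n) k}

end fl

end Dp
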